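import Mathlib

/-!
# Equivariant Kuiper theorem: the proof

For finite dimensional Hilbert spaces `W a` (`a : ℕ`), the unitary group of the Hilbert sum of
countably many copies of each `W a` is contractible in the norm topology, equivariantly for the
conjugation action of the product of the unitary groups of the `W a` (`kuiper_abs`). Together with
the decomposition of the regular representation of a compact group into finite dimensional
invariant subspaces this gives the theorem for `L²(G) ⊗ ℓ²` (`contr_L2`).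
-/

namespace Pool.Agent.Helper110.Kuiper

open Filter Topology
open scoped ENNReal

noncomputable section

section Algebra

variable {R : Type*} [Ring R]

/-- Products of elements `1 + N` with `N² = 0`. -/
def Unip (R : Type*) [Ring R] : Submonoid R := Submonoid.closure {x : R | ∃ N, N * N = 0 ∧ x = 1 + N}

lemma unip_of {N : R} (h : N * N = 0) : 1 + N ∈ Unip R := Submonoid.subset_closure ⟨N, h, rfl⟩

lemma unip_of' {N : R} (h : N * N = 0) : 1 - N ∈ Unip R := by
  rw [sub_eq_add_neg]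
  exact unip_of (by rw [neg_mul_neg, h])

lemma unip_inv {x : R} (hx : x ∈ Unip R) : ∃ y ∈ Unip R, x * y = 1 ∧ y * x = 1 := by
  induction hx using Submonoid.closure_induction with
  | mem x hx =>
    obtain ⟨N, hN, rfl⟩ := hx
    refine ⟨1 - N, unip_of' hN, ?_, ?_⟩
    · rw [add_mul, mul_sub, mul_sub, hN]; simp
    · rw [sub_mul, mul_add, mul_add, hN]; simp
  | one => exact ⟨1, Submonoid.one_mem _, by simp, by simp⟩
  | mul x y _ _ ihx ihy =>
    obtain ⟨x', hx', h1, h2⟩ := ihx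
    obtain ⟨y', hy', h3, h4⟩ := ihy
    refine ⟨y' * x', Submonoid.mul_mem _ hy' hx', ?_, ?_⟩
    · rw [mul_assoc, ← mul_assoc y, h3, one_mul, h1]
    · rw [mul_assoc, ← mul_assoc x', h2, one_mul, h4]

/-- Matrices over `R` with respect to two orthogonal isometries. -/
def Mat (j js k ks a b c d : R) : R :=
  (1 - j * js - k * ks) + j * (a * js) + j * (b * ks) + k * (c * js) + k * (d * ks)

lemma mat_mul {j js k ks : R} (hjj : js * j = 1) (hkk : ks * k = 1) (hjk : js * k = 0)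
    (hkj : ks * j = 0) (a b c d a' b' c' d' : R) :
    Mat j js k ks a b c d * Mat j js k ks a' b' c' d'
      = Mat j js k ks (a * a' + b * c') (a * b' + b * d') (c * a' + d * c') (c * b' + d * d') := by
  have e1 : ∀ x, js * (j * x) = x := fun x => by rw [← mul_assoc, hjj, one_mul]
  have e2 : ∀ x, ks * (k * x) = x := fun x => by rw [← mul_assoc, hkk, one_mul]
  have e3 : ∀ x, js * (k * x) = 0 := fun x => by rw [← mul_assoc, hjk, zero_mul]
  have e4 : ∀ x, ks * (j * x) = 0 := fun x => by rw [← mul_assoc, hkj, zero_mul]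
  simp only [Mat, mul_add, add_mul, mul_sub, sub_mul, mul_assoc, e1, e2, e3, e4, mul_one, one_mul,
    mul_zero, zero_mul]
  abel

lemma mat_one (j js k ks : R) : Mat j js k ks 1 0 0 1 = 1 := by
  simp only [Mat, one_mul, zero_mul, mul_zero]
  abel

lemma mat_e12 {j js k ks : R} (hkj : ks * j = 0) (x : R) : Mat j js k ks 1 x 0 1 ∈ Unip R := by
  have h : Mat j js k ks 1 x 0 1 = 1 + j * (x * ks) := by
    simp only [Mat, one_mul, zero_mul, mul_zero]
    abel
  rw [h]
  apply unip_of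
  rw [mul_assoc, mul_assoc x, ← mul_assoc ks, hkj, zero_mul, mul_zero, mul_zero]

lemma mat_e21 {j js k ks : R} (hjk : js * k = 0) (x : R) : Mat j js k ks 1 0 x 1 ∈ Unip R := by
  have h : Mat j js k ks 1 0 x 1 = 1 + k * (x * js) := by
    simp only [Mat, one_mul, zero_mul, mul_zero]
    abel
  rw [h]
  apply unip_of
  rw [mul_assoc, mul_assoc x, ← mul_assoc js, hjk, zero_mul, mul_zero, mul_zero]

/-- Whitehead's lemma. -/
lemma whitehead {j js k ks : R} (hjj : js * j = 1) (hkk : ks * k = 1) (hjk : js * k = 0)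
    (hkj : ks * j = 0) {x y : R} (hxy : x * y = 1) (hyx : y * x = 1) :
    Mat j js k ks x 0 0 y ∈ Unip R := by
  have h : Mat j js k ks x 0 0 y
      = (Mat j js k ks 1 x 0 1 * Mat j js k ks 1 0 (-y) 1 * Mat j js k ks 1 x 0 1)
        * (Mat j js k ks 1 (-1) 0 1 * Mat j js k ks 1 0 1 1 * Mat j js k ks 1 (-1) 0 1) := by
    simp only [mat_mul hjj hkk hjk hkj]
    congr 1 <;> simp [hxy, hyx]
  rw [h]
  refine Submonoid.mul_mem _ (Submonoid.mul_mem _ (Submonoid.mul_mem _ ?_ ?_) ?_)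
    (Submonoid.mul_mem _ (Submonoid.mul_mem _ ?_ ?_) ?_)
  · exact mat_e12 hkj x
  · exact mat_e21 hjk _
  · exact mat_e12 hkj x
  · exact mat_e12 hkj _
  · exact mat_e21 hjk _
  · exact mat_e12 hkj _

/-- First step: an isometry `u s` is moved to `s`. -/
lemma step_one {u ui s sb s' sb' m : R} (hu : u * ui = 1) (hu' : ui * u = 1) (hs : sb * s = 1)
    (hs' : sb' * s' = 1) (hss : sb * s' = 0) (hss' : sb' * s = 0)
    (hm : m * (1 - (sb' * (u * s)) * (sb * (ui * s'))) = 1) :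
    ∃ g ∈ Unip R, ∃ w wi, w = g * u ∧ w * wi = 1 ∧ wi * w = 1 ∧ w * s = s := by
  set V := u * s with hV
  set Vs := sb * ui with hVs
  set d := sb' * V with hd
  set ds := Vs * s' with hds
  have hds' : sb * (ui * s') = ds := by rw [hds, hVs, mul_assoc]
  rw [hds'] at hm
  have hVV : Vs * V = 1 := by
    rw [hVs, hV, mul_assoc, ← mul_assoc ui, hu', one_mul, hs]
  set b := (1 - ds) * m with hb
  set a := 1 - b * d with ha
  set L := a * Vs + b * sb' with hL
  have hLV : L * V = 1 := by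
    rw [hL, add_mul, mul_assoc, hVV, mul_one, mul_assoc, ← hd, ha]
    abel
  have hLV' : L * s' = 1 := by
    rw [hL, add_mul, mul_assoc, ← hds, mul_assoc, hs', mul_one, ha, sub_mul, one_mul]
    have h1 : b * (1 - d * ds) = 1 - ds := by rw [hb, mul_assoc, hm, mul_one]
    rw [mul_sub, mul_one] at h1
    have h2 : b = 1 - ds + b * (d * ds) := by rw [← h1]; abel
    rw [mul_assoc]
    nth_rewrite 2 [h2]
    abel
  set X1 := (s' - V) * L with hX1
  have hX1sq : X1 * X1 = 0 := by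
    rw [hX1, mul_assoc, ← mul_assoc L, mul_sub, hLV, hLV', sub_self, zero_mul, mul_zero]
  have hX1V : (1 + X1) * V = s' := by
    rw [add_mul, one_mul, hX1, mul_assoc, hLV, mul_one]
    abel
  set X2 := (s - s') * (sb + sb') with hX2
  have h3 : (sb + sb') * (s - s') = 0 := by
    rw [add_mul, mul_sub, mul_sub, hs, hs', hss, hss']
    abel
  have hX2sq : X2 * X2 = 0 := by
    rw [hX2, mul_assoc, ← mul_assoc (sb + sb'), h3, zero_mul, mul_zero]
  have hX2s : (1 + X2) * s' = s := by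
    rw [add_mul, one_mul, hX2, mul_assoc, add_mul, hs', hss, zero_add, mul_one]
    abel
  refine ⟨(1 + X2) * (1 + X1), Submonoid.mul_mem _ (unip_of hX2sq) (unip_of hX1sq),
    (1 + X2) * (1 + X1) * u, ui * ((1 - X1) * (1 - X2)), rfl, ?_, ?_, ?_⟩
  · have e1 : (1 + X1) * (1 - X1) = 1 := by rw [add_mul, mul_sub, mul_sub, hX1sq]; simp
    have e2 : (1 + X2) * (1 - X2) = 1 := by rw [add_mul, mul_sub, mul_sub, hX2sq]; simp
    calc (1 + X2) * (1 + X1) * u * (ui * ((1 - X1) * (1 - X2)))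
        = (1 + X2) * ((1 + X1) * (u * ui) * (1 - X1)) * (1 - X2) := by simp only [mul_assoc]
      _ = 1 := by rw [hu, mul_one, e1, mul_one, e2]
  · have e1 : (1 - X1) * (1 + X1) = 1 := by rw [sub_mul, mul_add, mul_add, hX1sq]; simp
    have e2 : (1 - X2) * (1 + X2) = 1 := by rw [sub_mul, mul_add, mul_add, hX2sq]; simp
    calc ui * ((1 - X1) * (1 - X2)) * ((1 + X2) * (1 + X1) * u)
        = ui * ((1 - X1) * ((1 - X2) * (1 + X2)) * (1 + X1)) * u := by simp only [mul_assoc]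
      _ = 1 := by rw [e2, mul_one, e1, mul_one, hu']
  · rw [mul_assoc, ← hV, mul_assoc, hX1V, hX2s]

/-- Second step: the lower triangular part is removed. -/
lemma step_two {w wi s sb : R} (hw : w * wi = 1) (hw' : wi * w = 1) (hs : sb * s = 1)
    (hws : w * s = s) :
    ∃ g ∈ Unip R, ∃ x xi, x = g * w ∧ x * xi = 1 ∧ xi * x = 1 ∧ x * s = s ∧ sb * x = sb := by
  have hwis : wi * s = s := by
    calc wi * s = wi * (w * s) := by rw [hws]
      _ = s := by rw [← mul_assoc, hw', one_mul]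
  -- `q = s sb`, `e = 1 - q`
  set q := s * sb with hq
  have hqs : q * s = s := by rw [hq, mul_assoc, hs, mul_one]
  have hsbq : sb * q = sb := by rw [hq, ← mul_assoc, hs, one_mul]
  have hwq : w * q = q := by rw [hq, ← mul_assoc, hws]
  have hwiq : wi * q = q := by rw [hq, ← mul_assoc, hwis]
  have hqq : q * q = q := by rw [hq, mul_assoc, ← mul_assoc sb, hs, one_mul]
  have heq : (1 - q) * q = 0 := by rw [sub_mul, one_mul, hqq, sub_self]
  set Z := q * w * (1 - q) * wi with hZ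
  have hZZ : Z * Z = 0 := by
    calc Z * Z = q * w * ((1 - q) * (wi * q)) * w * (1 - q) * wi := by
          rw [hZ]; simp only [mul_assoc]
      _ = 0 := by rw [hwiq, heq]; simp
  have hZw : Z * w = q * w - q := by
    calc Z * w = q * w * (1 - q) * (wi * w) := by rw [hZ]; simp only [mul_assoc]
      _ = q * w - q * (w * q) := by rw [hw', mul_one, mul_sub, mul_one, mul_assoc q w q]
      _ = q * w - q := by rw [hwq, hqq]
  refine ⟨1 - Z, unip_of' hZZ, (1 - Z) * w, wi * (1 + Z), rfl, ?_, ?_, ?_, ?_⟩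
  · have e1 : (1 - Z) * (1 + Z) = 1 := by rw [sub_mul, mul_add, mul_add, hZZ]; simp
    calc (1 - Z) * w * (wi * (1 + Z)) = (1 - Z) * (w * wi) * (1 + Z) := by simp only [mul_assoc]
      _ = 1 := by rw [hw, mul_one, e1]
  · have e1 : (1 + Z) * (1 - Z) = 1 := by rw [add_mul, mul_sub, mul_sub, hZZ]; simp
    calc wi * (1 + Z) * ((1 - Z) * w) = wi * ((1 + Z) * (1 - Z)) * w := by simp only [mul_assoc]
      _ = 1 := by rw [e1, mul_one, hw']
  · have h1 : (1 - Z) * w = w - q * w + q := by rw [sub_mul, one_mul, hZw]; abel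
    rw [h1, add_mul, sub_mul, mul_assoc, hws, hqs]
    abel
  · have h1 : (1 - Z) * w = w - q * w + q := by rw [sub_mul, one_mul, hZw]; abel
    rw [h1, mul_add, mul_sub, ← mul_assoc, hsbq]
    abel

/-- Third step: the Eilenberg swindle. -/
lemma step_three {x y s sb t0 tb0 z zb r0 rb0 r1 rb1 : R} (ρ : R →+* R)
    (hxy : x * y = 1) (hyx : y * x = 1) (hs : sb * s = 1) (hxs : x * s = s) (hsx : sb * x = sb)
    (ht : tb0 * t0 = 1) (hz : zb * z = 1) (htz : tb0 * z = 0) (hzt : zb * t0 = 0)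
    (htz1 : t0 * tb0 + z * zb = 1)
    (hr0 : rb0 * r0 = 1) (hr1 : rb1 * r1 = 1) (hr01 : rb0 * r1 = 0) (hr10 : rb1 * r0 = 0)
    (hr : r0 * rb0 + r1 * rb1 = 1)
    (hρt : ∀ a, ρ a * t0 = t0 * a) (hρt' : ∀ a, tb0 * ρ a = a * tb0)
    (hρz : ∀ a, ρ a * z = z * ρ a) (hρz' : ∀ a, zb * ρ a = ρ a * zb) : x ∈ Unip R := by
  set q := s * sb with hq
  set e := 1 - q with he
  have hqq : q * q = q := by rw [hq, mul_assoc, ← mul_assoc sb, hs, one_mul]
  have hqs : q * s = s := by rw [hq, mul_assoc, hs, mul_one]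
  have hsbq : sb * q = sb := by rw [hq, ← mul_assoc, hs, one_mul]
  have hes : e * s = 0 := by rw [he, sub_mul, one_mul, hqs, sub_self]
  have hsbe : sb * e = 0 := by rw [he, mul_sub, mul_one, hsbq, sub_self]
  have hee : e * e = e := by
    rw [he, mul_sub, mul_one, sub_mul, one_mul, hqq, sub_self, sub_zero]
  have heq : e * q = 0 := by rw [he, sub_mul, one_mul, hqq, sub_self]
  have hqe : q * e = 0 := by rw [he, mul_sub, mul_one, hqq, sub_self]
  have hepq : e + q = 1 := by rw [he]; abel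
  have hxq : x * q = q := by rw [hq, ← mul_assoc, hxs]
  have hqx : q * x = q := by rw [hq, mul_assoc, hsx]
  have hex : e * x = x * e := by
    rw [he, sub_mul, mul_sub, one_mul, mul_one, hxq, hqx]
  -- the isometries
  set k0 := s * r0 with hk0
  set kb0 := rb0 * sb with hkb0
  set k1 := s * r1 with hk1
  set kb1 := rb1 * sb with hkb1
  have kk00 : kb0 * k0 = 1 := by
    rw [hkb0, hk0, mul_assoc, ← mul_assoc sb, hs, one_mul, hr0]
  have kk11 : kb1 * k1 = 1 := by
    rw [hkb1, hk1, mul_assoc, ← mul_assoc sb, hs, one_mul, hr1]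
  have kk01 : kb0 * k1 = 0 := by
    rw [hkb0, hk1, mul_assoc, ← mul_assoc sb, hs, one_mul, hr01]
  have kk10 : kb1 * k0 = 0 := by
    rw [hkb1, hk0, mul_assoc, ← mul_assoc sb, hs, one_mul, hr10]
  have hkq : k0 * kb0 + k1 * kb1 = q := by
    calc k0 * kb0 + k1 * kb1 = s * ((r0 * rb0 + r1 * rb1) * sb) := by
          rw [hk0, hkb0, hk1, hkb1]; simp only [mul_add, add_mul, mul_assoc]
      _ = q := by rw [hr, one_mul]
  set Y := ρ e * zb + ρ q with hY
  set Yb := z * ρ e + ρ q with hYb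
  set j := e * tb0 + k1 * Y with hj
  set jb := t0 * e + Yb * kb1 with hjb
  have hρee : ρ e * ρ e = ρ e := by rw [← map_mul, hee]
  have hρqq : ρ q * ρ q = ρ q := by rw [← map_mul, hqq]
  have hρeq : ρ e * ρ q = 0 := by rw [← map_mul, heq, map_zero]
  have hρqe : ρ q * ρ e = 0 := by rw [← map_mul, hqe, map_zero]
  have hρ1 : ρ e + ρ q = 1 := by rw [← map_add, hepq, map_one]
  have htYb : tb0 * Yb = q * tb0 := by
    rw [hYb, mul_add, ← mul_assoc, htz, zero_mul, zero_add, hρt']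
  have hYt : Y * t0 = t0 * q := by
    rw [hY, add_mul, mul_assoc, hzt, mul_zero, zero_add, hρt]
  have hekone : e * k1 = 0 := by rw [hk1, ← mul_assoc, hes, zero_mul]
  have hkbe : kb1 * e = 0 := by rw [hkb1, mul_assoc, hsbe, mul_zero]
  -- `Y ρ(a) Yb` for `a` commuting appropriately
  have hYY : Y * Yb = 1 := by
    have h1 : Y * Yb = ρ e * (zb * z) * ρ e + ρ e * (zb * ρ q) + (ρ q * z) * ρ e + ρ q * ρ q := by
      rw [hY, hYb]; simp only [mul_add, add_mul, mul_assoc]; abel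
    rw [h1, hz, mul_one, hρee, hρz', hρz, hρqq, ← mul_assoc, hρeq, zero_mul, mul_assoc, hρqe,
      mul_zero, add_zero, add_zero, hρ1]
  have hYbY : Yb * Y = 1 - t0 * e * tb0 := by
    have h1 : Yb * Y = z * (ρ e * ρ e) * zb + z * (ρ e * ρ q) + (ρ q * ρ e) * zb + ρ q * ρ q := by
      rw [hY, hYb]; simp only [mul_add, add_mul, mul_assoc]; abel
    rw [h1, hρee, hρeq, hρqe, hρqq, mul_zero, zero_mul, add_zero, add_zero]
    have h2 : z * ρ e * zb = ρ e * (z * zb) := by rw [← hρz, mul_assoc]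
    have h3 : z * zb = 1 - t0 * tb0 := by rw [← htz1]; abel
    rw [h2, h3, mul_sub, mul_one, ← mul_assoc, hρt]
    have h4 : ρ e = 1 - ρ q := by rw [← hρ1]; abel
    rw [h4]; abel
  have hjj : jb * j = 1 := by
    have h1 : jb * j = t0 * (e * e) * tb0 + t0 * (e * k1) * Y + Yb * (kb1 * e) * tb0
        + Yb * (kb1 * k1) * Y := by
      rw [hj, hjb]; simp only [mul_add, add_mul, mul_assoc]; abel
    rw [h1, hee, hekone, hkbe, kk11, mul_zero, zero_mul, mul_zero, zero_mul, mul_one, hYbY]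
    abel
  have hjjb : j * jb = e + k1 * kb1 := by
    have h1 : j * jb = e * (tb0 * t0) * e + e * (tb0 * Yb) * kb1 + k1 * (Y * t0) * e
        + k1 * (Y * Yb) * kb1 := by
      rw [hj, hjb]; simp only [mul_add, add_mul, mul_assoc]; abel
    rw [h1, ht, mul_one, hee, htYb, hYt, hYY, mul_one]
    have h2 : e * (q * tb0) = 0 := by rw [← mul_assoc, heq, zero_mul]
    have h3 : k1 * (t0 * q) * e = 0 := by
      rw [mul_assoc k1, mul_assoc t0, hqe, mul_zero, mul_zero]
    rw [h2, h3, zero_mul, add_zero, add_zero]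
  have hjk : jb * k0 = 0 := by
    have h1 : jb * k0 = t0 * (e * s) * r0 + Yb * (kb1 * k0) := by
      rw [hjb, hk0]; simp only [add_mul, mul_assoc]
    rw [h1, hes, kk10, mul_zero, zero_mul, mul_zero, add_zero]
  have hkj : kb0 * j = 0 := by
    have h1 : kb0 * j = rb0 * (sb * e) * tb0 + (kb0 * k1) * Y := by
      rw [hj, hkb0]; simp only [mul_add, mul_assoc]
    rw [h1, hsbe, kk01, mul_zero, zero_mul, zero_mul, add_zero]
  have hρxy : ρ x * ρ y = 1 := by rw [← map_mul, hxy, map_one]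
  have hρyx : ρ y * ρ x = 1 := by rw [← map_mul, hyx, map_one]
  -- the two Whitehead matrices
  have hD : Mat k0 kb0 k1 kb1 (ρ y) 0 0 (ρ x) ∈ Unip R := whitehead kk00 kk11 kk01 kk10 hρyx hρxy
  have hD' : Mat j jb k0 kb0 (ρ x) 0 0 (ρ y) ∈ Unip R := whitehead hjj kk00 hjk hkj hρxy hρyx
  have hxk0 : x * k0 = k0 := by rw [hk0, ← mul_assoc, hxs]
  have hxk1 : x * k1 = k1 := by rw [hk1, ← mul_assoc, hxs]
  have hYxY : Y * ρ x * Yb = ρ x := by
    have h1 : Y * ρ x * Yb = ρ e * (zb * ρ x) * z * ρ e + ρ e * (zb * (ρ x * ρ q))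
        + ((ρ q * ρ x) * z) * ρ e + ρ q * (ρ x * ρ q) := by
      rw [hY, hYb]; simp only [mul_add, add_mul, mul_assoc]; abel
    have e1 : ρ x * ρ q = ρ q := by rw [← map_mul, hxq]
    have e2 : ρ q * ρ x = ρ q := by rw [← map_mul, hqx]
    have e3 : ρ e * (ρ x * zb) * z * ρ e = ρ x * ρ e := by
      calc ρ e * (ρ x * zb) * z * ρ e = ρ e * ρ x * (zb * z) * ρ e := by simp only [mul_assoc]
        _ = ρ (e * x) * ρ e := by rw [hz, mul_one, map_mul]
        _ = ρ x * ρ e := by rw [hex, map_mul, mul_assoc, hρee]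
    rw [h1, e1, e2, hρz' x, e3, hρz' q, hρz q, hρqq, ← mul_assoc, hρeq, zero_mul, mul_assoc,
      hρqe, mul_zero, add_zero, add_zero]
    calc ρ x * ρ e + ρ q = ρ x * ρ e + ρ x * ρ q := by rw [e1]
      _ = ρ x := by rw [← mul_add, hρ1, mul_one]
  have hjxj : j * (ρ x * jb) = x * e + k1 * (ρ x * kb1) := by
    have h1 : j * (ρ x * jb) = e * ((tb0 * ρ x) * t0) * e + e * ((tb0 * ρ x) * Yb) * kb1
        + k1 * (Y * (ρ x * t0)) * e + k1 * (Y * ρ x * Yb) * kb1 := by
      rw [hj, hjb]; simp only [mul_add, add_mul, mul_assoc]; abel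
    have e1 : (tb0 * ρ x) * t0 = x := by rw [hρt', mul_assoc, ht, mul_one]
    have e2 : e * ((tb0 * ρ x) * Yb) = 0 := by
      rw [hρt', mul_assoc, htYb, ← mul_assoc, ← mul_assoc, hex, mul_assoc x, heq, mul_zero,
        zero_mul]
    have e3 : Y * (ρ x * t0) * e = 0 := by
      rw [hρt, ← mul_assoc, hYt, mul_assoc, mul_assoc, ← mul_assoc q, hqx, hqe, mul_zero]
    have e3' : k1 * (Y * (ρ x * t0)) * e = 0 := by rw [mul_assoc, e3, mul_zero]
    rw [h1, e1, e2, e3', hYxY, zero_mul, add_zero, add_zero, hex, mul_assoc, hee, mul_assoc]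
  have hmain : x * Mat k0 kb0 k1 kb1 (ρ y) 0 0 (ρ x) = Mat j jb k0 kb0 (ρ x) 0 0 (ρ y) := by
    have h1 : Mat k0 kb0 k1 kb1 (ρ y) 0 0 (ρ x) = e + k0 * (ρ y * kb0) + k1 * (ρ x * kb1) := by
      have : (1 : R) - k0 * kb0 - k1 * kb1 = e := by rw [he, ← hkq]; abel
      rw [Mat, this]
      simp
    have h2 : Mat j jb k0 kb0 (ρ x) 0 0 (ρ y) = j * (ρ x * jb) + k0 * (ρ y * kb0) := by
      have : (1 : R) - j * jb - k0 * kb0 = 0 := by
        rw [hjjb, he, ← hkq]; abel
      rw [Mat, this]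
      simp
    rw [h1, h2, hjxj, mul_add, mul_add, ← mul_assoc x k0, hxk0, ← mul_assoc x k1, hxk1]
    abel
  obtain ⟨D', hD'mem, hDD', -⟩ := unip_inv hD
  have : x = Mat j jb k0 kb0 (ρ x) 0 0 (ρ y) * D' := by
    rw [← hmain, mul_assoc, hDD', mul_one]
  rw [this]
  exact Submonoid.mul_mem _ hD' hD'mem

theorem factor {u ui s sb s' sb' m t0 tb0 z zb r0 rb0 r1 rb1 : R} (ρ : R →+* R)
    (hu : u * ui = 1) (hu' : ui * u = 1) (hs : sb * s = 1)
    (hs' : sb' * s' = 1) (hss : sb * s' = 0) (hss' : sb' * s = 0)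
    (hm : m * (1 - (sb' * (u * s)) * (sb * (ui * s'))) = 1)
    (ht : tb0 * t0 = 1) (hz : zb * z = 1) (htz : tb0 * z = 0) (hzt : zb * t0 = 0)
    (htz1 : t0 * tb0 + z * zb = 1)
    (hr0 : rb0 * r0 = 1) (hr1 : rb1 * r1 = 1) (hr01 : rb0 * r1 = 0) (hr10 : rb1 * r0 = 0)
    (hr : r0 * rb0 + r1 * rb1 = 1)
    (hρt : ∀ a, ρ a * t0 = t0 * a) (hρt' : ∀ a, tb0 * ρ a = a * tb0)
    (hρz : ∀ a, ρ a * z = z * ρ a) (hρz' : ∀ a, zb * ρ a = ρ a * zb) : u ∈ Unip R := by
  obtain ⟨g, hg, w, wi, hwg, hw1, hw2, hws⟩ := step_one hu hu' hs hs' hss hss' hm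
  obtain ⟨g', hg', x, xi, hxg, hx1, hx2, hxs, hsx⟩ := step_two hw1 hw2 hs hws
  have hx := step_three ρ hx1 hx2 hs hxs hsx ht hz htz hzt htz1 hr0 hr1 hr01 hr10 hr hρt hρt'
    hρz hρz'
  obtain ⟨gi, hgi, h1, h2⟩ := unip_inv hg
  obtain ⟨gi', hgi', h3, h4⟩ := unip_inv hg'
  have : u = gi * (gi' * x) := by
    rw [hxg, ← mul_assoc gi', h4, one_mul, hwg, ← mul_assoc, h2, one_mul]
  rw [this]
  exact Submonoid.mul_mem _ hgi (Submonoid.mul_mem _ hgi' hx)

end Algebra

section Select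

/-- Smallness of a set of indices with respect to a symmetric weight. -/
def Small (ω : ℕ × ℕ → ℕ × ℕ → ℝ≥0∞) (B : Set (ℕ × ℕ)) : Prop :=
  ∀ a : ℕ, Tendsto (fun n => ∑' k : B, ω k (a, n)) (hyperfilter ℕ : Filter ℕ) (𝓝 0)

lemma exists_rec {α : Type*} [Inhabited α] (Q : ℕ → (ℕ → α) → α → Prop)
    (hQ : ∀ m f g j, (∀ l < m, f l = g l) → Q m f j → Q m g j) (h : ∀ m f, ∃ j, Q m f j) :
    ∃ k : ℕ → α, ∀ m, Q m k (k m) := by
  classical
  let F : ∀ m : ℕ, (∀ l : ℕ, l < m → α) → α := fun m f =>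
    (h m (fun l => if hl : l < m then f l hl else default)).choose
  let k : ℕ → α := WellFounded.fix (C := fun _ : ℕ => α) Nat.lt_wfRel.wf F
  refine ⟨k, fun m => ?_⟩
  have h1 : k m = F m (fun l _ => k l) := WellFounded.fix_eq _ _ _
  have h2 := (h m (fun l => if l < m then k l else default)).choose_spec
  refine hQ m (fun l => if l < m then k l else default) k (k m) ?_ ?_
  · intro l hl
    simp [hl]
  · rw [h1]
    have h3 : F m (fun l _ => k l) = (h m (fun l => if l < m then k l else default)).choose := by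
      simp only [F]
    rw [h3]
    exact h2

/-- The code of the first `n` values of a branch. -/
def code (r : ℕ → Bool) (n : ℕ) : ℕ := Encodable.encode ((List.range n).map r)

/-- The level of a code. -/
def lvl (m : ℕ) : ℕ := ((Encodable.decode m : Option (List Bool)).getD []).length

lemma lvl_code (r : ℕ → Bool) (n : ℕ) : lvl (code r n) = n := by
  simp [lvl, code]

lemma code_inj (r : ℕ → Bool) : Function.Injective (code r) := fun a b h => by
  rw [← lvl_code r a, h, lvl_code]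

lemma code_eq {r r' : ℕ → Bool} {n n' : ℕ} (h : code r n = code r' n') :
    n = n' ∧ ∀ i < n, r i = r' i := by
  have h1 : n = n' := by rw [← lvl_code r n, h, lvl_code]
  subst h1
  refine ⟨rfl, fun i hi => ?_⟩
  have h2 : (List.range n).map r = (List.range n).map r' := Encodable.encode_injective h
  exact (List.map_inj_left.1 h2) i (List.mem_range.2 hi)

lemma half_sum : ∑' m : ℕ, ((2 : ℝ≥0∞)⁻¹) ^ (m + 1) = 1 := by
  have h : ∀ m : ℕ, ((2 : ℝ≥0∞)⁻¹) ^ (m + 1) = 2⁻¹ * (2⁻¹) ^ m := fun m => by rw [pow_succ, mul_comm]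
  simp_rw [h]
  rw [ENNReal.tsum_mul_left, ENNReal.tsum_geometric, ENNReal.one_sub_inv_two, inv_inv]
  exact ENNReal.inv_mul_cancel (by norm_num) (by norm_num)

lemma half_tail (P : ℕ) : ∑' m : ℕ, ((2 : ℝ≥0∞)⁻¹) ^ (m + 1 + P) = (2⁻¹) ^ P := by
  simp_rw [pow_add _ (_ + 1) P]
  rw [ENNReal.tsum_mul_right, half_sum, one_mul]

theorem select (ω : ℕ × ℕ → ℕ × ℕ → ℝ≥0∞) (hsymm : ∀ j k, ω j k = ω k j)
    (hω : ∀ k a, Tendsto (fun n : ℕ => ω k (a, n)) atTop (𝓝 0))
    (w : ℕ × ℕ → ℝ≥0∞)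
    (hw : ∀ a, Tendsto (fun n : ℕ => w (a, n)) (hyperfilter ℕ : Filter ℕ) (𝓝 0))
    (δ : ℝ≥0∞) (hδ : 0 < δ) :
    ∃ B : Set (ℕ × ℕ), (∀ a, {n | (a, n) ∈ B}.Infinite) ∧ ∑' j : B, w j ≤ δ ∧
      (∑' k : B, ∑' j : B, if (k : ℕ × ℕ) = j then 0 else ω k j) ≤ δ ∧ Small ω B := by
  classical
  have hpos : ∀ m : ℕ, (0 : ℝ≥0∞) < (2⁻¹) ^ m := fun m => ENNReal.pow_pos (by simp) m
  -- the sequence
  obtain ⟨k, hk⟩ := exists_rec (α := ℕ × ℕ) (fun m f j =>
      j.1 = (Nat.unpair (lvl m)).1 ∧ w j ≤ δ * (2⁻¹) ^ (m + 1) ∧ ∀ l < m, (f l).2 < j.2 ∧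
        ω (f l) j ≤ δ * ((2⁻¹) ^ (m + 1) * (2⁻¹) ^ (l + 1)) ∧
        ∀ a ≤ m, ∀ n : ℕ, (2⁻¹) ^ (l + 1) < ω (f l) (a, n) → ω j (a, n) ≤ (2⁻¹) ^ (m + 1))
    (by
      intro m f g j hfg ⟨h1, h2, h3⟩
      refine ⟨h1, h2, fun l hl => ?_⟩
      rw [← hfg l hl]
      exact h3 l hl)
    (by
      intro m f
      set b := (Nat.unpair (lvl m)).1
      have hU : (hyperfilter ℕ : Filter ℕ) ≤ atTop := by
        rw [← Nat.cofinite_eq_atTop]
        exact hyperfilter_le_cofinite
      have e1 : ∀ᶠ n in (hyperfilter ℕ : Filter ℕ), w (b, n) ≤ δ * (2⁻¹) ^ (m + 1) :=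
        (hw b).eventually_le_const (ENNReal.mul_pos hδ.ne' (hpos _).ne')
      have e2 : ∀ᶠ n in (hyperfilter ℕ : Filter ℕ), ∀ l < m, (f l).2 < n ∧
          ω (f l) (b, n) ≤ δ * ((2⁻¹) ^ (m + 1) * (2⁻¹) ^ (l + 1)) ∧
          ∀ a ≤ m, ∀ n' : ℕ, (2⁻¹) ^ (l + 1) < ω (f l) (a, n') →
            ω (b, n) (a, n') ≤ (2⁻¹) ^ (m + 1) := by
        have hfin : Set.Finite {l | l < m} := Set.finite_lt_nat m
        refine (eventually_all_finite hfin).2 fun l _ => ?_
        refine Filter.Eventually.and (hU (eventually_gt_atTop _)) (Filter.Eventually.and ?_ ?_)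
        · refine hU ((hω (f l) b).eventually_le_const ?_)
          exact ENNReal.mul_pos hδ.ne' (ENNReal.mul_pos (hpos _).ne' (hpos _).ne').ne'
        · refine (eventually_all_finite (Set.finite_le_nat m)).2 fun a _ => ?_
          have hf2 : Set.Finite {n' : ℕ | (2⁻¹) ^ (l + 1) < ω (f l) (a, n')} := by
            have := (hω (f l) a).eventually_le_const (hpos (l + 1))
            rw [← Nat.cofinite_eq_atTop, Filter.eventually_cofinite] at this
            refine this.subset fun n' hn' => ?_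
            exact not_le.2 hn'
          refine (eventually_all_finite hf2).2 fun n' _ => ?_
          refine hU ?_
          have := (hω (a, n') b).eventually_le_const (hpos (m + 1))
          filter_upwards [this] with n hn
          rw [hsymm]
          exact hn
      obtain ⟨n, h1, h2⟩ := (e1.and e2).exists
      exact ⟨(b, n), rfl, h1, h2⟩)
  have hktype : ∀ m, (k m).1 = (Nat.unpair (lvl m)).1 := fun m => (hk m).1
  have hkw : ∀ m, w (k m) ≤ δ * (2⁻¹) ^ (m + 1) := fun m => (hk m).2.1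
  have hkmono : ∀ l m, l < m → (k l).2 < (k m).2 := fun l m h => ((hk m).2.2 l h).1
  have hkinj : ∀ l m, (k l).2 = (k m).2 → l = m := by
    intro l m h
    rcases lt_trichotomy l m with h1 | h1 | h1
    · exact absurd h (hkmono _ _ h1).ne
    · exact h1
    · exact absurd h.symm (hkmono _ _ h1).ne
  have hkω : ∀ l m, l ≠ m → ω (k l) (k m) ≤ δ * ((2⁻¹) ^ (m + 1) * (2⁻¹) ^ (l + 1)) := by
    intro l m h
    rcases lt_or_gt_of_ne h with h1 | h1
    · exact ((hk m).2.2 l h1).2.1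
    · rw [hsymm, mul_comm ((2⁻¹ : ℝ≥0∞) ^ (m + 1))]
      exact ((hk l).2.2 m h1).2.1
  have hkD : ∀ l m, l < m → ∀ a ≤ m, ∀ n : ℕ, (2⁻¹) ^ (l + 1) < ω (k l) (a, n) →
      ω (k m) (a, n) ≤ (2⁻¹) ^ (m + 1) := fun l m h => ((hk m).2.2 l h).2.2
  -- the bad sets
  let D : ℕ → ℕ → Set ℕ := fun a m => {n | (2⁻¹) ^ (m + 1) < ω (k m) (a, n)}
  have hDfin : ∀ a m, (D a m).Finite := by
    intro a m
    have := (hω (k m) a).eventually_le_const (hpos (m + 1))
    rw [← Nat.cofinite_eq_atTop, Filter.eventually_cofinite] at this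
    exact this.subset fun n' hn' => not_le.2 hn'
  let DD : ℕ → (ℕ → Bool) → Set ℕ := fun a r => ⋃ p, D a (code r p)
  have hDD : ∀ a r r', r ≠ r' → (DD a r ∩ DD a r').Finite := by
    intro a r r' hne
    obtain ⟨N0, hN0⟩ := Function.ne_iff.1 hne
    have hfin : (⋃ m ∈ ((fun p => code r p) '' {p | p ≤ N0} ∪ {m | m < a}), D a m).Finite := by
      refine Set.Finite.biUnion (((Set.finite_le_nat N0).image _).union (Set.finite_lt_nat a)) ?_
      intro m _
      exact hDfin a m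
    refine hfin.subset ?_
    rintro n ⟨h1, h2⟩
    obtain ⟨p, hp⟩ := Set.mem_iUnion.1 h1
    obtain ⟨p', hp'⟩ := Set.mem_iUnion.1 h2
    rcases lt_trichotomy (code r p) (code r' p') with h | h | h
    · by_cases ha : a ≤ code r' p'
      · exact absurd (hkD _ _ h a ha n hp) (not_le.2 hp')
      · refine Set.mem_biUnion (x := code r p) (Or.inr ?_) hp
        show code r p < a
        omega
    · have := code_eq h
      have hpN : p ≤ N0 := by
        by_contra hcon
        push Not at hcon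
        exact hN0 (this.2 N0 hcon)
      exact Set.mem_biUnion (x := code r p) (Or.inl ⟨p, hpN, rfl⟩) hp
    · by_cases ha : a ≤ code r p
      · exact absurd (hkD _ _ h a ha n hp') (not_le.2 hp)
      · refine Set.mem_biUnion (x := code r p) (Or.inr ?_) hp
        show code r p < a
        omega
  -- a good branch
  let bad : ℕ → (ℕ → Bool) := fun a =>
    if h : ∃ r, DD a r ∈ (hyperfilter ℕ : Filter ℕ) then h.choose else fun _ => false
  let r : ℕ → Bool := fun n => !(bad n n)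
  have hr : ∀ a, (DD a r)ᶜ ∈ (hyperfilter ℕ : Filter ℕ) := by
    intro a
    rw [Ultrafilter.mem_coe, Ultrafilter.compl_mem_iff_notMem]
    intro hmem
    have hex : ∃ r, DD a r ∈ (hyperfilter ℕ : Filter ℕ) := ⟨r, hmem⟩
    have hb : DD a (bad a) ∈ (hyperfilter ℕ : Filter ℕ) := by
      have : bad a = hex.choose := dif_pos hex
      rw [this]
      exact hex.choose_spec
    have hne : r ≠ bad a := by
      intro h
      have := congrFun h a
      simp [r] at this
    have hint : DD a r ∩ DD a (bad a) ∈ (hyperfilter ℕ : Filter ℕ) := inter_mem hmem hb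
    exact (hDD a r (bad a) hne).notMem_hyperfilter hint
  -- the set
  refine ⟨Set.range fun p => k (code r p), ?_, ?_, ?_, ?_⟩
  · intro a
    refine Set.infinite_of_injective_forall_mem (f := fun t => (k (code r (Nat.pair a t))).2) ?_ ?_
    · intro t t' h
      have h1 := code_inj r (hkinj _ _ h)
      exact (Nat.pair_eq_pair.1 h1).2
    · intro t
      refine ⟨Nat.pair a t, ?_⟩
      have h1 : (k (code r (Nat.pair a t))).1 = a := by
        rw [hktype, lvl_code, Nat.unpair_pair]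
      exact Prod.ext h1 rfl
  · calc ∑' j : Set.range (fun p => k (code r p)), w j
        ≤ ∑' p, w (k (code r p)) := ENNReal.tsum_le_tsum_comp_of_surjective
          (f := Set.rangeFactorization fun p => k (code r p)) Set.rangeFactorization_surjective
          (fun j => w j)
      _ ≤ ∑' m, w (k m) := ENNReal.tsum_comp_le_tsum_of_injective (code_inj r) fun m => w (k m)
      _ ≤ ∑' m : ℕ, δ * (2⁻¹) ^ (m + 1) := ENNReal.tsum_le_tsum hkw
      _ = δ := by rw [ENNReal.tsum_mul_left, half_sum, mul_one]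
  · let g : ℕ × ℕ → ℕ × ℕ → ℝ≥0∞ := fun x y => if x = y then 0 else ω x y
    have hg : ∀ m m', g (k m) (k m') ≤ δ * ((2⁻¹) ^ (m' + 1) * (2⁻¹) ^ (m + 1)) := by
      intro m m'
      by_cases h : m = m'
      · subst h
        simp [g]
      · simp only [g]
        split_ifs
        · exact zero_le
        · exact hkω m m' h
    calc ∑' x : Set.range (fun p => k (code r p)), ∑' y : Set.range (fun p => k (code r p)), g x y
        ≤ ∑' p, ∑' y : Set.range (fun p => k (code r p)), g (k (code r p)) y :=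
          ENNReal.tsum_le_tsum_comp_of_surjective
          (f := Set.rangeFactorization fun p => k (code r p)) Set.rangeFactorization_surjective
          (fun x => ∑' y : Set.range (fun p => k (code r p)), g x y)
      _ ≤ ∑' p, ∑' p', g (k (code r p)) (k (code r p')) :=
          ENNReal.tsum_le_tsum fun p => ENNReal.tsum_le_tsum_comp_of_surjective
          (f := Set.rangeFactorization fun p => k (code r p)) Set.rangeFactorization_surjective
          (fun y => g (k (code r p)) y)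
      _ ≤ ∑' p, ∑' m', g (k (code r p)) (k m') :=
          ENNReal.tsum_le_tsum fun p => ENNReal.tsum_comp_le_tsum_of_injective (code_inj r)
            fun m' => g (k (code r p)) (k m')
      _ ≤ ∑' m, ∑' m', g (k m) (k m') :=
          ENNReal.tsum_comp_le_tsum_of_injective (code_inj r) fun m => ∑' m', g (k m) (k m')
      _ ≤ ∑' m : ℕ, ∑' m' : ℕ, δ * ((2⁻¹) ^ (m' + 1) * (2⁻¹) ^ (m + 1)) :=
          ENNReal.tsum_le_tsum fun m => ENNReal.tsum_le_tsum fun m' => hg m m'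
      _ = δ := by
          simp_rw [ENNReal.tsum_mul_left, ENNReal.tsum_mul_right, half_sum, one_mul]
          rw [half_sum, mul_one]
  · intro a
    have hle : ∀ n, ∑' x : Set.range (fun p => k (code r p)), ω x (a, n)
        ≤ ∑' p, ω (k (code r p)) (a, n) := fun n =>
      ENNReal.tsum_le_tsum_comp_of_surjective
          (f := Set.rangeFactorization fun p => k (code r p)) Set.rangeFactorization_surjective
          (fun x => ω x (a, n))
    have hU : (hyperfilter ℕ : Filter ℕ) ≤ atTop := by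
      rw [← Nat.cofinite_eq_atTop]
      exact hyperfilter_le_cofinite
    rw [ENNReal.tendsto_nhds_zero]
    intro ε hε
    -- choose the tail
    obtain ⟨P, hP⟩ : ∃ P : ℕ, ((2 : ℝ≥0∞)⁻¹) ^ P ≤ ε / 2 := by
      have ht : Tendsto (fun P : ℕ => ((2 : ℝ≥0∞)⁻¹) ^ P) atTop (𝓝 0) :=
        ENNReal.tendsto_pow_atTop_nhds_zero_of_lt_one (by simp)
      exact (ht.eventually_le_const (ENNReal.half_pos hε.ne')).exists
    have hhead : ∀ᶠ n in (hyperfilter ℕ : Filter ℕ),
        ∑ m ∈ Finset.range P, ω (k m) (a, n) ≤ ε / 2 := by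
      have h1 : Tendsto (fun n => ∑ m ∈ Finset.range P, ω (k m) (a, n)) atTop
          (𝓝 (∑ m ∈ Finset.range P, (0 : ℝ≥0∞))) := tendsto_finsetSum _ fun m _ => hω (k m) a
      rw [Finset.sum_const_zero] at h1
      exact hU (h1.eventually_le_const (ENNReal.half_pos hε.ne'))
    filter_upwards [hhead, hr a] with n hn hD
    refine (hle n).trans ?_
    let g : ℕ → ℝ≥0∞ := fun m => if m ∈ Set.range (code r) then ω (k m) (a, n) else 0
    have hg1 : ∀ m, g m ≤ (2⁻¹) ^ (m + 1) := by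
      intro m
      simp only [g]
      split_ifs with hm
      · obtain ⟨p, rfl⟩ := hm
        by_contra hcon
        push Not at hcon
        exact hD (Set.mem_iUnion.2 ⟨p, hcon⟩)
      · exact zero_le
    calc ∑' p, ω (k (code r p)) (a, n) = ∑' p, g (code r p) := by
          refine tsum_congr fun p => ?_
          simp [g]
      _ ≤ ∑' m, g m := ENNReal.tsum_comp_le_tsum_of_injective (code_inj r) g
      _ = ∑ m ∈ Finset.range P, g m + ∑' m, g (m + P) := (ENNReal.summable.sum_add_tsum_nat_add' ..).symm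
      _ ≤ ε / 2 + ε / 2 := by
          refine add_le_add (le_trans (Finset.sum_le_sum fun m _ => ?_) hn) ?_
          · simp only [g]
            split_ifs
            · exact le_rfl
            · exact zero_le
          · calc ∑' m, g (m + P) ≤ ∑' m : ℕ, (2⁻¹) ^ (m + 1 + P) :=
                  ENNReal.tsum_le_tsum fun m => by
                    have := hg1 (m + P)
                    rwa [show m + P + 1 = m + 1 + P by ring] at this
              _ = (2⁻¹) ^ P := half_tail P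
              _ ≤ ε / 2 := hP
      _ = ε := ENNReal.add_halves ε

end Select
section Family

variable {I : Type*} [DecidableEq I]

/-- The total weight attached to a finite set of vertices. -/
noncomputable def wt (e : I → ℕ × ℕ → ℕ × ℕ → ℝ≥0∞) (σ : Finset I) (k j : ℕ × ℕ) : ℝ≥0∞ :=
  ∑ i ∈ σ, (e i k j + e i j k) + if k = j then 1 else 0

lemma wt_symm (e : I → ℕ × ℕ → ℕ × ℕ → ℝ≥0∞) (σ : Finset I) (k j : ℕ × ℕ) :
    wt e σ k j = wt e σ j k := by
  unfold wt
  congr 1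
  · exact Finset.sum_congr rfl fun i _ => add_comm _ _
  · simp only [eq_comm]

lemma le_wt (e : I → ℕ × ℕ → ℕ × ℕ → ℝ≥0∞) {σ : Finset I} {i : I} (hi : i ∈ σ) (k j : ℕ × ℕ) :
    e i k j + e i j k ≤ wt e σ k j := by
  refine le_trans ?_ le_self_add
  exact Finset.single_le_sum (f := fun i => e i k j + e i j k) (fun _ _ => zero_le) hi

theorem exists_family (e : I → ℕ × ℕ → ℕ × ℕ → ℝ≥0∞)
    (he : ∀ i j a, Tendsto (fun n : ℕ => e i (a, n) j) atTop (𝓝 0))
    (he' : ∀ i j a, Tendsto (fun n : ℕ => e i j (a, n)) atTop (𝓝 0))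
    (ε : ℝ≥0∞) (hε : 0 < ε) (hε1 : ε < 1) :
    ∃ B : Finset I → Set (ℕ × ℕ), ∀ σ, (∀ a, {n | (a, n) ∈ B σ}.Infinite) ∧
      (∀ i ∈ σ, (∑' k : B σ, ∑' j : B σ, if (k : ℕ × ℕ) = j then 0 else e i k j)
        ≤ ε * (4⁻¹) ^ σ.card) ∧
      ∀ τ, τ ⊂ σ → Disjoint (B τ) (B σ) ∧ ∀ i ∈ τ,
        (∑' k : B τ, ∑' j : B σ, e i k j) ≤ ε * (4⁻¹) ^ σ.card ∧
        (∑' k : B σ, ∑' j : B τ, e i k j) ≤ ε * (4⁻¹) ^ σ.card := by
  classical
  have hpos : ∀ m : ℕ, (0 : ℝ≥0∞) < ε * (4⁻¹) ^ m := fun m =>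
    ENNReal.mul_pos hε.ne' (ENNReal.pow_pos (by simp) m).ne'
  let w : ∀ σ : Finset I, (∀ τ, τ ⊂ σ → Set (ℕ × ℕ)) → ℕ × ℕ → ℝ≥0∞ := fun σ f j =>
    ∑ τ ∈ σ.ssubsets.attach, ∑' k : f τ.1 (Finset.mem_ssubsets.1 τ.2), wt e τ.1 k j
  let C : ∀ σ : Finset I, (∀ τ, τ ⊂ σ → Set (ℕ × ℕ)) → Set (ℕ × ℕ) → Prop := fun σ f B =>
    (∀ a, {n | (a, n) ∈ B}.Infinite) ∧ ∑' j : B, w σ f j ≤ ε * (4⁻¹) ^ σ.card ∧
      (∑' k : B, ∑' j : B, if (k : ℕ × ℕ) = j then 0 else wt e σ k j) ≤ ε * (4⁻¹) ^ σ.card ∧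
      Small (wt e σ) B
  let H : ∀ σ : Finset I, (∀ τ, τ ⊂ σ → Set (ℕ × ℕ)) → Set (ℕ × ℕ) := fun σ f =>
    if h : ∃ B, C σ f B then h.choose else ∅
  let B : Finset I → Set (ℕ × ℕ) := fun σ => Finset.strongInduction H σ
  have hB : ∀ σ, B σ = H σ fun τ _ => B τ := fun σ => Finset.strongInduction_eq H σ
  have hC : ∀ σ, C σ (fun τ _ => B τ) (B σ) := by
    intro σ
    induction σ using Finset.strongInduction with
    | H σ ih =>
      have hex : ∃ B', C σ (fun τ _ => B τ) B' := by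
        refine select (wt e σ) (wt_symm e σ) ?_ (w σ fun τ _ => B τ) ?_ _ (hpos _)
        · intro k a
          unfold wt
          have h1 : Tendsto (fun n : ℕ => ∑ i ∈ σ, (e i k (a, n) + e i (a, n) k)) atTop
              (𝓝 (∑ i ∈ σ, (0 + 0 : ℝ≥0∞))) :=
            tendsto_finsetSum _ fun i _ => (he' i k a).add (he i k a)
          have h2 : Tendsto (fun n : ℕ => if k = (a, n) then (1 : ℝ≥0∞) else 0) atTop (𝓝 0) := by
            refine tendsto_const_nhds.congr' ?_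
            filter_upwards [eventually_gt_atTop k.2] with n hn
            rw [if_neg]
            intro h
            rw [h] at hn
            exact lt_irrefl _ hn
          have h3 := h1.add h2
          simpa using h3
        · intro a
          have h1 : Tendsto (fun n : ℕ => w σ (fun τ _ => B τ) (a, n)) (hyperfilter ℕ : Filter ℕ)
              (𝓝 (∑ τ ∈ σ.ssubsets.attach, (0 : ℝ≥0∞))) :=
            tendsto_finsetSum _ fun τ _ => (ih τ.1 (Finset.mem_ssubsets.1 τ.2)).2.2.2 a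
          rwa [Finset.sum_const_zero] at h1
      rw [hB σ]
      have h1 : H σ (fun τ _ => B τ) = hex.choose := dif_pos hex
      rw [h1]
      exact hex.choose_spec
  refine ⟨B, fun σ => ⟨(hC σ).1, ?_, ?_⟩⟩
  · intro i hi
    refine le_trans (ENNReal.tsum_le_tsum fun k => ENNReal.tsum_le_tsum fun j => ?_) (hC σ).2.2.1
    split_ifs
    · exact le_rfl
    · exact le_trans le_self_add (le_wt e hi k j)
  · intro τ hτ
    have hle : ∑' j : B σ, ∑' k : B τ, wt e τ k j ≤ ε * (4⁻¹) ^ σ.card := by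
      refine le_trans (ENNReal.tsum_le_tsum fun j => ?_) (hC σ).2.1
      exact Finset.single_le_sum (f := fun τ : {x // x ∈ σ.ssubsets} =>
        ∑' k : B τ.1, wt e τ.1 k j) (fun _ _ => zero_le)
        (Finset.mem_attach _ ⟨τ, Finset.mem_ssubsets.2 hτ⟩)
    refine ⟨?_, fun i hi => ⟨?_, ?_⟩⟩
    · rw [Set.disjoint_left]
      intro j hj hj'
      have h1 : (1 : ℝ≥0∞) ≤ ∑' j : B σ, ∑' k : B τ, wt e τ k j := by
        refine le_trans ?_ (ENNReal.le_tsum (⟨j, hj'⟩ : B σ))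
        refine le_trans ?_ (ENNReal.le_tsum (⟨j, hj⟩ : B τ))
        unfold wt
        rw [if_pos rfl]
        exact le_add_self
      have h2 : ε * (4⁻¹) ^ σ.card < 1 := by
        calc ε * (4⁻¹) ^ σ.card ≤ ε * 1 := by
              refine mul_le_mul_right (pow_le_one₀ (zero_le) ?_) _
              exact ENNReal.inv_le_one.2 (by norm_num)
          _ < 1 := by rwa [mul_one]
      exact absurd (h1.trans hle) (not_le.2 h2)
    · rw [ENNReal.tsum_comm]
      refine le_trans (ENNReal.tsum_le_tsum fun j => ENNReal.tsum_le_tsum fun k => ?_) hle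
      exact le_trans le_self_add (le_wt e hi k j)
    · refine le_trans (ENNReal.tsum_le_tsum fun j => ENNReal.tsum_le_tsum fun k => ?_) hle
      exact le_trans le_add_self (le_wt e hi k j)

end Family

section Operators

variable {W : ℕ → Type} [∀ a, NormedAddCommGroup (W a)] [∀ a, InnerProductSpace ℂ (W a)]

/-- The Hilbert sum of countably many copies of each `W a`. -/
abbrev KK (W : ℕ → Type) [∀ a, NormedAddCommGroup (W a)] : Type :=
  lp (fun j : ℕ × ℕ => W j.1) 2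

lemma memSq {f : ∀ j : ℕ × ℕ, W j.1} (h : Summable fun j => ‖f j‖ ^ 2) : Memℓp f 2 := by
  apply memℓp_gen
  simpa using h

lemma hasSum_sq (x : KK W) : HasSum (fun j => ‖x j‖ ^ 2) (‖x‖ ^ 2) := by
  have := lp.hasSum_norm (p := 2) (by simp) x
  simpa using this

lemma summable_sq (x : KK W) : Summable fun j => ‖x j‖ ^ 2 := (hasSum_sq x).summable

lemma norm_le_of_sq {x : KK W} {c : ℝ} (hc : 0 ≤ c) (h : ∑' j, ‖x j‖ ^ 2 ≤ c ^ 2) : ‖x‖ ≤ c := by
  rw [(hasSum_sq x).tsum_eq] at h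
  exact (sq_le_sq₀ (norm_nonneg _) hc).1 h

/-- The map of indices attached to `φ`. -/
def idx (φ : ℕ → ℕ → ℕ) (j : ℕ × ℕ) : ℕ × ℕ := (j.1, φ j.1 j.2)

lemma idx_inj {φ : ℕ → ℕ → ℕ} (h : ∀ a, Function.Injective (φ a)) :
    Function.Injective (idx φ) := by
  rintro ⟨a, n⟩ ⟨b, m⟩ hh
  simp only [idx, Prod.mk.injEq] at hh
  obtain ⟨rfl, h2⟩ := hh
  rw [h a h2]

/-- The coisometry attached to `φ`: `(tOp φ x) (a, n) = x (a, φ a n)`. -/
def tOp (φ : ℕ → ℕ → ℕ) (h : ∀ a, Function.Injective (φ a)) : KK W →L[ℂ] KK W :=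
  LinearMap.mkContinuous
    { toFun := fun x => ⟨fun j => x (j.1, φ j.1 j.2),
        memSq ((summable_sq x).comp_injective (idx_inj h))⟩
      map_add' := fun x y => rfl
      map_smul' := fun c x => rfl } 1 (by
    intro x
    rw [one_mul]
    refine norm_le_of_sq (norm_nonneg _) ?_
    rw [← (hasSum_sq x).tsum_eq]
    exact tsum_comp_le_tsum_of_inj (summable_sq x) (fun _ => by positivity) (idx_inj h))

lemma tOp_apply (φ : ℕ → ℕ → ℕ) (h : ∀ a, Function.Injective (φ a)) (x : KK W) (a n : ℕ) :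
    (tOp φ h x) (a, n) = x (a, φ a n) := rfl

open Classical in
/-- The underlying function of the isometry attached to `φ`. -/
def sFun (φ : ℕ → ℕ → ℕ) (x : ∀ j : ℕ × ℕ, W j.1) (j : ℕ × ℕ) : W j.1 :=
  if h : ∃ n, φ j.1 n = j.2 then x (j.1, h.choose) else 0

lemma sFun_apply {φ : ℕ → ℕ → ℕ} (h : ∀ a, Function.Injective (φ a)) (x : ∀ j : ℕ × ℕ, W j.1)
    (a n : ℕ) : sFun φ x (a, φ a n) = x (a, n) := by
  have hex : ∃ m, φ (a, φ a n).1 m = (a, φ a n).2 := ⟨n, rfl⟩
  have h1 : hex.choose = n := h a hex.choose_spec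
  have h2 : ∀ m, m = n → (x (a, m) : W a) = x (a, n) := by
    rintro _ rfl
    rfl
  unfold sFun
  rw [dif_pos hex]
  exact h2 _ h1

lemma sFun_zero {φ : ℕ → ℕ → ℕ} (x : ∀ j : ℕ × ℕ, W j.1) (j : ℕ × ℕ)
    (hj : j ∉ Set.range (idx φ)) : sFun φ x j = 0 := by
  unfold sFun
  rw [dif_neg]
  rintro ⟨n, hn⟩
  exact hj ⟨(j.1, n), Prod.ext rfl hn⟩

lemma sFun_summable {φ : ℕ → ℕ → ℕ} (h : ∀ a, Function.Injective (φ a)) (x : KK W) :
    HasSum (fun j => ‖sFun φ x j‖ ^ 2) (‖x‖ ^ 2) := by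
  have h1 : ∀ j ∉ Set.range (idx φ), ‖sFun φ x j‖ ^ 2 = 0 := fun j hj => by
    rw [sFun_zero _ _ hj, norm_zero]; norm_num
  rw [← (idx_inj h).hasSum_iff h1]
  have h2 : (fun j => ‖sFun φ x j‖ ^ 2) ∘ idx φ = fun j => ‖x j‖ ^ 2 := by
    funext j
    show ‖sFun φ x (j.1, φ j.1 j.2)‖ ^ 2 = _
    rw [sFun_apply h]
  rw [h2]
  exact hasSum_sq x

/-- The isometry attached to `φ`. -/
def sOp (φ : ℕ → ℕ → ℕ) (h : ∀ a, Function.Injective (φ a)) : KK W →L[ℂ] KK W :=
  LinearMap.mkContinuous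
    { toFun := fun x => ⟨sFun φ x, memSq (sFun_summable h x).summable⟩
      map_add' := fun x y => by
        apply lp.ext
        funext j
        show sFun φ (x + y : KK W) j = sFun φ x j + sFun φ y j
        unfold sFun
        split_ifs
        · rfl
        · simp
      map_smul' := fun c x => by
        apply lp.ext
        funext j
        show sFun φ (c • x : KK W) j = c • sFun φ x j
        unfold sFun
        split_ifs
        · rfl
        · simp } 1 (by
    intro x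
    rw [one_mul]
    refine norm_le_of_sq (norm_nonneg _) ?_
    exact (sFun_summable h x).tsum_eq.le)

lemma sOp_apply (φ : ℕ → ℕ → ℕ) (h : ∀ a, Function.Injective (φ a)) (x : KK W) (a n : ℕ) :
    (sOp φ h x) (a, φ a n) = x (a, n) := sFun_apply h x a n

lemma sOp_zero (φ : ℕ → ℕ → ℕ) (h : ∀ a, Function.Injective (φ a)) (x : KK W) (j : ℕ × ℕ)
    (hj : j ∉ Set.range (idx φ)) : (sOp φ h x) j = 0 := sFun_zero _ _ hj

lemma tOp_sOp (φ : ℕ → ℕ → ℕ) (h : ∀ a, Function.Injective (φ a)) :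
    (tOp φ h : KK W →L[ℂ] KK W) * sOp φ h = 1 := by
  ext1 x
  apply lp.ext
  funext j
  exact sOp_apply φ h x j.1 j.2

lemma tOp_sOp_zero (φ ψ : ℕ → ℕ → ℕ) (h : ∀ a, Function.Injective (φ a))
    (h' : ∀ a, Function.Injective (ψ a))
    (hd : Disjoint (Set.range (idx φ)) (Set.range (idx ψ))) :
    (tOp φ h : KK W →L[ℂ] KK W) * sOp ψ h' = 0 := by
  ext1 x
  apply lp.ext
  funext j
  show (sOp ψ h' x) (idx φ j) = 0
  exact sOp_zero _ _ _ _ (Set.disjoint_left.1 hd ⟨j, rfl⟩)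

lemma inner_sOp (φ : ℕ → ℕ → ℕ) (h : ∀ a, Function.Injective (φ a)) (x y : KK W) :
    inner ℂ (sOp φ h x) y = inner ℂ x (tOp φ h y) := by
  rw [lp.inner_eq_tsum, lp.inner_eq_tsum]
  rw [← (idx_inj h).tsum_eq (f := fun j => inner ℂ ((sOp φ h x) j) (y j))]
  · refine tsum_congr fun j => ?_
    show inner ℂ ((sOp φ h x) (j.1, φ j.1 j.2)) (y (j.1, φ j.1 j.2)) = _
    rw [sOp_apply]
    rfl
  · intro j hj
    by_contra hcon
    apply hj
    show inner ℂ ((sOp φ h x) j) (y j) = 0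
    rw [sOp_zero _ _ _ _ hcon, inner_zero_left]

lemma norm_tOp_le (φ : ℕ → ℕ → ℕ) (h : ∀ a, Function.Injective (φ a)) :
    ‖(tOp φ h : KK W →L[ℂ] KK W)‖ ≤ 1 := LinearMap.mkContinuous_norm_le _ zero_le_one _

lemma norm_sOp_le (φ : ℕ → ℕ → ℕ) (h : ∀ a, Function.Injective (φ a)) :
    ‖(sOp φ h : KK W →L[ℂ] KK W)‖ ≤ 1 := LinearMap.mkContinuous_norm_le _ zero_le_one _

/-! Gluing sequences of vectors. -/

lemma pair_inj (k : ℕ) : Function.Injective (Nat.pair k) := fun a b h => (Nat.pair_eq_pair.1 h).2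

/-- The `k`-th slice. -/
def slc (k : ℕ) : KK W →L[ℂ] KK W := tOp (fun _ => Nat.pair k) fun _ => pair_inj k

/-- The reindexing equivalence. -/
def reIdx : (ℕ × (ℕ × ℕ)) ≃ ℕ × ℕ where
  toFun p := (p.2.1, Nat.pair p.1 p.2.2)
  invFun j := ((Nat.unpair j.2).1, (j.1, (Nat.unpair j.2).2))
  left_inv p := by simp
  right_inv j := by simp

lemma hasSum_slc (v : KK W) : HasSum (fun k => ‖slc k v‖ ^ 2) (‖v‖ ^ 2) := by
  have h1 : HasSum (fun p : ℕ × (ℕ × ℕ) => ‖v (reIdx p)‖ ^ 2) (‖v‖ ^ 2) :=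
    reIdx.hasSum_iff.2 (hasSum_sq v)
  exact h1.prod_fiberwise fun k => hasSum_sq (slc k v)

lemma glue_summable (y : ℕ → KK W) (hy : Summable fun k => ‖y k‖ ^ 2) :
    HasSum (fun j : ℕ × ℕ => ‖(y (Nat.unpair j.2).1) (j.1, (Nat.unpair j.2).2)‖ ^ 2)
      (∑' k, ‖y k‖ ^ 2) := by
  rw [← reIdx.hasSum_iff]
  have h2 : ((fun j : ℕ × ℕ => ‖(y (Nat.unpair j.2).1) (j.1, (Nat.unpair j.2).2)‖ ^ 2) ∘ reIdx)
      = fun p : ℕ × (ℕ × ℕ) => ‖(y p.1) p.2‖ ^ 2 := by
    funext p
    obtain ⟨k, a, n⟩ := p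
    show ‖(y (Nat.unpair (Nat.pair k n)).1) (a, (Nat.unpair (Nat.pair k n)).2)‖ ^ 2
      = ‖(y k) (a, n)‖ ^ 2
    rw [Nat.unpair_pair]
  rw [h2]
  have hs : Summable fun p : ℕ × (ℕ × ℕ) => ‖(y p.1) p.2‖ ^ 2 := by
    rw [summable_prod_of_nonneg (fun _ => by positivity)]
    refine ⟨fun k => summable_sq (y k), ?_⟩
    have : (fun k => ∑' j : ℕ × ℕ, ‖(y k) j‖ ^ 2) = fun k => ‖y k‖ ^ 2 := by
      funext k
      exact (hasSum_sq (y k)).tsum_eq
    rw [this]
    exact hy
  have h3 := hs.hasSum.prod_fiberwise fun k => hasSum_sq (y k)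
  rw [h3.tsum_eq]
  exact hs.hasSum

/-- The amplification of an operator. -/
def rhoOp (x : KK W →L[ℂ] KK W) : KK W →L[ℂ] KK W :=
  LinearMap.mkContinuous
    { toFun := fun v => ⟨fun j => (x (slc (Nat.unpair j.2).1 v)) (j.1, (Nat.unpair j.2).2),
        memSq (glue_summable (fun k => x (slc k v)) (by
          refine Summable.of_nonneg_of_le (fun _ => by positivity) (fun k => ?_)
            ((hasSum_slc v).summable.mul_left (‖x‖ ^ 2))
          rw [← mul_pow]
          gcongr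
          exact x.le_opNorm _)).summable⟩
      map_add' := fun v w => by
        apply lp.ext
        funext j
        show (x (slc _ (v + w))) _ = (x (slc _ v)) _ + (x (slc _ w)) _
        rw [map_add, map_add]
        rfl
      map_smul' := fun c v => by
        apply lp.ext
        funext j
        show (x (slc _ (c • v))) _ = c • (x (slc _ v)) _
        rw [map_smul, map_smul]
        rfl } ‖x‖ (by
    intro v
    have hs : Summable fun k => ‖x (slc k v)‖ ^ 2 := by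
      refine Summable.of_nonneg_of_le (fun _ => by positivity) (fun k => ?_)
        ((hasSum_slc v).summable.mul_left (‖x‖ ^ 2))
      rw [← mul_pow]
      gcongr
      exact x.le_opNorm _
    refine norm_le_of_sq (by positivity) ?_
    have h1 := (glue_summable (fun k => x (slc k v)) hs).tsum_eq
    refine (le_of_eq h1).trans ?_
    rw [mul_pow, ← (hasSum_slc v).tsum_eq, ← tsum_mul_left]
    refine hs.tsum_le_tsum (fun k => ?_) ((hasSum_slc v).summable.mul_left _)
    rw [← mul_pow]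
    gcongr
    exact x.le_opNorm _)

lemma rhoOp_apply (x : KK W →L[ℂ] KK W) (v : KK W) (a k n : ℕ) :
    (rhoOp x v) (a, Nat.pair k n) = (x (slc k v)) (a, n) := by
  show (x (slc (Nat.unpair (Nat.pair k n)).1 v)) (a, (Nat.unpair (Nat.pair k n)).2) = _
  rw [Nat.unpair_pair]

lemma ext_pair {v w : KK W} (h : ∀ a k n, v (a, Nat.pair k n) = w (a, Nat.pair k n)) : v = w := by
  apply lp.ext
  funext j
  obtain ⟨a, m⟩ := j
  have := h a (Nat.unpair m).1 (Nat.unpair m).2
  rwa [Nat.pair_unpair] at this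

lemma slc_rhoOp (x : KK W →L[ℂ] KK W) (v : KK W) (k : ℕ) : slc k (rhoOp x v) = x (slc k v) := by
  apply lp.ext
  funext j
  exact rhoOp_apply x v j.1 k j.2

/-- The amplification as a ring homomorphism. -/
def rho : (KK W →L[ℂ] KK W) →+* (KK W →L[ℂ] KK W) where
  toFun := rhoOp
  map_one' := by
    ext1 v
    apply ext_pair
    intro a k n
    rw [rhoOp_apply]
    rfl
  map_mul' x y := by
    ext1 v
    apply ext_pair
    intro a k n
    show _ = (rhoOp x (rhoOp y v)) _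
    rw [rhoOp_apply, rhoOp_apply, slc_rhoOp]
    rfl
  map_zero' := by
    ext1 v
    apply ext_pair
    intro a k n
    rw [rhoOp_apply]
    rfl
  map_add' x y := by
    ext1 v
    apply ext_pair
    intro a k n
    show (rhoOp (x + y) v) (a, Nat.pair k n)
      = (rhoOp x v) (a, Nat.pair k n) + (rhoOp y v) (a, Nat.pair k n)
    rw [rhoOp_apply, rhoOp_apply, rhoOp_apply]
    rfl

lemma norm_rho_le (x : KK W →L[ℂ] KK W) : ‖rho x‖ ≤ ‖x‖ :=
  (LinearMap.mkContinuous_norm_le _ (norm_nonneg x) _ : ‖rhoOp x‖ ≤ ‖x‖)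

lemma rho_continuous : Continuous (rho : (KK W →L[ℂ] KK W) → (KK W →L[ℂ] KK W)) :=
  AddMonoidHomClass.continuous_of_bound (rho (W := W)) 1 fun x => by
    rw [one_mul]
    exact norm_rho_le x

/-- The shift of slices. -/
def zIdx (m : ℕ) : ℕ := Nat.pair ((Nat.unpair m).1 + 1) (Nat.unpair m).2

lemma zIdx_pair (k n : ℕ) : zIdx (Nat.pair k n) = Nat.pair (k + 1) n := by
  simp [zIdx]

lemma zIdx_inj : Function.Injective zIdx := by
  intro a b h
  have h1 := Nat.pair_eq_pair.1 h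
  rw [← Nat.pair_unpair a, ← Nat.pair_unpair b, Nat.pair_eq_pair]
  exact ⟨Nat.succ_injective h1.1, h1.2⟩

def t0 : KK W →L[ℂ] KK W := sOp (fun _ => Nat.pair 0) fun _ => pair_inj 0
def tb0 : KK W →L[ℂ] KK W := tOp (fun _ => Nat.pair 0) fun _ => pair_inj 0
def zz : KK W →L[ℂ] KK W := sOp (fun _ => zIdx) fun _ => zIdx_inj
def zb : KK W →L[ℂ] KK W := tOp (fun _ => zIdx) fun _ => zIdx_inj

lemma t0_zero (v : KK W) (a n : ℕ) : (t0 v) (a, Nat.pair 0 n) = v (a, n) :=
  sOp_apply (fun _ => Nat.pair 0) _ v a n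

lemma t0_succ (v : KK W) (a k n : ℕ) : (t0 v) (a, Nat.pair (k + 1) n) = 0 := by
  refine sOp_zero _ _ _ _ ?_
  rintro ⟨⟨b, m⟩, h⟩
  simp only [idx, Prod.mk.injEq, Nat.pair_eq_pair] at h
  omega

lemma zz_zero (v : KK W) (a n : ℕ) : (zz v) (a, Nat.pair 0 n) = 0 := by
  refine sOp_zero _ _ _ _ ?_
  rintro ⟨⟨b, m⟩, h⟩
  simp only [idx, zIdx, Prod.mk.injEq, Nat.pair_eq_pair] at h
  omega

lemma zz_succ (v : KK W) (a k n : ℕ) :
    (zz v) (a, Nat.pair (k + 1) n) = v (a, Nat.pair k n) := by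
  have := sOp_apply (fun _ => zIdx) (fun _ => zIdx_inj) v a (Nat.pair k n)
  rwa [zIdx_pair] at this

lemma zb_apply (v : KK W) (a k n : ℕ) :
    (zb v) (a, Nat.pair k n) = v (a, Nat.pair (k + 1) n) := by
  show v (a, zIdx (Nat.pair k n)) = _
  rw [zIdx_pair]

lemma tb0_apply (v : KK W) (a n : ℕ) : (tb0 v) (a, n) = v (a, Nat.pair 0 n) := rfl

lemma tb0_t0 : (tb0 : KK W →L[ℂ] KK W) * t0 = 1 := tOp_sOp _ _

lemma zb_zz : (zb : KK W →L[ℂ] KK W) * zz = 1 := tOp_sOp _ _

lemma tb0_zz : (tb0 : KK W →L[ℂ] KK W) * zz = 0 := by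
  ext1 v
  apply lp.ext
  funext j
  exact zz_zero v j.1 j.2

lemma zb_t0 : (zb : KK W →L[ℂ] KK W) * t0 = 0 := by
  ext1 v
  apply ext_pair
  intro a k n
  show (zb (t0 v)) _ = _
  rw [zb_apply, t0_succ]
  rfl

lemma t_z_one : (t0 : KK W →L[ℂ] KK W) * tb0 + zz * zb = 1 := by
  ext1 v
  apply ext_pair
  intro a k n
  show (t0 (tb0 v)) _ + (zz (zb v)) _ = v _
  cases k with
  | zero => rw [t0_zero, zz_zero, tb0_apply, add_zero]
  | succ k => rw [t0_succ, zz_succ, zb_apply, zero_add]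

lemma slc_t0_zero (v : KK W) : slc 0 (t0 v) = v := by
  apply lp.ext
  funext j
  exact t0_zero v j.1 j.2

lemma slc_t0_succ (v : KK W) (k : ℕ) : slc (k + 1) (t0 v) = 0 := by
  apply lp.ext
  funext j
  exact t0_succ v j.1 k j.2

lemma slc_zz_zero (v : KK W) : slc 0 (zz v) = 0 := by
  apply lp.ext
  funext j
  exact zz_zero v j.1 j.2

lemma slc_zz_succ (v : KK W) (k : ℕ) : slc (k + 1) (zz v) = slc k v := by
  apply lp.ext
  funext j
  exact zz_succ v j.1 k j.2

lemma slc_zb (v : KK W) (k : ℕ) : slc k (zb v) = slc (k + 1) v := by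
  apply lp.ext
  funext j
  exact zb_apply v j.1 k j.2

lemma rho_t0 (x : KK W →L[ℂ] KK W) : rho x * t0 = t0 * x := by
  ext1 v
  apply ext_pair
  intro a k n
  show (rhoOp x (t0 v)) _ = (t0 (x v)) _
  rw [rhoOp_apply]
  cases k with
  | zero => rw [t0_zero, slc_t0_zero]
  | succ k => rw [t0_succ, slc_t0_succ, map_zero]; rfl

lemma tb0_rho (x : KK W →L[ℂ] KK W) : tb0 * rho x = x * tb0 := by
  ext1 v
  apply lp.ext
  funext j
  exact rhoOp_apply x v j.1 0 j.2

lemma rho_zz (x : KK W →L[ℂ] KK W) : rho x * zz = zz * rho x := by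
  ext1 v
  apply ext_pair
  intro a k n
  show (rhoOp x (zz v)) _ = (zz (rhoOp x v)) _
  rw [rhoOp_apply]
  cases k with
  | zero => rw [zz_zero, slc_zz_zero, map_zero]; rfl
  | succ k => rw [zz_succ, slc_zz_succ, rhoOp_apply]

lemma zb_rho (x : KK W →L[ℂ] KK W) : zb * rho x = rho x * zb := by
  ext1 v
  apply ext_pair
  intro a k n
  show (zb (rhoOp x v)) _ = (rhoOp x (zb v)) _
  rw [zb_apply, rhoOp_apply, rhoOp_apply, slc_zb]

/-- Even and odd. -/
def r0 : KK W →L[ℂ] KK W := sOp (fun _ n => 2 * n) fun _ a b h => by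
  have : 2 * a = 2 * b := h
  omega
def rb0 : KK W →L[ℂ] KK W := tOp (fun _ n => 2 * n) fun _ a b h => by
  have : 2 * a = 2 * b := h
  omega
def r1 : KK W →L[ℂ] KK W := sOp (fun _ n => 2 * n + 1) fun _ a b h => by
  have : 2 * a + 1 = 2 * b + 1 := h
  omega
def rb1 : KK W →L[ℂ] KK W := tOp (fun _ n => 2 * n + 1) fun _ a b h => by
  have : 2 * a + 1 = 2 * b + 1 := h
  omega

lemma rb0_r0 : (rb0 : KK W →L[ℂ] KK W) * r0 = 1 := tOp_sOp _ _
lemma rb1_r1 : (rb1 : KK W →L[ℂ] KK W) * r1 = 1 := tOp_sOp _ _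

lemma even_odd_disj : Disjoint (Set.range (idx fun _ n => 2 * n))
    (Set.range (idx fun _ n => 2 * n + 1)) := by
  rw [Set.disjoint_left]
  rintro _ ⟨⟨a, n⟩, rfl⟩ ⟨⟨b, m⟩, h⟩
  simp only [idx, Prod.mk.injEq] at h
  omega

lemma rb0_r1 : (rb0 : KK W →L[ℂ] KK W) * r1 = 0 := tOp_sOp_zero _ _ _ _ even_odd_disj
lemma rb1_r0 : (rb1 : KK W →L[ℂ] KK W) * r0 = 0 := tOp_sOp_zero _ _ _ _ even_odd_disj.symm

lemma r_one : (r0 : KK W →L[ℂ] KK W) * rb0 + r1 * rb1 = 1 := by
  ext1 v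
  apply lp.ext
  funext j
  obtain ⟨a, m⟩ := j
  show (r0 (rb0 v)) (a, m) + (r1 (rb1 v)) (a, m) = v (a, m)
  rcases Nat.even_or_odd' m with ⟨n, rfl | rfl⟩
  · have h1 : (r0 (rb0 v)) (a, 2 * n) = (rb0 v) (a, n) := sOp_apply _ _ _ a n
    have h2 : (r1 (rb1 v)) (a, 2 * n) = 0 := by
      refine sOp_zero _ _ _ _ ?_
      rintro ⟨⟨b, m⟩, h⟩
      simp only [idx, Prod.mk.injEq] at h
      omega
    rw [h1, h2, add_zero]
    rfl
  · have h1 : (r1 (rb1 v)) (a, 2 * n + 1) = (rb1 v) (a, n) := sOp_apply _ _ _ a n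
    have h2 : (r0 (rb0 v)) (a, 2 * n + 1) = 0 := by
      refine sOp_zero _ _ _ _ ?_
      rintro ⟨⟨b, m⟩, h⟩
      simp only [idx, Prod.mk.injEq] at h
      omega
    rw [h1, h2, zero_add]
    rfl

end Operators
section Entries

variable {W : ℕ → Type} [∀ a, NormedAddCommGroup (W a)] [∀ a, InnerProductSpace ℂ (W a)]

/-- The matrix entries of an operator. -/
def entOp (T : KK W →L[ℂ] KK W) (k j : ℕ × ℕ) : W j.1 →L[ℂ] W k.1 :=
  (lp.evalCLM ℂ (fun j : ℕ × ℕ => W j.1) 2 k).comp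
    (T.comp (lp.singleContinuousLinearMap ℂ (fun j : ℕ × ℕ => W j.1) 2 j))

lemma entOp_apply (T : KK W →L[ℂ] KK W) (k j : ℕ × ℕ) (v : W j.1) :
    entOp T k j v = (T (lp.single 2 j v)) k := rfl

/-- The norms of the matrix entries of an operator. -/
def ent (T : KK W →L[ℂ] KK W) (k j : ℕ × ℕ) : ℝ≥0∞ := ‖entOp T k j‖ₑ

lemma enorm_le_tsum (v : KK W) : ‖v‖ₑ ≤ ∑' j, ‖v j‖ₑ := by
  have h := lp.hasSum_single (p := 2) (by simp) v
  calc ‖v‖ₑ = ‖∑' j, lp.single 2 j (v j)‖ₑ := by rw [h.tsum_eq]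
    _ ≤ ∑' j, ‖lp.single (E := fun j : ℕ × ℕ => W j.1) 2 j (v j)‖ₑ := enorm_tsum_le_tsum_enorm
    _ = ∑' j, ‖v j‖ₑ := by
        refine tsum_congr fun j => ?_
        have := lp.norm_single (p := 2) (E := fun j : ℕ × ℕ => W j.1) (by norm_num) j (v j)
        rw [enorm_eq_iff_norm_eq]
        exact this

lemma enorm_apply_le (v : KK W) (j : ℕ × ℕ) : ‖v j‖ₑ ≤ ‖v‖ₑ := by
  rw [enorm_le_iff_norm_le]
  exact lp.norm_apply_le_norm (by norm_num) v j

lemma enorm_coord_le (T : KK W →L[ℂ] KK W) (v : KK W) (k : ℕ × ℕ) :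
    ‖(T v) k‖ₑ ≤ ∑' j, ent T k j * ‖v j‖ₑ := by
  have h := lp.hasSum_single (p := 2) (by simp) v
  have h1 : HasSum (fun j => entOp T k j (v j)) ((T v) k) :=
    ((lp.evalCLM ℂ (fun j : ℕ × ℕ => W j.1) 2 k).comp T).hasSum h
  calc ‖(T v) k‖ₑ = ‖∑' j, entOp T k j (v j)‖ₑ := by rw [h1.tsum_eq]
    _ ≤ ∑' j, ‖entOp T k j (v j)‖ₑ := enorm_tsum_le_tsum_enorm
    _ ≤ ∑' j, ent T k j * ‖v j‖ₑ := ENNReal.tsum_le_tsum fun j =>
        ContinuousLinearMap.le_opENorm _ _

lemma enorm_le_of_bound {A : KK W →L[ℂ] KK W} {M : ℝ≥0∞} (h : ∀ x, ‖A x‖ₑ ≤ M * ‖x‖ₑ) :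
    ‖A‖ₑ ≤ M := by
  rcases eq_or_ne M ⊤ with rfl | hM
  · exact le_top
  · lift M to NNReal using hM
    have h1 : ‖A‖ ≤ M := by
      refine A.opNorm_le_bound M.2 fun x => ?_
      have := h x
      rw [← ofReal_norm, ← ofReal_norm, ← ENNReal.ofReal_coe_nnreal,
        ← ENNReal.ofReal_mul (NNReal.coe_nonneg M)] at this
      exact (ENNReal.ofReal_le_ofReal_iff (by positivity)).1 this
    rw [← ofReal_norm, ← ENNReal.ofReal_coe_nnreal]
    exact ENNReal.ofReal_le_ofReal h1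

lemma tsum_restrict (B : Set (ℕ × ℕ)) (g : ℕ × ℕ → ℝ≥0∞) (h : ∀ j, j ∉ B → g j = 0) :
    ∑' j, g j = ∑' j : B, g j := by
  refine (tsum_subtype_eq_of_support_subset fun j hj => ?_).symm
  by_contra hcon
  exact hj (h j hcon)

lemma enorm_sOp_apply_le (φ : ℕ → ℕ → ℕ) (hφ : ∀ a, Function.Injective (φ a)) (x : KK W)
    (j : ℕ × ℕ) : ‖(sOp φ hφ x) j‖ₑ ≤ ‖x‖ₑ := by
  refine (enorm_apply_le (sOp φ hφ x) j).trans ?_
  rw [enorm_le_iff_norm_le]
  have h1 := (sOp φ hφ : KK W →L[ℂ] KK W).le_of_opNorm_le (norm_sOp_le (W := W) φ hφ) x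
  rwa [one_mul] at h1

lemma enorm_coord_sOp_le (T : KK W →L[ℂ] KK W) (φ : ℕ → ℕ → ℕ)
    (hφ : ∀ a, Function.Injective (φ a)) (B : Set (ℕ × ℕ)) (h : Set.range (idx φ) ⊆ B) (x : KK W)
    (k : ℕ × ℕ) : ‖(T (sOp φ hφ x)) k‖ₑ ≤ (∑' j : B, ent T k j) * ‖x‖ₑ := by
  refine (enorm_coord_le T _ k).trans ?_
  rw [← ENNReal.tsum_mul_right]
  have h2 : ∀ j, j ∉ B → ent T k j * ‖(sOp φ hφ x) j‖ₑ = 0 := fun j hj => by
    rw [sOp_zero _ _ _ _ fun hj' => hj (h hj'), enorm_zero, mul_zero]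
  rw [tsum_restrict B _ h2]
  exact ENNReal.tsum_le_tsum fun j => mul_le_mul_right (enorm_sOp_apply_le φ hφ x j) _

lemma enorm_tOp_le (ψ : ℕ → ℕ → ℕ) (hψ : ∀ a, Function.Injective (ψ a)) (B' : Set (ℕ × ℕ))
    (h' : Set.range (idx ψ) ⊆ B') (y : KK W) : ‖tOp ψ hψ y‖ₑ ≤ ∑' k : B', ‖y k‖ₑ := by
  refine (enorm_le_tsum _).trans ?_
  have h1 : ∀ k, ‖(tOp ψ hψ y) k‖ₑ = ‖y (idx ψ k)‖ₑ := fun k => rfl
  simp_rw [h1]
  have h2 : ∑' k, ‖y (idx ψ k)‖ₑ = ∑' k : Set.range (idx ψ), ‖y k‖ₑ :=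
    (tsum_range (fun k => ‖y k‖ₑ) (idx_inj hψ)).symm
  rw [h2]
  exact ENNReal.tsum_mono_subtype (fun k => ‖y k‖ₑ) h'

lemma corner_le (T : KK W →L[ℂ] KK W) (ψ φ : ℕ → ℕ → ℕ) (hψ : ∀ a, Function.Injective (ψ a))
    (hφ : ∀ a, Function.Injective (φ a)) (B' B : Set (ℕ × ℕ))
    (h' : Set.range (idx ψ) ⊆ B') (h : Set.range (idx φ) ⊆ B) :
    ‖tOp ψ hψ * (T * sOp φ hφ)‖ₑ ≤ ∑' k : B', ∑' j : B, ent T k j := by
  apply enorm_le_of_bound
  intro x
  refine (enorm_tOp_le ψ hψ B' h' (T (sOp φ hφ x))).trans ?_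
  rw [← ENNReal.tsum_mul_right]
  exact ENNReal.tsum_le_tsum fun k => enorm_coord_sOp_le T φ hφ B h x k

variable [∀ a, FiniteDimensional ℂ (W a)]

lemma ent_tendsto (T : KK W →L[ℂ] KK W) (j : ℕ × ℕ) (a : ℕ) :
    Tendsto (fun n : ℕ => ent T (a, n) j) atTop (𝓝 0) := by
  let b := stdOrthonormalBasis ℂ (W j.1)
  have h1 : ∀ n : ℕ, ‖entOp T (a, n) j‖ ≤ ∑ i, ‖(T (lp.single 2 j (b i))) (a, n)‖ := by
    intro n
    refine ContinuousLinearMap.opNorm_le_bound _ (by positivity) fun v => ?_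
    have hv : v = ∑ i, inner ℂ (b i) v • b i := (b.sum_repr' v).symm
    calc ‖entOp T (a, n) j v‖ = ‖∑ i, inner ℂ (b i) v • entOp T (a, n) j (b i)‖ := by
          conv_lhs => rw [hv]
          rw [map_sum]
          simp only [map_smul]
      _ ≤ ∑ i, ‖inner ℂ (b i) v • entOp T (a, n) j (b i)‖ := norm_sum_le _ _
      _ ≤ ∑ i, ‖(T (lp.single 2 j (b i))) (a, n)‖ * ‖v‖ := by
          refine Finset.sum_le_sum fun i _ => ?_
          rw [norm_smul, mul_comm]
          refine mul_le_mul_of_nonneg_left ?_ (norm_nonneg _)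
          have := norm_inner_le_norm (𝕜 := ℂ) (b i) v
          rwa [b.orthonormal.1 i, one_mul] at this
      _ = _ := by rw [Finset.sum_mul]
  have h2 : ∀ y : KK W, Tendsto (fun n : ℕ => ‖y (a, n)‖) atTop (𝓝 0) := by
    intro y
    have hs : Summable fun n : ℕ => ‖y (a, n)‖ ^ 2 :=
      (summable_sq y).comp_injective (i := fun n : ℕ => (a, n)) fun m n h => (Prod.mk.inj h).2
    have := hs.tendsto_atTop_zero
    have h3 : Tendsto (fun n : ℕ => Real.sqrt (‖y (a, n)‖ ^ 2)) atTop (𝓝 (Real.sqrt 0)) :=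
      (Real.continuous_sqrt.tendsto 0).comp this
    rw [Real.sqrt_zero] at h3
    refine h3.congr fun n => ?_
    exact Real.sqrt_sq (norm_nonneg _)
  have h3 : Tendsto (fun n : ℕ => ‖entOp T (a, n) j‖) atTop (𝓝 0) := by
    refine squeeze_zero (fun _ => norm_nonneg _) h1 ?_
    have := tendsto_finsetSum (Finset.univ) (fun i (_ : i ∈ Finset.univ) =>
      h2 (T (lp.single 2 j (b i))))
    rwa [Finset.sum_const_zero] at this
  have h4 : Tendsto (fun n : ℕ => ENNReal.ofReal ‖entOp T (a, n) j‖) atTop (𝓝 0) := by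
    have := ENNReal.tendsto_ofReal h3
    rwa [ENNReal.ofReal_zero] at this
  refine h4.congr fun n => ?_
  rw [ent, ofReal_norm]

lemma ent_adjoint (T : KK W →L[ℂ] KK W) [∀ a, CompleteSpace (W a)] (k j : ℕ × ℕ) :
    ent T k j = ent (ContinuousLinearMap.adjoint T) j k := by
  have h : ContinuousLinearMap.adjoint (entOp T k j) = entOp (ContinuousLinearMap.adjoint T) j k := by
    symm
    rw [ContinuousLinearMap.eq_adjoint_iff]
    intro x y
    rw [entOp_apply, entOp_apply]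
    have e1 : inner ℂ ((ContinuousLinearMap.adjoint T) (lp.single 2 k x) j) y
        = inner ℂ ((ContinuousLinearMap.adjoint T) (lp.single 2 k x)) (lp.single 2 j y : KK W) :=
      (lp.inner_single_right (𝕜 := ℂ) (G := fun j : ℕ × ℕ => W j.1) j y _).symm
    have e2 : inner ℂ x ((T (lp.single 2 j y)) k) = inner ℂ (lp.single 2 k x : KK W) (T (lp.single 2 j y)) :=
      (lp.inner_single_left (𝕜 := ℂ) (G := fun j : ℕ × ℕ => W j.1) k x _).symm
    rw [e1, e2, ContinuousLinearMap.adjoint_inner_left]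
  rw [ent, ent, ← h, enorm_eq_iff_norm_eq]
  exact (LinearIsometryEquiv.norm_map ContinuousLinearMap.adjoint _).symm

lemma ent_tendsto' (T : KK W →L[ℂ] KK W) [∀ a, CompleteSpace (W a)] (j : ℕ × ℕ) (a : ℕ) :
    Tendsto (fun n : ℕ => ent T j (a, n)) atTop (𝓝 0) := by
  refine (ent_tendsto (ContinuousLinearMap.adjoint T) j a).congr fun n => ?_
  rw [ent_adjoint T]

end Entries

section Frames

variable {W : ℕ → Type} [∀ a, NormedAddCommGroup (W a)] [∀ a, InnerProductSpace ℂ (W a)]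

/-- A family of pairs of injections. -/
structure Frame (I : Type*) where
  /-- first injection -/
  φ : Finset I → ℕ → ℕ → ℕ
  /-- second injection -/
  φ' : Finset I → ℕ → ℕ → ℕ
  inj : ∀ σ a, Function.Injective (φ σ a)
  inj' : ∀ σ a, Function.Injective (φ' σ a)
  disj_self : ∀ σ, Disjoint (Set.range (idx (φ σ))) (Set.range (idx (φ' σ)))
  disj : ∀ τ σ, τ ⊂ σ → Disjoint (Set.range (idx (φ τ))) (Set.range (idx (φ σ)))
  disj' : ∀ τ σ, τ ⊂ σ → Disjoint (Set.range (idx (φ' τ))) (Set.range (idx (φ' σ)))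
  disj₁ : ∀ τ σ, τ ⊂ σ → Disjoint (Set.range (idx (φ τ))) (Set.range (idx (φ' σ)))
  disj₂ : ∀ τ σ, τ ⊂ σ → Disjoint (Set.range (idx (φ' τ))) (Set.range (idx (φ σ)))

variable [∀ a, FiniteDimensional ℂ (W a)] [∀ a, CompleteSpace (W a)]

theorem exists_frame {I : Type*} [DecidableEq I] (T : I → (KK W →L[ℂ] KK W)) (ε : ℝ≥0∞)
    (hε : 0 < ε) (hε1 : ε < 1) :
    ∃ f : Frame I, ∀ τ σ, τ ⊆ σ → ∀ i ∈ τ,
      ‖tOp (f.φ' τ) (f.inj' τ) * (T i * sOp (f.φ σ) (f.inj σ))‖ₑ ≤ ε * (4⁻¹) ^ σ.card ∧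
      ‖tOp (f.φ' σ) (f.inj' σ) * (T i * sOp (f.φ τ) (f.inj τ))‖ₑ ≤ ε * (4⁻¹) ^ σ.card := by
  classical
  obtain ⟨B, hB⟩ := exists_family (fun i => ent (T i)) (fun i j a => ent_tendsto (T i) j a)
    (fun i j a => ent_tendsto' (T i) j a) ε hε hε1
  let en : ∀ (σ : Finset I) (a : ℕ), ℕ ↪ {n | (a, n) ∈ B σ} := fun σ a =>
    Set.Infinite.natEmbedding _ ((hB σ).1 a)
  let φ : Finset I → ℕ → ℕ → ℕ := fun σ a n => (en σ a (2 * n) : ℕ)
  let φ' : Finset I → ℕ → ℕ → ℕ := fun σ a n => (en σ a (2 * n + 1) : ℕ)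
  have hφ : ∀ σ a, Function.Injective (φ σ a) := by
    intro σ a m n h
    have h1 : en σ a (2 * m) = en σ a (2 * n) := Subtype.ext h
    have h2 := (en σ a).injective h1
    omega
  have hφ' : ∀ σ a, Function.Injective (φ' σ a) := by
    intro σ a m n h
    have h1 : en σ a (2 * m + 1) = en σ a (2 * n + 1) := Subtype.ext h
    have h2 := (en σ a).injective h1
    omega
  have hr : ∀ σ, Set.range (idx (φ σ)) ⊆ B σ := by
    rintro σ _ ⟨⟨a, n⟩, rfl⟩
    exact (en σ a (2 * n)).2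
  have hr' : ∀ σ, Set.range (idx (φ' σ)) ⊆ B σ := by
    rintro σ _ ⟨⟨a, n⟩, rfl⟩
    exact (en σ a (2 * n + 1)).2
  have hself : ∀ σ, Disjoint (Set.range (idx (φ σ))) (Set.range (idx (φ' σ))) := by
    intro σ
    rw [Set.disjoint_left]
    rintro _ ⟨⟨a, n⟩, rfl⟩ ⟨⟨b, m⟩, h⟩
    simp only [idx, Prod.mk.injEq] at h
    obtain ⟨rfl, h⟩ := h
    have h1 : en σ b (2 * m + 1) = en σ b (2 * n) := Subtype.ext h
    have h2 := (en σ b).injective h1
    omega
  refine ⟨⟨φ, φ', hφ, hφ', hself,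
    fun τ σ h => ((hB σ).2.2 τ h).1.mono (hr τ) (hr σ),
    fun τ σ h => ((hB σ).2.2 τ h).1.mono (hr' τ) (hr' σ),
    fun τ σ h => ((hB σ).2.2 τ h).1.mono (hr τ) (hr' σ),
    fun τ σ h => ((hB σ).2.2 τ h).1.mono (hr' τ) (hr σ)⟩, ?_⟩
  intro τ σ hτσ i hi
  show ‖tOp (φ' τ) (hφ' τ) * (T i * sOp (φ σ) (hφ σ))‖ₑ ≤ _ ∧
    ‖tOp (φ' σ) (hφ' σ) * (T i * sOp (φ τ) (hφ τ))‖ₑ ≤ _
  rcases hτσ.eq_or_ssubset with rfl | hss
  · have h1 : ‖tOp (φ' τ) (hφ' τ) * (T i * sOp (φ τ) (hφ τ))‖ₑ ≤ ε * (4⁻¹) ^ τ.card := by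
      refine (corner_le (T i) (φ' τ) (φ τ) (hφ' τ) (hφ τ) _ _ subset_rfl subset_rfl).trans ?_
      refine le_trans ?_ ((hB τ).2.1 i hi)
      calc ∑' k : Set.range (idx (φ' τ)), ∑' j : Set.range (idx (φ τ)), ent (T i) k j
          = ∑' k : Set.range (idx (φ' τ)), ∑' j : Set.range (idx (φ τ)),
              (fun k j : ℕ × ℕ => if k = j then 0 else ent (T i) k j) k j := by
            refine tsum_congr fun k => tsum_congr fun j => ?_
            have : (k : ℕ × ℕ) ≠ j := by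
              intro h
              exact Set.disjoint_left.1 (hself τ) j.2 (h ▸ k.2)
            simp only [this, if_false]
        _ ≤ ∑' k : Set.range (idx (φ' τ)), ∑' j : B τ,
              (fun k j : ℕ × ℕ => if k = j then 0 else ent (T i) k j) k j :=
            ENNReal.tsum_le_tsum fun k => ENNReal.tsum_mono_subtype
              (fun j : ℕ × ℕ => if (k : ℕ × ℕ) = j then 0 else ent (T i) k j) (hr τ)
        _ ≤ ∑' k : B τ, ∑' j : B τ,
              (fun k j : ℕ × ℕ => if k = j then 0 else ent (T i) k j) k j :=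
            ENNReal.tsum_mono_subtype (fun k : ℕ × ℕ => ∑' j : B τ,
              (if k = (j : ℕ × ℕ) then 0 else ent (T i) k j)) (hr' τ)
    exact ⟨h1, h1⟩
  · have h2 := ((hB σ).2.2 τ hss).2 i hi
    exact ⟨(corner_le (T i) (φ' τ) (φ σ) (hφ' τ) (hφ σ) _ _ (hr' τ) (hr σ)).trans h2.1,
      (corner_le (T i) (φ' σ) (φ τ) (hφ' σ) (hφ τ) _ _ (hr' σ) (hr τ)).trans h2.2⟩

end Frames

section Weights

variable {I Z : Type*} [TopologicalSpace Z]

/-- Weights of the barycentric subdivision. -/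
structure Weights (I Z : Type*) [TopologicalSpace Z] where
  /-- the weights -/
  x : Finset I → Z → ℝ
  cont : ∀ τ, Continuous (x τ)
  lf : LocallyFinite fun τ => Function.support (x τ)
  nonneg : ∀ τ z, 0 ≤ x τ z
  sq_sum : ∀ z, ∑ᶠ τ, x τ z ^ 2 = 1
  chain : ∀ z τ σ, x τ z ≠ 0 → x σ z ≠ 0 → τ ⊆ σ ∨ σ ⊆ τ
  nonempty : ∀ z τ, x τ z ≠ 0 → τ.Nonempty

open Classical in
theorem exists_weights (lam : PartitionOfUnity I Z) :
    ∃ w : Weights I Z, ∀ z τ, w.x τ z ≠ 0 → ∀ i ∈ τ, lam i z ≠ 0 := by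
  -- nonnegative version
  let L : I → Z → NNReal := fun i z => (lam i z).toNNReal
  have hLc : ∀ i, Continuous (L i) := fun i => continuous_real_toNNReal.comp (lam i).continuous
  have hL0 : ∀ i z, L i z ≠ 0 ↔ lam i z ≠ 0 := by
    intro i z
    have := lam.nonneg i z
    simp only [L, ne_eq, Real.toNNReal_eq_zero, not_le]
    constructor
    · intro h; exact h.ne'
    · intro h; exact lt_of_le_of_ne this (Ne.symm h)
  let M : Finset I → Z → NNReal := fun τ z => (lam.finsupport z \ τ).sup fun j => L j z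
  have hM : ∀ τ z j, j ∉ τ → L j z ≤ M τ z := by
    intro τ z j hj
    by_cases h : L j z = 0
    · rw [h]; exact zero_le
    · refine Finset.le_sup (f := fun j => L j z) ?_
      rw [Finset.mem_sdiff, lam.mem_finsupport]
      exact ⟨(hL0 j z).1 h, hj⟩
  have hMc : ∀ τ, Continuous (M τ) := by
    intro τ
    rw [continuous_iff_continuousAt]
    intro z0
    have h1 : Continuous fun z => (lam.fintsupport z0 \ τ).sup fun j => L j z :=
      Continuous.finset_sup_apply fun i _ => hLc i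
    refine h1.continuousAt.congr ?_
    filter_upwards [lam.eventually_finsupport_subset z0] with z hz
    apply le_antisymm
    · refine Finset.sup_le fun j hj => ?_
      exact hM τ z j (Finset.mem_sdiff.1 hj).2
    · exact Finset.sup_mono (Finset.sdiff_subset_sdiff hz subset_rfl)
  let y : Finset I → Z → NNReal := fun τ z => if τ.Nonempty then ∏ i ∈ τ, (L i z - M τ z) else 0
  have hyc : ∀ τ, Continuous (y τ) := by
    intro τ
    by_cases h : τ.Nonempty
    · have : y τ = fun z => ∏ i ∈ τ, (L i z - M τ z) := by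
        funext z; simp only [y, if_pos h]
      rw [this]
      exact continuous_finsetProd _ fun i _ => (hLc i).sub (hMc τ)
    · have : y τ = fun z => 0 := by
        funext z; simp only [y, if_neg h]
      rw [this]
      exact continuous_const
  have hy : ∀ τ z, y τ z ≠ 0 → τ.Nonempty ∧ ∀ i ∈ τ, M τ z < L i z := by
    intro τ z h
    by_cases hτ : τ.Nonempty
    · refine ⟨hτ, fun i hi => ?_⟩
      simp only [y, if_pos hτ, Finset.prod_ne_zero_iff] at h
      have := h i hi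
      rwa [ne_eq, tsub_eq_zero_iff_le, not_le] at this
    · simp only [y, if_neg hτ] at h
      exact absurd rfl h
  have hy' : ∀ τ z, τ.Nonempty → (∀ i ∈ τ, M τ z < L i z) → y τ z ≠ 0 := by
    intro τ z hτ h
    simp only [y, if_pos hτ, Finset.prod_ne_zero_iff]
    intro i hi
    rw [ne_eq, tsub_eq_zero_iff_le, not_le]
    exact h i hi
  have hyl : ∀ τ z, y τ z ≠ 0 → ∀ i ∈ τ, lam i z ≠ 0 := by
    intro τ z h i hi
    rw [← hL0]
    exact (lt_of_le_of_lt zero_le ((hy τ z h).2 i hi)).ne'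
  have hylf : LocallyFinite fun τ => Function.support (y τ) := by
    intro z0
    refine ⟨{z | lam.finsupport z ⊆ lam.fintsupport z0}, lam.eventually_finsupport_subset z0, ?_⟩
    refine (Finset.finite_toSet (lam.fintsupport z0).powerset).subset ?_
    rintro τ ⟨z, hz1, hz2⟩
    rw [Finset.mem_coe, Finset.mem_powerset]
    intro i hi
    apply hz2
    rw [lam.mem_finsupport]
    exact hyl τ z hz1 i hi
  have hychain : ∀ z τ σ, y τ z ≠ 0 → y σ z ≠ 0 → τ ⊆ σ ∨ σ ⊆ τ := by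
    intro z τ σ h1 h2
    by_contra hcon
    push Not at hcon
    obtain ⟨⟨i, hi, hi'⟩, ⟨j, hj, hj'⟩⟩ := And.intro (Finset.not_subset.1 hcon.1)
      (Finset.not_subset.1 hcon.2)
    have e1 := (hy τ z h1).2 i hi
    have e2 := (hy σ z h2).2 j hj
    have e3 := hM τ z j hj'
    have e4 := hM σ z i hi'
    exact lt_irrefl _ (e1.trans_le (e4.trans (e2.le.trans e3)))
  have hyex : ∀ z, ∃ τ, y τ z ≠ 0 := by
    intro z
    obtain ⟨i0, hi0⟩ := lam.exists_pos (Set.mem_univ z)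
    have hi0' : i0 ∈ lam.finsupport z := (lam.mem_finsupport z).2 hi0.ne'
    obtain ⟨i1, hi1, hi1'⟩ := (lam.finsupport z).exists_max_image (fun j => L j z) ⟨i0, hi0'⟩
    let τ : Finset I := (lam.finsupport z).filter fun j => L j z = L i1 z
    have hi1τ : i1 ∈ τ := by simp [τ, hi1]
    refine ⟨τ, hy' τ z ⟨i1, hi1τ⟩ ?_⟩
    intro i hi
    have h1 : L i z = L i1 z := by simpa [τ, hi1] using (Finset.mem_filter.1 hi).2
    rw [h1]
    have hpos : 0 < L i1 z := by
      have := (hL0 i1 z).2 ((lam.mem_finsupport z).1 hi1)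
      exact pos_iff_ne_zero.2 this
    refine (Finset.sup_lt_iff hpos).2 ?_
    intro j hj
    rw [Finset.mem_sdiff] at hj
    refine lt_of_le_of_ne (hi1' j hj.1) ?_
    intro h
    exact hj.2 (Finset.mem_filter.2 ⟨hj.1, h⟩)
  -- normalisation
  let Q : Z → ℝ := fun z => ∑ᶠ τ, (y τ z : ℝ) ^ 2
  have hQlf : LocallyFinite fun τ => Function.support fun z => (y τ z : ℝ) ^ 2 := by
    refine hylf.subset fun τ z hz => ?_
    simp only [Function.mem_support, ne_eq] at hz ⊢
    intro h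
    apply hz
    rw [h]
    simp
  have hQc : Continuous Q := by
    refine continuous_finsum (fun τ => ?_) hQlf
    exact (NNReal.continuous_coe.comp (hyc τ)).pow 2
  have hQpos : ∀ z, 0 < Q z := by
    intro z
    obtain ⟨τ, hτ⟩ := hyex z
    have h1 : (Function.support fun τ => (y τ z : ℝ) ^ 2).Finite := hQlf.point_finite z
    have h2 : (y τ z : ℝ) ^ 2 ≤ Q z := single_le_finsum τ h1 fun j => by positivity
    have h3 : (0 : ℝ) < (y τ z : ℝ) ^ 2 := by
      have : (0 : ℝ) < y τ z := NNReal.coe_pos.2 (pos_iff_ne_zero.2 hτ)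
      positivity
    exact h3.trans_le h2
  have hx0 : ∀ τ z, (y τ z : ℝ) / Real.sqrt (Q z) ≠ 0 ↔ y τ z ≠ 0 := by
    intro τ z
    have := Real.sqrt_pos.2 (hQpos z)
    rw [ne_eq, div_eq_zero_iff, not_or]
    constructor
    · rintro ⟨h, _⟩ h'
      exact h (by rw [h']; rfl)
    · intro h
      exact ⟨fun h' => h (NNReal.coe_eq_zero.1 h'), this.ne'⟩
  refine ⟨⟨fun τ z => (y τ z : ℝ) / Real.sqrt (Q z), ?_, ?_, ?_, ?_, ?_, ?_⟩, ?_⟩
  · intro τ
    refine (NNReal.continuous_coe.comp (hyc τ)).div (Real.continuous_sqrt.comp hQc) fun z => ?_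
    exact (Real.sqrt_pos.2 (hQpos z)).ne'
  · refine hylf.subset fun τ z hz => ?_
    exact (hx0 τ z).1 hz
  · intro τ z
    positivity
  · intro z
    have h1 : ∀ τ, ((y τ z : ℝ) / Real.sqrt (Q z)) ^ 2 = (y τ z : ℝ) ^ 2 * (Q z)⁻¹ := by
      intro τ
      rw [div_pow, Real.sq_sqrt (hQpos z).le, div_eq_mul_inv]
    simp_rw [h1]
    rw [← finsum_mul' _ _ (hQlf.point_finite z)]
    exact mul_inv_cancel₀ (hQpos z).ne'
  · intro z τ σ h1 h2
    exact hychain z τ σ ((hx0 τ z).1 h1) ((hx0 σ z).1 h2)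
  · intro z τ h
    exact (hy τ z ((hx0 τ z).1 h)).1
  · intro z τ h
    exact hyl τ z ((hx0 τ z).1 h)

end Weights

section Diag

variable {W : ℕ → Type} [∀ a, NormedAddCommGroup (W a)] [∀ a, InnerProductSpace ℂ (W a)]

/-- The product of the unitary groups of the `W a`. -/
def GG (W : ℕ → Type) [∀ a, NormedAddCommGroup (W a)] [∀ a, InnerProductSpace ℂ (W a)] : Type :=
  ∀ a, W a ≃ₗᵢ[ℂ] W a

instance : Group (GG W) := inferInstanceAs (Group (∀ a, W a ≃ₗᵢ[ℂ] W a))

/-- The diagonal operator attached to a family of isometries. -/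
def dg (A : GG W) : KK W →L[ℂ] KK W :=
  LinearMap.mkContinuous
    { toFun := fun v => ⟨fun j => A j.1 (v j), memSq (by
        simp only [LinearIsometryEquiv.norm_map]
        exact summable_sq v)⟩
      map_add' := fun v w => by
        apply lp.ext
        funext j
        exact map_add (A j.1) _ _
      map_smul' := fun c v => by
        apply lp.ext
        funext j
        exact map_smul (A j.1) _ _ } 1 (by
    intro v
    rw [one_mul]
    refine norm_le_of_sq (norm_nonneg _) ?_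
    rw [← (hasSum_sq v).tsum_eq]
    refine le_of_eq (tsum_congr fun j => ?_)
    show ‖A j.1 (v j)‖ ^ 2 = _
    rw [LinearIsometryEquiv.norm_map])

lemma dg_apply (A : GG W) (v : KK W) (j : ℕ × ℕ) : (dg A v) j = A j.1 (v j) := rfl

lemma dg_one : dg (1 : GG W) = 1 := rfl

lemma dg_mul (A B : GG W) : dg (A * B) = dg A * dg B := rfl

lemma norm_dg (A : GG W) (v : KK W) : ‖dg A v‖ = ‖v‖ := by
  apply le_antisymm
  · have := (dg A).le_of_opNorm_le (LinearMap.mkContinuous_norm_le _ zero_le_one _) v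
    rwa [one_mul] at this
  · have := (dg A⁻¹).le_of_opNorm_le (LinearMap.mkContinuous_norm_le _ zero_le_one _) (dg A v)
    rw [one_mul] at this
    have h2 : dg A⁻¹ (dg A v) = v := by
      have : (dg A⁻¹ * dg A) v = v := by rw [← dg_mul, inv_mul_cancel, dg_one]; rfl
      exact this
    rwa [h2] at this

lemma dg_tOp (A : GG W) (φ : ℕ → ℕ → ℕ) (h : ∀ a, Function.Injective (φ a)) :
    dg A * tOp φ h = tOp φ h * dg A := rfl

lemma dg_sOp (A : GG W) (φ : ℕ → ℕ → ℕ) (h : ∀ a, Function.Injective (φ a)) :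
    dg A * sOp φ h = sOp φ h * dg A := by
  ext1 v
  apply lp.ext
  funext j
  show A j.1 ((sOp φ h v) j) = (sOp φ h (dg A v)) j
  by_cases hj : j ∈ Set.range (idx φ)
  · obtain ⟨⟨a, n⟩, rfl⟩ := hj
    show A a ((sOp φ h v) (a, φ a n)) = (sOp φ h (dg A v)) (a, φ a n)
    rw [sOp_apply, sOp_apply]
    rfl
  · rw [sOp_zero _ _ _ _ hj, sOp_zero _ _ _ _ hj, map_zero]

lemma rho_dg (A : GG W) : rho (dg A) = dg A := by
  ext1 v
  apply ext_pair
  intro a k n
  show (rhoOp (dg A) v) _ = _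
  rw [rhoOp_apply]
  rfl

variable [∀ a, CompleteSpace (W a)]

lemma adjoint_sOp (φ : ℕ → ℕ → ℕ) (h : ∀ a, Function.Injective (φ a)) :
    star (sOp φ h : KK W →L[ℂ] KK W) = tOp φ h := by
  rw [ContinuousLinearMap.star_eq_adjoint]
  symm
  rw [ContinuousLinearMap.eq_adjoint_iff]
  intro x y
  rw [← inner_conj_symm, ← inner_sOp φ h y x, inner_conj_symm]

lemma dg_mem (A : GG W) : dg A ∈ unitary (KK W →L[ℂ] KK W) := by
  have h1 : star (dg A) * dg A = 1 := by
    rw [ContinuousLinearMap.star_eq_adjoint]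
    exact (ContinuousLinearMap.norm_map_iff_adjoint_comp_self _).1 (norm_dg A)
  have h2 : dg A * dg A⁻¹ = 1 := by rw [← dg_mul, mul_inv_cancel, dg_one]
  have h3 : star (dg A) = dg A⁻¹ := by
    calc star (dg A) = star (dg A) * (dg A * dg A⁻¹) := by rw [h2, mul_one]
      _ = dg A⁻¹ := by rw [← mul_assoc, h1, one_mul]
  rw [Unitary.mem_iff]
  exact ⟨h1, by rw [h3, h2]⟩

/-- The diagonal unitaries. -/
def DG : GG W →* unitary (KK W →L[ℂ] KK W) where
  toFun A := ⟨dg A, dg_mem A⟩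
  map_one' := rfl
  map_mul' _ _ := rfl

lemma DG_coe (A : GG W) : (DG A : KK W →L[ℂ] KK W) = dg A := rfl

lemma DG_inv_coe (A : GG W) : ((DG A)⁻¹ : unitary (KK W →L[ℂ] KK W)) = (DG A⁻¹) :=
  (map_inv _ _).symm

end Diag

section Comb

variable {R : Type*} [NormedRing R] [NormedAlgebra ℂ R]
variable {I Z : Type*} [TopologicalSpace Z]

/-- Combination of a family of operators. -/
def comb (w : Weights I Z) (op : Finset I → R) (z : Z) : R :=
  ∑ᶠ τ, ((w.x τ z : ℝ) : ℂ) • op τ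

/-- The (finite) support at a point. -/
def supp (w : Weights I Z) (z : Z) : Finset (Finset I) := (w.lf.point_finite z).toFinset

lemma mem_supp {w : Weights I Z} {z : Z} {τ : Finset I} : τ ∈ supp w z ↔ w.x τ z ≠ 0 := by
  simp [supp]

lemma comb_eq (w : Weights I Z) (op : Finset I → R) (z : Z) :
    comb w op z = ∑ τ ∈ supp w z, ((w.x τ z : ℝ) : ℂ) • op τ := by
  refine finsum_eq_sum_of_support_subset _ fun τ hτ => ?_
  rw [Finset.mem_coe, mem_supp]
  intro h
  apply hτ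
  simp [h]

lemma supp_sq (w : Weights I Z) (z : Z) : ∑ τ ∈ supp w z, (w.x τ z) ^ 2 = 1 := by
  rw [← w.sq_sum z]
  symm
  refine finsum_eq_sum_of_support_subset _ fun τ hτ => ?_
  rw [Finset.mem_coe, mem_supp]
  intro h
  apply hτ
  simp [h]

lemma comb_continuous (w : Weights I Z) (op : Finset I → R) :
    Continuous (comb w op) := by
  refine continuous_finsum (fun τ => ?_) ?_
  · exact (Complex.continuous_ofReal.comp (w.cont τ)).smul continuous_const
  · refine w.lf.subset fun τ z hz => ?_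
    intro h
    apply hz
    simp [h]

lemma comb_mul (w : Weights I Z) (op op' : Finset I → R) (z : Z)
    (B : R) :
    comb w op z * (B * comb w op' z) = ∑ τ ∈ supp w z, ∑ σ ∈ supp w z,
      (((w.x τ z : ℝ) : ℂ) * ((w.x σ z : ℝ) : ℂ)) • (op τ * (B * op' σ)) := by
  rw [comb_eq, comb_eq, Finset.mul_sum, Finset.sum_mul_sum]
  refine Finset.sum_congr rfl fun τ _ => Finset.sum_congr rfl fun σ _ => ?_
  rw [mul_smul_comm, smul_mul_smul_comm]

lemma supp_chain {w : Weights I Z} {z : Z} {τ σ : Finset I} (hτ : τ ∈ supp w z)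
    (hσ : σ ∈ supp w z) : τ ⊆ σ ∨ σ ⊆ τ :=
  w.chain z τ σ (mem_supp.1 hτ) (mem_supp.1 hσ)

lemma comb_one (w : Weights I Z) (op op' : Finset I → R) (z : Z)
    (h : ∀ τ, op τ * op' τ = 1) (h' : ∀ τ σ, τ ⊂ σ → op τ * op' σ = 0)
    (h'' : ∀ τ σ, τ ⊂ σ → op σ * op' τ = 0) : comb w op z * comb w op' z = 1 := by
  have h0 := comb_mul w op op' z 1
  rw [one_mul] at h0
  rw [h0]
  have h1 : ∀ τ ∈ supp w z, ∑ σ ∈ supp w z,
      (((w.x τ z : ℝ) : ℂ) * ((w.x σ z : ℝ) : ℂ)) • (op τ * (1 * op' σ))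
      = (((w.x τ z) ^ 2 : ℝ) : ℂ) • (1 : R) := by
    intro τ hτ
    rw [Finset.sum_eq_single τ]
    · rw [one_mul, h τ]
      congr 1
      push_cast
      ring
    · intro σ hσ hne
      rw [one_mul]
      rcases supp_chain hτ hσ with hc | hc
      · rw [h' τ σ (hc.ssubset_of_ne hne.symm), smul_zero]
      · rw [h'' σ τ (hc.ssubset_of_ne hne), smul_zero]
    · intro hcon
      exact absurd hτ hcon
  rw [Finset.sum_congr rfl h1, ← Finset.sum_smul, ← Complex.ofReal_sum, supp_sq]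
  simp

lemma comb_zero (w : Weights I Z) (op op' : Finset I → R) (z : Z)
    (h : ∀ τ, op τ * op' τ = 0) (h' : ∀ τ σ, τ ⊂ σ → op τ * op' σ = 0)
    (h'' : ∀ τ σ, τ ⊂ σ → op σ * op' τ = 0) : comb w op z * comb w op' z = 0 := by
  have h0 := comb_mul w op op' z 1
  rw [one_mul] at h0
  rw [h0]
  refine Finset.sum_eq_zero fun τ hτ => Finset.sum_eq_zero fun σ hσ => ?_
  rw [one_mul]
  rcases supp_chain hτ hσ with hc | hc
  · rcases hc.eq_or_ssubset with rfl | hss
    · rw [h τ, smul_zero]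
    · rw [h' τ σ hss, smul_zero]
  · rcases hc.eq_or_ssubset with rfl | hss
    · rw [h _, smul_zero]
    · rw [h'' _ _ hss, smul_zero]

lemma comb_comm (w : Weights I Z) (op : Finset I → R) (z : Z)
    (B : R) (h : ∀ τ, B * op τ = op τ * B) :
    B * comb w op z = comb w op z * B := by
  rw [comb_eq, Finset.mul_sum, Finset.sum_mul]
  refine Finset.sum_congr rfl fun τ _ => ?_
  rw [mul_smul_comm, smul_mul_assoc, h]

lemma comb_star [StarRing R] [StarModule ℂ R] (w : Weights I Z)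
    (op : Finset I → R) (z : Z) :
    star (comb w op z) = comb w (fun τ => star (op τ)) z := by
  rw [comb_eq, comb_eq, star_sum]
  refine Finset.sum_congr rfl fun τ _ => ?_
  rw [star_smul]
  congr 1
  exact Complex.conj_ofReal _

lemma card_sum_le {C : Finset (Finset I)} (hC : ∀ τ ∈ C, ∀ σ ∈ C, τ ⊆ σ ∨ σ ⊆ τ)
    (hne : ∀ τ ∈ C, τ.Nonempty) : ∑ τ ∈ C, ((1 : ℝ) / 2) ^ τ.card ≤ 1 := by
  have hinj : Set.InjOn Finset.card (C : Set (Finset I)) := by
    intro τ hτ σ hσ h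
    rcases hC τ hτ σ hσ with h1 | h1
    · exact Finset.eq_of_subset_of_card_le h1 h.ge
    · exact (Finset.eq_of_subset_of_card_le h1 h.le).symm
  have h1 : ∑ τ ∈ C, ((1 : ℝ) / 2) ^ τ.card = ∑ n ∈ C.image Finset.card, ((1 : ℝ) / 2) ^ n :=
    (Finset.sum_image hinj).symm
  rw [h1]
  have h2 : HasSum (fun n : ℕ => ((1 : ℝ) / 2) ^ (n + 1)) 1 := by
    have h := hasSum_geometric_two.mul_left ((1 : ℝ) / 2)
    have e1 : (fun n : ℕ => (1 : ℝ) / 2 * (1 / 2) ^ n) = fun n : ℕ => ((1 : ℝ) / 2) ^ (n + 1) := by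
      funext n; rw [pow_succ, mul_comm]
    have e2 : (1 : ℝ) / 2 * 2 = 1 := by norm_num
    rwa [e1, e2] at h
  have h3 : C.image Finset.card = ((C.image Finset.card).image fun n => n - 1).image
      fun n => n + 1 := by
    ext n
    simp only [Finset.mem_image, exists_exists_and_eq_and]
    constructor
    · rintro ⟨τ, hτ, rfl⟩
      exact ⟨τ, hτ, Nat.sub_add_cancel (hne τ hτ).card_pos⟩
    · rintro ⟨τ, hτ, rfl⟩
      exact ⟨τ, hτ, (Nat.sub_add_cancel (hne τ hτ).card_pos).symm⟩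
  rw [h3, Finset.sum_image (fun a _ b _ h => Nat.succ_injective h)]
  refine le_trans (h2.summable.sum_le_tsum _ fun n _ => by positivity) h2.tsum_eq.le

lemma supp_x_le {w : Weights I Z} {z : Z} {τ : Finset I} (hτ : τ ∈ supp w z) : w.x τ z ≤ 1 := by
  have h1 : (w.x τ z) ^ 2 ≤ 1 := by
    rw [← supp_sq w z]
    exact Finset.single_le_sum (f := fun τ => w.x τ z ^ 2) (fun _ _ => by positivity) hτ
  have h2 := w.nonneg τ z
  nlinarith

lemma norm_smul_le_of {E : Type*} [NormedAddCommGroup E] [NormedSpace ℂ E] {a b : ℝ} {v : E}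
    {M : ℝ} (ha : 0 ≤ a) (ha1 : a ≤ 1) (hb : 0 ≤ b) (hb1 : b ≤ 1) (hv : ‖v‖ ≤ M) :
    ‖((a : ℂ) * (b : ℂ)) • v‖ ≤ M := by
  rw [norm_smul, norm_mul, Complex.norm_real, Complex.norm_real, Real.norm_eq_abs,
    Real.norm_eq_abs, abs_of_nonneg ha, abs_of_nonneg hb]
  have h1 : a * b ≤ 1 := mul_le_one₀ ha1 hb hb1
  calc a * b * ‖v‖ ≤ 1 * ‖v‖ := mul_le_mul_of_nonneg_right h1 (norm_nonneg _)
    _ ≤ M := by rwa [one_mul]

lemma comb_corner (w : Weights I Z) (op op' : Finset I → R) (z : Z)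
    (B : R) (ε : ℝ) (hε : 0 ≤ ε)
    (h : ∀ τ ∈ supp w z, ∀ σ ∈ supp w z,
      ‖op τ * (B * op' σ)‖ ≤ ε * ((1 / 2) ^ τ.card * (1 / 2) ^ σ.card)) :
    ‖comb w op z * (B * comb w op' z)‖ ≤ ε := by
  have hs : ∑ τ ∈ supp w z, ((1 : ℝ) / 2) ^ τ.card ≤ 1 :=
    card_sum_le (fun τ hτ σ hσ => supp_chain hτ hσ)
      (fun τ hτ => w.nonempty z τ (mem_supp.1 hτ))
  have hs0 : 0 ≤ ∑ τ ∈ supp w z, ((1 : ℝ) / 2) ^ τ.card :=
    Finset.sum_nonneg fun _ _ => by positivity
  have h1 : ‖comb w op z * (B * comb w op' z)‖ ≤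
      ∑ τ ∈ supp w z, ∑ σ ∈ supp w z, ε * ((1 / 2) ^ τ.card * (1 / 2) ^ σ.card) := by
    rw [comb_mul]
    exact norm_sum_le_of_le _ fun τ hτ => norm_sum_le_of_le _ fun σ hσ =>
      norm_smul_le_of (w.nonneg τ z) (supp_x_le hτ) (w.nonneg σ z) (supp_x_le hσ) (h τ hτ σ hσ)
  refine h1.trans ?_
  calc ∑ τ ∈ supp w z, ∑ σ ∈ supp w z, ε * ((1 / 2) ^ τ.card * (1 / 2) ^ σ.card)
      = ε * ((∑ τ ∈ supp w z, ((1 : ℝ) / 2) ^ τ.card) *
          ∑ τ ∈ supp w z, ((1 : ℝ) / 2) ^ τ.card) := by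
        rw [Finset.sum_mul_sum, Finset.mul_sum]
        refine Finset.sum_congr rfl fun τ _ => ?_
        rw [Finset.mul_sum]
    _ ≤ ε * (1 * 1) := by gcongr
    _ = ε := by ring

end Comb

section InvWeights

/-- Pull back of weights. -/
def Weights.comap {I Z Y : Type*} [TopologicalSpace Z] [TopologicalSpace Y] (w : Weights I Z)
    (F : Y → Z) (hF : Continuous F) : Weights I Y where
  x τ y := w.x τ (F y)
  cont τ := (w.cont τ).comp hF
  lf := w.lf.preimage_continuous hF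
  nonneg τ y := w.nonneg τ (F y)
  sq_sum y := w.sq_sum (F y)
  chain y := w.chain (F y)
  nonempty y := w.nonempty (F y)

open Metric TopologicalSpace in
theorem exists_inv_weights {X Γ : Type*} [EMetricSpace X] [Group Γ] [MulAction Γ X]
    [IsIsometricSMul Γ X] (r : ℝ≥0∞) (hr : 0 < r) :
    ∃ w : Weights X X, (∀ (g : Γ) u τ, w.x τ (g • u) = w.x τ u) ∧
      ∀ u τ, w.x τ u ≠ 0 → ∀ i ∈ τ, ∃ g : Γ, edist u (g • i) < r := by
  let F0 : X → Closeds X := fun u => Closeds.closure (MulAction.orbit Γ u)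
  have hF0 : LipschitzWith 1 F0 := by
    intro u v
    rw [ENNReal.coe_one, one_mul, Closeds.edist_eq]
    show hausdorffEDist (closure (MulAction.orbit Γ u)) (closure (MulAction.orbit Γ v)) ≤ _
    rw [hausdorffEDist_closure]
    refine hausdorffEDist_le_of_mem_edist ?_ ?_
    · rintro _ ⟨g, rfl⟩
      exact ⟨g • v, ⟨g, rfl⟩, (edist_smul_left g u v).le⟩
    · rintro _ ⟨g, rfl⟩
      refine ⟨g • u, ⟨g, rfl⟩, ?_⟩
      rw [edist_comm u v]
      exact (edist_smul_left g v u).le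
  let F : X → Set.range F0 := Set.rangeFactorization F0
  have hF : Continuous F := hF0.continuous.subtype_mk _
  have hFinv : ∀ (g : Γ) u, F (g • u) = F u := by
    intro g u
    apply Subtype.ext
    show F0 (g • u) = F0 u
    simp only [F0, MulAction.orbit_smul]
  let U : X → Set (Set.range F0) := fun i => {z | edist (z : Closeds X) (F0 i) < r}
  have hUo : ∀ i, IsOpen (U i) := fun i =>
    isOpen_lt (continuous_subtype_val.edist continuous_const) continuous_const
  have hUc : Set.univ ⊆ ⋃ i, U i := by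
    rintro ⟨_, u, rfl⟩ -
    refine Set.mem_iUnion.2 ⟨u, ?_⟩
    show edist (F0 u) (F0 u) < r
    rwa [edist_self]
  obtain ⟨lam, hlam⟩ := PartitionOfUnity.exists_isSubordinate isClosed_univ U hUo hUc
  obtain ⟨w, hw⟩ := exists_weights lam
  refine ⟨w.comap F hF, ?_, ?_⟩
  · intro g u τ
    show w.x τ (F (g • u)) = w.x τ (F u)
    rw [hFinv]
  · intro u τ h i hi
    have h1 : lam i (F u) ≠ 0 := hw (F u) τ h i hi
    have h2 : F u ∈ U i := hlam i (subset_closure h1)
    have h3 : hausdorffEDist (closure (MulAction.orbit Γ u)) (closure (MulAction.orbit Γ i)) < r :=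
      h2
    rw [hausdorffEDist_closure] at h3
    obtain ⟨y, ⟨g, rfl⟩, hy⟩ := exists_edist_lt_of_hausdorffEDist_lt (MulAction.mem_orbit_self u) h3
    exact ⟨g, hy⟩

theorem exists_inv_weights_act {X Γ : Type*} [EMetricSpace X] [Group Γ] (act : Γ → X → X)
    (h1 : ∀ u, act 1 u = u) (hm : ∀ A B u, act (A * B) u = act A (act B u))
    (hi : ∀ A, Isometry (act A)) (r : ℝ≥0∞) (hr : 0 < r) :
    ∃ w : Weights X X, (∀ (g : Γ) u τ, w.x τ (act g u) = w.x τ u) ∧
      ∀ u τ, w.x τ u ≠ 0 → ∀ i ∈ τ, ∃ g : Γ, edist u (act g i) < r :=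
  letI : MulAction Γ X := { smul := act, one_smul := h1, mul_smul := hm }
  haveI : IsIsometricSMul Γ X := ⟨hi⟩
  exists_inv_weights (Γ := Γ) r hr

end InvWeights

section Action

variable {W : ℕ → Type} [∀ a, NormedAddCommGroup (W a)] [∀ a, InnerProductSpace ℂ (W a)]
variable [∀ a, CompleteSpace (W a)]

/-- The conjugation action of the diagonal unitaries. -/
def act (A : GG W) (u : unitary (KK W →L[ℂ] KK W)) : unitary (KK W →L[ℂ] KK W) :=
  DG A * u * (DG A)⁻¹

lemma act_one (u : unitary (KK W →L[ℂ] KK W)) : act 1 u = u := by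
  simp [act]

lemma act_mul (A B : GG W) (u : unitary (KK W →L[ℂ] KK W)) :
    act (A * B) u = act A (act B u) := by
  show DG (A * B) * u * (DG (A * B))⁻¹ = DG A * (DG B * u * (DG B)⁻¹) * (DG A)⁻¹
  rw [map_mul, mul_inv_rev]
  simp only [mul_assoc]

lemma act_coe (A : GG W) (u : unitary (KK W →L[ℂ] KK W)) :
    (act A u : KK W →L[ℂ] KK W) = dg A * u * dg A⁻¹ := by
  rw [act, DG_inv_coe]
  rfl

lemma act_inv (A : GG W) (u : unitary (KK W →L[ℂ] KK W)) : (act A u)⁻¹ = act A u⁻¹ := by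
  rw [act, act]
  group

lemma norm_conj (A : GG W) (T : KK W →L[ℂ] KK W) : ‖dg A * T * dg A⁻¹‖ = ‖T‖ := by
  have h1 : ‖(DG A : KK W →L[ℂ] KK W) * T * (DG A⁻¹ : KK W →L[ℂ] KK W)‖ = ‖T‖ := by
    rw [CStarRing.norm_mul_coe_unitary, CStarRing.norm_coe_unitary_mul]
  exact h1

lemma act_isometry (A : GG W) : Isometry (act A) := by
  refine Isometry.of_dist_eq fun u v => ?_
  rw [Subtype.dist_eq, Subtype.dist_eq, act_coe, act_coe, dist_eq_norm, dist_eq_norm,
    ← sub_mul, ← mul_sub, norm_conj]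

/-- The ring of continuous equivariant maps. -/
def CC (W : ℕ → Type) [∀ a, NormedAddCommGroup (W a)] [∀ a, InnerProductSpace ℂ (W a)]
    [∀ a, CompleteSpace (W a)] :
    Subring (unitary (KK W →L[ℂ] KK W) → (KK W →L[ℂ] KK W)) where
  carrier := {c | Continuous c ∧ ∀ (A : GG W) u, c (act A u) = dg A * c u * dg A⁻¹}
  mul_mem' := by
    rintro c d ⟨hc, hc'⟩ ⟨hd, hd'⟩
    refine ⟨hc.mul hd, fun A u => ?_⟩
    have h1 : dg A⁻¹ * dg A = (1 : KK W →L[ℂ] KK W) := by rw [← dg_mul, inv_mul_cancel, dg_one]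
    show c (act A u) * d (act A u) = dg A * (c u * d u) * dg A⁻¹
    rw [hc', hd']
    calc dg A * c u * dg A⁻¹ * (dg A * d u * dg A⁻¹)
        = dg A * c u * (dg A⁻¹ * dg A) * (d u * dg A⁻¹) := by simp only [mul_assoc]
      _ = dg A * (c u * d u) * dg A⁻¹ := by rw [h1, mul_one]; simp only [mul_assoc]
  one_mem' := by
    refine ⟨continuous_const, fun A u => ?_⟩
    show 1 = dg A * 1 * dg A⁻¹
    rw [mul_one, ← dg_mul, mul_inv_cancel, dg_one]
  add_mem' := by
    rintro c d ⟨hc, hc'⟩ ⟨hd, hd'⟩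
    refine ⟨hc.add hd, fun A u => ?_⟩
    show c (act A u) + d (act A u) = dg A * (c u + d u) * dg A⁻¹
    rw [hc', hd', mul_add, add_mul]
  zero_mem' := by
    refine ⟨continuous_const, fun A u => ?_⟩
    show 0 = dg A * 0 * dg A⁻¹
    rw [mul_zero, zero_mul]
  neg_mem' := by
    rintro c ⟨hc, hc'⟩
    refine ⟨hc.neg, fun A u => ?_⟩
    show -c (act A u) = dg A * (-c u) * dg A⁻¹
    rw [hc', mul_neg, neg_mul]

/-- Constants in the ring. -/
def cst (T : KK W →L[ℂ] KK W) (h : ∀ A : GG W, dg A * T = T * dg A) : CC W :=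
  ⟨fun _ => T, continuous_const, fun A _ => by
    rw [h, mul_assoc, ← dg_mul, mul_inv_cancel, dg_one, mul_one]⟩

/-- The amplification on the ring. -/
def rhoC : CC W →+* CC W where
  toFun c := ⟨fun u => rho (c.1 u), rho_continuous.comp c.2.1, fun A u => by
    show rho (c.1 (act A u)) = dg A * rho (c.1 u) * dg A⁻¹
    rw [c.2.2 A u, map_mul, map_mul, rho_dg, rho_dg]⟩
  map_one' := by
    apply Subtype.ext
    funext u
    exact map_one rho
  map_mul' c d := by
    apply Subtype.ext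
    funext u
    exact map_mul rho _ _
  map_zero' := by
    apply Subtype.ext
    funext u
    exact map_zero rho
  map_add' c d := by
    apply Subtype.ext
    funext u
    exact map_add rho _ _

/-- The identity map. -/
def idC (W : ℕ → Type) [∀ a, NormedAddCommGroup (W a)] [∀ a, InnerProductSpace ℂ (W a)]
    [∀ a, CompleteSpace (W a)] : CC W :=
  ⟨fun u => u, continuous_subtype_val, fun A u => act_coe A u⟩

/-- The inverse map. -/
def invC (W : ℕ → Type) [∀ a, NormedAddCommGroup (W a)] [∀ a, InnerProductSpace ℂ (W a)]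
    [∀ a, CompleteSpace (W a)] : CC W :=
  ⟨fun u => ((u⁻¹ : unitary (KK W →L[ℂ] KK W)) : KK W →L[ℂ] KK W),
    continuous_subtype_val.comp continuous_inv, fun A u => by
      show ((act A u)⁻¹ : unitary (KK W →L[ℂ] KK W)).1 = dg A * (u⁻¹ : unitary (KK W →L[ℂ] KK W)).1 * dg A⁻¹
      rw [act_inv, act_coe]⟩

/-- Combinations in the ring. -/
def combC (w : Weights (unitary (KK W →L[ℂ] KK W)) (unitary (KK W →L[ℂ] KK W)))
    (hw : ∀ (A : GG W) u τ, w.x τ (act A u) = w.x τ u)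
    (op : Finset (unitary (KK W →L[ℂ] KK W)) → (KK W →L[ℂ] KK W))
    (h : ∀ (A : GG W) τ, dg A * op τ = op τ * dg A) : CC W :=
  ⟨comb w op, comb_continuous w op, fun A u => by
    have h1 : comb w op (act A u) = comb w op u := by
      unfold comb
      simp_rw [hw]
    rw [h1, comb_comm w op u _ (h A), mul_assoc, ← dg_mul, mul_inv_cancel, dg_one, mul_one]⟩

lemma norm_le_one_of_isom {s : KK W →L[ℂ] KK W} (h : star s * s = 1) : ‖s‖ ≤ 1 := by
  have h1 : ‖star s * s‖ = ‖s‖ * ‖s‖ := CStarRing.norm_star_mul_self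
  rw [h] at h1
  have h2 : ‖(1 : KK W →L[ℂ] KK W)‖ ≤ 1 := ContinuousLinearMap.norm_id_le
  have h3 := norm_nonneg s
  nlinarith

/-- The inverse of `1 - c` in the ring. -/
def invSub (c : CC W) (h : ∀ u, ‖c.1 u‖ < 1) : CC W :=
  ⟨fun u => Ring.inverse (1 - c.1 u), by
    rw [continuous_iff_continuousAt]
    intro u
    obtain ⟨x, hx⟩ := isUnit_one_sub_of_norm_lt_one (h u)
    have h1 : ContinuousAt Ring.inverse (1 - c.1 u) := by
      rw [← hx]
      exact NormedRing.inverse_continuousAt x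
    exact ContinuousAt.comp (f := fun u => 1 - c.1 u) h1 (continuous_const.sub c.2.1).continuousAt,
  fun A u => by
    show Ring.inverse (1 - c.1 (act A u)) = dg A * Ring.inverse (1 - c.1 u) * dg A⁻¹
    have h1 : IsUnit (1 - c.1 u) := isUnit_one_sub_of_norm_lt_one (h u)
    have h2 : IsUnit (1 - c.1 (act A u)) := isUnit_one_sub_of_norm_lt_one (h (act A u))
    have e1 : dg A⁻¹ * dg A = (1 : KK W →L[ℂ] KK W) := by rw [← dg_mul, inv_mul_cancel, dg_one]
    have e2 : dg A * dg A⁻¹ = (1 : KK W →L[ℂ] KK W) := by rw [← dg_mul, mul_inv_cancel, dg_one]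
    have e3 : 1 - c.1 (act A u) = dg A * (1 - c.1 u) * dg A⁻¹ := by
      rw [c.2.2 A u, mul_sub, sub_mul, mul_one, e2]
    have e4 : dg A * Ring.inverse (1 - c.1 u) * dg A⁻¹ * (1 - c.1 (act A u)) = 1 := by
      rw [e3]
      calc dg A * Ring.inverse (1 - c.1 u) * dg A⁻¹ * (dg A * (1 - c.1 u) * dg A⁻¹)
          = dg A * Ring.inverse (1 - c.1 u) * (dg A⁻¹ * dg A) * ((1 - c.1 u) * dg A⁻¹) := by
            simp only [mul_assoc]
        _ = dg A * (Ring.inverse (1 - c.1 u) * (1 - c.1 u)) * dg A⁻¹ := by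
            rw [e1, mul_one]; simp only [mul_assoc]
        _ = 1 := by rw [Ring.inverse_mul_cancel _ h1, mul_one, e2]
    calc Ring.inverse (1 - c.1 (act A u))
        = (dg A * Ring.inverse (1 - c.1 u) * dg A⁻¹ * (1 - c.1 (act A u))) *
            Ring.inverse (1 - c.1 (act A u)) := by rw [e4, one_mul]
      _ = _ := by rw [mul_assoc, Ring.mul_inverse_cancel _ h2, mul_one]⟩

lemma invSub_mul (c : CC W) (h : ∀ u, ‖c.1 u‖ < 1) : invSub c h * (1 - c) = 1 := by
  apply Subtype.ext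
  funext u
  exact Ring.inverse_mul_cancel _ (isUnit_one_sub_of_norm_lt_one (h u))

end Action

section Main

variable {W : ℕ → Type} [∀ a, NormedAddCommGroup (W a)] [∀ a, InnerProductSpace ℂ (W a)]
variable [∀ a, CompleteSpace (W a)]

/-- Combination of the isometries of a frame. -/
def cs {I Z : Type*} [TopologicalSpace Z] (w : Weights I Z) (f : Frame I) :
    Z → (KK W →L[ℂ] KK W) := comb w (fun τ => sOp (f.φ τ) (f.inj τ))

/-- Combination of the coisometries of a frame. -/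
def ct {I Z : Type*} [TopologicalSpace Z] (w : Weights I Z) (f : Frame I) :
    Z → (KK W →L[ℂ] KK W) := comb w (fun τ => tOp (f.φ τ) (f.inj τ))

/-- The swapped frame. -/
def Frame.swap {I : Type*} (f : Frame I) : Frame I :=
  ⟨f.φ', f.φ, f.inj', f.inj, fun σ => (f.disj_self σ).symm, f.disj', f.disj, f.disj₂, f.disj₁⟩

lemma ct_cs {I Z : Type*} [TopologicalSpace Z] (w : Weights I Z) (f : Frame I) (z : Z) :
    (ct w f z : KK W →L[ℂ] KK W) * cs w f z = 1 :=
  comb_one w _ _ z (fun τ => tOp_sOp _ _)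
    (fun τ σ h => tOp_sOp_zero _ _ _ _ (f.disj τ σ h))
    (fun τ σ h => tOp_sOp_zero _ _ _ _ (f.disj τ σ h).symm)

lemma ct_cs_swap {I Z : Type*} [TopologicalSpace Z] (w : Weights I Z) (f : Frame I) (z : Z) :
    (ct w f z : KK W →L[ℂ] KK W) * cs w f.swap z = 0 :=
  comb_zero w _ _ z (fun τ => tOp_sOp_zero _ _ _ _ (f.disj_self τ))
    (fun τ σ h => tOp_sOp_zero _ _ _ _ (f.disj₁ τ σ h))
    (fun τ σ h => tOp_sOp_zero _ _ _ _ (f.disj₂ τ σ h).symm)

lemma cs_norm {I Z : Type*} [TopologicalSpace Z] (w : Weights I Z) (f : Frame I) (z : Z) :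
    ‖(cs w f z : KK W →L[ℂ] KK W)‖ ≤ 1 := by
  have h1 : star (cs w f z : KK W →L[ℂ] KK W) = ct w f z := by
    rw [cs, comb_star]
    simp_rw [adjoint_sOp]
    rfl
  exact norm_le_one_of_isom (by rw [h1]; exact ct_cs w f z)

lemma ct_norm {I Z : Type*} [TopologicalSpace Z] (w : Weights I Z) (f : Frame I) (z : Z) :
    ‖(ct w f z : KK W →L[ℂ] KK W)‖ ≤ 1 := by
  have h1 : star (cs w f z : KK W →L[ℂ] KK W) = ct w f z := by
    rw [cs, comb_star]
    simp_rw [adjoint_sOp]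
    rfl
  have h2 := cs_norm (W := W) w f z
  have h3 : ‖ContinuousLinearMap.adjoint (cs w f z : KK W →L[ℂ] KK W)‖ = ‖(cs w f z : KK W →L[ℂ] KK W)‖ :=
    LinearIsometryEquiv.norm_map _ _
  rw [← h1, ContinuousLinearMap.star_eq_adjoint, h3]
  exact h2

lemma cs_comm {I Z : Type*} [TopologicalSpace Z] (w : Weights I Z) (f : Frame I) (z : Z)
    (A : GG W) : dg A * cs w f z = cs w f z * dg A :=
  comb_comm w _ z _ fun τ => dg_sOp A _ _

lemma ct_comm {I Z : Type*} [TopologicalSpace Z] (w : Weights I Z) (f : Frame I) (z : Z)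
    (A : GG W) : dg A * ct w f z = ct w f z * dg A :=
  comb_comm w _ z _ fun τ => dg_tOp A _ _

/-- The combined isometry in the ring. -/
def csC (w : Weights (unitary (KK W →L[ℂ] KK W)) (unitary (KK W →L[ℂ] KK W)))
    (hw : ∀ (A : GG W) u τ, w.x τ (act A u) = w.x τ u)
    (f : Frame (unitary (KK W →L[ℂ] KK W))) : CC W :=
  combC w hw (fun τ => sOp (f.φ τ) (f.inj τ)) fun A τ => dg_sOp A _ _

/-- The combined coisometry in the ring. -/
def ctC (w : Weights (unitary (KK W →L[ℂ] KK W)) (unitary (KK W →L[ℂ] KK W)))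
    (hw : ∀ (A : GG W) u τ, w.x τ (act A u) = w.x τ u)
    (f : Frame (unitary (KK W →L[ℂ] KK W))) : CC W :=
  combC w hw (fun τ => tOp (f.φ τ) (f.inj τ)) fun A τ => dg_tOp A _ _

lemma csC_apply (w : Weights (unitary (KK W →L[ℂ] KK W)) (unitary (KK W →L[ℂ] KK W)))
    (hw : ∀ (A : GG W) u τ, w.x τ (act A u) = w.x τ u)
    (f : Frame (unitary (KK W →L[ℂ] KK W))) (u) : (csC w hw f).1 u = cs w f u := rfl

lemma ctC_apply (w : Weights (unitary (KK W →L[ℂ] KK W)) (unitary (KK W →L[ℂ] KK W)))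
    (hw : ∀ (A : GG W) u τ, w.x τ (act A u) = w.x τ u)
    (f : Frame (unitary (KK W →L[ℂ] KK W))) (u) : (ctC w hw f).1 u = ct w f u := rfl

lemma CC_ext {c d : CC W} (h : ∀ u, c.1 u = d.1 u) : c = d := Subtype.ext (funext h)

lemma half_pow_le {m n : ℕ} (h : m ≤ n) :
    ((1 : ℝ) / 4) ^ n ≤ (1 / 2) ^ m * (1 / 2) ^ n := by
  have h1 : ((1 : ℝ) / 4) ^ n = (1 / 2) ^ n * (1 / 2) ^ n := by
    rw [← mul_pow]; norm_num
  rw [h1]
  exact mul_le_mul_of_nonneg_right (pow_le_pow_of_le_one (by norm_num) (by norm_num) h)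
    (by positivity)

lemma toReal_bound {x : ℝ} {n : ℕ} (h : ENNReal.ofReal x ≤ 4⁻¹ * (4⁻¹) ^ n) :
    x ≤ 1 / 4 * (1 / 4) ^ n := by
  have h1 : (4⁻¹ : ℝ≥0∞) * (4⁻¹) ^ n = ENNReal.ofReal (1 / 4 * (1 / 4) ^ n) := by
    rw [ENNReal.ofReal_mul (by norm_num), ENNReal.ofReal_pow (by norm_num)]
    have : ENNReal.ofReal (1 / 4) = 4⁻¹ := by
      rw [one_div, ENNReal.ofReal_inv_of_pos (by norm_num)]
      simp
    rw [this]
  rw [h1, ENNReal.ofReal_le_ofReal_iff (by positivity)] at h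
  exact h

variable [∀ a, FiniteDimensional ℂ (W a)]

theorem exists_good (W : ℕ → Type) [∀ a, NormedAddCommGroup (W a)]
    [∀ a, InnerProductSpace ℂ (W a)] [∀ a, CompleteSpace (W a)]
    [∀ a, FiniteDimensional ℂ (W a)] :
    ∃ (f : Frame (unitary (KK W →L[ℂ] KK W)))
      (w : Weights (unitary (KK W →L[ℂ] KK W)) (unitary (KK W →L[ℂ] KK W))),
      (∀ (A : GG W) u τ, w.x τ (act A u) = w.x τ u) ∧
      ∀ u : unitary (KK W →L[ℂ] KK W),
        ‖ct w f.swap u * ((u : KK W →L[ℂ] KK W) * cs w f u)‖ ≤ 1 / 2 := by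
  classical
  obtain ⟨f, hf⟩ := exists_frame (fun u : unitary (KK W →L[ℂ] KK W) => (u : KK W →L[ℂ] KK W))
    4⁻¹ (by simp) (by
      rw [ENNReal.inv_lt_one]
      norm_num)
  obtain ⟨w, hw, hw'⟩ := exists_inv_weights_act (X := unitary (KK W →L[ℂ] KK W)) (Γ := GG W) act
    act_one act_mul act_isometry (ENNReal.ofReal (1 / 4)) (by simp)
  refine ⟨f, w, hw, fun u => ?_⟩
  -- a vertex
  have hne : (supp w u).Nonempty := by
    by_contra hcon
    rw [Finset.not_nonempty_iff_eq_empty] at hcon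
    have := supp_sq w u
    rw [hcon, Finset.sum_empty] at this
    exact zero_ne_one this
  obtain ⟨ρ, hρ, hρ'⟩ := (supp w u).exists_min_image Finset.card hne
  have hρsub : ∀ τ ∈ supp w u, ρ ⊆ τ := by
    intro τ hτ
    rcases supp_chain hρ hτ with h | h
    · exact h
    · exact (Finset.eq_of_subset_of_card_le h (hρ' τ hτ)).symm.subset
  obtain ⟨i, hi⟩ := w.nonempty u ρ (mem_supp.1 hρ)
  obtain ⟨A, hA⟩ := hw' u ρ (mem_supp.1 hρ) i hi
  -- the main estimate
  have h1 : ‖ct w f.swap u * ((i : KK W →L[ℂ] KK W) * cs w f u)‖ ≤ 1 / 4 := by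
    refine comb_corner w _ _ u _ (1 / 4) (by norm_num) ?_
    intro τ hτ σ hσ
    have key : ∀ τ σ : Finset (unitary (KK W →L[ℂ] KK W)), τ ⊆ σ → i ∈ τ →
        ‖tOp (f.φ' τ) (f.inj' τ) * ((i : KK W →L[ℂ] KK W) * sOp (f.φ σ) (f.inj σ))‖ ≤
          1 / 4 * ((1 / 2) ^ τ.card * (1 / 2) ^ σ.card) ∧
        ‖tOp (f.φ' σ) (f.inj' σ) * ((i : KK W →L[ℂ] KK W) * sOp (f.φ τ) (f.inj τ))‖ ≤
          1 / 4 * ((1 / 2) ^ σ.card * (1 / 2) ^ τ.card) := by
      intro τ σ hsub hiτ
      obtain ⟨g1, g2⟩ := hf τ σ hsub i hiτ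
      rw [← ofReal_norm] at g1 g2
      have hp := half_pow_le (Finset.card_le_card hsub)
      refine ⟨(toReal_bound g1).trans ?_, (toReal_bound g2).trans ?_⟩
      · exact mul_le_mul_of_nonneg_left hp (by norm_num)
      · rw [mul_comm ((1 / 2 : ℝ) ^ σ.card)]
        exact mul_le_mul_of_nonneg_left hp (by norm_num)
    rcases supp_chain hτ hσ with h | h
    · exact (key τ σ h (hρsub τ hτ hi)).1
    · exact (key σ τ h (hρsub σ hσ hi)).2
  -- translation
  have e2 : dg A * dg A⁻¹ = (1 : KK W →L[ℂ] KK W) := by rw [← dg_mul, mul_inv_cancel, dg_one]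
  have h2 : ‖ct w f.swap u * ((act A i : KK W →L[ℂ] KK W) * cs w f u)‖ ≤ 1 / 4 := by
    have : ct w f.swap u * ((act A i : KK W →L[ℂ] KK W) * cs w f u)
        = dg A * (ct w f.swap u * ((i : KK W →L[ℂ] KK W) * cs w f u)) * dg A⁻¹ := by
      rw [act_coe]
      calc ct w f.swap u * (dg A * (i : KK W →L[ℂ] KK W) * dg A⁻¹ * cs w f u)
          = (ct w f.swap u * dg A) * ((i : KK W →L[ℂ] KK W) * (dg A⁻¹ * cs w f u)) := by
            simp only [mul_assoc]
        _ = _ := by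
            rw [← ct_comm, cs_comm w f u A⁻¹]
            simp only [mul_assoc]
    rw [this, norm_conj]
    exact h1
  have h3 : ‖(u : KK W →L[ℂ] KK W) - (act A i : KK W →L[ℂ] KK W)‖ ≤ 1 / 4 := by
    rw [edist_dist, ENNReal.ofReal_lt_ofReal_iff (by norm_num), Subtype.dist_eq,
      dist_eq_norm] at hA
    exact hA.le
  have h4 : ‖ct w f.swap u * (((u : KK W →L[ℂ] KK W) - (act A i : KK W →L[ℂ] KK W)) * cs w f u)‖
      ≤ 1 / 4 := by
    calc _ ≤ ‖(ct w f.swap u : KK W →L[ℂ] KK W)‖ *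
          (‖(u : KK W →L[ℂ] KK W) - (act A i : KK W →L[ℂ] KK W)‖ * ‖(cs w f u : KK W →L[ℂ] KK W)‖) :=
          (norm_mul_le _ _).trans (mul_le_mul_of_nonneg_left (norm_mul_le _ _) (norm_nonneg _))
      _ ≤ 1 * (1 / 4 * 1) := by
          refine mul_le_mul (ct_norm w _ u) (mul_le_mul h3 (cs_norm w _ u) (norm_nonneg _)
            (by norm_num)) (by positivity) zero_le_one
      _ = 1 / 4 := by norm_num
  have h5 : ct w f.swap u * ((u : KK W →L[ℂ] KK W) * cs w f u)
      = ct w f.swap u * (((u : KK W →L[ℂ] KK W) - (act A i : KK W →L[ℂ] KK W)) * cs w f u)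
        + ct w f.swap u * ((act A i : KK W →L[ℂ] KK W) * cs w f u) := by
    rw [← mul_add, ← add_mul, sub_add_cancel]
  rw [h5]
  refine (norm_add_le _ _).trans ?_
  linarith

theorem id_unip (W : ℕ → Type) [∀ a, NormedAddCommGroup (W a)]
    [∀ a, InnerProductSpace ℂ (W a)] [∀ a, CompleteSpace (W a)]
    [∀ a, FiniteDimensional ℂ (W a)] : idC W ∈ Unip (CC W) := by
  obtain ⟨f, w, hw, hb⟩ := exists_good W
  let s : CC W := csC w hw f
  let sb : CC W := ctC w hw f
  let s' : CC W := csC w hw f.swap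
  let sb' : CC W := ctC w hw f.swap
  have hsmall : ∀ u, ‖((sb' * (idC W * s)) * (sb * (invC W * s')) : CC W).1 u‖ < 1 := by
    intro u
    have h1 : ((sb' * (idC W * s)) * (sb * (invC W * s')) : CC W).1 u
        = (ct w f.swap u * ((u : KK W →L[ℂ] KK W) * cs w f u)) *
          (ct w f u * (((u⁻¹ : unitary (KK W →L[ℂ] KK W)) : KK W →L[ℂ] KK W) *
            cs w f.swap u)) := rfl
    rw [h1]
    have h2 : ‖((u⁻¹ : unitary (KK W →L[ℂ] KK W)) : KK W →L[ℂ] KK W)‖ ≤ 1 := by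
      refine norm_le_one_of_isom ?_
      exact Unitary.coe_star_mul_self _
    have h3 : ‖(ct w f u * (((u⁻¹ : unitary (KK W →L[ℂ] KK W)) : KK W →L[ℂ] KK W) *
            cs w f.swap u))‖ ≤ 1 := by
      calc _ ≤ ‖(ct w f u : KK W →L[ℂ] KK W)‖ *
          (‖((u⁻¹ : unitary (KK W →L[ℂ] KK W)) : KK W →L[ℂ] KK W)‖ *
            ‖(cs w f.swap u : KK W →L[ℂ] KK W)‖) :=
            (norm_mul_le _ _).trans (mul_le_mul_of_nonneg_left (norm_mul_le _ _) (norm_nonneg _))
        _ ≤ 1 * (1 * 1) := mul_le_mul (ct_norm w _ u) (mul_le_mul h2 (cs_norm w _ u)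
            (norm_nonneg _) zero_le_one) (by positivity) zero_le_one
        _ = 1 := by norm_num
    calc _ ≤ _ := norm_mul_le _ _
      _ ≤ 1 / 2 * 1 := mul_le_mul (hb u) h3 (norm_nonneg _) (by norm_num)
      _ < 1 := by norm_num
  refine factor (u := idC W) (ui := invC W) (s := s) (sb := sb) (s' := s') (sb' := sb')
    (m := invSub _ hsmall)
    (t0 := cst t0 fun A => dg_sOp A _ _) (tb0 := cst tb0 fun A => dg_tOp A _ _)
    (z := cst zz fun A => dg_sOp A _ _) (zb := cst zb fun A => dg_tOp A _ _)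
    (r0 := cst r0 fun A => dg_sOp A _ _) (rb0 := cst rb0 fun A => dg_tOp A _ _)
    (r1 := cst r1 fun A => dg_sOp A _ _) (rb1 := cst rb1 fun A => dg_tOp A _ _)
    rhoC ?_ ?_ ?_ ?_ ?_ ?_ ?_ ?_ ?_ ?_ ?_ ?_ ?_ ?_ ?_ ?_ ?_ ?_ ?_ ?_ ?_
  · exact CC_ext fun u => Unitary.coe_mul_star_self u
  · exact CC_ext fun u => Unitary.coe_star_mul_self u
  · exact CC_ext fun u => ct_cs w f u
  · exact CC_ext fun u => ct_cs w f.swap u
  · exact CC_ext fun u => ct_cs_swap w f u
  · exact CC_ext fun u => ct_cs_swap w f.swap u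
  · exact invSub_mul _ hsmall
  · exact CC_ext fun u => tb0_t0
  · exact CC_ext fun u => zb_zz
  · exact CC_ext fun u => tb0_zz
  · exact CC_ext fun u => zb_t0
  · exact CC_ext fun u => t_z_one
  · exact CC_ext fun u => rb0_r0
  · exact CC_ext fun u => rb1_r1
  · exact CC_ext fun u => rb0_r1
  · exact CC_ext fun u => rb1_r0
  · exact CC_ext fun u => r_one
  · exact fun a => CC_ext fun u => rho_t0 _
  · exact fun a => CC_ext fun u => tb0_rho _
  · exact fun a => CC_ext fun u => rho_zz _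
  · exact fun a => CC_ext fun u => zb_rho _

end Main

section Polar

variable {A : Type*} [CStarAlgebra A]

/-- The inverse square root function. -/
def isq (x : ℝ) : ℝ := (Real.sqrt x)⁻¹

/-- The unitary part in the polar decomposition. -/
def pol (a : A) : A := a * cfc isq (star a * a)

lemma isq_cont : ContinuousOn isq (Set.Ioi 0) := by
  refine Real.continuous_sqrt.continuousOn.inv₀ fun x hx => ?_
  exact (Real.sqrt_pos.2 hx).ne'

lemma spec_pos {a : A} (ha : IsUnit a) : spectrum ℝ (star a * a) ⊆ Set.Ioi 0 := by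
  intro x hx
  have h1 := spectrum_star_mul_self_nonneg x hx
  refine lt_of_le_of_ne h1 ?_
  rintro rfl
  exact (spectrum.zero_mem_iff ℝ).1 hx (ha.star.mul ha)

lemma pol_continuousOn : ContinuousOn (pol : A → A) {a | IsUnit a} := by
  unfold pol
  refine continuousOn_id.mul ?_
  refine ContinuousOn.cfc_of_mem_nhdsSet (s := Set.Ioi 0) isq ?_ ?_ ?_ isq_cont
  · rw [isOpen_Ioi.mem_nhdsSet]
    exact Set.iUnion₂_subset fun a ha => spec_pos ha
  · exact (continuous_star.mul continuous_id).continuousOn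
  · intro a _
    exact IsSelfAdjoint.star_mul_self a

lemma cfc_isq_mul {a : A} (ha : IsUnit a) :
    cfc isq (star a * a) * (star a * a) * cfc isq (star a * a) = 1 := by
  have hs := spec_pos ha
  have hc : ContinuousOn isq (spectrum ℝ (star a * a)) := isq_cont.mono hs
  have hsa : IsSelfAdjoint (star a * a) := IsSelfAdjoint.star_mul_self a
  have h1 : cfc isq (star a * a) * (star a * a) = cfc (fun x => isq x * x) (star a * a) := by
    rw [cfc_mul isq (fun x => x) (star a * a) hc continuousOn_id, cfc_id' ℝ (star a * a)]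
  rw [h1, ← cfc_mul (fun x => isq x * x) isq (star a * a) (hc.mul continuousOn_id) hc]
  rw [cfc_congr (g := fun _ => 1), cfc_const_one ℝ (star a * a)]
  intro x hx
  have hx' : 0 < Real.sqrt x := Real.sqrt_pos.2 (hs hx)
  have hx2 : x = Real.sqrt x * Real.sqrt x := (Real.mul_self_sqrt (le_of_lt (hs hx))).symm
  show (Real.sqrt x)⁻¹ * x * (Real.sqrt x)⁻¹ = 1
  rw [show (Real.sqrt x)⁻¹ * x * (Real.sqrt x)⁻¹
    = (Real.sqrt x)⁻¹ * (Real.sqrt x * Real.sqrt x) * (Real.sqrt x)⁻¹ by rw [← hx2]]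
  field_simp

lemma pol_mem {a : A} (ha : IsUnit a) : pol a ∈ unitary A := by
  have h0 := cfc_isq_mul ha
  have hsa : star (cfc isq (star a * a)) = cfc isq (star a * a) :=
    (cfc_predicate isq (star a * a) : IsSelfAdjoint _)
  have h1 : star (pol a) * pol a = 1 := by
    unfold pol
    rw [star_mul, hsa]
    rw [← mul_assoc] at h0
    calc cfc isq (star a * a) * star a * (a * cfc isq (star a * a))
        = cfc isq (star a * a) * (star a * a) * cfc isq (star a * a) := by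
          simp only [mul_assoc]
      _ = 1 := by rw [← mul_assoc]; exact h0
  have h2 : IsUnit (pol a) := by
    unfold pol
    refine ha.mul ?_
    have e1 : cfc isq (star a * a) * ((star a * a) * cfc isq (star a * a)) = 1 := by
      rw [← mul_assoc]; exact h0
    exact isUnit_iff_exists.2 ⟨_, e1, by
      have e2 : (cfc isq (star a * a) * (star a * a)) * cfc isq (star a * a) = 1 := h0
      have e3 : (star a * a) * cfc isq (star a * a) = cfc isq (star a * a) * (star a * a) := by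
        calc (star a * a) * cfc isq (star a * a)
            = ((cfc isq (star a * a) * (star a * a)) * cfc isq (star a * a)) *
                ((star a * a) * cfc isq (star a * a)) := by rw [e2, one_mul]
          _ = (cfc isq (star a * a) * (star a * a)) *
                (cfc isq (star a * a) * ((star a * a) * cfc isq (star a * a))) := by
              simp only [mul_assoc]
          _ = _ := by rw [e1, mul_one]
      rw [e3, h0]⟩
  rw [Unitary.mem_iff]
  refine ⟨h1, ?_⟩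
  obtain ⟨x, hx⟩ := h2
  have h3 : star (pol a) = (x⁻¹ : Aˣ) := by
    calc star (pol a) = star (pol a) * (pol a * (x⁻¹ : Aˣ)) := by
          rw [← hx, Units.mul_inv, mul_one]
      _ = (x⁻¹ : Aˣ) := by rw [← mul_assoc, h1, one_mul]
  rw [h3, ← hx, Units.mul_inv]

lemma pol_unitary (u : unitary A) : pol (u : A) = u := by
  unfold pol
  rw [Unitary.coe_star_mul_self, cfc_apply_one]
  simp [isq]

lemma pol_conj (v : unitary A) {a : A} (ha : IsUnit a) :
    pol ((v : A) * a * star (v : A)) = (v : A) * pol a * star (v : A) := by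
  have hv : star (v : A) * (v : A) = 1 := Unitary.coe_star_mul_self v
  have h1 : star ((v : A) * a * star (v : A)) * ((v : A) * a * star (v : A))
      = (v : A) * (star a * a) * star (v : A) := by
    rw [star_mul, star_mul, star_star]
    calc (v : A) * (star a * star (v : A)) * ((v : A) * a * star (v : A))
        = (v : A) * star a * (star (v : A) * (v : A)) * (a * star (v : A)) := by
          simp only [mul_assoc]
      _ = _ := by rw [hv, mul_one]; simp only [mul_assoc]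
  have hs := spec_pos ha
  have hc : ContinuousOn isq (spectrum ℝ (star a * a)) := isq_cont.mono hs
  have hsa : IsSelfAdjoint (star a * a) := IsSelfAdjoint.star_mul_self a
  have h2 : cfc isq ((v : A) * (star a * a) * star (v : A))
      = (v : A) * cfc isq (star a * a) * star (v : A) := by
    have hcont : Continuous (Unitary.conjStarAlgAut ℂ A v) := by
      show Continuous fun x : A => (v : A) * x * star (v : A)
      fun_prop
    have := StarAlgHomClass.map_cfc (S := ℂ) (Unitary.conjStarAlgAut ℂ A v) isq (star a * a) hc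
      hcont hsa (by
        show IsSelfAdjoint ((v : A) * (star a * a) * star (v : A))
        rw [← h1]
        exact IsSelfAdjoint.star_mul_self _)
    exact this.symm
  unfold pol
  rw [h1, h2]
  calc (v : A) * a * star (v : A) * ((v : A) * cfc isq (star a * a) * star (v : A))
      = (v : A) * a * (star (v : A) * (v : A)) * (cfc isq (star a * a) * star (v : A)) := by
        simp only [mul_assoc]
    _ = _ := by rw [hv, mul_one]; simp only [mul_assoc]

end Polar

section Homotopy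

variable {W : ℕ → Type} [∀ a, NormedAddCommGroup (W a)] [∀ a, InnerProductSpace ℂ (W a)]
variable [∀ a, CompleteSpace (W a)]

/-- Equivariant homotopy through invertible elements from the identity element. -/
structure Htpy (c : CC W) where
  /-- the homotopy -/
  H : ℝ × unitary (KK W →L[ℂ] KK W) → (KK W →L[ℂ] KK W)
  /-- the inverse of the homotopy -/
  Hi : ℝ × unitary (KK W →L[ℂ] KK W) → (KK W →L[ℂ] KK W)
  cont : Continuous H
  mul_inv : ∀ p, H p * Hi p = 1
  inv_mul : ∀ p, Hi p * H p = 1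
  zero : ∀ u, H (0, u) = 1
  one : ∀ u, H (1, u) = c.1 u
  equiv : ∀ t (A : GG W) u, H (t, act A u) = dg A * H (t, u) * dg A⁻¹

lemma htpy_of_unip {c : CC W} (hc : c ∈ Unip (CC W)) : Nonempty (Htpy c) := by
  induction hc using Submonoid.closure_induction with
  | mem x hx =>
    obtain ⟨N, hN, rfl⟩ := hx
    have hN' : ∀ u, N.1 u * N.1 u = 0 := fun u => congrFun (congrArg Subtype.val hN) u
    refine ⟨⟨fun p => 1 + (p.1 : ℂ) • N.1 p.2, fun p => 1 - (p.1 : ℂ) • N.1 p.2, ?_, ?_, ?_, ?_,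
      ?_, ?_⟩⟩
    · exact continuous_const.add ((Complex.continuous_ofReal.comp continuous_fst).smul
        (N.2.1.comp continuous_snd))
    · intro p
      show (1 + (p.1 : ℂ) • N.1 p.2) * (1 - (p.1 : ℂ) • N.1 p.2) = 1
      have h1 : ((p.1 : ℂ) • N.1 p.2) * ((p.1 : ℂ) • N.1 p.2) = 0 := by
        rw [smul_mul_smul_comm, hN', smul_zero]
      rw [add_mul, one_mul, mul_sub, mul_one, h1]
      abel
    · intro p
      show (1 - (p.1 : ℂ) • N.1 p.2) * (1 + (p.1 : ℂ) • N.1 p.2) = 1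
      have h1 : ((p.1 : ℂ) • N.1 p.2) * ((p.1 : ℂ) • N.1 p.2) = 0 := by
        rw [smul_mul_smul_comm, hN', smul_zero]
      rw [sub_mul, one_mul, mul_add, mul_one, h1]
      abel
    · intro u
      show 1 + ((0 : ℝ) : ℂ) • N.1 u = 1
      rw [Complex.ofReal_zero, zero_smul, add_zero]
    · intro u
      show 1 + ((1 : ℝ) : ℂ) • N.1 u = 1 + N.1 u
      rw [Complex.ofReal_one, one_smul]
    · intro t A u
      show 1 + (t : ℂ) • N.1 (act A u) = dg A * (1 + (t : ℂ) • N.1 u) * dg A⁻¹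
      have e2 : dg A * dg A⁻¹ = (1 : KK W →L[ℂ] KK W) := by
        rw [← dg_mul, mul_inv_cancel, dg_one]
      rw [N.2.2 A u, mul_add, add_mul, mul_one, e2, mul_smul_comm, smul_mul_assoc]
  | one =>
    refine ⟨⟨fun _ => 1, fun _ => 1, continuous_const, fun _ => one_mul 1, fun _ => one_mul 1,
      fun _ => rfl, fun _ => rfl, fun t A u => ?_⟩⟩
    show 1 = dg A * 1 * dg A⁻¹
    rw [mul_one, ← dg_mul, mul_inv_cancel, dg_one]
  | mul x y _ _ hx hy =>
    obtain ⟨h⟩ := hx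
    obtain ⟨k⟩ := hy
    refine ⟨⟨fun p => h.H p * k.H p, fun p => k.Hi p * h.Hi p, h.cont.mul k.cont, ?_, ?_, ?_, ?_,
      ?_⟩⟩
    · intro p
      show h.H p * k.H p * (k.Hi p * h.Hi p) = 1
      rw [mul_assoc, ← mul_assoc (k.H p), k.mul_inv, one_mul, h.mul_inv]
    · intro p
      show k.Hi p * h.Hi p * (h.H p * k.H p) = 1
      rw [mul_assoc, ← mul_assoc (h.Hi p), h.inv_mul, one_mul, k.inv_mul]
    · intro u
      show h.H (0, u) * k.H (0, u) = 1
      rw [h.zero, k.zero, one_mul]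
    · intro u
      show h.H (1, u) * k.H (1, u) = x.1 u * y.1 u
      rw [h.one, k.one]
    · intro t A u
      show h.H (t, act A u) * k.H (t, act A u) = dg A * (h.H (t, u) * k.H (t, u)) * dg A⁻¹
      have h1 : dg A⁻¹ * dg A = (1 : KK W →L[ℂ] KK W) := by rw [← dg_mul, inv_mul_cancel, dg_one]
      rw [h.equiv, k.equiv]
      calc dg A * h.H (t, u) * dg A⁻¹ * (dg A * k.H (t, u) * dg A⁻¹)
          = dg A * h.H (t, u) * (dg A⁻¹ * dg A) * (k.H (t, u) * dg A⁻¹) := by
            simp only [mul_assoc]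
        _ = dg A * (h.H (t, u) * k.H (t, u)) * dg A⁻¹ := by
            rw [h1, mul_one]; simp only [mul_assoc]

lemma star_dg (A : GG W) : star (dg A : KK W →L[ℂ] KK W) = dg A⁻¹ := by
  have h1 : star (dg A) * dg A = (1 : KK W →L[ℂ] KK W) := Unitary.coe_star_mul_self (DG A)
  have h2 : dg A * dg A⁻¹ = (1 : KK W →L[ℂ] KK W) := by rw [← dg_mul, mul_inv_cancel, dg_one]
  calc star (dg A) = star (dg A) * (dg A * dg A⁻¹) := by rw [h2, mul_one]
    _ = dg A⁻¹ := by rw [← mul_assoc, h1, one_mul]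

/-- The abstract equivariant Kuiper theorem. -/
theorem kuiper_abs (W : ℕ → Type) [∀ a, NormedAddCommGroup (W a)]
    [∀ a, InnerProductSpace ℂ (W a)] [∀ a, CompleteSpace (W a)]
    [∀ a, FiniteDimensional ℂ (W a)] :
    ∃ h : ℝ × unitary (KK W →L[ℂ] KK W) → unitary (KK W →L[ℂ] KK W), Continuous h ∧
      (∀ u, h (0, u) = u) ∧ (∀ u, h (1, u) = 1) ∧
      ∀ t (A : GG W) u, h (t, act A u) = act A (h (t, u)) := by
  obtain ⟨K⟩ := htpy_of_unip (id_unip W)
  have hu : ∀ p, IsUnit (K.H p) := fun p => isUnit_iff_exists.2 ⟨K.Hi p, K.mul_inv p, K.inv_mul p⟩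
  refine ⟨fun p => ⟨pol (K.H (1 - p.1, p.2)), pol_mem (hu _)⟩, ?_, ?_, ?_, ?_⟩
  · refine Continuous.subtype_mk ?_ _
    have h1 : Continuous fun p : ℝ × unitary (KK W →L[ℂ] KK W) => K.H (1 - p.1, p.2) :=
      K.cont.comp ((continuous_const.sub continuous_fst).prodMk continuous_snd)
    exact pol_continuousOn.comp_continuous h1 fun p => hu _
  · intro u
    apply Subtype.ext
    show pol (K.H (1 - 0, u)) = u
    rw [sub_zero, K.one]
    exact pol_unitary u
  · intro u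
    apply Subtype.ext
    show pol (K.H (1 - 1, u)) = 1
    rw [sub_self, K.zero]
    exact pol_unitary 1
  · intro t A u
    apply Subtype.ext
    rw [act_coe]
    show pol (K.H (1 - t, act A u)) = dg A * pol (K.H (1 - t, u)) * dg A⁻¹
    rw [K.equiv, ← star_dg]
    exact pol_conj (DG A) (hu _)

end Homotopy

section PeterWeyl

open MeasureTheory InnerProductSpace

variable {G : Type*} [TopologicalSpace G] [Group G] [IsTopologicalGroup G] [CompactSpace G]
  [MeasurableSpace G] [BorelSpace G] [SecondCountableTopology G]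
variable {E : Type*} [NormedAddCommGroup E] [InnerProductSpace ℂ E] [CompleteSpace E]

/-- The projection-like operator `z ↦ ⟪x, z⟫ x`. -/
def prj (x : E) : E →L[ℂ] E := rankOne ℂ x x

lemma prj_apply (x z : E) : prj x z = inner ℂ x z • x := rfl

/-- Compact selfadjoint operators. -/
def cptSa (E : Type*) [NormedAddCommGroup E] [InnerProductSpace ℂ E] [CompleteSpace E] :
    Set (E →L[ℂ] E) := {T | IsCompactOperator T ∧ IsSelfAdjoint T}

lemma prj_mem (x : E) : prj x ∈ cptSa E := by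
  refine ⟨?_, ?_⟩
  · rw [prj, rankOne_def']
    exact (isCompactOperator_of_locallyCompactSpace_rng
      (ContinuousLinearMap.toSpanSingleton ℂ x)).comp_clm (innerSL ℂ x)
  · rw [ContinuousLinearMap.isSelfAdjoint_iff', prj, InnerProductSpace.adjoint_rankOne]

lemma closed_cptSa : IsClosed (cptSa E) := by
  refine IsClosed.inter isClosed_setOfPred_isCompactOperator ?_
  exact isClosed_eq continuous_star continuous_id

lemma convex_cptSa : Convex ℝ (cptSa E) := by
  intro S hS T hT a b _ _ _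
  refine ⟨?_, ?_⟩
  · exact (hS.1.smul a).add (hT.1.smul b)
  · exact (IsSelfAdjoint.smul (IsSelfAdjoint.all a) hS.2).add
      (IsSelfAdjoint.smul (IsSelfAdjoint.all b) hT.2)

lemma prj_continuous : Continuous (prj : E → (E →L[ℂ] E)) := by
  have h1 : Continuous fun x : E => (innerSL ℂ x : E →L[ℂ] ℂ) := (innerSL ℂ).continuous
  exact ((ContinuousLinearMap.smulRightL ℂ E E).continuous.comp h1).clm_apply continuous_id

lemma integrable_cont (μ : Measure G) [μ.IsHaarMeasure] [IsProbabilityMeasure μ]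
    {F : Type*} [NormedAddCommGroup F] {P : G → F} (hP : Continuous P) : Integrable P μ :=
  hP.integrable_of_hasCompactSupport (HasCompactSupport.of_compactSpace P)

/-- The averaged operator. -/
def avg (μ : Measure G) (π : G →* (E ≃ₗᵢ[ℂ] E)) (v : E) : E →L[ℂ] E := ∫ g, prj (π g v) ∂μ

section

variable (μ : Measure G) [μ.IsHaarMeasure] [IsProbabilityMeasure μ]
  (π : G →* (E ≃ₗᵢ[ℂ] E)) (hπ : ∀ v, Continuous fun g => π g v) (v : E)

include hπ

lemma integrable_prj : Integrable (fun g => prj (π g v)) μ :=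
  integrable_cont μ (prj_continuous.comp (hπ v))

lemma avg_mem : avg μ π v ∈ cptSa E := by
  unfold avg
  have h1 := integrable_prj μ π hπ v
  have h2 : ∀ᵐ g ∂μ, prj (π g v) ∈ cptSa E := Filter.Eventually.of_forall fun g => prj_mem (π g v)
  have h3 := convex_cptSa (E := E)
  have h4 := closed_cptSa (E := E)
  exact h3.integral_mem h4 h2 h1

lemma avg_apply (x : E) : avg μ π v x = ∫ g, inner ℂ (π g v) x • π g v ∂μ := by
  rw [avg, ContinuousLinearMap.integral_apply (integrable_prj μ π hπ v)]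
  rfl

lemma avg_comm (h : G) (x : E) : avg μ π v (π h x) = π h (avg μ π v x) := by
  rw [avg_apply μ π hπ v, avg_apply μ π hπ v]
  have hc : Continuous fun g => inner ℂ (π g v) x • π g v :=
    ((hπ v).inner continuous_const).smul (hπ v)
  have h1 : π h (∫ g, inner ℂ (π g v) x • π g v ∂μ)
      = ∫ g, π h (inner ℂ (π g v) x • π g v) ∂μ :=
    ((π h).toContinuousLinearEquiv.toContinuousLinearMap.integral_comp_comm
      (integrable_cont μ hc)).symm
  rw [h1]
  rw [← integral_mul_left_eq_self (fun g => inner ℂ (π g v) (π h x) • π g v) h]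
  refine integral_congr_ae (Filter.Eventually.of_forall fun g => ?_)
  show inner ℂ (π (h * g) v) (π h x) • π (h * g) v = π h (inner ℂ (π g v) x • π g v)
  rw [map_mul, map_smul]
  show inner ℂ (π h (π g v)) (π h x) • π h (π g v) = _
  rw [LinearIsometryEquiv.inner_map_map]

lemma avg_pos (hv : v ≠ 0) : avg μ π v v ≠ 0 := by
  intro h0
  have h1 : inner ℂ v (avg μ π v v) = 0 := by rw [h0, inner_zero_right]
  rw [avg_apply μ π hπ v] at h1
  have hc : Continuous fun g => inner ℂ (π g v) v • π g v :=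
    ((hπ v).inner continuous_const).smul (hπ v)
  have h2 : inner ℂ v (∫ g, inner ℂ (π g v) v • π g v ∂μ)
      = ∫ g, inner ℂ v (inner ℂ (π g v) v • π g v) ∂μ :=
    ((innerSL ℂ v).integral_comp_comm (integrable_cont μ hc)).symm
  rw [h2] at h1
  have h3 : ∀ g, inner ℂ v (inner ℂ (π g v) v • π g v) = ((‖inner ℂ (π g v) v‖ ^ 2 : ℝ) : ℂ) := by
    intro g
    rw [inner_smul_right, ← inner_conj_symm v (π g v), RCLike.mul_conj]
    norm_cast
  simp_rw [h3] at h1
  rw [integral_complex_ofReal] at h1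
  have h4 : ∫ g, ‖inner ℂ (π g v) v‖ ^ 2 ∂μ = 0 := by exact_mod_cast h1
  have hc2 : Continuous fun g => ‖inner ℂ (π g v) v‖ ^ 2 :=
    (((hπ v).inner continuous_const).norm).pow 2
  have h5 : 0 < ∫ g, ‖inner ℂ (π g v) v‖ ^ 2 ∂μ := by
    refine hc2.integral_pos_of_hasCompactSupport_nonneg_nonzero
      (HasCompactSupport.of_compactSpace _) (fun g => by positivity) (x := 1) ?_
    rw [map_one]
    show ‖inner ℂ v v‖ ^ 2 ≠ 0
    rw [inner_self_eq_norm_sq_to_K]
    have : ‖v‖ ≠ 0 := norm_ne_zero_iff.2 hv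
    simp [this]
  exact h5.ne' h4

end

/-- A strongly continuous unitary representation of a compact group has many finite
dimensional invariant subspaces. -/
theorem exists_fd (μ : Measure G) [μ.IsHaarMeasure] [IsProbabilityMeasure μ]
    (π : G →* (E ≃ₗᵢ[ℂ] E)) (hπ : ∀ v, Continuous fun g => π g v) (v : E) (hv : v ≠ 0) :
    ∃ V : Submodule ℂ E, FiniteDimensional ℂ V ∧ (∀ g, ∀ x ∈ V, π g x ∈ V) ∧
      ∃ x ∈ V, inner ℂ x v ≠ 0 := by
  have hT := avg_mem μ π hπ v
  have hsym : (avg μ π v : E →ₗ[ℂ] E).IsSymmetric :=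
    ContinuousLinearMap.isSelfAdjoint_iff_isSymmetric.1 hT.2
  by_contra hcon
  have hall : ∀ c : ℂ, c ≠ 0 → ∀ x ∈ Module.End.eigenspace (avg μ π v : E →ₗ[ℂ] E) c,
      inner ℂ x v = 0 := by
    intro c hc x hx
    by_contra hne
    refine hcon ⟨Module.End.eigenspace (avg μ π v : E →ₗ[ℂ] E) c,
      ContinuousLinearMap.finite_dimensional_eigenspace hT.1 c hc, ?_, x, hx, hne⟩
    intro g y hy
    rw [Module.End.mem_eigenspace_iff] at hy ⊢
    show avg μ π v (π g y) = c • π g y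
    rw [avg_comm μ π hπ v]
    have hy' : avg μ π v y = c • y := hy
    rw [hy', map_smul]
  have h0 : avg μ π v v ∈ (⨆ c, Module.End.eigenspace (avg μ π v : E →ₗ[ℂ] E) c)ᗮ := by
    rw [← Submodule.iInf_orthogonal, Submodule.mem_iInf]
    intro c
    rw [Submodule.mem_orthogonal]
    intro x hx
    have h1 : inner ℂ x (avg μ π v v) = inner ℂ (avg μ π v x) v := (hsym x v).symm
    have h2 : avg μ π v x = c • x := Module.End.mem_eigenspace_iff.1 hx
    rw [h1, h2, inner_smul_left]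
    by_cases hc : c = 0
    · rw [hc]; simp
    · rw [hall c hc x hx, mul_zero]
  rw [ContinuousLinearMap.orthogonalComplement_iSup_eigenspaces_eq_bot hT.1 hsym,
    Submodule.mem_bot] at h0
  exact avg_pos μ π hπ v hv h0

end PeterWeyl

section Decomp

open MeasureTheory InnerProductSpace

variable {G : Type*} [Group G]
variable {E : Type*} [NormedAddCommGroup E] [InnerProductSpace ℂ E] [CompleteSpace E]

/-- The finite dimensional invariant subspaces. -/
def FD (π : G →* (E ≃ₗᵢ[ℂ] E)) : Set (Submodule ℂ E) :=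
  {V | FiniteDimensional ℂ V ∧ ∀ g, ∀ x ∈ V, π g x ∈ V}

lemma FD_bot (π : G →* (E ≃ₗᵢ[ℂ] E)) : (⊥ : Submodule ℂ E) ∈ FD π := by
  refine ⟨inferInstance, fun g x hx => ?_⟩
  rw [Submodule.mem_bot] at hx ⊢
  rw [hx, map_zero]

lemma FD_sup (π : G →* (E ≃ₗᵢ[ℂ] E)) {V V' : Submodule ℂ E} (h : V ∈ FD π) (h' : V' ∈ FD π) :
    V ⊔ V' ∈ FD π := by
  have := h.1
  have := h'.1
  refine ⟨inferInstance, fun g x hx => ?_⟩
  obtain ⟨y, hy, z, hz, rfl⟩ := Submodule.mem_sup.1 hx
  rw [map_add]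
  exact Submodule.add_mem_sup (h.2 g y hy) (h'.2 g z hz)

lemma FD_dense (π : G →* (E ≃ₗᵢ[ℂ] E))
    (h : ∀ v : E, v ≠ 0 → ∃ V ∈ FD π, ∃ x ∈ V, inner ℂ x v ≠ 0) (y : E) {ε : ℝ} (hε : 0 < ε) :
    ∃ V ∈ FD π, ∃ x ∈ V, dist y x < ε := by
  have h1 : (sSup (FD π))ᗮ = ⊥ := by
    rw [Submodule.eq_bot_iff]
    intro v hv
    by_contra hne
    obtain ⟨V, hV, x, hx, hxv⟩ := h v hne
    exact hxv ((Submodule.mem_orthogonal _ _).1 hv x (le_sSup hV hx))
  have h2 : (sSup (FD π)).topologicalClosure = ⊤ := Submodule.topologicalClosure_eq_top_iff.2 h1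
  have h3 : y ∈ closure ((sSup (FD π) : Submodule ℂ E) : Set E) := by
    rw [← Submodule.topologicalClosure_coe, h2]
    trivial
  obtain ⟨x, hx, hxy⟩ := Metric.mem_closure_iff.1 h3 ε hε
  have hdir : DirectedOn (· ≤ ·) (FD π) := fun V hV V' hV' =>
    ⟨V ⊔ V', FD_sup π hV hV', le_sup_left, le_sup_right⟩
  obtain ⟨V, hV, hxV⟩ := (Submodule.mem_sSup_of_directed ⟨⊥, FD_bot π⟩ hdir).1 hx
  exact ⟨V, hV, x, hxV, hxy⟩

/-- Partial sums of subspaces. -/
def psum (U : ℕ → Submodule ℂ E) : ℕ → Submodule ℂ E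
  | 0 => ⊥
  | n + 1 => psum U n ⊔ U n

lemma psum_mem (π : G →* (E ≃ₗᵢ[ℂ] E)) {U : ℕ → Submodule ℂ E} (hU : ∀ n, U n ∈ FD π) (n : ℕ) :
    psum U n ∈ FD π := by
  induction n with
  | zero => exact FD_bot π
  | succ n ih => exact FD_sup π ih (hU n)

lemma psum_mono (U : ℕ → Submodule ℂ E) : Monotone (psum U) :=
  monotone_nat_of_le_succ fun _ => le_sup_left

theorem exists_decomp [SecondCountableTopology E] (π : G →* (E ≃ₗᵢ[ℂ] E))
    (h : ∀ v : E, v ≠ 0 → ∃ V ∈ FD π, ∃ x ∈ V, inner ℂ x v ≠ 0) :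
    ∃ W : ℕ → Submodule ℂ E, (∀ n, W n ∈ FD π) ∧
      (∀ m n, m ≠ n → ∀ x ∈ W m, ∀ y ∈ W n, inner ℂ x y = 0) ∧
      (⨆ n, W n)ᗮ = ⊥ := by
  classical
  have hne : Nonempty E := ⟨0⟩
  have hex : ∀ m : ℕ, ∃ V ∈ FD π, ∃ x ∈ V,
      dist (TopologicalSpace.denseSeq E (Nat.unpair m).1) x < 1 / ((Nat.unpair m).2 + 1 : ℝ) :=
    fun m => FD_dense π h _ (by positivity)
  choose U hU x hx hxd using hex
  have hB := psum_mem π hU
  have hW : ∀ n, (psum U n)ᗮ ⊓ psum U (n + 1) ∈ FD π := by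
    intro n
    have := (hB (n + 1)).1
    refine ⟨Submodule.finiteDimensional_of_le inf_le_right, fun g y hy => ⟨?_, ?_⟩⟩
    · show π g y ∈ (psum U n)ᗮ
      rw [Submodule.mem_orthogonal]
      intro z hz
      have h1 : π g⁻¹ z ∈ psum U n := (hB n).2 g⁻¹ z hz
      have h2 : z = π g (π g⁻¹ z) := by
        have : (π g * π g⁻¹) z = z := by rw [← map_mul, mul_inv_cancel, map_one]; rfl
        exact this.symm
      rw [h2, LinearIsometryEquiv.inner_map_map]
      exact (Submodule.mem_orthogonal _ _).1 hy.1 _ h1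
    · exact (hB (n + 1)).2 g y hy.2
  refine ⟨fun n => (psum U n)ᗮ ⊓ psum U (n + 1), hW, ?_, ?_⟩
  · have key : ∀ m n, m < n → ∀ x ∈ (psum U m)ᗮ ⊓ psum U (m + 1),
        ∀ y ∈ (psum U n)ᗮ ⊓ psum U (n + 1), inner ℂ x y = 0 := by
      intro m n hmn x hx y hy
      exact (Submodule.mem_orthogonal _ _).1 hy.1 x (psum_mono U hmn hx.2)
    intro m n hmn x hx y hy
    rcases lt_or_gt_of_ne hmn with h1 | h1
    · exact key m n h1 x hx y hy
    · rw [← inner_conj_symm, key n m h1 y hy x hx, map_zero]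
  · have hle : ∀ n, psum U n ≤ ⨆ n, (psum U n)ᗮ ⊓ psum U (n + 1) := by
      intro n
      induction n with
      | zero => exact bot_le
      | succ n ih =>
        have := (hB n).1
        rw [← Submodule.sup_orthogonal_inf_of_hasOrthogonalProjection (psum_mono U n.le_succ)]
        exact sup_le ih (le_iSup (fun n => (psum U n)ᗮ ⊓ psum U (n + 1)) n)
    rw [← Submodule.topologicalClosure_eq_top_iff, Submodule.eq_top_iff']
    intro y
    have : y ∈ closure ((⨆ n, (psum U n)ᗮ ⊓ psum U (n + 1) : Submodule ℂ E) : Set E) := by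
      rw [Metric.mem_closure_iff]
      intro ε hε
      obtain ⟨k, hk⟩ := exists_nat_one_div_lt (half_pos hε)
      obtain ⟨i, hi⟩ := (TopologicalSpace.denseRange_denseSeq E).exists_dist_lt y (half_pos hε)
      refine ⟨x (Nat.pair i k), hle (Nat.pair i k + 1) ?_, ?_⟩
      · exact Submodule.mem_sup_right (hx _)
      · have h1 := hxd (Nat.pair i k)
        rw [Nat.unpair_pair] at h1
        calc dist y (x (Nat.pair i k))
            ≤ dist y (TopologicalSpace.denseSeq E i) +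
              dist (TopologicalSpace.denseSeq E i) (x (Nat.pair i k)) := dist_triangle _ _ _
          _ < ε / 2 + ε / 2 := add_lt_add hi (h1.trans hk)
          _ = ε := add_halves ε
    exact this

end Decomp

section Transport

open InnerProductSpace

variable {E : Type} [NormedAddCommGroup E] [InnerProductSpace ℂ E]

/-- The embedding of a subspace into the `n`-th coordinate. -/
def emb (W : ℕ → Submodule ℂ E) (j : ℕ × ℕ) : ↥(W j.1) →ₗᵢ[ℂ] lp (fun _ : ℕ => E) 2 where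
  toLinearMap := (lp.lsingle (𝕜 := ℂ) (E := fun _ : ℕ => E) 2 j.2) ∘ₗ (W j.1).subtype
  norm_map' x := by
    show ‖lp.single (E := fun _ : ℕ => E) 2 j.2 (x : E)‖ = ‖x‖
    rw [lp.norm_single (by norm_num)]
    rfl

lemma emb_apply (W : ℕ → Submodule ℂ E) (j : ℕ × ℕ) (x : ↥(W j.1)) :
    emb W j x = lp.single (E := fun _ : ℕ => E) 2 j.2 (x : E) := rfl

theorem emb_hilbert [CompleteSpace E] (W : ℕ → Submodule ℂ E)
    (hfd : ∀ a, FiniteDimensional ℂ (W a))
    (ho : ∀ m n, m ≠ n → ∀ x ∈ W m, ∀ y ∈ W n, inner ℂ x y = 0)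
    (ht : (⨆ n, W n)ᗮ = ⊥) :
    IsHilbertSum ℂ (fun j : ℕ × ℕ => ↥(W j.1)) (emb W) := by
  have hc : ∀ j : ℕ × ℕ, CompleteSpace ↥(W j.1) := fun j =>
    haveI := hfd j.1
    FiniteDimensional.complete ℂ _
  refine IsHilbertSum.mk ?_ ?_
  · intro j k hjk x y
    show inner ℂ (lp.single (E := fun _ : ℕ => E) 2 j.2 (x : E))
      (lp.single (E := fun _ : ℕ => E) 2 k.2 (y : E)) = 0
    rw [lp.inner_single_left]
    by_cases h2 : k.2 = j.2
    · have h1 : j.1 ≠ k.1 := fun h => hjk (Prod.ext h h2.symm)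
      rw [lp.single_apply, ← h2, Pi.single_eq_same]
      exact ho _ _ h1 _ x.2 _ y.2
    · rw [lp.single_apply, Pi.single_eq_of_ne (Ne.symm h2), inner_zero_right]
  · rw [top_le_iff, Submodule.topologicalClosure_eq_top_iff, Submodule.eq_bot_iff]
    intro v hv
    apply lp.ext
    funext n
    show v n = 0
    have h1 : v n ∈ (⨆ a, W a)ᗮ := by
      rw [← Submodule.iInf_orthogonal, Submodule.mem_iInf]
      intro a
      rw [Submodule.mem_orthogonal]
      intro x hx
      have h2 : emb W (a, n) ⟨x, hx⟩ ∈ ⨆ j, LinearMap.range (emb W j).toLinearMap :=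
        Submodule.mem_iSup_of_mem (a, n) ⟨⟨x, hx⟩, rfl⟩
      have h3 := (Submodule.mem_orthogonal _ _).1 hv _ h2
      rw [emb_apply, lp.inner_single_left] at h3
      exact h3
    rw [ht, Submodule.mem_bot] at h1
    exact h1

/-- The amplification of an isometry. -/
def amp (A : E ≃ₗᵢ[ℂ] E) : lp (fun _ : ℕ => E) 2 →L[ℂ] lp (fun _ : ℕ => E) 2 :=
  LinearMap.mkContinuous
    { toFun := fun x => ⟨fun n => A (x n), by
        have h := lp.memℓp x
        refine (memℓp_gen_iff (by norm_num)).2 ?_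
        simp only [LinearIsometryEquiv.norm_map]
        exact (memℓp_gen_iff (by norm_num)).1 h⟩
      map_add' := fun x y => by
        apply lp.ext
        funext n
        exact map_add A _ _
      map_smul' := fun c x => by
        apply lp.ext
        funext n
        exact map_smul A _ _ } 1 (by
    intro x
    rw [one_mul]
    refine le_of_eq ?_
    rw [lp.norm_eq_tsum_rpow (by norm_num), lp.norm_eq_tsum_rpow (by norm_num)]
    congr 1
    refine tsum_congr fun n => ?_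
    show ‖A (x n)‖ ^ _ = _
    rw [LinearIsometryEquiv.norm_map])

lemma amp_apply (A : E ≃ₗᵢ[ℂ] E) (x : lp (fun _ : ℕ => E) 2) (n : ℕ) : (amp A x) n = A (x n) :=
  rfl

lemma amp_one : amp (1 : E ≃ₗᵢ[ℂ] E) = 1 := rfl

lemma amp_mul (A B : E ≃ₗᵢ[ℂ] E) : amp (A * B) = amp A * amp B := rfl

lemma norm_amp (A : E ≃ₗᵢ[ℂ] E) (x : lp (fun _ : ℕ => E) 2) : ‖amp A x‖ = ‖x‖ := by
  apply le_antisymm
  · have := (amp A).le_of_opNorm_le (LinearMap.mkContinuous_norm_le _ zero_le_one _) x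
    rwa [one_mul] at this
  · have := (amp A⁻¹).le_of_opNorm_le (LinearMap.mkContinuous_norm_le _ zero_le_one _) (amp A x)
    rw [one_mul] at this
    have h2 : amp A⁻¹ (amp A x) = x := by
      have : (amp A⁻¹ * amp A) x = x := by rw [← amp_mul, inv_mul_cancel, amp_one]; rfl
      exact this
    rwa [h2] at this

lemma amp_mem [CompleteSpace E] (A : E ≃ₗᵢ[ℂ] E) :
    amp A ∈ unitary (lp (fun _ : ℕ => E) 2 →L[ℂ] lp (fun _ : ℕ => E) 2) := by
  have h1 : star (amp A) * amp A = 1 := by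
    rw [ContinuousLinearMap.star_eq_adjoint]
    exact (ContinuousLinearMap.norm_map_iff_adjoint_comp_self _).1 (norm_amp A)
  have h2 : amp A * amp A⁻¹ = 1 := by rw [← amp_mul, mul_inv_cancel, amp_one]
  have h3 : star (amp A) = amp A⁻¹ := by
    calc star (amp A) = star (amp A) * (amp A * amp A⁻¹) := by rw [h2, mul_one]
      _ = amp A⁻¹ := by rw [← mul_assoc, h1, one_mul]
  rw [Unitary.mem_iff]
  exact ⟨h1, by rw [h3, h2]⟩

/-- The amplification as a unitary. -/
def ampU [CompleteSpace E] (A : E ≃ₗᵢ[ℂ] E) :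
    unitary (lp (fun _ : ℕ => E) 2 →L[ℂ] lp (fun _ : ℕ => E) 2) := ⟨amp A, amp_mem A⟩

variable {Γ : Type*} [Group Γ]

/-- Restriction of the representation to the invariant subspaces. -/
def resG (π : Γ →* (E ≃ₗᵢ[ℂ] E)) (W : ℕ → Submodule ℂ E)
    (hW : ∀ n g, ∀ x ∈ W n, π g x ∈ W n) (g : Γ) : GG (fun a => ↥(W a)) := fun a =>
  { toFun := fun x => ⟨π g x, hW a g x x.2⟩
    invFun := fun x => ⟨π g⁻¹ x, hW a g⁻¹ x x.2⟩
    map_add' := fun x y => Subtype.ext (map_add (π g) _ _)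
    map_smul' := fun c x => Subtype.ext (map_smul (π g) _ _)
    left_inv := fun x => Subtype.ext (by
      show (π g⁻¹ * π g) (x : E) = x
      rw [← map_mul, inv_mul_cancel, map_one]; rfl)
    right_inv := fun x => Subtype.ext (by
      show (π g * π g⁻¹) (x : E) = x
      rw [← map_mul, mul_inv_cancel, map_one]; rfl)
    norm_map' := fun x => (π g).norm_map x }

lemma emb_resG (π : Γ →* (E ≃ₗᵢ[ℂ] E)) (W : ℕ → Submodule ℂ E)
    (hW : ∀ n g, ∀ x ∈ W n, π g x ∈ W n) (g : Γ) (j : ℕ × ℕ) (x : ↥(W j.1)) :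
    emb W j (resG π W hW g j.1 x) = amp (π g) (emb W j x) := by
  apply lp.ext
  funext n
  rw [amp_apply, emb_apply, emb_apply, lp.single_apply, lp.single_apply]
  by_cases h : n = j.2
  · rw [h, Pi.single_eq_same, Pi.single_eq_same]
    rfl
  · rw [Pi.single_eq_of_ne h, Pi.single_eq_of_ne h, map_zero]

lemma symm_dg [CompleteSpace E] (π : Γ →* (E ≃ₗᵢ[ℂ] E)) (W : ℕ → Submodule ℂ E)
    (hW : ∀ n g, ∀ x ∈ W n, π g x ∈ W n)
    (hS : IsHilbertSum ℂ (fun j : ℕ × ℕ => ↥(W j.1)) (emb W)) (g : Γ)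
    (y : KK (fun a => ↥(W a))) :
    hS.linearIsometryEquiv.symm (dg (resG π W hW g) y)
      = amp (π g) (hS.linearIsometryEquiv.symm y) := by
  have h1 : HasSum (fun j => emb W j (y j)) (hS.linearIsometryEquiv.symm y) :=
    hS.hasSum_linearIsometryEquiv_symm y
  have h2 : HasSum (fun j => amp (π g) (emb W j (y j)))
      (amp (π g) (hS.linearIsometryEquiv.symm y)) := (amp (π g)).hasSum h1
  have h3 : HasSum (fun j => emb W j ((dg (resG π W hW g) y) j))
      (hS.linearIsometryEquiv.symm (dg (resG π W hW g) y)) :=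
    hS.hasSum_linearIsometryEquiv_symm _
  have h4 : (fun j => emb W j ((dg (resG π W hW g) y) j))
      = fun j => amp (π g) (emb W j (y j)) := by
    funext j
    rw [dg_apply]
    exact emb_resG π W hW g j (y j)
  rw [h4] at h3
  exact h3.unique h2

/-- Conjugation of unitaries by an isometry. -/
def cj {H K : Type} [NormedAddCommGroup H] [InnerProductSpace ℂ H] [CompleteSpace H]
    [NormedAddCommGroup K] [InnerProductSpace ℂ K] [CompleteSpace K] (Φ : H ≃ₗᵢ[ℂ] K)
    (u : unitary (H →L[ℂ] H)) : unitary (K →L[ℂ] K) :=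
  ⟨Φ.conjStarAlgEquiv u, by
    rw [Unitary.mem_iff, ← map_star, ← map_mul, ← map_mul, Unitary.star_mul_self_of_mem u.2,
      Unitary.mul_star_self_of_mem u.2, map_one]
    exact ⟨rfl, rfl⟩⟩

lemma cj_mul {H K : Type} [NormedAddCommGroup H] [InnerProductSpace ℂ H] [CompleteSpace H]
    [NormedAddCommGroup K] [InnerProductSpace ℂ K] [CompleteSpace K] (Φ : H ≃ₗᵢ[ℂ] K)
    (u v : unitary (H →L[ℂ] H)) : cj Φ (u * v) = cj Φ u * cj Φ v :=
  Subtype.ext (map_mul Φ.conjStarAlgEquiv _ _)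

lemma cj_inv {H K : Type} [NormedAddCommGroup H] [InnerProductSpace ℂ H] [CompleteSpace H]
    [NormedAddCommGroup K] [InnerProductSpace ℂ K] [CompleteSpace K] (Φ : H ≃ₗᵢ[ℂ] K)
    (u : unitary (H →L[ℂ] H)) : cj Φ u⁻¹ = (cj Φ u)⁻¹ :=
  Subtype.ext (map_star Φ.conjStarAlgEquiv _)

lemma cj_one {H K : Type} [NormedAddCommGroup H] [InnerProductSpace ℂ H] [CompleteSpace H]
    [NormedAddCommGroup K] [InnerProductSpace ℂ K] [CompleteSpace K] (Φ : H ≃ₗᵢ[ℂ] K) :
    cj Φ 1 = 1 :=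
  Subtype.ext (map_one Φ.conjStarAlgEquiv)

lemma cj_symm {H K : Type} [NormedAddCommGroup H] [InnerProductSpace ℂ H] [CompleteSpace H]
    [NormedAddCommGroup K] [InnerProductSpace ℂ K] [CompleteSpace K] (Φ : H ≃ₗᵢ[ℂ] K)
    (u : unitary (H →L[ℂ] H)) : cj Φ.symm (cj Φ u) = u :=
  Subtype.ext (Φ.conjStarAlgEquiv.symm_apply_apply _)

lemma cj_continuous {H K : Type} [NormedAddCommGroup H] [InnerProductSpace ℂ H] [CompleteSpace H]
    [NormedAddCommGroup K] [InnerProductSpace ℂ K] [CompleteSpace K] (Φ : H ≃ₗᵢ[ℂ] K) :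
    Continuous (cj Φ) := by
  refine Continuous.subtype_mk ?_ _
  show Continuous fun u : unitary (H →L[ℂ] H) =>
    (Φ : H →L[ℂ] K) ∘L ((u : H →L[ℂ] H) ∘L (Φ.symm : K →L[ℂ] H))
  exact continuous_const.clm_comp (continuous_subtype_val.clm_comp continuous_const)

/-- The identification with the Hilbert sum. -/
def Phi [CompleteSpace E] (W : ℕ → Submodule ℂ E)
    (hS : IsHilbertSum ℂ (fun j : ℕ × ℕ => ↥(W j.1)) (emb W)) :
    lp (fun _ : ℕ => E) 2 ≃ₗᵢ[ℂ] KK (fun a => ↥(W a)) := hS.linearIsometryEquiv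

lemma cj_ampU [CompleteSpace E] (π : Γ →* (E ≃ₗᵢ[ℂ] E)) (W : ℕ → Submodule ℂ E)
    [∀ a, CompleteSpace ↥(W a)]
    (hW : ∀ n g, ∀ x ∈ W n, π g x ∈ W n)
    (hS : IsHilbertSum ℂ (fun j : ℕ × ℕ => ↥(W j.1)) (emb W)) (g : Γ) :
    cj (Phi W hS) (ampU (π g)) = DG (resG π W hW g) := by
  apply Subtype.ext
  apply ContinuousLinearMap.ext
  intro y
  show Phi W hS (amp (π g) ((Phi W hS).symm y)) = dg (resG π W hW g) y
  have h := symm_dg π W hW hS g y
  have h' : (Phi W hS).symm (dg (resG π W hW g) y) = amp (π g) ((Phi W hS).symm y) := h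
  rw [← h', LinearIsometryEquiv.apply_symm_apply]

theorem kuiper_rep [CompleteSpace E] [SecondCountableTopology E] (π : Γ →* (E ≃ₗᵢ[ℂ] E))
    (hd : ∀ v : E, v ≠ 0 → ∃ V ∈ FD π, ∃ x ∈ V, inner ℂ x v ≠ 0) :
    ∃ h : ℝ × unitary (lp (fun _ : ℕ => E) 2 →L[ℂ] lp (fun _ : ℕ => E) 2) →
        unitary (lp (fun _ : ℕ => E) 2 →L[ℂ] lp (fun _ : ℕ => E) 2),
      Continuous h ∧ (∀ u, h (0, u) = u) ∧ (∀ u, h (1, u) = 1) ∧
      ∀ t g u, h (t, ampU (π g) * u * (ampU (π g))⁻¹)
        = ampU (π g) * h (t, u) * (ampU (π g))⁻¹ := by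
  obtain ⟨W, hW, ho, ht⟩ := exists_decomp π hd
  have hW' : ∀ n g, ∀ x ∈ W n, π g x ∈ W n := fun n => (hW n).2
  have hfd : ∀ a, FiniteDimensional ℂ ↥(W a) := fun a => (hW a).1
  have hc : ∀ a, CompleteSpace ↥(W a) := fun a => FiniteDimensional.complete ℂ _
  have hS := emb_hilbert W hfd ho ht
  obtain ⟨k, hk, hk0, hk1, hkA⟩ := kuiper_abs (fun a => ↥(W a))
  have hcj := cj_ampU π W hW' hS
  have hcj' : ∀ g, cj (Phi W hS).symm (DG (resG π W hW' g)) = ampU (π g) := by
    intro g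
    rw [← hcj g, cj_symm]
  have hconj : ∀ g u, cj (Phi W hS) (ampU (π g) * u * (ampU (π g))⁻¹)
      = act (resG π W hW' g) (cj (Phi W hS) u) := by
    intro g u
    rw [cj_mul, cj_mul, cj_inv, hcj g, act]
  refine ⟨fun p => cj (Phi W hS).symm (k (p.1, cj (Phi W hS) p.2)), ?_, ?_, ?_, ?_⟩
  · exact (cj_continuous _).comp (hk.comp (continuous_fst.prodMk
      ((cj_continuous _).comp continuous_snd)))
  · intro u
    show cj (Phi W hS).symm (k (0, cj (Phi W hS) u)) = u
    rw [hk0, cj_symm]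
  · intro u
    show cj (Phi W hS).symm (k (1, cj (Phi W hS) u)) = 1
    rw [hk1, cj_one]
  · intro t g u
    show cj (Phi W hS).symm (k (t, cj (Phi W hS) (ampU (π g) * u * (ampU (π g))⁻¹))) =
      ampU (π g) * cj (Phi W hS).symm (k (t, cj (Phi W hS) u)) * (ampU (π g))⁻¹
    rw [hconj, hkA, act, cj_mul, cj_mul, cj_inv, hcj']

end Transport

section Final

open MeasureTheory

variable {G : Type} [TopologicalSpace G] [Group G] [IsTopologicalGroup G] [CompactSpace G]
  [SecondCountableTopology G] [MeasurableSpace G] [BorelSpace G]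
  (μ : Measure G) [μ.IsHaarMeasure] [IsProbabilityMeasure μ]

/-- The left regular representation on `L²(G)`: `(λ_g f)(x) = f (g⁻¹ x)`. -/
def lreg (g : G) : Lp ℂ 2 μ →ₗᵢ[ℂ] Lp ℂ 2 μ :=
  Lp.compMeasurePreservingₗᵢ ℂ (fun x => g⁻¹ * x) (measurePreserving_mul_left μ g⁻¹)

omit [SecondCountableTopology G] [IsProbabilityMeasure μ] [CompactSpace G] in
lemma cmp_congr {p q : G → G} (hp : MeasurePreserving p μ μ) (hq : MeasurePreserving q μ μ)
    (h : p = q) (f : Lp ℂ 2 μ) :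
    Lp.compMeasurePreserving p hp f = Lp.compMeasurePreserving q hq f := by
  subst h
  rfl

lemma lreg_lreg (g h : G) (f : Lp ℂ 2 μ) : lreg μ g (lreg μ h f) = lreg μ (g * h) f := by
  have h1 := Lp.compMeasurePreserving_comp_apply f (measurePreserving_mul_left μ h⁻¹)
    (measurePreserving_mul_left μ g⁻¹)
  have h2 : ((fun x => h⁻¹ * x) ∘ fun x => g⁻¹ * x) = fun x => (g * h)⁻¹ * x := by
    funext x
    simp [mul_assoc]
  show Lp.compMeasurePreserving _ (measurePreserving_mul_left μ g⁻¹)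
    (Lp.compMeasurePreserving _ (measurePreserving_mul_left μ h⁻¹) f)
    = Lp.compMeasurePreserving _ (measurePreserving_mul_left μ (g * h)⁻¹) f
  rw [← h1]
  exact cmp_congr μ _ _ h2 f

lemma lreg_one (f : Lp ℂ 2 μ) : lreg μ 1 f = f := by
  have h2 : (fun x : G => (1 : G)⁻¹ * x) = id := by
    funext x
    simp
  show Lp.compMeasurePreserving _ (measurePreserving_mul_left μ (1 : G)⁻¹) f = f
  rw [cmp_congr μ _ (MeasurePreserving.id μ) h2 f]
  exact Lp.compMeasurePreserving_id_apply f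

/-- The left regular representation as a homomorphism. -/
def lregE : G →* (Lp ℂ 2 μ ≃ₗᵢ[ℂ] Lp ℂ 2 μ) where
  toFun g :=
    { toLinearMap := (lreg μ g).toLinearMap
      invFun := lreg μ g⁻¹
      left_inv := fun f => by
        show lreg μ g⁻¹ (lreg μ g f) = f
        rw [lreg_lreg, inv_mul_cancel, lreg_one]
      right_inv := fun f => by
        show lreg μ g (lreg μ g⁻¹ f) = f
        rw [lreg_lreg, mul_inv_cancel, lreg_one]
      norm_map' := (lreg μ g).norm_map }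
  map_one' := LinearIsometryEquiv.ext fun f => lreg_one μ f
  map_mul' g h := LinearIsometryEquiv.ext fun f => (lreg_lreg μ g h f).symm

lemma lregE_continuous (f : Lp ℂ 2 μ) : Continuous fun g => lregE μ g f := by
  have hc : Continuous fun g : G => (⟨fun x => g⁻¹ * x, by fun_prop⟩ : C(G, G)) := by
    refine ContinuousMap.continuous_of_continuous_uncurry _ ?_
    show Continuous fun p : G × G => p.1⁻¹ * p.2
    fun_prop
  exact Continuous.compMeasurePreservingLp (f := fun _ : G => f) continuous_const hc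
    (fun g => measurePreserving_mul_left μ g⁻¹) (by norm_num)

theorem contr_L2 :
    ∃ h : ℝ × unitary (lp (fun _ : ℕ => Lp ℂ 2 μ) 2 →L[ℂ] lp (fun _ : ℕ => Lp ℂ 2 μ) 2) →
        unitary (lp (fun _ : ℕ => Lp ℂ 2 μ) 2 →L[ℂ] lp (fun _ : ℕ => Lp ℂ 2 μ) 2),
      Continuous h ∧ (∀ u, h (0, u) = u) ∧ (∀ u, h (1, u) = 1) ∧
      ∀ t g u, h (t, ampU (lregE μ g) * u * (ampU (lregE μ g))⁻¹)
        = ampU (lregE μ g) * h (t, u) * (ampU (lregE μ g))⁻¹ := by
  have : Fact ((2 : ℝ≥0∞) ≠ ∞) := ⟨by norm_num⟩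
  refine kuiper_rep (lregE μ) ?_
  intro v hv
  obtain ⟨V, h1, h2, h3⟩ := exists_fd μ (lregE μ) (lregE_continuous μ) v hv
  exact ⟨V, ⟨h1, h2⟩, h3⟩

end Final

end

end Pool.Agent.Helper110.Kuiper
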