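import Mathlib

set_option autoImplicit false
open MeasureTheory Set Filter Topology

noncomputable section
namespace Pool.H110M

abbrev E := ℝ × ℝ

/-- integer vector as a vector of the plane -/
def iv (k : ℤ × ℤ) : E := ((k.1 : ℝ), (k.2 : ℝ))

/-- Tonelli Lagrangian on the 2-torus, lifted to the plane. -/
structure Ton (ℓ : E × E → ℝ) : Prop where
  smooth : ContDiff ℝ 2 ℓ
  per : ∀ (x v : E) (k : ℤ × ℤ), ℓ (x + iv k, v) = ℓ (x, v)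
  posdef : ∀ x v w : E, w ≠ 0 → 0 < iteratedDeriv 2 (fun s : ℝ => ℓ (x, v + s • w)) 0
  superlin : ∀ K : ℝ, ∃ B : ℝ, ∀ x v : E, K * ‖v‖ - B ≤ ℓ (x, v)

/-- closed probability measures (lifted to the plane) -/
structure Closed (ν : Measure (E × E)) : Prop where
  prob : IsProbabilityMeasure ν
  int : Integrable (fun q : E × E => ‖q.2‖) ν
  closed : ∀ φ : E → ℝ, ContDiff ℝ 1 φ → (∀ (x : E) (k : ℤ × ℤ), φ (x + iv k) = φ x) →
    ∫ q, fderiv ℝ φ q.1 q.2 ∂ν = 0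

/-- action of the straight segment starting at `x` with velocity `w` and duration `t` -/
def seg (ℓ : E × E → ℝ) (x w : E) (t : ℝ) : ℝ := ∫ s in (0:ℝ)..t, ℓ (x + s • w, w)

/-- action of a polygonal chain starting at `x` (list of (velocity, duration)) -/
def act (ℓ : E × E → ℝ) : E → List (E × ℝ) → ℝ
  | _, [] => 0
  | x, a :: r => seg ℓ x a.1 a.2 + act ℓ (x + a.2 • a.1) r

/-- end point of a chain -/
def endp : E → List (E × ℝ) → E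
  | x, [] => x
  | x, a :: r => endp (x + a.2 • a.1) r

/-- total duration of a chain -/
def dur : List (E × ℝ) → ℝ
  | [] => 0
  | a :: r => a.2 + dur r

/-- all durations positive -/
def Pos (l : List (E × ℝ)) : Prop := ∀ a ∈ l, 0 < a.2

/-- every closed polygon of the torus has nonnegative action -/
def HP (ℓ : E × E → ℝ) : Prop :=
  ∀ (x : E) (l : List (E × ℝ)), Pos l → (∃ k : ℤ × ℤ, endp x l = x + iv k) → 0 ≤ act ℓ x l

/-- a periodic, Lipschitz, dominated and semiconcave function -/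
structure Sub (ℓ : E × E → ℝ) (u : E → ℝ) (K C : ℝ) : Prop where
  K0 : 0 ≤ K
  C0 : 0 ≤ C
  per : ∀ (x : E) (k : ℤ × ℤ), u (x + iv k) = u x
  lip : ∀ x y : E, |u x - u y| ≤ K * ‖x - y‖
  dom : ∀ (x w : E) (t : ℝ), 0 < t → u (x + t • w) ≤ u x + seg ℓ x w t
  semi : ∀ x : E, ∃ P : E →L[ℝ] ℝ, ∀ ζ : E, ‖ζ‖ ≤ 1 → u (x + ζ) ≤ u x + P ζ + C * ‖ζ‖ ^ 2

/-- determinant -/
def det (a b : E) : ℝ := a.1 * b.2 - a.2 * b.1

/-- one-sided (semiconcave) contact at `q = (x,v)` with slope `∂ℓ/∂v (q)`, plus zero energy -/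
def P1 (ℓ : E × E → ℝ) (u : E → ℝ) (C : ℝ) (q : E × E) : Prop :=
  ℓ q = fderiv ℝ ℓ q (0, q.2) ∧
    ∀ ζ : E, ‖ζ‖ ≤ 1 → u (q.1 + ζ) ≤ u q.1 + fderiv ℝ ℓ q (0, ζ) + C * ‖ζ‖ ^ 2

/-- two-sided contact at `q = (x,v)` -/
def P2 (ℓ : E × E → ℝ) (u : E → ℝ) (C R : ℝ) (q : E × E) : Prop :=
  ‖q.2‖ ≤ R ∧ ℓ q = fderiv ℝ ℓ q (0, q.2) ∧
    ∀ ζ : E, ‖ζ‖ ≤ 1 → |u (q.1 + ζ) - u q.1 - fderiv ℝ ℓ q (0, ζ)| ≤ C * ‖ζ‖ ^ 2

/-- Euler-Lagrange curve with velocity `V` -/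
structure ELc (ℓ : E × E → ℝ) (A V : ℝ → E) : Prop where
  der : ∀ t, HasDerivAt A (V t) t
  cont : Continuous V
  el : ∀ (t : ℝ) (ζ : E), HasDerivAt (fun s => fderiv ℝ ℓ (A s, V s) (0, ζ))
    (fderiv ℝ ℓ (A t, V t) (ζ, 0)) t

end Pool.H110M
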