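import Mathlib
import Pool.Agent.Helper110.MDefs

set_option autoImplicit false
open MeasureTheory Set Filter Topology

noncomputable section
namespace Pool.H110M



























/-- periodicity in the first variable -/
def Per {F : Type*} (g : E × E → F) : Prop := ∀ (x v : E) (k : ℤ × ℤ), g (x + iv k, v) = g (x, v)

theorem Per.fderiv {F : Type*} [NormedAddCommGroup F] [NormedSpace ℝ F] {g : E × E → F}
    (hg : Per g) : Per (fderiv ℝ g) := by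
  intro x v k
  have h1 : (fun q : E × E => g (q + (iv k, 0))) = g := by
    funext q
    have h2 : q + (iv k, 0) = (q.1 + iv k, q.2) := Prod.ext rfl (add_zero _)
    rw [h2]
    exact hg q.1 q.2 k
  have h2 := fderiv_comp_add_right (𝕜 := ℝ) (f := g) (x := (x, v)) ((iv k, 0) : E × E)
  rw [h1] at h2
  rw [h2]
  simp

theorem exists_reduce (x : E) : ∃ (y : E) (k : ℤ × ℤ), ‖y‖ ≤ 1 ∧ x = y + iv k := by
  refine ⟨(Int.fract x.1, Int.fract x.2), (⌊x.1⌋, ⌊x.2⌋), ?_, ?_⟩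
  · rw [Prod.norm_def]
    refine max_le ?_ ?_
    · rw [Real.norm_of_nonneg (Int.fract_nonneg _)]; exact (Int.fract_lt_one _).le
    · rw [Real.norm_of_nonneg (Int.fract_nonneg _)]; exact (Int.fract_lt_one _).le
  · unfold iv
    ext
    · simp
    · simp

theorem Per.bound {F : Type*} [NormedAddCommGroup F] [NormedSpace ℝ F] {g : E × E → F}
    (hg : Per g) (hc : Continuous g) (R : ℝ) :
    ∃ C : ℝ, 0 ≤ C ∧ ∀ x v : E, ‖v‖ ≤ R → ‖g (x, v)‖ ≤ C := by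
  obtain ⟨C, hC⟩ := ((isCompact_closedBall (0 : E) 1).prod
    (isCompact_closedBall (0 : E) R)).exists_bound_of_continuousOn hc.continuousOn
  refine ⟨max C 0, le_max_right _ _, fun x v hv => ?_⟩
  obtain ⟨y, k, hy, rfl⟩ := exists_reduce x
  rw [hg]
  refine (hC (y, v) ⟨?_, ?_⟩).trans (le_max_left _ _)
  · simpa using hy
  · simpa using hv

theorem Ton.cD {ℓ : E × E → ℝ} (h : Ton ℓ) : ContDiff ℝ 1 (fderiv ℝ ℓ) :=
  h.smooth.fderiv_right (by norm_num)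

theorem Ton.cDD {ℓ : E × E → ℝ} (h : Ton ℓ) : Continuous (fderiv ℝ (fderiv ℝ ℓ)) :=
  h.cD.continuous_fderiv one_ne_zero

theorem Ton.bdd {ℓ : E × E → ℝ} (h : Ton ℓ) (R : ℝ) :
    ∃ C : ℝ, 0 ≤ C ∧ ∀ x v : E, ‖v‖ ≤ R → |ℓ (x, v)| ≤ C ∧ ‖fderiv ℝ ℓ (x, v)‖ ≤ C := by
  have hp : Per ℓ := h.per
  obtain ⟨C1, hC1, h1⟩ := hp.bound h.smooth.continuous R
  obtain ⟨C2, hC2, h2⟩ := hp.fderiv.bound h.cD.continuous R
  exact ⟨C1 + C2, by positivity, fun x v hv => ⟨by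
    have := h1 x v hv
    rw [Real.norm_eq_abs] at this
    linarith, by linarith [h2 x v hv]⟩⟩

theorem convex_slab (R : ℝ) : Convex ℝ {q : E × E | ‖q.2‖ ≤ R} := by
  have : {q : E × E | ‖q.2‖ ≤ R} = (LinearMap.snd ℝ E E) ⁻¹' (Metric.closedBall 0 R) := by
    ext q; simp
  rw [this]
  exact (convex_closedBall (0 : E) R).linear_preimage _

theorem Ton.lipD {ℓ : E × E → ℝ} (h : Ton ℓ) (R : ℝ) :
    ∃ C : ℝ, 0 ≤ C ∧ ∀ x v x' v' : E, ‖v‖ ≤ R → ‖v'‖ ≤ R →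
      ‖fderiv ℝ ℓ (x, v) - fderiv ℝ ℓ (x', v')‖ ≤ C * ‖((x, v) : E × E) - (x', v')‖ := by
  have hp : Per ℓ := h.per
  obtain ⟨C, hC, h1⟩ := hp.fderiv.fderiv.bound h.cDD R
  refine ⟨C, hC, fun x v x' v' hv hv' => ?_⟩
  exact (convex_slab R).norm_image_sub_le_of_norm_fderiv_le (𝕜 := ℝ) (f := fderiv ℝ ℓ)
    (fun q _ => (h.cD.differentiable one_ne_zero) q) (fun q hq => h1 q.1 q.2 hq) hv' hv

theorem Ton.quad {ℓ : E × E → ℝ} (h : Ton ℓ) (R : ℝ) :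
    ∃ C : ℝ, 0 ≤ C ∧ ∀ x v ζ₁ ζ₂ : E, ‖v‖ ≤ R → ‖ζ₁‖ ≤ 1 → ‖ζ₂‖ ≤ 1 →
      |ℓ (x + ζ₁, v + ζ₂) - ℓ (x, v) - fderiv ℝ ℓ (x, v) (ζ₁, ζ₂)|
        ≤ C * ‖((ζ₁, ζ₂) : E × E)‖ ^ 2 := by
  obtain ⟨C, hC, hL⟩ := h.lipD (R + 1)
  refine ⟨C, hC, fun x v ζ₁ ζ₂ hv h1 h2 => ?_⟩
  set q₀ : E × E := (x, v) with hq₀
  set z : E × E := (ζ₁, ζ₂) with hz
  let f : E × E → ℝ := fun q => ℓ q - fderiv ℝ ℓ q₀ q
  have hd : ∀ q, HasFDerivAt f (fderiv ℝ ℓ q - fderiv ℝ ℓ q₀) q := fun q =>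
    ((h.smooth.differentiable two_ne_zero) q).hasFDerivAt.sub (fderiv ℝ ℓ q₀).hasFDerivAt
  have hconv : Convex ℝ ({q : E × E | ‖q.2‖ ≤ R + 1} ∩ Metric.closedBall q₀ ‖z‖) :=
    (convex_slab (R + 1)).inter (convex_closedBall _ _)
  have key := hconv.norm_image_sub_le_of_norm_fderiv_le (𝕜 := ℝ) (f := f) (C := C * ‖z‖)
    (x := q₀) (y := q₀ + z) (fun q _ => (hd q).differentiableAt) (fun q hq => by
      rw [(hd q).fderiv]
      have h3 := hL q.1 q.2 q₀.1 q₀.2 hq.1 (by show ‖v‖ ≤ R + 1; linarith)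
      refine h3.trans ?_
      refine mul_le_mul_of_nonneg_left ?_ hC
      have h4 := hq.2
      rw [Metric.mem_closedBall, dist_eq_norm] at h4
      exact h4) ⟨by show ‖v‖ ≤ R + 1; linarith, Metric.mem_closedBall_self (norm_nonneg _)⟩ ⟨by
      show ‖v + ζ₂‖ ≤ R + 1
      exact (norm_add_le _ _).trans (by linarith), by
      rw [Metric.mem_closedBall, dist_eq_norm, add_sub_cancel_left]⟩
  have e1 : f (q₀ + z) - f q₀ = ℓ (x + ζ₁, v + ζ₂) - ℓ (x, v) - fderiv ℝ ℓ (x, v) (ζ₁, ζ₂) := by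
    show ℓ (q₀ + z) - fderiv ℝ ℓ q₀ (q₀ + z) - (ℓ q₀ - fderiv ℝ ℓ q₀ q₀) = _
    rw [map_add]
    have e2 : q₀ + z = (x + ζ₁, v + ζ₂) := rfl
    rw [e2]
    ring
  rw [e1, add_sub_cancel_left, Real.norm_eq_abs] at key
  calc _ ≤ C * ‖z‖ * ‖z‖ := key
    _ = C * ‖z‖ ^ 2 := by ring

/-- second derivative in the direction `(0, w)` -/
def HH (ℓ : E × E → ℝ) (q : E × E) (w : E) : ℝ := fderiv ℝ (fderiv ℝ ℓ) q (0, w) (0, w)

theorem Ton.d1 {ℓ : E × E → ℝ} (h : Ton ℓ) (x v w : E) (s : ℝ) :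
    HasDerivAt (fun s : ℝ => ℓ (x, v + s • w)) (fderiv ℝ ℓ (x, v + s • w) (0, w)) s := by
  have hγ : HasDerivAt (fun s : ℝ => ((x, v + s • w) : E × E)) (0, w) s := by
    have h1 : HasDerivAt (fun s : ℝ => v + s • w) w s := by
      simpa using ((hasDerivAt_id s).smul_const w).const_add v
    exact (hasDerivAt_const s x).prodMk h1
  exact ((h.smooth.differentiable two_ne_zero) (x, v + s • w)).hasFDerivAt.comp_hasDerivAt s hγ

theorem Ton.d2 {ℓ : E × E → ℝ} (h : Ton ℓ) (x v w : E) (s : ℝ) :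
    HasDerivAt (fun s : ℝ => fderiv ℝ ℓ (x, v + s • w) (0, w)) (HH ℓ (x, v + s • w) w) s := by
  have hγ : HasDerivAt (fun s : ℝ => ((x, v + s • w) : E × E)) (0, w) s := by
    have h1 : HasDerivAt (fun s : ℝ => v + s • w) w s := by
      simpa using ((hasDerivAt_id s).smul_const w).const_add v
    exact (hasDerivAt_const s x).prodMk h1
  have h2 := ((h.cD.differentiable one_ne_zero) (x, v + s • w)).hasFDerivAt.comp_hasDerivAt s hγ
  have h3 := h2.clm_apply (hasDerivAt_const s ((0, w) : E × E))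
  refine h3.congr_deriv ?_
  simp [HH]

theorem Ton.hess {ℓ : E × E → ℝ} (h : Ton ℓ) (x v w : E) :
    iteratedDeriv 2 (fun s : ℝ => ℓ (x, v + s • w)) 0 = HH ℓ (x, v) w := by
  rw [iteratedDeriv_succ, iteratedDeriv_one]
  have h1 : deriv (fun s : ℝ => ℓ (x, v + s • w)) = fun s : ℝ => fderiv ℝ ℓ (x, v + s • w) (0, w) := by
    funext s
    exact (h.d1 x v w s).deriv
  rw [h1, (h.d2 x v w 0).deriv]
  simp

theorem Ton.HHpos {ℓ : E × E → ℝ} (h : Ton ℓ) (x v w : E) (hw : w ≠ 0) : 0 < HH ℓ (x, v) w := by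
  rw [← h.hess]
  exact h.posdef x v w hw

theorem HH_smul (ℓ : E × E → ℝ) (q : E × E) (w : E) (c : ℝ) : HH ℓ q (c • w) = c ^ 2 * HH ℓ q w := by
  unfold HH
  have : ((0, c • w) : E × E) = c • ((0, w) : E × E) := by
    ext <;> simp
  rw [this, map_smul, map_smul]
  show c * (c * (fderiv ℝ (fderiv ℝ ℓ) q (0, w) (0, w))) = _
  ring

theorem HH_zero (ℓ : E × E → ℝ) (q : E × E) : HH ℓ q 0 = 0 := by
  have := HH_smul ℓ q 0 0
  simpa using this

theorem Ton.HHlow {ℓ : E × E → ℝ} (h : Ton ℓ) (R : ℝ) :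
    ∃ m : ℝ, 0 < m ∧ ∀ x v w : E, ‖v‖ ≤ R → 2 * (m * ‖w‖ ^ 2) ≤ HH ℓ (x, v) w := by
  have hp : Per ℓ := h.per
  rcases lt_or_ge R 0 with hR | hR
  · exact ⟨1, one_pos, fun x v w hv => absurd (hv.trans_lt hR) (not_lt.2 (norm_nonneg _))⟩
  set K := (Metric.closedBall (0 : E) 1 ×ˢ Metric.closedBall (0 : E) R) ×ˢ Metric.sphere (0 : E) 1
    with hK
  have hKc : IsCompact K := ((isCompact_closedBall (0 : E) 1).prod
    (isCompact_closedBall (0 : E) R)).prod (isCompact_sphere 0 1)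
  have hKn : K.Nonempty := by
    refine ⟨((0, 0), (1, 0)), ⟨by simp, by simpa using hR⟩, ?_⟩
    simp [Prod.norm_def]
  have hcont : Continuous (fun p : (E × E) × E => HH ℓ p.1 p.2) := by
    unfold HH
    have h1 : Continuous (fun p : (E × E) × E => fderiv ℝ (fderiv ℝ ℓ) p.1) :=
      h.cDD.comp continuous_fst
    have h2 : Continuous (fun p : (E × E) × E => ((0, p.2) : E × E)) := by fun_prop
    exact (h1.clm_apply h2).clm_apply h2
  obtain ⟨p₀, hp₀, hmin⟩ := hKc.exists_isMinOn hKn hcont.continuousOn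
  have hp2 : p₀.2 ≠ 0 := by
    have := hp₀.2
    rw [mem_sphere_zero_iff_norm] at this
    intro h0
    rw [h0, norm_zero] at this
    exact zero_ne_one this
  have hpos : 0 < HH ℓ p₀.1 p₀.2 := h.HHpos p₀.1.1 p₀.1.2 p₀.2 hp2
  refine ⟨HH ℓ p₀.1 p₀.2 / 2, by positivity, fun x v w hv => ?_⟩
  rcases eq_or_ne w 0 with rfl | hw
  · rw [HH_zero]; simp
  obtain ⟨y, k, hy, rfl⟩ := exists_reduce x
  have e1 : HH ℓ (y + iv k, v) w = HH ℓ (y, v) w := by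
    unfold HH
    rw [hp.fderiv.fderiv]
  rw [e1]
  have hwn : 0 < ‖w‖ := norm_pos_iff.2 hw
  have h3 : HH ℓ p₀.1 p₀.2 ≤ HH ℓ (y, v) (‖w‖⁻¹ • w) := by
    refine hmin (a := ((y, v), ‖w‖⁻¹ • w)) ⟨⟨by simpa using hy, by simpa using hv⟩, ?_⟩
    rw [mem_sphere_zero_iff_norm, norm_smul, norm_inv, norm_norm, inv_mul_cancel₀ hwn.ne']
  rw [HH_smul, inv_pow] at h3
  have h4 : 0 < ‖w‖ ^ 2 := by positivity
  calc 2 * (HH ℓ p₀.1 p₀.2 / 2 * ‖w‖ ^ 2) = HH ℓ p₀.1 p₀.2 * ‖w‖ ^ 2 := by ring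
    _ ≤ ((‖w‖ ^ 2)⁻¹ * HH ℓ (y, v) w) * ‖w‖ ^ 2 := mul_le_mul_of_nonneg_right h3 h4.le
    _ = HH ℓ (y, v) w := by field_simp

theorem taylor2 {g g' g'' : ℝ → ℝ} {c : ℝ} (h1 : ∀ s, HasDerivAt g (g' s) s)
    (h2 : ∀ s, HasDerivAt g' (g'' s) s) (hc : ∀ s ∈ Icc (0 : ℝ) 1, 2 * c ≤ g'' s) :
    g 0 + g' 0 + c ≤ g 1 := by
  have hA : ∀ s ∈ Icc (0 : ℝ) 1, g' 0 + 2 * c * s ≤ g' s := by
    have hd : ∀ s, HasDerivAt (fun s => g' s - 2 * c * s) (g'' s - 2 * c) s := fun s => by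
      have := (h2 s).sub ((hasDerivAt_id s).const_mul (2 * c))
      exact this.congr_deriv (by simp)
    have hm : MonotoneOn (fun s => g' s - 2 * c * s) (Icc 0 1) := by
      refine monotoneOn_of_deriv_nonneg (convex_Icc 0 1)
        (fun s _ => (hd s).continuousAt.continuousWithinAt)
        (fun s _ => (hd s).differentiableAt.differentiableWithinAt) fun s hs => ?_
      rw [(hd s).deriv]
      have := hc s (interior_subset hs)
      linarith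
    intro s hs
    have := hm ⟨le_rfl, zero_le_one⟩ hs hs.1
    simp only at this
    linarith
  have hd : ∀ s, HasDerivAt (fun s => g s - g' 0 * s - c * s ^ 2) (g' s - g' 0 - c * (2 * s)) s :=
    fun s => by
      have := ((h1 s).sub ((hasDerivAt_id s).const_mul (g' 0))).sub
        (((hasDerivAt_id s).pow 2).const_mul c)
      exact this.congr_deriv (by simp)
  have hm : MonotoneOn (fun s => g s - g' 0 * s - c * s ^ 2) (Icc 0 1) := by
    refine monotoneOn_of_deriv_nonneg (convex_Icc 0 1)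
      (fun s _ => (hd s).continuousAt.continuousWithinAt)
      (fun s _ => (hd s).differentiableAt.differentiableWithinAt) fun s hs => ?_
    rw [(hd s).deriv]
    have := hA s (interior_subset hs)
    linarith
  have := hm (a := 0) (b := 1) ⟨le_rfl, zero_le_one⟩ ⟨zero_le_one, le_rfl⟩ zero_le_one
  simp only at this
  linarith

theorem Ton.conv {ℓ : E × E → ℝ} (h : Ton ℓ) (R : ℝ) :
    ∃ m : ℝ, 0 < m ∧ ∀ x v w : E, ‖v‖ ≤ R → ‖w‖ ≤ R →
      ℓ (x, v) + fderiv ℝ ℓ (x, v) (0, w - v) + m * ‖w - v‖ ^ 2 ≤ ℓ (x, w) := by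
  obtain ⟨m, hm, hlow⟩ := h.HHlow R
  refine ⟨m, hm, fun x v w hv hw => ?_⟩
  have key := taylor2 (c := m * ‖w - v‖ ^ 2) (h.d1 x v (w - v)) (h.d2 x v (w - v)) (fun s hs => by
    refine hlow _ _ _ ?_
    have : v + s • (w - v) = (1 - s) • v + s • w := by
      rw [smul_sub, sub_smul, one_smul]; abel
    rw [this]
    refine (norm_add_le _ _).trans ?_
    rw [norm_smul, norm_smul, Real.norm_of_nonneg hs.1, Real.norm_of_nonneg (by linarith [hs.2])]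
    nlinarith [hs.1, hs.2])
  simpa using key

/-- convexity without bounds -/
theorem Ton.convex {ℓ : E × E → ℝ} (h : Ton ℓ) :
    ∀ x v w : E, ℓ (x, v) + fderiv ℝ ℓ (x, v) (0, w - v) ≤ ℓ (x, w) := by
  intro x v w
  have key := taylor2 (c := 0) (h.d1 x v (w - v)) (h.d2 x v (w - v)) (fun s _ => by
    rw [mul_zero]
    rcases eq_or_ne (w - v) 0 with h0 | h0
    · rw [h0, HH_zero]
    · exact (h.HHpos _ _ _ h0).le)
  simpa using key

end Pool.H110M
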