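import Mathlib
import Pool.Agent.Helper110.MDefs

set_option autoImplicit false
open MeasureTheory Set Filter Topology

noncomputable section
namespace Pool.H110M

































theorem det_le (a b : E) : |det a b| ≤ 2 * ‖a‖ * ‖b‖ := by
  unfold det
  have h1 : |a.1| ≤ ‖a‖ := by rw [← Real.norm_eq_abs]; exact norm_fst_le a
  have h2 : |a.2| ≤ ‖a‖ := by rw [← Real.norm_eq_abs]; exact norm_snd_le a
  have h3 : |b.1| ≤ ‖b‖ := by rw [← Real.norm_eq_abs]; exact norm_fst_le b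
  have h4 : |b.2| ≤ ‖b‖ := by rw [← Real.norm_eq_abs]; exact norm_snd_le b
  calc |a.1 * b.2 - a.2 * b.1| ≤ |a.1 * b.2| + |a.2 * b.1| := abs_sub _ _
    _ = |a.1| * |b.2| + |a.2| * |b.1| := by rw [abs_mul, abs_mul]
    _ ≤ ‖a‖ * ‖b‖ + ‖a‖ * ‖b‖ := by gcongr
    _ = 2 * ‖a‖ * ‖b‖ := by ring

theorem det_continuous {σ' : ℝ → E} (h : Continuous σ') (w : E) :
    Continuous fun θ => det (σ' θ) w := by
  unfold det
  fun_prop

theorem gap_nonneg {ℓ : E × E → ℝ} (h : Ton ℓ) {u : E → ℝ} {K C : ℝ} (hu : Sub ℓ u K C)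
    (x : E) (hx : DifferentiableAt ℝ u x) (w : E) : fderiv ℝ u x w ≤ ℓ (x, w) := by
  have hc : Continuous fun s : ℝ => ℓ (x + s • w, w) := by
    have := h.smooth.continuous
    fun_prop
  have h1 : HasDerivAt (fun t => seg ℓ x w t) (ℓ (x, w)) 0 := by
    have := intervalIntegral.integral_hasDerivAt_right (hc.intervalIntegrable 0 0)
      (hc.stronglyMeasurableAtFilter _ _) hc.continuousAt
    simpa [seg] using this
  have h2 : HasDerivAt (fun t : ℝ => u (x + t • w)) (fderiv ℝ u x w) 0 := by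
    have e : HasDerivAt (fun t : ℝ => x + t • w) w 0 := by
      simpa using ((hasDerivAt_id (0:ℝ)).smul_const w).const_add x
    have hx' : HasFDerivAt u (fderiv ℝ u x) (x + (0:ℝ) • w) := by
      simpa using hx.hasFDerivAt
    exact hx'.comp_hasDerivAt (0:ℝ) e
  have h3 := (h1.sub h2).tendsto_slope_zero_right
  have h4 : 0 ≤ ℓ (x, w) - fderiv ℝ u x w := by
    refine ge_of_tendsto h3 ?_
    filter_upwards [self_mem_nhdsWithin] with t ht
    have ht' : 0 < t := ht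
    have e1 := hu.dom x w t ht'
    have e2 : seg ℓ x w 0 = 0 := by simp [seg]
    simp only [Pi.sub_apply, zero_add, zero_smul, add_zero, e2, smul_eq_mul]
    apply mul_nonneg (by positivity)
    linarith
  linarith

theorem norm_grad_le {ℓ : E × E → ℝ} {u : E → ℝ} {K C : ℝ} (hu : Sub ℓ u K C)
    (x : E) : ‖fderiv ℝ u x‖ ≤ K := by
  apply norm_fderiv_le_of_lip' ℝ hu.K0
  exact Eventually.of_forall fun y => by rw [Real.norm_eq_abs]; exact hu.lip y x

theorem grad_per {ℓ : E × E → ℝ} {u : E → ℝ} {K C : ℝ} (hu : Sub ℓ u K C)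
    (x : E) (k : ℤ × ℤ) (hx : DifferentiableAt ℝ u x) :
    DifferentiableAt ℝ u (x - iv k) ∧ fderiv ℝ u (x - iv k) = fderiv ℝ u x := by
  have hf : u = fun y => u (y + iv k) := by
    funext y; rw [hu.per]
  have h1 : HasFDerivAt (fun y => u (y + iv k)) (fderiv ℝ u x) (x - iv k) := by
    have hx' : HasFDerivAt u (fderiv ℝ u x) ((x - iv k) + iv k) := by
      simpa using hx.hasFDerivAt
    have e : HasFDerivAt (fun y : E => y + iv k) (ContinuousLinearMap.id ℝ E) (x - iv k) :=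
      (hasFDerivAt_id (𝕜 := ℝ) (x - iv k)).add_const (iv k)
    have := hx'.comp (x - iv k) e
    rw [ContinuousLinearMap.comp_id] at this
    exact this
  rw [← hf] at h1
  exact ⟨h1.differentiableAt, h1.fderiv⟩

theorem ineq {ℓ : E × E → ℝ} (h : Ton ℓ) {u : E → ℝ} {K C : ℝ} (hu : Sub ℓ u K C) (R C' : ℝ)
    (hlipD : ∀ R : ℝ, ∃ C : ℝ, 0 ≤ C ∧ ∀ x v x' v' : E, ‖v‖ ≤ R → ‖v'‖ ≤ R →
      ‖fderiv ℝ ℓ (x, v) - fderiv ℝ ℓ (x', v')‖ ≤ C * ‖((x, v) : E × E) - (x', v')‖)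
    (hconv : ∀ R : ℝ, ∃ m : ℝ, 0 < m ∧ ∀ x v w : E, ‖v‖ ≤ R → ‖w‖ ≤ R →
      ℓ (x, v) + fderiv ℝ ℓ (x, v) (0, w - v) + m * ‖w - v‖ ^ 2 ≤ ℓ (x, w))
    (hgrad : ∃ M : ℝ, 0 ≤ M ∧ ∀ q : E × E, P2 ℓ u C' R q → ∀ x : E, ‖x - q.1‖ ≤ 1 / 2 →
      DifferentiableAt ℝ u x → ∀ ζ : E,
        |fderiv ℝ u x ζ - fderiv ℝ ℓ q (0, ζ)| ≤ M * ‖x - q.1‖ * ‖ζ‖)
    (C1 C0 : ℝ) (hC1 : 0 < C1) (hC0 : 0 < C0) :
    ∃ N δ1 : ℝ, 0 < N ∧ 0 < δ1 ∧ ∀ A V : ℝ → E, (∀ t, P2 ℓ u C' R (A t, V t)) →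
      ∀ (N' : ℝ) (T : ℝ) (σ σ' : ℝ → E) (D : ℝ → ℝ) (a S : ℝ), N ≤ N' → 0 < T → 0 < a →
      (S = 1 ∨ S = -1) → Continuous σ → Continuous σ' →
      (∀ θ ∈ Icc (0:ℝ) T, a ≤ D θ ∧ D θ ≤ δ1 ∧ ‖σ θ - A θ‖ ≤ C0 * D θ ∧
        ∀ w : E, N' * D θ - C1 * ‖w - V θ‖ ≤ S * det (σ' θ) w) →
      ∀ χ : E → ℝ, Continuous χ → (∀ x, 0 ≤ χ x) → (∀ x, χ x ≤ 1) →
        (∀ x, χ x ≠ 0 → ∃ k : ℤ × ℤ, ‖x - iv k‖ < a) →
      ∃ ε : ℝ, 0 < ε ∧ ∀ x : E, DifferentiableAt ℝ u x → ∀ w : E,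
        fderiv ℝ u x w ≤ ℓ (x, w) + ε * (S * ∫ θ in (0:ℝ)..T, χ (x - σ θ) * det (σ' θ) w) := by
  classical
  obtain ⟨M, hM0, hM⟩ := hgrad
  obtain ⟨B, hB⟩ := h.superlin (K + 2)
  set R1 : ℝ := max (max R 0 + 1) B with hR1
  have hR1R : R ≤ R1 := by
    have a1 : R ≤ max R 0 := le_max_left _ _
    have a2 : max R 0 + 1 ≤ R1 := le_max_left _ _
    linarith
  have hR1B : B ≤ R1 := le_max_right _ _
  obtain ⟨m, hm, hconv'⟩ := hconv R1
  obtain ⟨CL, hCL0, hCL⟩ := hlipD R1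
  set G : ℝ := CL + M with hG
  have hG0 : 0 ≤ G := by positivity
  have hc0 : 0 < 1 + C0 := by linarith
  refine ⟨2 * G * (1 + C0) * C1 / m + 1, 1 / (2 * (1 + C0)), by positivity, by positivity, ?_⟩
  set N : ℝ := 2 * G * (1 + C0) * C1 / m + 1 with hN
  have hNpos : 0 < N := by positivity
  have hNm : 2 * G * (1 + C0) * C1 ≤ N * m := by
    rw [hN]
    have : (2 * G * (1 + C0) * C1 / m + 1) * m = 2 * G * (1 + C0) * C1 + m := by
      field_simp
    linarith
  intro A V hAV N' T σ σ' D a S hNN' hT ha hS hσ hσ' htilt χ hχ hχ0 hχ1 hχa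
  obtain ⟨B0, hB0⟩ := (isCompact_Icc (a := (0:ℝ)) (b := T)).exists_bound_of_continuousOn
    hσ'.continuousOn
  set Bs : ℝ := max B0 0 + 1 with hBs
  have hBspos : 0 < Bs := by
    have : 0 ≤ max B0 0 := le_max_right _ _
    linarith
  have hBsb : ∀ θ ∈ Icc (0:ℝ) T, ‖σ' θ‖ ≤ Bs := by
    intro θ hθ
    have a1 := hB0 θ hθ
    have a2 : B0 ≤ max B0 0 := le_max_left _ _
    linarith
  set ε : ℝ := min (1 / (T * 2 * Bs)) (m * N * a / (2 * T * C1 ^ 2)) with hε
  have hεpos : 0 < ε := lt_min (by positivity) (by positivity)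
  have hε1 : ε * (T * 2 * Bs) ≤ 1 := by
    have : ε ≤ 1 / (T * 2 * Bs) := min_le_left _ _
    rwa [le_div_iff₀ (by positivity)] at this
  have hε2 : ε * (2 * T * C1 ^ 2) ≤ m * N * a := by
    have : ε ≤ m * N * a / (2 * T * C1 ^ 2) := min_le_right _ _
    rwa [le_div_iff₀ (by positivity)] at this
  refine ⟨ε, hεpos, fun x hx w => ?_⟩
  have hS1 : |S| = 1 := by rcases hS with rfl | rfl <;> simp
  have hgap := gap_nonneg h hu x hx w
  set I : ℝ := ∫ θ in (0:ℝ)..T, χ (x - σ θ) * det (σ' θ) w with hI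
  by_cases hw : R1 ≤ ‖w‖
  · -- large velocities
    have h1 : (K + 1) * ‖w‖ ≤ ℓ (x, w) := by
      have := hB x w
      nlinarith
    have h2 : fderiv ℝ u x w ≤ K * ‖w‖ := by
      calc fderiv ℝ u x w ≤ ‖fderiv ℝ u x w‖ := Real.le_norm_self _
        _ ≤ ‖fderiv ℝ u x‖ * ‖w‖ := (fderiv ℝ u x).le_opNorm w
        _ ≤ K * ‖w‖ := by gcongr; exact norm_grad_le hu x
    have h3 : ‖I‖ ≤ (2 * Bs * ‖w‖) * |T - 0| := by
      rw [hI]
      apply intervalIntegral.norm_integral_le_of_norm_le_const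
      intro θ hθ
      rw [uIoc_of_le hT.le] at hθ
      have hθ' : θ ∈ Icc (0:ℝ) T := ⟨hθ.1.le, hθ.2⟩
      rw [Real.norm_eq_abs, abs_mul, abs_of_nonneg (hχ0 _)]
      calc χ (x - σ θ) * |det (σ' θ) w| ≤ 1 * (2 * ‖σ' θ‖ * ‖w‖) := by
            gcongr
            · exact hχ1 _
            · exact det_le _ _
        _ ≤ 1 * (2 * Bs * ‖w‖) := by
            have := hBsb θ hθ'
            gcongr
        _ = 2 * Bs * ‖w‖ := one_mul _
    rw [sub_zero, abs_of_pos hT] at h3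
    have h4 : |ε * (S * I)| ≤ ‖w‖ := by
      rw [abs_mul, abs_mul, hS1, one_mul, abs_of_pos hεpos, ← Real.norm_eq_abs I]
      calc ε * ‖I‖ ≤ ε * ((2 * Bs * ‖w‖) * T) := by gcongr
        _ = (ε * (T * 2 * Bs)) * ‖w‖ := by ring
        _ ≤ 1 * ‖w‖ := by gcongr
        _ = ‖w‖ := one_mul _
    have h5 := (abs_le.1 h4).1
    nlinarith
  · -- bounded velocities
    push Not at hw
    set g : ℝ := ℓ (x, w) - fderiv ℝ u x w with hg
    have hg0 : 0 ≤ g := by rw [hg]; linarith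
    have hpt : ∀ θ ∈ Icc (0:ℝ) T, 0 ≤ χ (x - σ θ) * (g + ε * T * (S * det (σ' θ) w)) := by
      intro θ hθ
      by_cases hχz : χ (x - σ θ) = 0
      · rw [hχz, zero_mul]
      apply mul_nonneg (hχ0 _)
      obtain ⟨hD1, hD2, hD3, hD4⟩ := htilt θ hθ
      obtain ⟨k, hk⟩ := hχa _ hχz
      have hf := hD4 w
      set f : ℝ := S * det (σ' θ) w with hfdef
      by_cases hfn : 0 ≤ f
      · positivity
      push Not at hfn
      set s : ℝ := ‖w - V θ‖ with hs
      have hs0 : 0 ≤ s := norm_nonneg _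
      have hDpos : 0 < D θ := lt_of_lt_of_le ha hD1
      have hN'0 : 0 ≤ N' := by linarith
      have hNa : N * a ≤ N' * D θ := by gcongr
      have hND : N * D θ ≤ N' * D θ := by gcongr
      have hNas : N * a < C1 * s := by linarith
      have hNDs : N * D θ < C1 * s := by linarith
      -- the shifted point
      set x' : E := x - iv k with hx'
      obtain ⟨hdx', hfd⟩ := grad_per hu x k hx
      have hℓ : ∀ v : E, ℓ (x', v) = ℓ (x, v) := by
        intro v
        rw [← h.per x' v k, hx', sub_add_cancel]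
      set d : ℝ := ‖x' - A θ‖ with hd
      have hd0 : 0 ≤ d := norm_nonneg _
      have hd1 : d ≤ (1 + C0) * D θ := by
        have e1 : x' - A θ = (x - σ θ - iv k) + (σ θ - A θ) := by rw [hx']; abel
        have e2 : ‖x' - A θ‖ ≤ ‖x - σ θ - iv k‖ + ‖σ θ - A θ‖ := by
          rw [e1]; exact norm_add_le _ _
        rw [hd]
        linarith
      have hd2 : d ≤ 1 / 2 := by
        have : (1 + C0) * D θ ≤ (1 + C0) * (1 / (2 * (1 + C0))) := by gcongr
        have e : (1 + C0) * (1 / (2 * (1 + C0))) = 1 / 2 := by field_simp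
        linarith
      obtain ⟨hVR, hq2, hq3⟩ := hAV θ
      have hVR1 : ‖V θ‖ ≤ R1 := le_trans hVR hR1R
      have hcv := hconv' x' (V θ) w hVR1 hw.le
      have hg1 := gap_nonneg h hu x' hdx' (V θ)
      have hgr := hM (A θ, V θ) (hAV θ) x' (by exact hd2) hdx' (w - V θ)
      have hll : |fderiv ℝ ℓ (x', V θ) (0, w - V θ) - fderiv ℝ ℓ (A θ, V θ) (0, w - V θ)| ≤
          CL * d * s := by
        have e1 := hCL x' (V θ) (A θ) (V θ) hVR1 hVR1
        have e2 : ‖((x', V θ) : E × E) - (A θ, V θ)‖ = d := by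
          rw [Prod.mk_sub_mk, sub_self, Prod.norm_mk, norm_zero, max_eq_left (norm_nonneg _)]
        have e3 : ‖((0, w - V θ) : E × E)‖ = s := by
          rw [Prod.norm_mk, norm_zero, max_eq_right (norm_nonneg _)]
        rw [← sub_apply, ← Real.norm_eq_abs]
        calc _ ≤ ‖fderiv ℝ ℓ (x', V θ) - fderiv ℝ ℓ (A θ, V θ)‖ * ‖((0, w - V θ) : E × E)‖ :=
              ContinuousLinearMap.le_opNorm _ _
          _ ≤ (CL * d) * s := by rw [e3, ← e2]; gcongr
      have hgr' : |fderiv ℝ u x' (w - V θ) - fderiv ℝ ℓ (A θ, V θ) (0, w - V θ)| ≤ M * d * s := hgr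
      have hlin : fderiv ℝ u x' (w - V θ) = fderiv ℝ u x' w - fderiv ℝ u x' (V θ) := map_sub _ _ _
      have hgval : g = ℓ (x', w) - fderiv ℝ u x' w := by
        rw [hg, hℓ w, hfd]
      have hGd : G * d ≤ m / 2 * s := by
        have a1 : N * d ≤ (1 + C0) * (C1 * s) := by
          calc N * d ≤ N * ((1 + C0) * D θ) := by gcongr
            _ = (1 + C0) * (N * D θ) := by ring
            _ ≤ (1 + C0) * (C1 * s) := by gcongr
        have a2 : N * (G * d) ≤ N * (m / 2 * s) := by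
          calc N * (G * d) = G * (N * d) := by ring
            _ ≤ G * ((1 + C0) * (C1 * s)) := by gcongr
            _ = (2 * G * (1 + C0) * C1) * (s / 2) := by ring
            _ ≤ (N * m) * (s / 2) := by gcongr
            _ = N * (m / 2 * s) := by ring
        exact le_of_mul_le_mul_left a2 hNpos
      have hgs : m / 2 * s ^ 2 ≤ g := by
        have b1 := (abs_le.1 hll).1
        have b2 := (abs_le.1 hgr').2
        have b3 : G * d * s ≤ m / 2 * s * s := by gcongr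
        rw [hgval]
        have b4 : CL * d * s + M * d * s = G * d * s := by rw [hG]; ring
        have b5 : m * ‖w - V θ‖ ^ 2 = m * s ^ 2 := rfl
        nlinarith
      have hfl : -(C1 * s) ≤ f := by
        have : 0 ≤ N' * D θ := by
          have : 0 ≤ N * a := by positivity
          linarith
        linarith
      have hms : ε * T * C1 ≤ m / 2 * s := by
        have c1 : C1 * (ε * T * C1) ≤ C1 * (m / 2 * s) := by
          calc C1 * (ε * T * C1) = (ε * (2 * T * C1 ^ 2)) / 2 := by ring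
            _ ≤ (m * N * a) / 2 := by gcongr
            _ = m / 2 * (N * a) := by ring
            _ ≤ m / 2 * (C1 * s) := by gcongr
            _ = C1 * (m / 2 * s) := by ring
        exact le_of_mul_le_mul_left c1 hC1
      calc (0:ℝ) ≤ s * (m / 2 * s - ε * T * C1) := mul_nonneg hs0 (by linarith)
        _ = m / 2 * s ^ 2 + ε * T * (-(C1 * s)) := by ring
        _ ≤ g + ε * T * f := by gcongr
    have hχc : Continuous fun θ => χ (x - σ θ) := hχ.comp (continuous_const.sub hσ)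
    have hdc := det_continuous hσ' w
    have hint : 0 ≤ ∫ θ in (0:ℝ)..T, χ (x - σ θ) * (g + ε * T * (S * det (σ' θ) w)) :=
      intervalIntegral.integral_nonneg hT.le hpt
    have hsplit : ∫ θ in (0:ℝ)..T, χ (x - σ θ) * (g + ε * T * (S * det (σ' θ) w)) =
        g * (∫ θ in (0:ℝ)..T, χ (x - σ θ)) + ε * T * (S * I) := by
      have e1 : ∀ θ, χ (x - σ θ) * (g + ε * T * (S * det (σ' θ) w)) =
          g * χ (x - σ θ) + (ε * T * S) * (χ (x - σ θ) * det (σ' θ) w) := fun θ => by ring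
      simp_rw [e1]
      rw [intervalIntegral.integral_add, intervalIntegral.integral_const_mul,
        intervalIntegral.integral_const_mul]
      · rw [hI]; ring
      · exact (hχc.const_mul g).intervalIntegrable _ _
      · exact ((hχc.mul hdc).const_mul _).intervalIntegrable _ _
    have hχT : ∫ θ in (0:ℝ)..T, χ (x - σ θ) ≤ T := by
      have : ∫ θ in (0:ℝ)..T, χ (x - σ θ) ≤ ∫ θ in (0:ℝ)..T, (1:ℝ) :=
        intervalIntegral.integral_mono_on hT.le (hχc.intervalIntegrable _ _)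
          intervalIntegrable_const (fun θ _ => hχ1 _)
      simpa using this
    have hfin : 0 ≤ T * (g + ε * (S * I)) := by
      have e2 : g * (∫ θ in (0:ℝ)..T, χ (x - σ θ)) ≤ g * T := mul_le_mul_of_nonneg_left hχT hg0
      have e3 : T * (g + ε * (S * I)) = g * T + ε * T * (S * I) := by ring
      rw [e3]
      rw [hsplit] at hint
      linarith
    have hfin2 : 0 ≤ g + ε * (S * I) := nonneg_of_mul_nonneg_right hfin hT
    rw [hg] at hfin2
    linarith

end Pool.H110M
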