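import Mathlib
import Pool.Agent.Helper110.MDefs

set_option autoImplicit false
open MeasureTheory Set Filter Topology

noncomputable section
namespace Pool.H110M


























theorem closed_ineq {u : E → ℝ} {K C : ℝ}
    (hmoll : ∀ η : ℝ, 0 < η → η ≤ 1 → ∃ φ : E → ℝ, ContDiff ℝ 1 φ ∧
      (∀ (x : E) (k : ℤ × ℤ), φ (x + iv k) = φ x) ∧
      (∀ x, |φ x - u x| ≤ K * η) ∧ (∀ x, ‖fderiv ℝ φ x‖ ≤ K) ∧
      (∀ (x w : E) (b : ℝ), (∀ᵐ y : E, ‖y - x‖ ≤ η → fderiv ℝ u y w ≤ b) →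
        fderiv ℝ φ x w ≤ b) ∧
      (∀ x ζ : E, ‖ζ‖ + η ≤ 1 →
        u (x + ζ) ≤ φ x + fderiv ℝ φ x ζ + K * η + C * (‖ζ‖ + η) ^ 2))
    {F : E × E → ℝ} (hF : Continuous F) (hper : ∀ (x w : E) (k : ℤ × ℤ), F (x + iv k, w) = F (x, w))
    (hlarge : ∃ R0 : ℝ, ∀ x w : E, R0 ≤ ‖w‖ → K * ‖w‖ ≤ F (x, w))
    (hae : ∀ᵐ x : E, ∀ w : E, fderiv ℝ u x w ≤ F (x, w))
    {ν : Measure (E × E)} (hν : Closed ν) (hi : Integrable F ν) : 0 ≤ ∫ q, F q ∂ν := by

  haveI := hν.prob
  obtain ⟨R0, hR0⟩ := hlarge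
  apply le_of_forall_pos_le_add
  intro δ hδ
  obtain ⟨R, hR⟩ : ∃ R : ℝ, R = max R0 0 := ⟨_, rfl⟩
  have hRR0 : R0 ≤ R := by rw [hR]; exact le_max_left _ _
  -- uniform continuity
  have hunif : ∃ η : ℝ, 0 < η ∧ η ≤ 1 ∧ ∀ x y w : E, ‖y - x‖ ≤ η → ‖w‖ ≤ R →
      F (y, w) ≤ F (x, w) + δ := by
    have hcomp : IsCompact (Metric.closedBall (0 : E) 3 ×ˢ Metric.closedBall (0 : E) R) :=
      (isCompact_closedBall _ _).prod (isCompact_closedBall _ _)
    have huc := hcomp.uniformContinuousOn_of_continuous hF.continuousOn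
    rw [Metric.uniformContinuousOn_iff] at huc
    obtain ⟨η0, hη0, hη⟩ := huc δ hδ
    refine ⟨min (η0 / 2) 1, lt_min (by linarith) one_pos, min_le_right _ _, ?_⟩
    intro x y w hxy hw
    have hxy1 : ‖y - x‖ ≤ η0 / 2 := hxy.trans (min_le_left _ _)
    have hxy2 : ‖y - x‖ ≤ 1 := hxy.trans (min_le_right _ _)
    obtain ⟨k, hk⟩ : ∃ k : ℤ × ℤ, k = (-⌊x.1⌋, -⌊x.2⌋) := ⟨_, rfl⟩
    have hx' : ‖x + iv k‖ ≤ 1 := by
      rw [Prod.norm_def]
      apply max_le
      · rw [hk, Prod.fst_add]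
        simp only [iv, Int.cast_neg, Real.norm_eq_abs]
        rw [abs_le]
        have h1 := Int.floor_le x.1
        have h2 := Int.lt_floor_add_one x.1
        constructor <;> linarith
      · rw [hk, Prod.snd_add]
        simp only [iv, Int.cast_neg, Real.norm_eq_abs]
        rw [abs_le]
        have h1 := Int.floor_le x.2
        have h2 := Int.lt_floor_add_one x.2
        constructor <;> linarith
    have hy' : ‖y + iv k‖ ≤ 2 := by
      have e : y + iv k = (x + iv k) + (y - x) := by abel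
      rw [e]
      refine (norm_add_le _ _).trans ?_
      linarith
    have h1 := hη (y + iv k, w) ⟨by simpa using hy'.trans (by norm_num), by simpa using hw⟩
      (x + iv k, w) ⟨by simpa using hx'.trans (by norm_num), by simpa using hw⟩ (by
        rw [dist_eq_norm]
        have e : ((y + iv k, w) : E × E) - (x + iv k, w) = (y - x, 0) := by
          ext <;> simp
        rw [e, Prod.norm_def]
        simp only [norm_zero]
        exact max_lt (by linarith) hη0)
    rw [Real.dist_eq, hper, hper, abs_lt] at h1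
    linarith [h1.2]
  obtain ⟨η, hη0, hη1, hη⟩ := hunif
  obtain ⟨φ, hφ, hφper, -, hφK, hφb, -⟩ := hmoll η hη0 hη1
  have hK0 : 0 ≤ K := (norm_nonneg _).trans (hφK 0)
  have hpt : ∀ q : E × E, fderiv ℝ φ q.1 q.2 ≤ F q + δ := by
    rintro ⟨x, w⟩
    simp only
    rcases le_or_gt ‖w‖ R with hw | hw
    · apply hφb x w
      filter_upwards [hae] with y hy hyx
      exact (hy w).trans (hη x y w hyx hw)
    · have h1 : fderiv ℝ φ x w ≤ ‖fderiv ℝ φ x‖ * ‖w‖ :=
        (le_abs_self _).trans ((fderiv ℝ φ x).le_opNorm w)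
      have h2 : ‖fderiv ℝ φ x‖ * ‖w‖ ≤ K * ‖w‖ := mul_le_mul_of_nonneg_right (hφK x) (norm_nonneg _)
      have h3 := hR0 x w (hRR0.trans hw.le)
      linarith
  have hcont : Continuous (fun q : E × E => fderiv ℝ φ q.1 q.2) :=
    hφ.continuous_fderiv_apply (by norm_num)
  have hint : Integrable (fun q : E × E => fderiv ℝ φ q.1 q.2) ν := by
    refine Integrable.mono' (hν.int.const_mul K) hcont.aestronglyMeasurable ?_
    refine Filter.Eventually.of_forall (fun q => ?_)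
    exact ((fderiv ℝ φ q.1).le_opNorm q.2).trans
      (mul_le_mul_of_nonneg_right (hφK q.1) (norm_nonneg _))
  have h0 := hν.closed φ hφ hφper
  have h1 : ∫ q, fderiv ℝ φ q.1 q.2 ∂ν ≤ ∫ q, (F q + δ) ∂ν :=
    integral_mono hint (hi.add (integrable_const δ)) hpt
  rw [h0, integral_add hi (integrable_const δ)] at h1
  simpa using h1

end Pool.H110M
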