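import Mathlib
import Pool.Agent.Helper110.MDefs

set_option autoImplicit false
open MeasureTheory Set Filter Topology

noncomputable section
namespace Pool.H110M


























theorem pos_of_tilt {A V : ℝ → E} {Mg C0 C1 N δ1 : ℝ} (hMg : 0 ≤ Mg) (hC0 : 0 < C0) (hC1 : 0 < C1)
    (hgraph : ∀ (s θ : ℝ) (k : ℤ × ℤ), ‖A s - iv k - A θ‖ ≤ 1 / 2 →
      ‖V s - V θ‖ ≤ Mg * ‖A s - iv k - A θ‖)
    (hN : C1 * Mg * (1 + C0) + 1 ≤ N) (hδ : δ1 * (1 + C0) ≤ 1 / 2)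
    {T : ℝ} {σ σ' : ℝ → E} {D : ℝ → ℝ} {a S : ℝ} (hT : 0 < T) (ha : 0 < a)
    (hσ : Continuous σ) (hσ' : Continuous σ') (h0 : σ 0 = A 0)
    (ht : ∀ θ ∈ Icc (0:ℝ) T, a ≤ D θ ∧ D θ ≤ δ1 ∧ ‖σ θ - A θ‖ ≤ C0 * D θ ∧
        ∀ w : E, N * D θ - C1 * ‖w - V θ‖ ≤ S * det (σ' θ) w)
    {χ : E → ℝ} (hχ : Continuous χ) (hχ0 : ∀ x, 0 ≤ χ x) (hχp : 0 < χ 0)
    (hχs : ∀ x, χ x ≠ 0 → ∃ k : ℤ × ℤ, ‖x - iv k‖ < a) :
    (∀ t, 0 ≤ S * ∫ θ in (0:ℝ)..T, χ (A t - σ θ) * det (σ' θ) (V t)) ∧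
      0 < S * ∫ θ in (0:ℝ)..T, χ (A 0 - σ θ) * det (σ' θ) (V 0) := by
  have hS : ∀ t : ℝ, ∀ θ ∈ Icc (0:ℝ) T, (χ (A t - σ θ) = 0 ∨ 0 < S * det (σ' θ) (V t)) := by
    intro t θ hθ
    by_cases hz : χ (A t - σ θ) = 0
    · exact Or.inl hz
    right
    obtain ⟨k, hk⟩ := hχs _ hz
    obtain ⟨h1, h2, h3, h4⟩ := ht θ hθ
    have hD : 0 < D θ := lt_of_lt_of_le ha h1
    have h5 : ‖A t - iv k - A θ‖ ≤ (1 + C0) * D θ := by
      have e : A t - iv k - A θ = (A t - σ θ - iv k) + (σ θ - A θ) := by abel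
      rw [e]
      calc ‖(A t - σ θ - iv k) + (σ θ - A θ)‖ ≤ ‖A t - σ θ - iv k‖ + ‖σ θ - A θ‖ := norm_add_le _ _
        _ ≤ a + C0 * D θ := add_le_add hk.le h3
        _ ≤ (1 + C0) * D θ := by linarith
    have h6 : (1 + C0) * D θ ≤ 1 / 2 := by
      have : (1 + C0) * D θ ≤ (1 + C0) * δ1 := mul_le_mul_of_nonneg_left h2 (by linarith)
      linarith
    have h7 := hgraph t θ k (h5.trans h6)
    have h8 : ‖V t - V θ‖ ≤ Mg * ((1 + C0) * D θ) := h7.trans (mul_le_mul_of_nonneg_left h5 hMg)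
    have h9 := h4 (V t)
    have h10 : C1 * ‖V t - V θ‖ ≤ C1 * (Mg * ((1 + C0) * D θ)) := mul_le_mul_of_nonneg_left h8 hC1.le
    have h11 : (C1 * Mg * (1 + C0) + 1) * D θ ≤ N * D θ := mul_le_mul_of_nonneg_right hN hD.le
    nlinarith
  have hcont : ∀ t : ℝ, Continuous (fun θ => S * (χ (A t - σ θ) * det (σ' θ) (V t))) := by
    intro t
    unfold det
    fun_prop
  have hnn : ∀ t : ℝ, ∀ θ ∈ Icc (0:ℝ) T, 0 ≤ S * (χ (A t - σ θ) * det (σ' θ) (V t)) := by
    intro t θ hθ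
    rcases hS t θ hθ with h | h
    · rw [h]; simp
    · have := mul_nonneg (hχ0 (A t - σ θ)) h.le
      nlinarith
  constructor
  · intro t
    rw [← intervalIntegral.integral_const_mul]
    exact intervalIntegral.integral_nonneg hT.le (fun θ hθ => hnn t θ hθ)
  · rw [← intervalIntegral.integral_const_mul]
    refine intervalIntegral.integral_pos hT (hcont 0).continuousOn
      (fun θ hθ => hnn 0 θ (Ioc_subset_Icc_self hθ)) ⟨0, left_mem_Icc.2 hT.le, ?_⟩
    have h1 : χ (A 0 - σ 0) = χ 0 := by rw [h0, sub_self]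
    rcases hS 0 0 (left_mem_Icc.2 hT.le) with h | h
    · rw [h1] at h; linarith
    · rw [h1]
      have := mul_pos hχp h
      nlinarith

theorem kappa_ne {Θ : E → ℝ} {κ : E →L[ℝ] ℝ} (hΘ : ContDiff ℝ 1 Θ)
    (hper : ∀ (x : E) (k : ℤ × ℤ), Θ (x + iv k) - κ (x + iv k) = Θ x - κ x)
    {A V : ℝ → E} (hA : ∀ t, HasDerivAt A (V t) t) {L R : ℝ} (hR : ∀ t, ‖V t‖ ≤ R)
    (hL : ∀ s t, ‖V s - V t‖ ≤ L * |s - t|) {S : ℝ}
    (hpos : ∀ t, 0 ≤ S * fderiv ℝ Θ (A t) (V t)) (hpos0 : 0 < S * fderiv ℝ Θ (A 0) (V 0))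
    (hrec : ∀ δ > 0, ∀ N : ℝ, ∃ T : ℝ, N ≤ T ∧ ∃ k : ℤ × ℤ,
      ‖A T - A 0 - iv k‖ < δ ∧ ‖V T - V 0‖ < δ) : κ ≠ 0 := by
  intro hκ
  have hperΘ : ∀ (x : E) (k : ℤ × ℤ), Θ (x + iv k) = Θ x := by
    intro x k
    have := hper x k
    rw [hκ] at this
    simpa using this
  -- bounded
  obtain ⟨B, hB⟩ : ∃ B : ℝ, ∀ x, |Θ x| ≤ B := by
    have hcpt : IsCompact (Icc (0:ℝ) 1 ×ˢ Icc (0:ℝ) 1) := isCompact_Icc.prod isCompact_Icc
    obtain ⟨B, hB⟩ := hcpt.exists_bound_of_continuousOn hΘ.continuous.continuousOn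
    refine ⟨B, fun x => ?_⟩
    have e : x = ((Int.fract x.1, Int.fract x.2) : E) + iv (⌊x.1⌋, ⌊x.2⌋) := by
      unfold iv
      ext
      · simp
      · simp
    rw [e, hperΘ, ← Real.norm_eq_abs]
    apply hB
    exact ⟨⟨Int.fract_nonneg _, (Int.fract_lt_one _).le⟩, ⟨Int.fract_nonneg _, (Int.fract_lt_one _).le⟩⟩
  have hdΘ : Differentiable ℝ Θ := hΘ.differentiable one_ne_zero
  have hF : ∀ t, HasDerivAt (fun t => S * Θ (A t)) (S * fderiv ℝ Θ (A t) (V t)) t := by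
    intro t
    exact (((hdΘ (A t)).hasFDerivAt).comp_hasDerivAt t (hA t)).const_mul S
  have hmono : Monotone (fun t => S * Θ (A t)) := by
    apply monotone_of_deriv_nonneg (fun t => (hF t).differentiableAt)
    intro t
    rw [(hF t).deriv]
    exact hpos t
  have hfper : ∀ (x : E) (k : ℤ × ℤ), fderiv ℝ Θ (x - iv k) = fderiv ℝ Θ x := by
    intro x k
    have h1 : (fun y => Θ (y - iv k)) = Θ := by
      funext y
      have := hperΘ (y - iv k) k
      rw [sub_add_cancel] at this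
      exact this.symm
    have h2 := fderiv_comp_sub (𝕜 := ℝ) (f := Θ) (x := x) (iv k)
    rw [h1] at h2
    exact h2.symm
  have hGc : Continuous (fun q : E × E => S * fderiv ℝ Θ q.1 q.2) := by
    have h1 : Continuous (fderiv ℝ Θ) := hΘ.continuous_fderiv one_ne_zero
    have h2 : Continuous (fun q : E × E => fderiv ℝ Θ q.1 q.2) :=
      (h1.comp continuous_fst).clm_apply continuous_snd
    exact continuous_const.mul h2
  set b : ℝ := S * fderiv ℝ Θ (A 0) (V 0) / 2 with hb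
  have hb0 : 0 < b := by rw [hb]; linarith
  obtain ⟨δ', hδ'0, hδ'⟩ := Metric.continuousAt_iff.1 (hGc.continuousAt (x := (A 0, V 0))) b hb0
  set δ : ℝ := δ' / 2 with hδdef
  have hδ0 : 0 < δ := by rw [hδdef]; linarith
  have hGb : ∀ x v : E, ‖x - A 0‖ < 2 * δ → ‖v - V 0‖ < 2 * δ → b ≤ S * fderiv ℝ Θ x v := by
    intro x v hx hv
    have h1 : dist (x, v) (A 0, V 0) < δ' := by
      rw [Prod.dist_eq, max_lt_iff, dist_eq_norm, dist_eq_norm]
      constructor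
      · calc ‖x - A 0‖ < 2 * δ := hx
          _ = δ' := by rw [hδdef]; ring
      · calc ‖v - V 0‖ < 2 * δ := hv
          _ = δ' := by rw [hδdef]; ring
    have h2 := hδ' h1
    rw [Real.dist_eq, abs_lt] at h2
    have h3 := h2.1
    simp only at h3
    rw [hb] at h3 ⊢
    linarith
  set τ : ℝ := δ / (|R| + |L| + 1) with hτ
  have hden : 0 < |R| + |L| + 1 := by positivity
  have hτ0 : 0 < τ := by positivity
  have hτR : |R| * τ ≤ δ := by
    rw [hτ, mul_div_assoc', div_le_iff₀ hden]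
    nlinarith [abs_nonneg R, abs_nonneg L]
  have hτL : |L| * τ ≤ δ := by
    rw [hτ, mul_div_assoc', div_le_iff₀ hden]
    nlinarith [abs_nonneg R, abs_nonneg L]
  have hstep : ∀ T : ℝ, (∃ k : ℤ × ℤ, ‖A T - A 0 - iv k‖ < δ ∧ ‖V T - V 0‖ < δ) →
      S * Θ (A T) + b * τ ≤ S * Θ (A (T + τ)) := by
    rintro T ⟨k, hk1, hk2⟩
    have hder : ∀ t ∈ Icc T (T + τ), b ≤ S * fderiv ℝ Θ (A t) (V t) := by
      intro t ht
      have hat : |t - T| ≤ τ := by
        rw [abs_le]; constructor <;> linarith [ht.1, ht.2]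
      have h1 : ‖A t - A T‖ ≤ δ := by
        have h2 := (convex_univ (𝕜 := ℝ) (E := ℝ)).norm_image_sub_le_of_norm_hasDerivWithin_le
          (f := A) (f' := V) (C := |R|) (x := T) (y := t) (fun x _ => (hA x).hasDerivWithinAt)
          (fun x _ => (hR x).trans (le_abs_self R)) (mem_univ _) (mem_univ _)
        calc ‖A t - A T‖ ≤ |R| * ‖t - T‖ := h2
          _ ≤ |R| * τ := mul_le_mul_of_nonneg_left hat (abs_nonneg _)
          _ ≤ δ := hτR
      have h3 : ‖V t - V T‖ ≤ δ := by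
        calc ‖V t - V T‖ ≤ L * |t - T| := hL t T
          _ ≤ |L| * |t - T| := mul_le_mul_of_nonneg_right (le_abs_self L) (abs_nonneg _)
          _ ≤ |L| * τ := mul_le_mul_of_nonneg_left hat (abs_nonneg _)
          _ ≤ δ := hτL
      rw [← hfper (A t) k]
      apply hGb
      · have e : A t - iv k - A 0 = (A t - A T) + (A T - A 0 - iv k) := by abel
        rw [e]
        calc ‖(A t - A T) + (A T - A 0 - iv k)‖ ≤ ‖A t - A T‖ + ‖A T - A 0 - iv k‖ := norm_add_le _ _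
          _ < 2 * δ := by linarith
      · have e : V t - V 0 = (V t - V T) + (V T - V 0) := by abel
        rw [e]
        calc ‖(V t - V T) + (V T - V 0)‖ ≤ ‖V t - V T‖ + ‖V T - V 0‖ := norm_add_le _ _
          _ < 2 * δ := by linarith
    have h4 := (convex_Icc T (T + τ)).mul_sub_le_image_sub_of_le_deriv (f := fun t => S * Θ (A t))
      (fun t _ => (hF t).continuousAt.continuousWithinAt)
      (fun t _ => (hF t).differentiableAt.differentiableWithinAt) (C := b) (by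
        intro t ht
        rw [(hF t).deriv]
        exact hder t (interior_subset ht)) T (left_mem_Icc.2 (by linarith)) (T + τ)
      (right_mem_Icc.2 (by linarith)) (by linarith)
    have e : T + τ - T = τ := by ring
    rw [e] at h4
    linarith
  have hind : ∀ n : ℕ, ∃ T : ℝ, S * Θ (A 0) + n * (b * τ) ≤ S * Θ (A T) := by
    intro n
    induction n with
    | zero => exact ⟨0, by simp⟩
    | succ n ih =>
      obtain ⟨T, hT⟩ := ih
      obtain ⟨T', hT', hk⟩ := hrec δ hδ0 T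
      refine ⟨T' + τ, ?_⟩
      have h1 := hstep T' hk
      have h2 := hmono hT'
      simp only at h2
      push_cast
      linarith
  obtain ⟨n, hn⟩ := exists_nat_gt (2 * |S| * B / (b * τ))
  obtain ⟨T, hT⟩ := hind n
  have hbt : 0 < b * τ := by positivity
  rw [div_lt_iff₀ hbt] at hn
  have h1 : |S * Θ (A T)| ≤ |S| * B := by
    rw [abs_mul]; exact mul_le_mul_of_nonneg_left (hB _) (abs_nonneg _)
  have h2 : |S * Θ (A 0)| ≤ |S| * B := by
    rw [abs_mul]; exact mul_le_mul_of_nonneg_left (hB _) (abs_nonneg _)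
  have h3 := (abs_le.1 h1).2
  have h4 := (abs_le.1 h2).1
  linarith

theorem const_of_zero {A V : ℝ → E} (hA : ∀ t, HasDerivAt A (V t) t) (hV : Continuous V)
    {M : ℝ} (hM : 0 ≤ M) (hg : ∀ s t, ‖A s - A t‖ ≤ 1 / 2 → ‖V s - V t‖ ≤ M * ‖A s - A t‖)
    {t₀ : ℝ} (h0 : V t₀ = 0) : ∀ t, A t = A t₀ ∧ V t = 0 := by
  have hAc : Continuous A := continuous_iff_continuousAt.2 (fun t => (hA t).continuousAt)
  have hV0 : ∀ t, A t = A t₀ → V t = 0 := by
    intro t ht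
    have h1 := hg t t₀ (by rw [ht, sub_self, norm_zero]; norm_num)
    rw [ht, sub_self, norm_zero, mul_zero, h0, sub_zero] at h1
    exact norm_le_zero_iff.1 h1
  have hclosed : IsClosed {t | A t = A t₀} := isClosed_eq hAc continuous_const
  have hopen : IsOpen {t | A t = A t₀} := by
    rw [isOpen_iff_mem_nhds]
    intro t1 ht1
    have ht1' : A t1 = A t₀ := ht1
    have hV1 := hV0 t1 ht1'
    obtain ⟨ε', hε'0, hε'⟩ := Metric.continuousAt_iff.1 (hAc.continuousAt (x := t1)) (1 / 2) (by norm_num)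
    set ε : ℝ := min (ε' / 2) (1 / (2 * (M + 1))) with hε
    have hε0 : 0 < ε := by
      rw [hε]; apply lt_min (by linarith); positivity
    have hεM : M * ε ≤ 1 / 2 := by
      have h1 : ε ≤ 1 / (2 * (M + 1)) := min_le_right _ _
      calc M * ε ≤ M * (1 / (2 * (M + 1))) := mul_le_mul_of_nonneg_left h1 hM
        _ ≤ 1 / 2 := by
          rw [mul_one_div, div_le_div_iff₀ (by positivity) (by norm_num)]
          nlinarith
    have hIcc : Icc (t1 - ε) (t1 + ε) ∈ 𝓝 t1 := Icc_mem_nhds (by linarith) (by linarith)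
    have hne : (Icc (t1 - ε) (t1 + ε)).Nonempty := ⟨t1, by constructor <;> linarith⟩
    obtain ⟨s, hs, hmax⟩ := isCompact_Icc.exists_isMaxOn hne
      (f := fun s => ‖A s - A t1‖) (by fun_prop)
    have hmem1 : t1 ∈ Icc (t1 - ε) (t1 + ε) := by constructor <;> linarith
    have hhalf : ∀ x ∈ Icc (t1 - ε) (t1 + ε), ‖A x - A t1‖ ≤ 1 / 2 := by
      intro x hx
      have h1 : dist x t1 < ε' := by
        rw [Real.dist_eq]
        have h2 : ε ≤ ε' / 2 := min_le_left _ _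
        rw [abs_lt]
        constructor <;> linarith [hx.1, hx.2]
      have h2 := hε' h1
      rw [dist_eq_norm] at h2
      exact h2.le
    have hbd : ∀ x ∈ Icc (t1 - ε) (t1 + ε), ‖V x‖ ≤ M * ‖A s - A t1‖ := by
      intro x hx
      have h1 := hg x t1 (hhalf x hx)
      rw [hV1, sub_zero] at h1
      exact h1.trans (mul_le_mul_of_nonneg_left (hmax hx) hM)
    have h1 := (convex_Icc (t1 - ε) (t1 + ε)).norm_image_sub_le_of_norm_hasDerivWithin_le
      (f := A) (f' := V) (C := M * ‖A s - A t1‖) (x := t1) (y := s) (fun x _ => (hA x).hasDerivWithinAt)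
      hbd hmem1 hs
    have h2 : ‖s - t1‖ ≤ ε := by
      rw [Real.norm_eq_abs, abs_le]
      constructor <;> linarith [hs.1, hs.2]
    have h3 : ‖A s - A t1‖ ≤ (1 / 2) * ‖A s - A t1‖ := by
      calc ‖A s - A t1‖ ≤ M * ‖A s - A t1‖ * ‖s - t1‖ := h1
        _ ≤ M * ‖A s - A t1‖ * ε := mul_le_mul_of_nonneg_left h2 (by positivity)
        _ = (M * ε) * ‖A s - A t1‖ := by ring
        _ ≤ (1 / 2) * ‖A s - A t1‖ := mul_le_mul_of_nonneg_right hεM (norm_nonneg _)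
    have h4 : ‖A s - A t1‖ ≤ 0 := by linarith
    filter_upwards [hIcc] with x hx
    have h5 : ‖A x - A t1‖ ≤ 0 := (hmax hx).trans h4
    have h6 := norm_le_zero_iff.1 h5
    show A x = A t₀
    rw [← ht1']
    exact sub_eq_zero.1 h6
  have huniv : {t | A t = A t₀} = univ := IsClopen.eq_univ ⟨hclosed, hopen⟩ ⟨t₀, rfl⟩
  intro t
  have ht : A t = A t₀ := by
    have : t ∈ {t | A t = A t₀} := by rw [huniv]; trivial
    exact this
  exact ⟨ht, hV0 t ht⟩

end Pool.H110M
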