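import Mathlib
import Pool.Agent.Helper110.MDefs

set_option autoImplicit false
open MeasureTheory Set Filter Topology

noncomputable section
namespace Pool.H110M


























theorem act_append (ℓ : E × E → ℝ) (x : E) (l r : List (E × ℝ)) :
    act ℓ x (l ++ r) = act ℓ x l + act ℓ (endp x l) r := by
  induction l generalizing x with
  | nil => simp [act, endp]
  | cons a l ih =>
    simp only [List.cons_append, act, endp, ih]
    ring

theorem endp_append (x : E) (l r : List (E × ℝ)) : endp x (l ++ r) = endp (endp x l) r := by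
  induction l generalizing x with
  | nil => simp [endp]
  | cons a l ih =>
    simp only [List.cons_append, endp, ih]

theorem dur_append (l r : List (E × ℝ)) : dur (l ++ r) = dur l + dur r := by
  induction l with
  | nil => simp [dur]
  | cons a l ih =>
    simp only [List.cons_append, dur, ih]
    ring

theorem Ton.cont_seg {ℓ : E × E → ℝ} (h : Ton ℓ) (x w : E) :
    Continuous (fun s : ℝ => ℓ (x + s • w, w)) := by
  have h1 : Continuous ℓ := h.smooth.continuous
  have h2 : Continuous (fun s : ℝ => (x + s • w, w)) := by fun_prop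
  exact h1.comp h2

theorem Ton.seg_add {ℓ : E × E → ℝ} (h : Ton ℓ) (x w : E) (s t : ℝ) :
    seg ℓ x w (s + t) = seg ℓ x w s + seg ℓ (x + s • w) w t := by
  unfold seg
  have hc := h.cont_seg x w
  rw [← intervalIntegral.integral_add_adjacent_intervals (hc.intervalIntegrable 0 s)
    (hc.intervalIntegrable s (s + t))]
  congr 1
  have h1 := intervalIntegral.integral_comp_add_right (a := 0) (b := t)
    (fun u : ℝ => ℓ (x + u • w, w)) s
  rw [zero_add, add_comm t s] at h1
  rw [← h1]
  congr 1
  ext u
  rw [show x + (u + s) • w = x + s • w + u • w by rw [add_smul]; abel]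

theorem Ton.act_per {ℓ : E × E → ℝ} (h : Ton ℓ) (x : E) (k : ℤ × ℤ) (l : List (E × ℝ)) :
    act ℓ (x + iv k) l = act ℓ x l := by
  induction l generalizing x with
  | nil => simp [act]
  | cons a l ih =>
    have h1 : seg ℓ (x + iv k) a.1 a.2 = seg ℓ x a.1 a.2 := by
      unfold seg
      congr 1
      ext s
      rw [show x + iv k + s • a.1 = (x + s • a.1) + iv k by abel, h.per]
    simp only [act]
    rw [h1, show x + iv k + a.2 • a.1 = (x + a.2 • a.1) + iv k by abel, ih]

theorem endp_add (x y : E) (l : List (E × ℝ)) : endp (x + y) l = endp x l + y := by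
  induction l generalizing x with
  | nil => simp [endp]
  | cons a l ih =>
    simp only [endp]
    rw [show x + y + a.2 • a.1 = (x + a.2 • a.1) + y by abel, ih]

theorem Ton.bdd_unit {ℓ : E × E → ℝ} (h : Ton ℓ) : ∃ C : ℝ, 0 ≤ C ∧
    ∀ x v : E, ‖v‖ ≤ 1 → |ℓ (x, v)| ≤ C := by
  have hK : IsCompact ((Icc (0:ℝ) 1 ×ˢ Icc (0:ℝ) 1) ×ˢ Metric.closedBall (0 : E) 1) :=
    (isCompact_Icc.prod isCompact_Icc).prod (isCompact_closedBall _ _)
  obtain ⟨C, hC⟩ := hK.exists_bound_of_continuousOn h.smooth.continuous.continuousOn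
  refine ⟨max C 0, le_max_right _ _, fun x v hv => ?_⟩
  have h1 : x = (Int.fract x.1, Int.fract x.2) + iv (⌊x.1⌋, ⌊x.2⌋) := by
    ext
    · simp [iv, Int.fract_add_floor]
    · simp [iv, Int.fract_add_floor]
  rw [h1, h.per]
  have h2 := hC ((Int.fract x.1, Int.fract x.2), v) ⟨⟨⟨Int.fract_nonneg _, (Int.fract_lt_one _).le⟩,
    ⟨Int.fract_nonneg _, (Int.fract_lt_one _).le⟩⟩, by simpa using hv⟩
  exact (by simpa using h2 : |ℓ _| ≤ C).trans (le_max_left _ _)

/-- every chain can be slowed down -/
theorem Ton.slow {ℓ : E × E → ℝ} (h : Ton ℓ) : ∃ R : ℝ, 1 ≤ R ∧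
    ∀ (l : List (E × ℝ)) (x : E), Pos l → ∃ l' : List (E × ℝ), Pos l' ∧ endp x l' = endp x l ∧
      dur l ≤ dur l' ∧ act ℓ x l' ≤ act ℓ x l ∧ ∀ a ∈ l', ‖a.1‖ ≤ R := by
  obtain ⟨C, hC0, hC⟩ := h.bdd_unit
  obtain ⟨B, hB⟩ := h.superlin (C + 1)
  refine ⟨max 1 B, le_max_left _ _, ?_⟩
  -- one segment
  have key : ∀ (x w : E) (t : ℝ), 0 < t → ∃ (w' : E) (t' : ℝ), 0 < t' ∧ t' • w' = t • w ∧
      t ≤ t' ∧ seg ℓ x w' t' ≤ seg ℓ x w t ∧ ‖w'‖ ≤ max 1 B := by
    intro x w t ht
    by_cases hw : ‖w‖ ≤ max 1 B
    · exact ⟨w, t, ht, rfl, le_rfl, le_rfl, hw⟩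
    · push Not at hw
      have hw1 : 1 < ‖w‖ := lt_of_le_of_lt (le_max_left _ _) hw
      have hwB : B < ‖w‖ := lt_of_le_of_lt (le_max_right _ _) hw
      have hw0 : 0 < ‖w‖ := lt_trans one_pos hw1
      have hn : ‖(‖w‖⁻¹ • w)‖ = 1 := by
        rw [norm_smul, norm_inv, norm_norm, inv_mul_cancel₀ hw0.ne']
      refine ⟨‖w‖⁻¹ • w, t * ‖w‖, mul_pos ht hw0, ?_, ?_, ?_, ?_⟩
      · rw [smul_smul, mul_assoc, mul_inv_cancel₀ hw0.ne', mul_one]
      · nlinarith
      · have e1 : seg ℓ x (‖w‖⁻¹ • w) (t * ‖w‖) ≤ C * (t * ‖w‖) := by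
          unfold seg
          calc ∫ s in (0:ℝ)..(t * ‖w‖), ℓ (x + s • ‖w‖⁻¹ • w, ‖w‖⁻¹ • w)
              ≤ ∫ s in (0:ℝ)..(t * ‖w‖), C := by
                apply intervalIntegral.integral_mono_on (mul_pos ht hw0).le
                  ((h.cont_seg x _).intervalIntegrable _ _) intervalIntegrable_const
                intro s _
                exact (le_abs_self _).trans (hC _ _ hn.le)
            _ = C * (t * ‖w‖) := by
                rw [intervalIntegral.integral_const, smul_eq_mul, sub_zero]; ring
        have e2 : (C * ‖w‖) * t ≤ seg ℓ x w t := by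
          unfold seg
          calc (C * ‖w‖) * t = ∫ s in (0:ℝ)..t, C * ‖w‖ := by
                rw [intervalIntegral.integral_const, smul_eq_mul, sub_zero]; ring
            _ ≤ ∫ s in (0:ℝ)..t, ℓ (x + s • w, w) := by
                apply intervalIntegral.integral_mono_on ht.le intervalIntegrable_const
                  ((h.cont_seg x _).intervalIntegrable _ _)
                intro s _
                have := hB (x + s • w) w
                nlinarith
        calc seg ℓ x (‖w‖⁻¹ • w) (t * ‖w‖) ≤ C * (t * ‖w‖) := e1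
          _ = (C * ‖w‖) * t := by ring
          _ ≤ seg ℓ x w t := e2
      · rw [hn]; exact le_max_left _ _
  intro l
  induction l with
  | nil =>
    intro x _
    exact ⟨[], by intro a ha; simp at ha, rfl, le_rfl, le_rfl, by intro a ha; simp at ha⟩
  | cons a l ih =>
    intro x hl
    obtain ⟨w', t', ht', hd, hle, hseg, hn⟩ := key x a.1 a.2 (hl a List.mem_cons_self)
    obtain ⟨l', hp, he, hdur, hact, hR⟩ := ih (x + a.2 • a.1)
      (fun b hb => hl b (List.mem_cons_of_mem _ hb))
    refine ⟨(w', t') :: l', ?_, ?_, ?_, ?_, ?_⟩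
    · intro b hb
      rcases List.mem_cons.mp hb with rfl | hb
      · exact ht'
      · exact hp b hb
    · simp only [endp]; rw [hd, he]
    · simp only [dur]; linarith
    · simp only [act]; rw [hd]; linarith
    · intro b hb
      rcases List.mem_cons.mp hb with rfl | hb
      · exact hn
      · exact hR b hb

/-- cut off a final part of duration exactly one -/
theorem Ton.split {ℓ : E × E → ℝ} (h : Ton ℓ) (R : ℝ) :
    ∀ (l : List (E × ℝ)) (x : E), Pos l → 1 ≤ dur l → (∀ a ∈ l, ‖a.1‖ ≤ R) →
      ∃ l₁ r : List (E × ℝ), Pos l₁ ∧ Pos r ∧ dur r = 1 ∧ dur l₁ + 1 = dur l ∧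
        endp (endp x l₁) r = endp x l ∧ act ℓ x l = act ℓ x l₁ + act ℓ (endp x l₁) r ∧
        (∀ a ∈ l₁, ‖a.1‖ ≤ R) ∧ (∀ a ∈ r, ‖a.1‖ ≤ R) := by
  intro l
  induction l with
  | nil =>
    intro x _ hd
    simp only [dur] at hd
    linarith
  | cons a l ih =>
    intro x hl hd hR
    have hl' : Pos l := fun b hb => hl b (List.mem_cons_of_mem _ hb)
    have hR' : ∀ b ∈ l, ‖b.1‖ ≤ R := fun b hb => hR b (List.mem_cons_of_mem _ hb)
    by_cases h1 : 1 ≤ dur l
    · obtain ⟨l₁, r, p1, p2, p3, p4, p5, p6, p7, p8⟩ := ih (x + a.2 • a.1) hl' h1 hR'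
      refine ⟨a :: l₁, r, ?_, p2, p3, ?_, ?_, ?_, ?_, p8⟩
      · intro b hb
        rcases List.mem_cons.mp hb with rfl | hb
        · exact hl b List.mem_cons_self
        · exact p1 b hb
      · simp only [dur]; linarith
      · simp only [endp]; exact p5
      · simp only [act, endp]; rw [p6]; ring
      · intro b hb
        rcases List.mem_cons.mp hb with rfl | hb
        · exact hR b List.mem_cons_self
        · exact p7 b hb
    · push Not at h1
      simp only [dur] at hd
      set c := 1 - dur l with hc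
      have hc0 : 0 < c := by linarith
      have hcb : c ≤ a.2 := by linarith
      rcases hcb.lt_or_eq with hb | hb
      · have hseg : seg ℓ x a.1 a.2 = seg ℓ x a.1 (a.2 - c) + seg ℓ (x + (a.2 - c) • a.1) a.1 c := by
          rw [← h.seg_add, sub_add_cancel]
        have hpt : x + (a.2 - c) • a.1 + c • a.1 = x + a.2 • a.1 := by
          rw [add_assoc, ← add_smul, sub_add_cancel]
        refine ⟨[(a.1, a.2 - c)], (a.1, c) :: l, ?_, ?_, ?_, ?_, ?_, ?_, ?_, ?_⟩
        · intro b hb'
          rcases List.mem_singleton.mp hb' with rfl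
          simp only; linarith
        · intro b hb'
          rcases List.mem_cons.mp hb' with rfl | hb'
          · exact hc0
          · exact hl' b hb'
        · simp only [dur]; linarith
        · simp only [dur]; linarith
        · simp only [endp]; rw [hpt]
        · simp only [act, endp]; rw [hpt, hseg]; ring
        · intro b hb'
          rcases List.mem_singleton.mp hb' with rfl
          exact hR a List.mem_cons_self
        · intro b hb'
          rcases List.mem_cons.mp hb' with rfl | hb'
          · exact hR a List.mem_cons_self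
          · exact hR' b hb'
      · refine ⟨[], a :: l, ?_, hl, ?_, ?_, ?_, ?_, ?_, hR⟩
        · intro b hb'; simp at hb'
        · simp only [dur]; linarith
        · simp only [dur]; linarith
        · simp only [endp]
        · simp only [act, endp]; ring
        · intro b hb'; simp at hb'

end Pool.H110M
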