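import Mathlib
import Pool.Agent.Helper110.MDefs

set_option autoImplicit false
open MeasureTheory Set Filter Topology

noncomputable section
namespace Pool.H110M


























/-- add a constant vector to all velocities -/
def pert (ζ : E) (r : List (E × ℝ)) : List (E × ℝ) := r.map (fun a => (a.1 + ζ, a.2))

theorem dur_nonneg : ∀ (r : List (E × ℝ)), Pos r → 0 ≤ dur r
  | [], _ => le_rfl
  | a :: r, h => by
    have h1 := h a (by simp)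
    have h2 := dur_nonneg r (fun b hb => h b (by simp [hb]))
    simp only [dur]
    linarith

theorem seg_pert {ℓ : E × E → ℝ} (h : Ton ℓ) {R Cb Cq : ℝ} (hCb : 0 ≤ Cb) (hCq : 0 ≤ Cq)
    (hb : ∀ x v : E, ‖v‖ ≤ R → |ℓ (x, v)| ≤ Cb ∧ ‖fderiv ℝ ℓ (x, v)‖ ≤ Cb)
    (hq : ∀ x v ζ₁ ζ₂ : E, ‖v‖ ≤ R → ‖ζ₁‖ ≤ 1 → ‖ζ₂‖ ≤ 1 →
      |ℓ (x + ζ₁, v + ζ₂) - ℓ (x, v) - fderiv ℝ ℓ (x, v) (ζ₁, ζ₂)|
        ≤ Cq * ‖((ζ₁, ζ₂) : E × E)‖ ^ 2)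
    (y w : E) (hw : ‖w‖ ≤ R) (t τ : ℝ) (ht : 0 < t) (hτ : 0 ≤ τ) (hτt : τ + t ≤ 1) :
    ∃ P : E →L[ℝ] ℝ, ‖P‖ ≤ Cb * t ∧ ∀ ζ : E, ‖ζ‖ ≤ 1 →
      seg ℓ (y + τ • ζ) (w + ζ) t ≤ seg ℓ y w t + P ζ + Cq * ‖ζ‖ ^ 2 * t := by
  have hℓc : Continuous ℓ := h.smooth.continuous
  have hdc : Continuous (fderiv ℝ ℓ) := h.smooth.continuous_fderiv (by norm_num)
  let L : ℝ → E →L[ℝ] ℝ := fun s => (fderiv ℝ ℓ (y + s • w, w)).comp
    (((τ + s) • ContinuousLinearMap.id ℝ E).prod (ContinuousLinearMap.id ℝ E))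
  have hLc : Continuous L := by
    have h1 : Continuous (fun s : ℝ => fderiv ℝ ℓ (y + s • w, w)) := by
      apply hdc.comp
      fun_prop
    have h2 : Continuous (fun s : ℝ =>
        (((τ + s) • ContinuousLinearMap.id ℝ E).prod (ContinuousLinearMap.id ℝ E))) := by
      have h3 : Continuous (fun s : ℝ => (τ + s) • ContinuousLinearMap.id ℝ E) := by fun_prop
      have h4 : (fun s : ℝ => (((τ + s) • ContinuousLinearMap.id ℝ E).prod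
          (ContinuousLinearMap.id ℝ E))) = fun s : ℝ =>
          (ContinuousLinearMap.inl ℝ E E).comp ((τ + s) • ContinuousLinearMap.id ℝ E) +
          (ContinuousLinearMap.inr ℝ E E) := by
        funext s
        ext v <;> simp
      rw [h4]
      fun_prop
    exact h1.clm_comp h2
  have hLapp : ∀ s ζ, L s ζ = fderiv ℝ ℓ (y + s • w, w) ((τ + s) • ζ, ζ) := by
    intro s ζ
    rfl
  have hLn : ∀ s ∈ Set.uIoc 0 t, ‖L s‖ ≤ Cb := by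
    intro s hs
    rw [Set.uIoc_of_le ht.le] at hs
    apply ContinuousLinearMap.opNorm_le_bound _ hCb
    intro ζ
    rw [hLapp]
    refine ((fderiv ℝ ℓ (y + s • w, w)).le_opNorm _).trans ?_
    have h1 : ‖(((τ + s) • ζ, ζ) : E × E)‖ ≤ ‖ζ‖ := by
      rw [Prod.norm_def]
      apply max_le _ le_rfl
      simp only
      rw [norm_smul, Real.norm_of_nonneg (by linarith [hs.1])]
      have := norm_nonneg ζ
      nlinarith [hs.1, hs.2]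
    exact mul_le_mul (hb _ _ hw).2 h1 (norm_nonneg _) hCb
  refine ⟨∫ s in (0 : ℝ)..t, L s, ?_, ?_⟩
  · have := intervalIntegral.norm_integral_le_of_norm_le_const hLn
    rwa [sub_zero, abs_of_pos ht] at this
  · intro ζ hζ
    rw [ContinuousLinearMap.intervalIntegral_apply (hLc.intervalIntegrable _ _)]
    unfold seg
    have e1 : Cq * ‖ζ‖ ^ 2 * t = ∫ s in (0 : ℝ)..t, Cq * ‖ζ‖ ^ 2 := by
      rw [intervalIntegral.integral_const, sub_zero, smul_eq_mul]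
      ring
    have c1 : Continuous (fun s : ℝ => ℓ (y + s • w, w)) := by
      apply hℓc.comp
      fun_prop
    have c2 : Continuous (fun s : ℝ => L s ζ) := hLc.clm_apply continuous_const
    have c3 : Continuous (fun s : ℝ => ℓ (y + τ • ζ + s • (w + ζ), w + ζ)) := by
      apply hℓc.comp
      fun_prop
    have c12 : Continuous (fun s : ℝ => ℓ (y + s • w, w) + L s ζ) := c1.add c2
    have c123 : Continuous (fun s : ℝ => ℓ (y + s • w, w) + L s ζ + Cq * ‖ζ‖ ^ 2) :=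
      c12.add continuous_const
    have e5 : (∫ s in (0 : ℝ)..t, ℓ (y + s • w, w)) + (∫ s in (0 : ℝ)..t, L s ζ) +
        Cq * ‖ζ‖ ^ 2 * t = ∫ s in (0 : ℝ)..t, (ℓ (y + s • w, w) + L s ζ + Cq * ‖ζ‖ ^ 2) := by
      rw [e1, ← intervalIntegral.integral_add (c1.intervalIntegrable _ _)
        (c2.intervalIntegrable _ _)]
      exact (intervalIntegral.integral_add (c12.intervalIntegrable _ _)
        (continuous_const.intervalIntegrable _ _)).symm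
    rw [e5]
    apply intervalIntegral.integral_mono_on ht.le (c3.intervalIntegrable _ _)
      (c123.intervalIntegrable _ _)
    intro s hs
    have h1 : ‖(τ + s) • ζ‖ ≤ ‖ζ‖ := by
      rw [norm_smul, Real.norm_of_nonneg (by linarith [hs.1])]
      have := norm_nonneg ζ
      nlinarith [hs.1, hs.2]
    have h2 := hq (y + s • w) w ((τ + s) • ζ) ζ hw (h1.trans hζ) hζ
    have h3 : ‖(((τ + s) • ζ, ζ) : E × E)‖ ≤ ‖ζ‖ := by
      rw [Prod.norm_def]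
      exact max_le h1 le_rfl
    have h4 : Cq * ‖(((τ + s) • ζ, ζ) : E × E)‖ ^ 2 ≤ Cq * ‖ζ‖ ^ 2 := by gcongr
    have h5 := (abs_le.1 h2).2
    have e2 : y + τ • ζ + s • (w + ζ) = y + s • w + (τ + s) • ζ := by
      module
    rw [e2, hLapp]
    linarith

theorem act_pert {ℓ : E × E → ℝ} (h : Ton ℓ) {R Cb Cq : ℝ} (hCb : 0 ≤ Cb) (hCq : 0 ≤ Cq)
    (hb : ∀ x v : E, ‖v‖ ≤ R → |ℓ (x, v)| ≤ Cb ∧ ‖fderiv ℝ ℓ (x, v)‖ ≤ Cb)
    (hq : ∀ x v ζ₁ ζ₂ : E, ‖v‖ ≤ R → ‖ζ₁‖ ≤ 1 → ‖ζ₂‖ ≤ 1 →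
      |ℓ (x + ζ₁, v + ζ₂) - ℓ (x, v) - fderiv ℝ ℓ (x, v) (ζ₁, ζ₂)|
        ≤ Cq * ‖((ζ₁, ζ₂) : E × E)‖ ^ 2) :
    ∀ (r : List (E × ℝ)) (y : E) (τ : ℝ), 0 ≤ τ → τ + dur r ≤ 1 → Pos r →
      (∀ a ∈ r, ‖a.1‖ ≤ R) → ∃ P : E →L[ℝ] ℝ, ‖P‖ ≤ Cb * dur r ∧
        ∀ ζ : E, ‖ζ‖ ≤ 1 →
          act ℓ (y + τ • ζ) (pert ζ r) ≤ act ℓ y r + P ζ + Cq * ‖ζ‖ ^ 2 * dur r := by
  intro r
  induction r with
  | nil =>
    intro y τ _ _ _ _
    refine ⟨0, by simp [dur], fun ζ _ => ?_⟩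
    simp [act, pert, dur]
  | cons a r ih =>
    intro y τ hτ hτr hpos hR
    have ha := hpos a (by simp)
    have hpos' : Pos r := fun b hb => hpos b (by simp [hb])
    have hd := dur_nonneg r hpos'
    have hR' : ∀ b ∈ r, ‖b.1‖ ≤ R := fun b hb => hR b (by simp [hb])
    have hdur : dur (a :: r) = a.2 + dur r := rfl
    rw [hdur] at hτr
    obtain ⟨P1, hP1, hP1'⟩ := seg_pert h hCb hCq hb hq y a.1 (hR a (by simp)) a.2 τ ha hτ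
      (by linarith)
    obtain ⟨P2, hP2, hP2'⟩ := ih (y + a.2 • a.1) (τ + a.2) (by linarith) (by linarith) hpos' hR'
    refine ⟨P1 + P2, ?_, fun ζ hζ => ?_⟩
    · rw [hdur, mul_add]
      exact (norm_add_le _ _).trans (add_le_add hP1 hP2)
    · have h1 := hP1' ζ hζ
      have h2 := hP2' ζ hζ
      have e1 : act ℓ (y + τ • ζ) (pert ζ (a :: r)) = seg ℓ (y + τ • ζ) (a.1 + ζ) a.2 +
          act ℓ (y + τ • ζ + a.2 • (a.1 + ζ)) (pert ζ r) := rfl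
      have e2 : act ℓ y (a :: r) = seg ℓ y a.1 a.2 + act ℓ (y + a.2 • a.1) r := rfl
      have e3 : y + τ • ζ + a.2 • (a.1 + ζ) = y + a.2 • a.1 + (τ + a.2) • ζ := by
        module
      have e4 : (P1 + P2) ζ = P1 ζ + P2 ζ := rfl
      rw [e1, e2, e3, e4, hdur]
      linarith

theorem Ton.pert_act {ℓ : E × E → ℝ} (h : Ton ℓ) (R : ℝ)
    (hbdd : ∃ C : ℝ, 0 ≤ C ∧ ∀ x v : E, ‖v‖ ≤ R → |ℓ (x, v)| ≤ C ∧ ‖fderiv ℝ ℓ (x, v)‖ ≤ C)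
    (hquad : ∃ C : ℝ, 0 ≤ C ∧ ∀ x v ζ₁ ζ₂ : E, ‖v‖ ≤ R → ‖ζ₁‖ ≤ 1 → ‖ζ₂‖ ≤ 1 →
      |ℓ (x + ζ₁, v + ζ₂) - ℓ (x, v) - fderiv ℝ ℓ (x, v) (ζ₁, ζ₂)|
        ≤ C * ‖((ζ₁, ζ₂) : E × E)‖ ^ 2) : ∃ C M : ℝ, 0 ≤ C ∧ 0 ≤ M ∧
    ∀ (r : List (E × ℝ)) (y : E), Pos r → (∀ a ∈ r, ‖a.1‖ ≤ R) → dur r ≤ 1 →
      ∃ P : E →L[ℝ] ℝ, ‖P‖ ≤ M ∧
        ∀ ζ : E, ‖ζ‖ ≤ 1 → act ℓ y (pert ζ r) ≤ act ℓ y r + P ζ + C * ‖ζ‖ ^ 2 := by
  obtain ⟨Cb, hCb, hb⟩ := hbdd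
  obtain ⟨Cq, hCq, hq⟩ := hquad
  refine ⟨Cq, Cb, hCq, hCb, ?_⟩
  intro r y hpos hR hdur
  have hd := dur_nonneg r hpos
  obtain ⟨P, hP, hP'⟩ := act_pert h hCb hCq hb hq r y 0 le_rfl (by linarith) hpos hR
  refine ⟨P, hP.trans (mul_le_of_le_one_right hCb hdur), fun ζ hζ => ?_⟩
  have h1 := hP' ζ hζ
  rw [zero_smul, add_zero] at h1
  have h2 : Cq * ‖ζ‖ ^ 2 * dur r ≤ Cq * ‖ζ‖ ^ 2 :=
    mul_le_of_le_one_right (by positivity) hdur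
  linarith

end Pool.H110M
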