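import Mathlib
import Pool.Agent.Helper110.MDefs
import Pool.Agent.Helper110.M1
import Pool.Agent.Helper110.M3a
import Pool.Agent.Helper110.M3b

set_option autoImplicit false
open MeasureTheory Set Filter Topology

noncomputable section
namespace Pool.H110M


theorem iv_add (a b : ℤ × ℤ) : iv (a + b) = iv a + iv b := by
  unfold iv
  ext <;> simp

theorem iv_zero : iv 0 = 0 := by
  unfold iv
  ext <;> simp

theorem iv_neg (a : ℤ × ℤ) : iv (-a) = -iv a := by
  unfold iv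
  ext <;> simp

/-- `a` is the action of a chain of duration at least one from an integer point to `x` -/
def Ch (ℓ : E × E → ℝ) (x : E) (a : ℝ) : Prop :=
  ∃ (k : ℤ × ℤ) (l : List (E × ℝ)), Pos l ∧ 1 ≤ dur l ∧ endp (iv k) l = x ∧ act ℓ (iv k) l = a

theorem Ton.seg_unit {ℓ : E × E → ℝ} (h : Ton ℓ) {C : ℝ}
    (hC : ∀ x v : E, ‖v‖ ≤ 1 → |ℓ (x, v)| ≤ C ∧ ‖fderiv ℝ ℓ (x, v)‖ ≤ C) (x w : E) (t : ℝ)
    (ht : 0 ≤ t) (hw : ‖w‖ ≤ 1) : seg ℓ x w t ≤ C * t := by
  unfold seg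
  calc ∫ s in (0:ℝ)..t, ℓ (x + s • w, w)
      ≤ ∫ s in (0:ℝ)..t, C := by
        apply intervalIntegral.integral_mono_on ht
          ((h.cont_seg x _).intervalIntegrable _ _) intervalIntegrable_const
        intro s _
        exact (le_abs_self _).trans (hC _ _ hw).1
    _ = C * t := by
        rw [intervalIntegral.integral_const, smul_eq_mul, sub_zero]; ring

theorem Pos.append {l r : List (E × ℝ)} (hl : Pos l) (hr : Pos r) : Pos (l ++ r) := by
  intro a ha
  rcases List.mem_append.1 ha with ha | ha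
  · exact hl a ha
  · exact hr a ha

theorem Pos.single {w : E} {t : ℝ} (ht : 0 < t) : Pos [(w, t)] := by
  intro a ha
  rcases List.mem_singleton.mp ha with rfl
  exact ht

theorem Ch_nonempty (ℓ : E × E → ℝ) (x : E) : ∃ a, Ch ℓ x a := by
  refine ⟨_, 0, [(x, 1)], Pos.single one_pos, ?_, ?_, rfl⟩
  · simp [dur]
  · simp [endp, iv_zero]

theorem Ch_bdd {ℓ : E × E → ℝ} (h : Ton ℓ) (hp : HP ℓ) {C : ℝ}
    (hC : ∀ x v : E, ‖v‖ ≤ 1 → |ℓ (x, v)| ≤ C ∧ ‖fderiv ℝ ℓ (x, v)‖ ≤ C) (x : E) (a : ℝ)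
    (ha : Ch ℓ x a) : -C ≤ a := by
  obtain ⟨k, l, hl, hd, he, rfl⟩ := ha
  obtain ⟨y, k', hy, hx⟩ := exists_reduce x
  have h1 := hp (iv k) (l ++ [(-y, 1)]) (hl.append (Pos.single one_pos)) ⟨k' - k, by
    rw [endp_append, he]
    simp only [endp]
    rw [hx, sub_eq_add_neg k' k, iv_add, iv_neg]
    simp⟩
  rw [act_append, he] at h1
  simp only [act] at h1
  have h2 := h.seg_unit hC x (-y) 1 zero_le_one (by rwa [norm_neg])
  linarith

theorem Ch_append {ℓ : E × E → ℝ} {x : E} {a : ℝ} (ha : Ch ℓ x a) (w : E) (t : ℝ) (ht : 0 < t) :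
    Ch ℓ (x + t • w) (a + seg ℓ x w t) := by
  obtain ⟨k, l, hl, hd, he, rfl⟩ := ha
  refine ⟨k, l ++ [(w, t)], hl.append (Pos.single ht), ?_, ?_, ?_⟩
  · rw [dur_append]
    simp only [dur]
    linarith
  · rw [endp_append, he]
    simp only [endp]
  · rw [act_append, he]
    simp only [act]
    ring

theorem Ch_shift {ℓ : E × E → ℝ} (h : Ton ℓ) {x : E} {a : ℝ} (ha : Ch ℓ x a) (k : ℤ × ℤ) :
    Ch ℓ (x + iv k) a := by
  obtain ⟨k0, l, hl, hd, he, rfl⟩ := ha
  refine ⟨k0 + k, l, hl, hd, ?_, ?_⟩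
  · rw [iv_add, endp_add, he]
  · rw [iv_add, h.act_per]

theorem endp_pert (ζ : E) (r : List (E × ℝ)) (y : E) :
    endp y (pert ζ r) = endp y r + (dur r) • ζ := by
  induction r generalizing y with
  | nil => simp [endp, pert, dur]
  | cons a r ih =>
    have e1 : endp y (pert ζ (a :: r)) = endp (y + a.2 • (a.1 + ζ)) (pert ζ r) := rfl
    have e2 : endp y (a :: r) = endp (y + a.2 • a.1) r := rfl
    have e3 : dur (a :: r) = a.2 + dur r := rfl
    have e4 : y + a.2 • (a.1 + ζ) = (y + a.2 • a.1) + a.2 • ζ := by module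
    rw [e1, e2, e3, ih, e4, endp_add]
    module

theorem dur_pert (ζ : E) (r : List (E × ℝ)) : dur (pert ζ r) = dur r := by
  induction r with
  | nil => rfl
  | cons a r ih =>
    have e1 : dur (pert ζ (a :: r)) = a.2 + dur (pert ζ r) := rfl
    have e3 : dur (a :: r) = a.2 + dur r := rfl
    rw [e1, e3, ih]

theorem Pos.pert {r : List (E × ℝ)} (hr : Pos r) (ζ : E) : Pos (pert ζ r) := by
  intro a ha
  unfold Pool.H110M.pert at ha
  obtain ⟨b, hb, rfl⟩ := List.mem_map.1 ha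
  exact hr b hb

theorem exists_sub {ℓ : E × E → ℝ} (h : Ton ℓ) (hp : HP ℓ) :
    ∃ (u : E → ℝ) (K C : ℝ), Sub ℓ u K C := by
  obtain ⟨C1, hC10, hC1⟩ := h.bdd 1
  set u : E → ℝ := fun x => sInf {a | Ch ℓ x a} with hu
  have hbdd : ∀ x, BddBelow {a | Ch ℓ x a} := fun x => ⟨-C1, fun a ha => Ch_bdd h hp hC1 x a ha⟩
  have hne : ∀ x, {a | Ch ℓ x a}.Nonempty := fun x => Ch_nonempty ℓ x
  have hule : ∀ x a, Ch ℓ x a → u x ≤ a := fun x a ha => csInf_le (hbdd x) ha
  have hdom : ∀ (x w : E) (t : ℝ), 0 < t → u (x + t • w) ≤ u x + seg ℓ x w t := by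
    intro x w t ht
    have : u (x + t • w) - seg ℓ x w t ≤ u x := by
      apply le_csInf (hne x)
      intro a ha
      have := hule _ _ (Ch_append ha w t ht)
      linarith
    linarith
  have hlip1 : ∀ x y : E, u y ≤ u x + C1 * ‖x - y‖ := by
    intro x y
    rcases eq_or_ne x y with rfl | hxy
    · simp
    · have hn : 0 < ‖y - x‖ := norm_pos_iff.2 (sub_ne_zero.2 hxy.symm)
      have h1 := hdom x (‖y - x‖⁻¹ • (y - x)) ‖y - x‖ hn
      have e1 : x + ‖y - x‖ • (‖y - x‖⁻¹ • (y - x)) = y := by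
        rw [smul_smul, mul_inv_cancel₀ hn.ne', one_smul]
        abel
      rw [e1] at h1
      have h2 := h.seg_unit hC1 x (‖y - x‖⁻¹ • (y - x)) ‖y - x‖ hn.le (by
        rw [norm_smul, norm_inv, norm_norm, inv_mul_cancel₀ hn.ne'])
      rw [norm_sub_rev x y]
      linarith
  obtain ⟨R, hR1, hslow⟩ := h.slow
  obtain ⟨Cq, M, hCq, hM, hpert⟩ := h.pert_act R (h.bdd R) (h.quad R)
  refine ⟨u, C1, Cq, hC10, hCq, ?_, ?_, hdom, ?_⟩
  · intro x k
    have : {a | Ch ℓ (x + iv k) a} = {a | Ch ℓ x a} := by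
      ext a
      constructor
      · intro ha
        have := Ch_shift h ha (-k)
        rw [iv_neg, add_neg_cancel_right] at this
        exact this
      · intro ha
        exact Ch_shift h ha k
    simp only [hu, this]
  · intro x y
    rw [abs_le]
    have h1 := hlip1 x y
    have h2 := hlip1 y x
    rw [norm_sub_rev y x] at h2
    constructor <;> linarith
  · intro x
    have key : ∀ n : ℕ, ∃ P : E →L[ℝ] ℝ, ‖P‖ ≤ M ∧ ∀ ζ : E, ‖ζ‖ ≤ 1 →
        u (x + ζ) ≤ u x + 1 / ((n : ℝ) + 1) + P ζ + Cq * ‖ζ‖ ^ 2 := by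
      intro n
      have hn : (0 : ℝ) < 1 / ((n : ℝ) + 1) := by positivity
      obtain ⟨a, ha, hlt⟩ := exists_lt_of_csInf_lt (hne x)
        (show sInf {a | Ch ℓ x a} < u x + 1 / ((n : ℝ) + 1) by
          show u x < _
          linarith)
      obtain ⟨k, l, hl, hd, he, rfl⟩ := ha
      obtain ⟨l', hl', he', hd', hact', hR'⟩ := hslow l (iv k) hl
      obtain ⟨l₁, r, p1, p2, p3, p4, p5, p6, p7, p8⟩ :=
        h.split R l' (iv k) hl' (hd.trans hd') hR'
      obtain ⟨P, hPM, hP⟩ := hpert r (endp (iv k) l₁) p2 p8 p3.le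
      refine ⟨P, hPM, fun ζ hζ => ?_⟩
      have hch : Ch ℓ (x + ζ) (act ℓ (iv k) (l₁ ++ pert ζ r)) := by
        refine ⟨k, l₁ ++ pert ζ r, p1.append (p2.pert ζ), ?_, ?_, rfl⟩
        · rw [dur_append, dur_pert, p3, p4]
          exact hd.trans hd'
        · rw [endp_append, endp_pert, p5, p3, he', he, one_smul]
      have h1 := hule _ _ hch
      rw [act_append] at h1
      have h2 := hP ζ hζ
      linarith
    choose P hPM hP using key
    obtain ⟨Q, _, φ, hφ, hlim⟩ := (isCompact_closedBall (0 : E →L[ℝ] ℝ) M).tendsto_subseq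
      (x := P) (fun n => by rw [mem_closedBall_zero_iff]; exact hPM n)
    refine ⟨Q, fun ζ hζ => ?_⟩
    have h1 : Tendsto (fun n => u x + 1 / (((φ n : ℕ) : ℝ) + 1) + P (φ n) ζ + Cq * ‖ζ‖ ^ 2) atTop
        (𝓝 (u x + 0 + Q ζ + Cq * ‖ζ‖ ^ 2)) := by
      apply Tendsto.add_const
      apply Tendsto.add
      · apply Tendsto.const_add
        exact tendsto_one_div_add_atTop_nhds_zero_nat.comp hφ.tendsto_atTop
      · exact ((ContinuousLinearMap.apply ℝ ℝ ζ).continuous.tendsto Q).comp hlim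
    rw [add_zero] at h1
    exact ge_of_tendsto' h1 (fun n => hP (φ n) ζ hζ)

end Pool.H110M
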