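import Mathlib
import Pool.Agent.Helper110.MDefs

set_option autoImplicit false
open MeasureTheory Set Filter Topology

noncomputable section
namespace Pool.H110M


























theorem moll_support {u : E → ℝ} {C : ℝ}
    (hsemi : ∀ x : E, ∃ P : E →L[ℝ] ℝ, ∀ ζ : E, ‖ζ‖ ≤ 1 → u (x + ζ) ≤ u x + P ζ + C * ‖ζ‖ ^ 2)
    {y : E} (hy : DifferentiableAt ℝ u y) :
    ∀ ζ : E, ‖ζ‖ ≤ 1 → u (y + ζ) ≤ u y + fderiv ℝ u y ζ + C * ‖ζ‖ ^ 2 := by
  obtain ⟨P, hP⟩ := hsemi y
  have hle : ∀ ζ : E, fderiv ℝ u y ζ ≤ P ζ := by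
    intro ζ
    have h1 : HasDerivAt (fun t : ℝ => u (y + t • ζ)) (fderiv ℝ u y ζ) 0 := by
      have h2 : HasFDerivAt u (fderiv ℝ u y) (y + (0 : ℝ) • ζ) := by
        rw [zero_smul, add_zero]; exact hy.hasFDerivAt
      have h3 : HasDerivAt (fun t : ℝ => y + t • ζ) ζ 0 := by
        simpa using ((hasDerivAt_id (0 : ℝ)).smul_const ζ).const_add y
      exact h2.comp_hasDerivAt (0 : ℝ) h3
    have h4 := h1.tendsto_slope_zero_right
    have h5 : Tendsto (fun t : ℝ => P ζ + C * t * ‖ζ‖ ^ 2) (𝓝[>] 0) (𝓝 (P ζ)) := by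
      have : Tendsto (fun t : ℝ => P ζ + C * t * ‖ζ‖ ^ 2) (𝓝 0) (𝓝 (P ζ + C * 0 * ‖ζ‖ ^ 2)) := by
        apply Continuous.tendsto
        fun_prop
      rw [mul_zero, zero_mul, add_zero] at this
      exact this.mono_left nhdsWithin_le_nhds
    refine le_of_tendsto_of_tendsto h4 h5 ?_
    have hev : ∀ᶠ t : ℝ in 𝓝[>] 0, t * ‖ζ‖ < 1 := by
      have : Tendsto (fun t : ℝ => t * ‖ζ‖) (𝓝 0) (𝓝 (0 * ‖ζ‖)) := by
        apply Continuous.tendsto
        fun_prop
      rw [zero_mul] at this
      exact (this.mono_left nhdsWithin_le_nhds).eventually (gt_mem_nhds one_pos)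
    filter_upwards [hev, self_mem_nhdsWithin] with t ht1 ht0
    have ht : 0 < t := ht0
    have h6 := hP (t • ζ) (by rw [norm_smul, Real.norm_eq_abs, abs_of_pos ht]; exact ht1.le)
    rw [norm_smul, Real.norm_eq_abs, abs_of_pos ht, map_smul, smul_eq_mul] at h6
    rw [zero_add, zero_smul, add_zero, smul_eq_mul, inv_mul_le_iff₀ ht]
    nlinarith
  have heq : ∀ ζ : E, P ζ = fderiv ℝ u y ζ := by
    intro ζ
    have h1 := hle ζ
    have h2 := hle (-ζ)
    rw [map_neg, map_neg] at h2
    linarith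
  intro ζ hζ
  rw [← heq]
  exact hP ζ hζ

theorem moll {u : E → ℝ} {K C : ℝ} (hK : 0 ≤ K) (hC : 0 ≤ C)
    (hper : ∀ (x : E) (k : ℤ × ℤ), u (x + iv k) = u x)
    (hlip : ∀ x y : E, |u x - u y| ≤ K * ‖x - y‖)
    (hsemi : ∀ x : E, ∃ P : E →L[ℝ] ℝ, ∀ ζ : E, ‖ζ‖ ≤ 1 → u (x + ζ) ≤ u x + P ζ + C * ‖ζ‖ ^ 2) :
    ∀ η : ℝ, 0 < η → η ≤ 1 → ∃ φ : E → ℝ, ContDiff ℝ 1 φ ∧
      (∀ (x : E) (k : ℤ × ℤ), φ (x + iv k) = φ x) ∧
      (∀ x, |φ x - u x| ≤ K * η) ∧ (∀ x, ‖fderiv ℝ φ x‖ ≤ K) ∧
      (∀ (x w : E) (b : ℝ), (∀ᵐ y : E, ‖y - x‖ ≤ η → fderiv ℝ u y w ≤ b) →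
        fderiv ℝ φ x w ≤ b) ∧
      (∀ x ζ : E, ‖ζ‖ + η ≤ 1 →
        u (x + ζ) ≤ φ x + fderiv ℝ φ x ζ + K * η + C * (‖ζ‖ + η) ^ 2) := by
  intro η hη hη1
  have hL : LipschitzWith ⟨K, hK⟩ u := LipschitzWith.of_dist_le_mul fun x y => by
    rw [Real.dist_eq, dist_eq_norm]; exact hlip x y
  have huc : Continuous u := hL.continuous
  let b : ContDiffBump (0 : E) := ⟨η / 2, η, by positivity, by linarith⟩
  set χ : E → ℝ := b.normed volume with hχ
  have hχc : Continuous χ := b.continuous_normed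
  have hχs : HasCompactSupport χ := b.hasCompactSupport_normed
  have hχ0 : ∀ z, 0 ≤ χ z := b.nonneg_normed
  have hχ1 : ∫ z, χ z = 1 := b.integral_normed
  have hχi : Integrable χ := b.integrable_normed
  have hχsupp : ∀ z, χ z ≠ 0 → ‖z‖ < η := by
    intro z hz
    have h1 : z ∈ Function.support χ := hz
    rw [hχ, b.support_normed_eq, mem_ball_zero_iff] at h1
    exact h1
  -- the mollification
  set φ : E → ℝ := fun x => ∫ z, χ z * u (x - z) with hφ
  have hint : ∀ x, Integrable (fun z => χ z * u (x - z)) := by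
    intro x
    apply Continuous.integrable_of_hasCompactSupport
    · exact hχc.mul (huc.comp (continuous_const.sub continuous_id))
    · exact hχs.mul_right
  have hconv : φ = convolution χ u (ContinuousLinearMap.lsmul ℝ ℝ) volume := by
    funext x
    simp only [hφ, convolution, ContinuousLinearMap.lsmul_apply, smul_eq_mul]
  have hcd : ContDiff ℝ 1 φ := by
    rw [hconv]
    apply HasCompactSupport.contDiff_convolution_left _ hχs
    · exact_mod_cast b.contDiff_normed (n := 1)
    · exact huc.locallyIntegrable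
  -- almost everywhere differentiability
  have hae : ∀ᵐ y : E, DifferentiableAt ℝ u y := hL.ae_differentiableAt
  have hqmp : ∀ x : E, Measure.QuasiMeasurePreserving (fun z : E => x - z) volume volume :=
    fun x => (Measure.measurePreserving_sub_left volume x).quasiMeasurePreserving
  have haex : ∀ x : E, ∀ᵐ z : E, DifferentiableAt ℝ u (x - z) := fun x => (hqmp x).ae hae
  have hbd : ∀ y, ‖fderiv ℝ u y‖ ≤ K := fun y => norm_fderiv_le_of_lipschitz ℝ hL
  have hder : ∀ x, Integrable (fun z => χ z • fderiv ℝ u (x - z)) ∧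
      HasFDerivAt φ (∫ z, χ z • fderiv ℝ u (x - z)) x := by
    intro x
    apply hasFDerivAt_integral_of_dominated_loc_of_lip' (s := univ) (bound := fun z => K * χ z)
      (F := fun x z => χ z * u (x - z)) univ_mem
    · intro y _
      exact (hint y).aestronglyMeasurable
    · exact hint x
    · apply AEStronglyMeasurable.smul hχc.aestronglyMeasurable
      have hm : Measurable (fun z => fderiv ℝ u (x - z)) :=
        (measurable_fderiv ℝ u).comp (measurable_const.sub measurable_id)
      exact hm.aestronglyMeasurable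
    · refine Filter.Eventually.of_forall fun z y _ => ?_
      rw [← mul_sub, norm_mul, Real.norm_eq_abs, Real.norm_eq_abs, abs_of_nonneg (hχ0 z)]
      have h1 := hlip (y - z) (x - z)
      rw [sub_sub_sub_cancel_right] at h1
      calc χ z * |u (y - z) - u (x - z)| ≤ χ z * (K * ‖y - x‖) := by
            exact mul_le_mul_of_nonneg_left h1 (hχ0 z)
        _ = _ := by ring
    · exact hχi.const_mul K
    · filter_upwards [haex x] with z hz
      have h1 : HasFDerivAt (fun y : E => u (y - z)) (fderiv ℝ u (x - z)) x := by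
        have h2 : HasFDerivAt (fun y : E => y - z) (ContinuousLinearMap.id ℝ E) x :=
          (hasFDerivAt_id x).sub_const z
        have h3 := hz.hasFDerivAt.comp x h2
        rwa [ContinuousLinearMap.comp_id] at h3
      exact h1.const_mul (χ z)
  have hfd : ∀ x w, fderiv ℝ φ x w = ∫ z, χ z * fderiv ℝ u (x - z) w := by
    intro x w
    rw [(hder x).2.fderiv, ContinuousLinearMap.integral_apply (hder x).1]
    rfl
  have hfi : ∀ x w, Integrable (fun z => χ z * fderiv ℝ u (x - z) w) := by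
    intro x w
    exact (hder x).1.apply_continuousLinearMap w
  have hmass : ∀ c : ℝ, ∫ z, χ z * c = c := by
    intro c
    rw [integral_mul_const, hχ1, one_mul]
  refine ⟨φ, hcd, ?_, ?_, ?_, ?_, ?_⟩
  · intro x k
    simp only [hφ]
    refine integral_congr_ae (Filter.Eventually.of_forall fun z => ?_)
    simp only
    rw [show x + iv k - z = (x - z) + iv k by abel, hper]
  · intro x
    have h1 : φ x - u x = ∫ z, (χ z * u (x - z) - χ z * u x) := by
      rw [integral_sub (hint x) (hχi.mul_const _), hmass]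
    rw [h1, ← Real.norm_eq_abs]
    have h2 : ‖∫ z, (χ z * u (x - z) - χ z * u x)‖ ≤ ∫ z, χ z * (K * η) := by
      apply norm_integral_le_of_norm_le (hχi.mul_const _)
      refine Filter.Eventually.of_forall fun z => ?_
      rw [← mul_sub, norm_mul, Real.norm_eq_abs, Real.norm_eq_abs, abs_of_nonneg (hχ0 z)]
      by_cases hz : χ z = 0
      · rw [hz, zero_mul, zero_mul]
      · have h3 := hlip (x - z) x
        rw [sub_sub_cancel_left, norm_neg] at h3
        have h4 := hχsupp z hz
        apply mul_le_mul_of_nonneg_left _ (hχ0 z)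
        exact h3.trans (mul_le_mul_of_nonneg_left h4.le hK)
    rwa [hmass] at h2
  · intro x
    rw [(hder x).2.fderiv]
    have h2 : ‖∫ z, χ z • fderiv ℝ u (x - z)‖ ≤ ∫ z, χ z * K := by
      apply norm_integral_le_of_norm_le (hχi.mul_const _)
      refine Filter.Eventually.of_forall fun z => ?_
      rw [norm_smul, Real.norm_eq_abs, abs_of_nonneg (hχ0 z)]
      exact mul_le_mul_of_nonneg_left (hbd _) (hχ0 z)
    rwa [hmass] at h2
  · intro x w c hc
    rw [hfd]
    have h1 : ∀ᵐ z : E, ‖(x - z) - x‖ ≤ η → fderiv ℝ u (x - z) w ≤ c := (hqmp x).ae hc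
    have h2 : ∫ z, χ z * fderiv ℝ u (x - z) w ≤ ∫ z, χ z * c := by
      apply integral_mono_ae (hfi x w) (hχi.mul_const _)
      filter_upwards [h1] with z hz
      by_cases hz0 : χ z = 0
      · simp only [hz0, zero_mul, le_refl]
      · apply mul_le_mul_of_nonneg_left _ (hχ0 z)
        apply hz
        rw [sub_sub_cancel_left, norm_neg]
        exact (hχsupp z hz0).le
    rwa [hmass] at h2
  · intro x ζ hζ
    rw [hfd]
    set c : ℝ := K * η + C * (‖ζ‖ + η) ^ 2 with hcdef
    have i1 : Integrable (fun z => χ z * u (x - z) + χ z * fderiv ℝ u (x - z) ζ) :=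
      (hint x).add (hfi x ζ)
    have i2 : Integrable (fun z => (χ z * u (x - z) + χ z * fderiv ℝ u (x - z) ζ) + χ z * c) :=
      i1.add (hχi.mul_const _)
    have h1 : ∫ z, χ z * u (x + ζ) ≤
        ∫ z, ((χ z * u (x - z) + χ z * fderiv ℝ u (x - z) ζ) + χ z * c) := by
      apply integral_mono_ae (hχi.mul_const _) i2
      filter_upwards [haex x] with z hz
      by_cases hz0 : χ z = 0
      · simp only [hz0, zero_mul, add_zero, le_refl]
      · have hzn := hχsupp z hz0
        have h2 := moll_support hsemi hz (z + ζ) ((norm_add_le _ _).trans (by linarith))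
        rw [show x - z + (z + ζ) = x + ζ by abel, map_add] at h2
        have h3 : fderiv ℝ u (x - z) z ≤ K * η := by
          calc fderiv ℝ u (x - z) z ≤ ‖fderiv ℝ u (x - z) z‖ := le_abs_self _
            _ ≤ ‖fderiv ℝ u (x - z)‖ * ‖z‖ := ContinuousLinearMap.le_opNorm _ _
            _ ≤ K * η := by
              apply mul_le_mul (hbd _) hzn.le (norm_nonneg _) hK
        have h4 : C * ‖z + ζ‖ ^ 2 ≤ C * (‖ζ‖ + η) ^ 2 := by
          apply mul_le_mul_of_nonneg_left _ hC
          apply pow_le_pow_left₀ (norm_nonneg _)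
          exact (norm_add_le _ _).trans (by linarith)
        have h5 : u (x + ζ) ≤ u (x - z) + fderiv ℝ u (x - z) ζ + c := by
          rw [hcdef]; linarith
        calc χ z * u (x + ζ) ≤ χ z * (u (x - z) + fderiv ℝ u (x - z) ζ + c) :=
              mul_le_mul_of_nonneg_left h5 (hχ0 z)
          _ = _ := by ring
    rw [hmass, integral_add i1 (hχi.mul_const _),
      integral_add (hint x) (hfi x ζ), hmass] at h1
    have h6 : φ x = ∫ z, χ z * u (x - z) := rfl
    rw [h6]
    linarith

end Pool.H110M
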