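import Mathlib
import Pool.Agent.Helper110.MDefs

set_option autoImplicit false
open MeasureTheory Set Filter Topology

noncomputable section
namespace Pool.H110M

































lemma Ton.cont {ℓ : E × E → ℝ} (h : Ton ℓ) : Continuous ℓ := h.smooth.continuous

lemma Ton.diff {ℓ : E × E → ℝ} (h : Ton ℓ) : Differentiable ℝ ℓ :=
  h.smooth.differentiable (by norm_num)

lemma Ton.cont_fderiv {ℓ : E × E → ℝ} (h : Ton ℓ) : Continuous (fderiv ℝ ℓ) :=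
  h.smooth.continuous_fderiv (by norm_num)

lemma Ton.fderiv_per {ℓ : E × E → ℝ} (h : Ton ℓ) (x v : E) (k : ℤ × ℤ) :
    fderiv ℝ ℓ (x + iv k, v) = fderiv ℝ ℓ (x, v) := by
  have h1 : (fun p : E × E => ℓ (p + (iv k, 0))) = ℓ := by
    funext p
    have := h.per p.1 p.2 k
    rw [← this]
    congr 1
    ext <;> simp
  have h2 := fderiv_comp_add_right (𝕜 := ℝ) (f := ℓ) (x := (x, v)) ((iv k, 0) : E × E)
  rw [h1] at h2
  rw [h2]
  congr 1
  ext <;> simp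

lemma exists_small (x : E) : ∃ k : ℤ × ℤ, x + iv k ∈ Metric.closedBall (0 : E) 1 := by
  refine ⟨(-⌊x.1⌋, -⌊x.2⌋), ?_⟩
  rw [mem_closedBall_zero_iff, Prod.norm_def, max_le_iff]
  simp only [iv, Prod.fst_add, Prod.snd_add, Int.cast_neg, Real.norm_eq_abs]
  constructor
  · rw [abs_le]
    constructor <;> linarith [Int.floor_le x.1, Int.lt_floor_add_one x.1]
  · rw [abs_le]
    constructor <;> linarith [Int.floor_le x.2, Int.lt_floor_add_one x.2]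

lemma Ton.lip {ℓ : E × E → ℝ} (h : Ton ℓ) (r : ℝ) : ∃ Cr : ℝ, 0 ≤ Cr ∧ ∀ x y w : E, ‖w‖ ≤ r →
    ℓ (y, w) ≤ ℓ (x, w) + Cr * ‖y - x‖ := by
  have hK : IsCompact (Metric.closedBall (0 : E) 1 ×ˢ Metric.closedBall (0 : E) r) :=
    (isCompact_closedBall _ _).prod (isCompact_closedBall _ _)
  obtain ⟨C, hC⟩ := hK.exists_bound_of_continuousOn h.cont_fderiv.continuousOn
  refine ⟨max C 0, le_max_right _ _, ?_⟩
  have hbd : ∀ p : E × E, ‖p.2‖ ≤ r → ‖fderiv ℝ ℓ p‖ ≤ max C 0 := by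
    intro p hp
    obtain ⟨k, hk⟩ := exists_small p.1
    have := hC (p.1 + iv k, p.2) ⟨hk, by simpa using hp⟩
    rw [h.fderiv_per p.1 p.2 k] at this
    exact this.trans (le_max_left _ _)
  intro x y w hw
  have hconv : Convex ℝ {p : E × E | ‖p.2‖ ≤ r} := by
    have : {p : E × E | ‖p.2‖ ≤ r} = Set.univ ×ˢ Metric.closedBall (0 : E) r := by
      ext p; simp
    rw [this]
    exact convex_univ.prod (convex_closedBall _ _)
  have := hconv.norm_image_sub_le_of_norm_fderiv_le (f := ℓ) (𝕜 := ℝ) (C := max C 0)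
    (fun p _ => h.diff p) (fun p hp => hbd p hp) (x := (x, w)) (y := (y, w)) hw hw
  have h2 : ‖((y, w) : E × E) - (x, w)‖ = ‖y - x‖ := by
    rw [Prod.mk_sub_mk, sub_self, Prod.norm_def]
    simp
  rw [h2, Real.norm_eq_abs] at this
  linarith [le_abs_self (ℓ (y, w) - ℓ (x, w))]

lemma dom_deriv {ℓ : E × E → ℝ} (h : Ton ℓ) {u : E → ℝ} {K C : ℝ} (hu : Sub ℓ u K C) {y : E}
    (hy : DifferentiableAt ℝ u y) (w : E) : fderiv ℝ u y w ≤ ℓ (y, w) := by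
  have hc : Continuous fun s : ℝ => ℓ (y + s • w, w) := h.cont.comp (by fun_prop)
  have h1 : HasDerivAt (fun t : ℝ => seg ℓ y w t) (ℓ (y + (0 : ℝ) • w, w)) 0 :=
    intervalIntegral.integral_hasDerivAt_right (hc.intervalIntegrable _ _)
      (hc.stronglyMeasurableAtFilter _ _) hc.continuousAt
  have h2 : HasDerivAt (fun t : ℝ => u (y + t • w)) (fderiv ℝ u y w) 0 := by
    have h3 : HasFDerivAt u (fderiv ℝ u y) (y + (0 : ℝ) • w) := by
      simpa using hy.hasFDerivAt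
    have h4 : HasDerivAt (fun t : ℝ => y + t • w) w 0 := by
      simpa using ((hasDerivAt_id (0 : ℝ)).smul_const w).const_add y
    exact h3.comp_hasDerivAt 0 h4
  have h5 := (h1.sub h2).tendsto_slope_zero_right
  have h6 : 0 ≤ ℓ (y + (0 : ℝ) • w, w) - fderiv ℝ u y w := by
    refine ge_of_tendsto h5 ?_
    filter_upwards [self_mem_nhdsWithin] with t ht
    have ht' : 0 < t := ht
    have hd := hu.dom y w t ht'
    have hs : seg ℓ y w 0 = 0 := by simp [seg]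
    simp only [Pi.sub_apply, zero_add, zero_smul, add_zero, hs, smul_eq_mul]
    have : 0 ≤ t⁻¹ := by positivity
    refine mul_nonneg this ?_
    linarith
  simpa using h6

lemma Sub.lipschitz {ℓ : E × E → ℝ} {u : E → ℝ} {K C : ℝ} (hu : Sub ℓ u K C) :
    LipschitzWith (Real.toNNReal K) u := by
  refine LipschitzWith.of_dist_le_mul fun x y => ?_
  rw [Real.dist_eq, dist_eq_norm, Real.coe_toNNReal _ hu.K0]
  exact hu.lip x y

lemma Sub.continuous {ℓ : E × E → ℝ} {u : E → ℝ} {K C : ℝ} (hu : Sub ℓ u K C) :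
    Continuous u := hu.lipschitz.continuous

lemma Sub.ae_diff {ℓ : E × E → ℝ} {u : E → ℝ} {K C : ℝ} (hu : Sub ℓ u K C) :
    ∀ᵐ y : E, DifferentiableAt ℝ u y := hu.lipschitz.ae_differentiableAt

/-- the approximate support slopes -/
lemma approx_slope {ℓ : E × E → ℝ} (h : Ton ℓ) {u : E → ℝ} {K C : ℝ} (hu : Sub ℓ u K C)
    (hmoll : ∀ η : ℝ, 0 < η → η ≤ 1 → ∃ φ : E → ℝ, ContDiff ℝ 1 φ ∧
      (∀ (x : E) (k : ℤ × ℤ), φ (x + iv k) = φ x) ∧
      (∀ x, |φ x - u x| ≤ K * η) ∧ (∀ x, ‖fderiv ℝ φ x‖ ≤ K) ∧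
      (∀ (x w : E) (b : ℝ), (∀ᵐ y : E, ‖y - x‖ ≤ η → fderiv ℝ u y w ≤ b) →
        fderiv ℝ φ x w ≤ b) ∧
      (∀ x ζ : E, ‖ζ‖ + η ≤ 1 →
        u (x + ζ) ≤ φ x + fderiv ℝ φ x ζ + K * η + C * (‖ζ‖ + η) ^ 2))
    {ν : Measure (E × E)} (hν : Closed ν) (hi : Integrable ℓ ν) (h0 : ∫ q, ℓ q ∂ν = 0)
    {q : E × E} (hq : q ∈ ν.support) : ∃ A : ℝ, ∀ ε : ℝ, 0 < ε → ε ≤ 1 →
      ∃ η : ℝ, 0 < η ∧ η ≤ ε ∧ ∃ q' : E × E, dist q' q < ε ∧ ∃ P : E →L[ℝ] ℝ, ‖P‖ ≤ K ∧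
        (∀ w : E, ∀ Cr : ℝ, 0 ≤ Cr → (∀ x y : E, ℓ (y, w) ≤ ℓ (x, w) + Cr * ‖y - x‖) →
          P w ≤ ℓ (q'.1, w) + Cr * η) ∧
        |ℓ q' - P q'.2| ≤ A * ε ∧
        (∀ ζ : E, ‖ζ‖ + η ≤ 1 → u (q'.1 + ζ) ≤ u q'.1 + P ζ + 2 * K * η + C * (‖ζ‖ + η) ^ 2) := by
  have := hν.prob
  obtain ⟨B, hB⟩ := h.superlin (K + 1)
  set R0 : ℝ := max 0 B with hR0
  obtain ⟨C0, hC0, hC0'⟩ := h.lip R0
  refine ⟨C0 + 1, fun ε hε hε1 => ?_⟩
  -- the positive mass of the ball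
  have hball : 0 < ν (Metric.ball q ε) :=
    (Measure.mem_support_iff_forall q).1 hq _ (Metric.ball_mem_nhds q hε)
  set b : ℝ := ν.real (Metric.ball q ε) with hb
  have hb0 : 0 < b := by
    rw [hb, measureReal_def]
    exact ENNReal.toReal_pos hball.ne' (measure_ne_top _ _)
  have hb1 : b ≤ 1 := measureReal_le_one
  set η : ℝ := ε * b / (C0 + 1) with hη
  have hη0 : 0 < η := by positivity
  have hηε : η ≤ ε := by
    rw [hη, div_le_iff₀ (by positivity)]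
    nlinarith
  have hCη : C0 * η < ε * b := by
    have h1 : (C0 + 1) * η = ε * b := by rw [hη]; field_simp
    nlinarith
  obtain ⟨φ, hφ1, hφper, hφu, hφK, hφd, hφs⟩ := hmoll η hη0 (hηε.trans hε1)
  have hup : ∀ (w : E) (Cr : ℝ), 0 ≤ Cr → (∀ x y : E, ℓ (y, w) ≤ ℓ (x, w) + Cr * ‖y - x‖) →
      ∀ x, fderiv ℝ φ x w ≤ ℓ (x, w) + Cr * η := by
    intro w Cr hCr hl x
    refine hφd x w _ ?_
    filter_upwards [hu.ae_diff] with y hy hyx
    refine (dom_deriv h hu hy w).trans ((hl x y).trans ?_)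
    have := mul_le_mul_of_nonneg_left hyx hCr
    linarith
  -- the nonnegative function
  have hG : ∀ p : E × E, 0 ≤ ℓ p - fderiv ℝ φ p.1 p.2 + C0 * η := by
    intro p
    rcases le_total ‖p.2‖ R0 with hp | hp
    · have := hup p.2 C0 hC0 (fun x y => hC0' x y p.2 hp) p.1
      linarith
    · have h1 : fderiv ℝ φ p.1 p.2 ≤ K * ‖p.2‖ :=
        (le_abs_self _).trans (((fderiv ℝ φ p.1).le_opNorm p.2).trans
          (mul_le_mul_of_nonneg_right (hφK _) (norm_nonneg _)))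
      have h2 := hB p.1 p.2
      have h3 : B ≤ ‖p.2‖ := (le_max_right _ _).trans hp
      have h4 : 0 ≤ C0 * η := by positivity
      nlinarith
  have hcontφ : Continuous fun p : E × E => fderiv ℝ φ p.1 p.2 :=
    ((hφ1.continuous_fderiv one_ne_zero).comp continuous_fst).clm_apply continuous_snd
  have hintφ : Integrable (fun p : E × E => fderiv ℝ φ p.1 p.2) ν := by
    refine Integrable.mono' (hν.int.const_mul K) hcontφ.aestronglyMeasurable
      (Eventually.of_forall fun p => ?_)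
    exact ((fderiv ℝ φ p.1).le_opNorm p.2).trans
      (mul_le_mul_of_nonneg_right (hφK _) (norm_nonneg _))
  have hintG : Integrable (fun p : E × E => ℓ p - fderiv ℝ φ p.1 p.2 + C0 * η) ν :=
    (hi.sub hintφ).add (integrable_const _)
  have hIG : ∫ p, (ℓ p - fderiv ℝ φ p.1 p.2 + C0 * η) ∂ν = C0 * η := by
    have e1 : ∫ p, (ℓ p - fderiv ℝ φ p.1 p.2 + C0 * η) ∂ν =
        ∫ p, (ℓ p - fderiv ℝ φ p.1 p.2) ∂ν + ∫ _, C0 * η ∂ν :=
      integral_add (hi.sub hintφ) (integrable_const _)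
    rw [e1, integral_sub hi hintφ, h0, hν.closed φ hφ1 hφper]
    simp
  have hex : ∃ q' ∈ Metric.ball q ε, ℓ q' - fderiv ℝ φ q'.1 q'.2 + C0 * η < ε := by
    by_contra hcon
    push Not at hcon
    have h1 := mul_meas_ge_le_integral_of_nonneg (μ := ν)
      (f := fun p : E × E => ℓ p - fderiv ℝ φ p.1 p.2 + C0 * η)
      (Eventually.of_forall hG) hintG ε
    rw [hIG] at h1
    have h2 : b ≤ ν.real {x : E × E | ε ≤ ℓ x - fderiv ℝ φ x.1 x.2 + C0 * η} :=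
      measureReal_mono (fun p hp => hcon p hp)
    have h3 := mul_le_mul_of_nonneg_left h2 hε.le
    linarith
  obtain ⟨q', hq'b, hq'⟩ := hex
  refine ⟨η, hη0, hηε, q', hq'b, fderiv ℝ φ q'.1, hφK _, ?_, ?_, ?_⟩
  · intro w Cr hCr hl
    exact hup w Cr hCr hl q'.1
  · have h1 := hG q'
    have h2 : C0 * η ≤ C0 * ε := mul_le_mul_of_nonneg_left hηε hC0
    have h3 : 0 ≤ C0 * η := by positivity
    rw [abs_le]
    constructor <;> nlinarith
  · intro ζ hζ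
    have h1 := hφs q'.1 ζ hζ
    have h2 := (abs_le.1 (hφu q'.1)).2
    linarith

theorem P1_of_support {ℓ : E × E → ℝ} (h : Ton ℓ) {u : E → ℝ} {K C : ℝ} (hu : Sub ℓ u K C)
    (hmoll : ∀ η : ℝ, 0 < η → η ≤ 1 → ∃ φ : E → ℝ, ContDiff ℝ 1 φ ∧
      (∀ (x : E) (k : ℤ × ℤ), φ (x + iv k) = φ x) ∧
      (∀ x, |φ x - u x| ≤ K * η) ∧ (∀ x, ‖fderiv ℝ φ x‖ ≤ K) ∧
      (∀ (x w : E) (b : ℝ), (∀ᵐ y : E, ‖y - x‖ ≤ η → fderiv ℝ u y w ≤ b) →
        fderiv ℝ φ x w ≤ b) ∧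
      (∀ x ζ : E, ‖ζ‖ + η ≤ 1 →
        u (x + ζ) ≤ φ x + fderiv ℝ φ x ζ + K * η + C * (‖ζ‖ + η) ^ 2))
    {ν : Measure (E × E)} (hν : Closed ν) (hi : Integrable ℓ ν) (h0 : ∫ q, ℓ q ∂ν = 0)
    {q : E × E} (hq : q ∈ ν.support) : P1 ℓ u C q := by
  obtain ⟨A, hA⟩ := approx_slope h hu hmoll hν hi h0 hq
  have hεn : ∀ n : ℕ, (0 : ℝ) < 1 / ((n : ℝ) + 1) := fun n => by positivity
  have hεn1 : ∀ n : ℕ, 1 / ((n : ℝ) + 1) ≤ 1 := fun n => by
    rw [div_le_one (by positivity)]; linarith [Nat.cast_nonneg (α := ℝ) n]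
  choose η hη0 hηε qn hqn P hPK hPw hPv hPs using fun n : ℕ => hA _ (hεn n) (hεn1 n)
  obtain ⟨P0, -, σ, hσ, hσP⟩ := tendsto_subseq_of_bounded
    (s := Metric.closedBall (0 : E →L[ℝ] ℝ) K) Metric.isBounded_closedBall
    (x := P) (fun n => by simpa using hPK n)
  have hε0 : Tendsto (fun n : ℕ => 1 / ((n : ℝ) + 1)) atTop (𝓝 0) :=
    tendsto_one_div_add_atTop_nhds_zero_nat
  have hε0' : Tendsto (fun n : ℕ => 1 / (((σ n : ℕ) : ℝ) + 1)) atTop (𝓝 0) :=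
    hε0.comp hσ.tendsto_atTop
  have hη0' : Tendsto (fun n => η (σ n)) atTop (𝓝 0) :=
    squeeze_zero (fun n => (hη0 _).le) (fun n => hηε _) hε0'
  have hqn' : Tendsto (fun n => qn (σ n)) atTop (𝓝 q) := by
    rw [tendsto_iff_dist_tendsto_zero]
    exact squeeze_zero (fun n => dist_nonneg) (fun n => (hqn _).le) hε0'
  have hx' : Tendsto (fun n => (qn (σ n)).1) atTop (𝓝 q.1) :=
    (continuous_fst.tendsto q).comp hqn'
  have hv' : Tendsto (fun n => (qn (σ n)).2) atTop (𝓝 q.2) :=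
    (continuous_snd.tendsto q).comp hqn'
  have hP' : Tendsto (fun n => P (σ n)) atTop (𝓝 P0) := hσP
  have hPapp : ∀ {z : ℕ → E} {z0 : E}, Tendsto z atTop (𝓝 z0) →
      Tendsto (fun n => P (σ n) (z n)) atTop (𝓝 (P0 z0)) := by
    intro z z0 hz
    have hc : Continuous fun r : (E →L[ℝ] ℝ) × E => r.1 r.2 :=
      continuous_fst.clm_apply continuous_snd
    exact (hc.tendsto (P0, z0)).comp (hP'.prodMk_nhds hz)
  -- slope inequality
  have hle : ∀ w : E, P0 w ≤ ℓ (q.1, w) := by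
    intro w
    obtain ⟨Cr, hCr, hCr'⟩ := h.lip ‖w‖
    have h1 : Tendsto (fun n => P (σ n) w) atTop (𝓝 (P0 w)) := hPapp tendsto_const_nhds
    have h2 : Tendsto (fun n => ℓ ((qn (σ n)).1, w) + Cr * η (σ n)) atTop
        (𝓝 (ℓ (q.1, w) + Cr * 0)) := by
      refine Tendsto.add ?_ (hη0'.const_mul Cr)
      exact (h.cont.tendsto _).comp (hx'.prodMk_nhds tendsto_const_nhds)
    have := le_of_tendsto_of_tendsto' h1 h2
      (fun n => hPw (σ n) w Cr hCr (fun x y => hCr' x y w le_rfl))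
    simpa using this
  have heq : ℓ q = P0 q.2 := by
    have h1 : Tendsto (fun n => ℓ (qn (σ n)) - P (σ n) (qn (σ n)).2) atTop
        (𝓝 (ℓ q - P0 q.2)) :=
      ((h.cont.tendsto _).comp hqn').sub (hPapp hv')
    have h2 : Tendsto (fun n => ℓ (qn (σ n)) - P (σ n) (qn (σ n)).2) atTop (𝓝 0) := by
      refine squeeze_zero_norm (fun n => ?_) (by simpa using hε0'.const_mul A)
      simpa using hPv (σ n)
    have := tendsto_nhds_unique h1 h2
    linarith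
  -- derivative
  have hder : ∀ ζ : E, fderiv ℝ ℓ q (0, ζ) = P0 ζ := by
    intro ζ
    have hd : HasFDerivAt (fun w : E => ℓ (q.1, w) - P0 w)
        ((fderiv ℝ ℓ q).comp (ContinuousLinearMap.inr ℝ E E) - P0) q.2 := by
      have h1 : HasFDerivAt ℓ (fderiv ℝ ℓ q) (q.1, q.2) := (h.diff q).hasFDerivAt
      have h2 : HasFDerivAt (fun w : E => (q.1, w)) (ContinuousLinearMap.inr ℝ E E) q.2 :=
        hasFDerivAt_prodMk_right q.1 q.2
      exact (h1.comp q.2 h2).sub P0.hasFDerivAt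
    have hmin : IsLocalMin (fun w : E => ℓ (q.1, w) - P0 w) q.2 := by
      refine Eventually.of_forall fun w => ?_
      have h1 : ℓ (q.1, q.2) = P0 q.2 := heq
      have h2 := hle w
      show ℓ (q.1, q.2) - P0 q.2 ≤ ℓ (q.1, w) - P0 w
      linarith
    have := hmin.hasFDerivAt_eq_zero hd
    have h3 := congrArg (fun L : E →L[ℝ] ℝ => L ζ) this
    simp at h3
    linarith
  have hlt : ∀ ζ : E, ‖ζ‖ < 1 → u (q.1 + ζ) ≤ u q.1 + P0 ζ + C * ‖ζ‖ ^ 2 := by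
    intro ζ hζ
    have hζn : Tendsto (fun n => q.1 + ζ - (qn (σ n)).1) atTop (𝓝 ζ) := by
      have := (tendsto_const_nhds (x := q.1 + ζ)).sub hx'
      simpa using this
    have h1 : ∀ᶠ n in atTop, ‖q.1 + ζ - (qn (σ n)).1‖ + η (σ n) < 1 := by
      have : Tendsto (fun n => ‖q.1 + ζ - (qn (σ n)).1‖ + η (σ n)) atTop (𝓝 (‖ζ‖ + 0)) :=
        hζn.norm.add hη0'
      exact this.eventually_lt_const (by simpa using hζ)
    have h2 : ∀ᶠ n in atTop, u (q.1 + ζ) ≤ u (qn (σ n)).1 + P (σ n) (q.1 + ζ - (qn (σ n)).1) +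
        2 * K * η (σ n) + C * (‖q.1 + ζ - (qn (σ n)).1‖ + η (σ n)) ^ 2 := by
      filter_upwards [h1] with n hn
      have := hPs (σ n) (q.1 + ζ - (qn (σ n)).1) hn.le
      rwa [add_sub_cancel] at this
    have h3 : Tendsto (fun n => u (qn (σ n)).1 + P (σ n) (q.1 + ζ - (qn (σ n)).1) +
        2 * K * η (σ n) + C * (‖q.1 + ζ - (qn (σ n)).1‖ + η (σ n)) ^ 2) atTop
        (𝓝 (u q.1 + P0 ζ + 2 * K * 0 + C * (‖ζ‖ + 0) ^ 2)) := by
      refine (((?_ : Tendsto _ _ _).add (hPapp hζn)).add (hη0'.const_mul _)).add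
        (((hζn.norm.add hη0').pow 2).const_mul _)
      exact (hu.continuous.tendsto _).comp hx'
    have := ge_of_tendsto h3 h2
    simpa using this
  refine ⟨?_, ?_⟩
  · rw [hder, heq]
  · intro ζ hζ
    rw [hder]
    rcases hζ.lt_or_eq with hζ | hζ
    · exact hlt ζ hζ
    · have h1 : ∀ᶠ t : ℝ in 𝓝[<] 1, u (q.1 + t • ζ) ≤ u q.1 + P0 (t • ζ) + C * ‖t • ζ‖ ^ 2 := by
        have : ∀ᶠ t : ℝ in 𝓝[<] (1 : ℝ), 0 < t :=
          (eventually_gt_nhds zero_lt_one).filter_mono nhdsWithin_le_nhds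
        filter_upwards [this, self_mem_nhdsWithin] with t ht0 ht1
        refine hlt _ ?_
        rw [norm_smul, hζ, Real.norm_eq_abs, abs_of_pos ht0, mul_one]
        exact ht1
      have hc1 : Continuous fun t : ℝ => u (q.1 + t • ζ) := hu.continuous.comp (by fun_prop)
      have hc2 : Continuous fun t : ℝ => u q.1 + P0 (t • ζ) + C * ‖t • ζ‖ ^ 2 := by fun_prop
      have h2 : Tendsto (fun t : ℝ => u (q.1 + t • ζ)) (𝓝[<] 1) (𝓝 (u (q.1 + (1 : ℝ) • ζ))) :=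
        (hc1.tendsto 1).mono_left nhdsWithin_le_nhds
      have h3 : Tendsto (fun t : ℝ => u q.1 + P0 (t • ζ) + C * ‖t • ζ‖ ^ 2) (𝓝[<] 1)
          (𝓝 (u q.1 + P0 ((1 : ℝ) • ζ) + C * ‖(1 : ℝ) • ζ‖ ^ 2)) :=
        (hc2.tendsto 1).mono_left nhdsWithin_le_nhds
      have := le_of_tendsto_of_tendsto h2 h3 h1
      simpa using this

theorem isClosed_P1 {ℓ : E × E → ℝ} (h : Ton ℓ) {u : E → ℝ} {K C : ℝ} (hu : Sub ℓ u K C) :
    IsClosed {q | P1 ℓ u C q} := by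
  have hfst : Continuous fun q : E × E => u q.1 := hu.continuous.comp continuous_fst
  have hc1 : Continuous fun q : E × E => fderiv ℝ ℓ q (0, q.2) :=
    h.cont_fderiv.clm_apply (by fun_prop)
  have hc2 : ∀ ζ : E, Continuous fun q : E × E => fderiv ℝ ℓ q (0, ζ) := fun ζ =>
    h.cont_fderiv.clm_apply continuous_const
  have : {q | P1 ℓ u C q} = {q : E × E | ℓ q = fderiv ℝ ℓ q (0, q.2)} ∩
      ⋂ ζ : E, ⋂ (_ : ‖ζ‖ ≤ 1),
        {q : E × E | u (q.1 + ζ) ≤ u q.1 + fderiv ℝ ℓ q (0, ζ) + C * ‖ζ‖ ^ 2} := by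
    ext q
    simp only [P1, mem_ofPred_eq, mem_inter_iff, mem_iInter]
  rw [this]
  refine (isClosed_eq h.cont hc1).inter ?_
  refine isClosed_iInter fun ζ => isClosed_iInter fun _ => ?_
  refine isClosed_le ?_ ((hfst.add (hc2 ζ)).add continuous_const)
  exact hu.continuous.comp (by fun_prop)

theorem P1_per {ℓ : E × E → ℝ} (h : Ton ℓ) {u : E → ℝ} {K C : ℝ} (hu : Sub ℓ u K C)
    (q : E × E) (k : ℤ × ℤ) (hq : P1 ℓ u C q) : P1 ℓ u C (q.1 + iv k, q.2) := by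
  obtain ⟨h1, h2⟩ := hq
  have hf : fderiv ℝ ℓ (q.1 + iv k, q.2) = fderiv ℝ ℓ q := h.fderiv_per q.1 q.2 k
  refine ⟨?_, ?_⟩
  · rw [hf, h.per q.1 q.2 k]
    exact h1
  · intro ζ hζ
    have h3 := h2 ζ hζ
    rw [hf]
    show u (q.1 + iv k + ζ) ≤ u (q.1 + iv k) + fderiv ℝ ℓ q (0, ζ) + C * ‖ζ‖ ^ 2
    rw [add_right_comm, hu.per, hu.per]
    exact h3

end Pool.H110M
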