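import Mathlib
import Pool.Agent.Helper110.MDefs

set_option autoImplicit false
open MeasureTheory Set Filter Topology

noncomputable section
namespace Pool.H110M
































theorem aux_ucont {ℓ : E × E → ℝ} {u : E → ℝ} {K C : ℝ} (hu : Sub ℓ u K C) : Continuous u := by
  have : LipschitzWith (Real.toNNReal K) u := by
    refine LipschitzWith.of_dist_le_mul (fun x y => ?_)
    rw [Real.dist_eq, dist_eq_norm, Real.coe_toNNReal _ hu.K0]
    exact hu.lip x y
  exact this.continuous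

/-- domination along C^1 curves -/
theorem dom_curve {ℓ : E × E → ℝ} (h : Ton ℓ) {u : E → ℝ} {K C : ℝ} (hu : Sub ℓ u K C)
    {A V : ℝ → E} (hA : ∀ t, HasDerivAt A (V t) t) (hV : Continuous V) {a b : ℝ} (hab : a ≤ b) :
    u (A b) - u (A a) ≤ ∫ t in a..b, ℓ (A t, V t) := by
  have hℓ : Continuous ℓ := h.smooth.continuous
  have hAc : Continuous A := continuous_iff_continuousAt.2 (fun t => (hA t).continuousAt)
  have huc : Continuous u := aux_ucont hu
  have hLc : Continuous (fun t => ℓ (A t, V t)) := hℓ.comp (hAc.prodMk hV)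
  have hB' : ∀ x, HasDerivAt (fun t => u (A a) + ∫ s in a..t, ℓ (A s, V s)) (ℓ (A x, V x)) x := by
    intro x
    exact (intervalIntegral.integral_hasDerivAt_right (hLc.intervalIntegrable _ _)
      (hLc.stronglyMeasurableAtFilter _ _) hLc.continuousAt).const_add _
  have key := image_le_of_liminf_slope_right_le_deriv_boundary (f := fun t => u (A t)) (a := a)
    (b := b) (huc.comp hAc).continuousOn
    (B := fun t => u (A a) + ∫ s in a..t, ℓ (A s, V s)) (B' := fun t => ℓ (A t, V t))
    (by simp) (fun x _ => (hB' x).continuousAt.continuousWithinAt)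
    (fun x _ => (hB' x).hasDerivWithinAt) ?_ (right_mem_Icc.2 hab)
  · linarith
  · intro x _ r hr
    -- comparison function
    have hsegc : Continuous (fun s : ℝ => ℓ (A x + s • V x, V x)) := by
      exact hℓ.comp (by fun_prop)
    have hG2 : HasDerivAt (fun τ : ℝ => seg ℓ (A x) (V x) τ) (ℓ (A x, V x)) 0 := by
      have := intervalIntegral.integral_hasDerivAt_right (hsegc.intervalIntegrable 0 0)
        (hsegc.stronglyMeasurableAtFilter _ _) hsegc.continuousAt
      simpa [seg] using this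
    have hG2' : HasDerivAt (fun z : ℝ => seg ℓ (A x) (V x) (z - x)) (ℓ (A x, V x)) x := by
      have h2 : HasDerivAt (fun τ : ℝ => seg ℓ (A x) (V x) τ) (ℓ (A x, V x)) (x - x) := by
        rw [sub_self]; exact hG2
      exact h2.comp_sub_const x x
    have hG1 : HasDerivAt (fun z : ℝ => K * ‖A z - A x - (z - x) • V x‖) 0 x := by
      rw [hasDerivAt_iff_isLittleO]
      have h1 := (hasDerivAt_iff_isLittleO.1 (hA x)).norm_left
      have h2 := h1.const_mul_left K
      refine h2.congr_left (fun z => ?_)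
      simp
    have hG := hG1.add hG2'
    have hGs := hasDerivAt_iff_tendsto_slope.1 hG
    have hGs' := hGs.mono_left (nhdsWithin_mono x (fun z (hz : x < z) => ne_of_gt hz) :
      𝓝[>] x ≤ 𝓝[≠] x)
    rw [zero_add] at hGs'
    have hev := hGs'.eventually (gt_mem_nhds hr)
    have hev2 : ∀ᶠ z in 𝓝[>] x, slope (fun t => u (A t)) x z < r := by
      filter_upwards [hev, self_mem_nhdsWithin] with z hz hxz
      have hxz' : x < z := hxz
      refine lt_of_le_of_lt ?_ hz
      rw [slope_def_field, slope_def_field]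
      have hpos : 0 < z - x := sub_pos.2 hxz'
      apply div_le_div_of_nonneg_right _ hpos.le
      have h1 := hu.dom (A x) (V x) (z - x) hpos
      have h2 := (abs_le.1 (hu.lip (A z) (A x + (z - x) • V x))).2
      have h3 : A z - (A x + (z - x) • V x) = A z - A x - (z - x) • V x := by module
      rw [h3] at h2
      simp [seg] at h1 h2 ⊢
      linarith
    exact hev2.frequently

/-- squeeze for derivatives -/
theorem aux_squeeze {f lo up : ℝ → ℝ} {x f' : ℝ} (hlo : HasDerivAt lo f' x)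
    (hup : HasDerivAt up f' x) (h1 : lo x = f x) (h2 : up x = f x)
    (hle : ∀ᶠ z in 𝓝 x, lo z ≤ f z ∧ f z ≤ up z) : HasDerivAt f f' x := by
  rw [hasDerivAt_iff_isLittleO] at *
  have h3 := hlo.norm_left.add hup.norm_left
  refine (Asymptotics.IsBigO.of_bound 1 ?_).trans_isLittleO h3
  filter_upwards [hle] with z hz
  rw [h1, h2, one_mul]
  simp only [Real.norm_eq_abs, smul_eq_mul]
  rw [abs_of_nonneg (a := |lo z - f x - (z - x) * f'| + |up z - f x - (z - x) * f'|)
    (by positivity)]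
  rw [abs_le]
  have e1 := neg_abs_le (lo z - f x - (z - x) * f')
  have e2 := le_abs_self (up z - f x - (z - x) * f')
  have e3 := abs_nonneg (lo z - f x - (z - x) * f')
  have e4 := abs_nonneg (up z - f x - (z - x) * f')
  constructor <;> linarith [hz.1, hz.2]

/-- calibration -/
theorem calib_of_P1 {ℓ : E × E → ℝ} (h : Ton ℓ) {u : E → ℝ} {K C : ℝ} (hu : Sub ℓ u K C)
    {A V : ℝ → E} (hA : ∀ t, HasDerivAt A (V t) t) (hV : Continuous V)
    (hP : ∀ t, P1 ℓ u C (A t, V t)) (a b : ℝ) :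
    u (A b) - u (A a) = ∫ t in a..b, ℓ (A t, V t) := by
  have hℓ : Continuous ℓ := h.smooth.continuous
  have hAc : Continuous A := continuous_iff_continuousAt.2 (fun t => (hA t).continuousAt)
  have hLc : Continuous (fun t => ℓ (A t, V t)) := hℓ.comp (hAc.prodMk hV)
  have hDc : Continuous (fun t => fderiv ℝ ℓ (A t, V t)) :=
    (h.smooth.continuous_fderiv (by norm_num)).comp (hAc.prodMk hV)
  have hder : ∀ x, HasDerivAt (fun t => u (A t)) (ℓ (A x, V x)) x := by
    intro x
    have hsl : Tendsto (slope A x) (𝓝[≠] x) (𝓝 (V x)) := hasDerivAt_iff_tendsto_slope.1 (hA x)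
    -- quadratic term
    have hq : HasDerivAt (fun z => C * ‖A z - A x‖ ^ 2) 0 x := by
      have hz := (hA x).sub_const (A x)
      rw [hasDerivAt_iff_isLittleO]
      have h1 : (fun z => A z - A x) =O[𝓝 x] fun z => z - x := (hA x).isBigO_sub
      have h2 : (fun z => A z - A x) =o[𝓝 x] fun _ => (1:ℝ) := by
        rw [Asymptotics.isLittleO_one_iff]
        have := (hAc.tendsto x).sub_const (A x)
        simpa using this
      have h3 := (h1.norm_left.mul_isLittleO h2.norm_left).const_mul_left C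
      refine h3.congr (fun z => ?_) (fun z => ?_)
      · simp only [sub_self, norm_zero, smul_zero, sub_zero]; ring
      · simp
    -- upper
    have hup : HasDerivAt (fun z => u (A x) + fderiv ℝ ℓ (A x, V x) (0, A z - A x)
        + C * ‖A z - A x‖ ^ 2) (ℓ (A x, V x)) x := by
      have h1 : HasDerivAt (fun z => ((0 : E), A z - A x)) ((0 : E), V x) x :=
        (hasDerivAt_const x (0:E)).prodMk ((hA x).sub_const (A x))
      have h2 := ((fderiv ℝ ℓ (A x, V x)).hasFDerivAt.comp_hasDerivAt x h1)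
      have h3 := (h2.const_add (u (A x))).add hq
      rw [← (hP x).1, add_zero] at h3
      exact h3
    have hlo : HasDerivAt (fun z => u (A x) + fderiv ℝ ℓ (A z, V z) (0, A z - A x)
        - C * ‖A z - A x‖ ^ 2) (ℓ (A x, V x)) x := by
      have h2 : HasDerivAt (fun z => fderiv ℝ ℓ (A z, V z) (0, A z - A x)) (ℓ (A x, V x)) x := by
        rw [hasDerivAt_iff_tendsto_slope]
        have h4 : Tendsto (fun z => fderiv ℝ ℓ (A z, V z) (0, slope A x z)) (𝓝[≠] x)
            (𝓝 (fderiv ℝ ℓ (A x, V x) (0, V x))) := by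
          have h5 : Tendsto (fun z => fderiv ℝ ℓ (A z, V z)) (𝓝[≠] x)
            (𝓝 (fderiv ℝ ℓ (A x, V x))) := (hDc.tendsto x).mono_left nhdsWithin_le_nhds
          have h6 : Tendsto (fun z => ((0 : E), slope A x z)) (𝓝[≠] x) (𝓝 ((0 : E), V x)) :=
            tendsto_const_nhds.prodMk_nhds hsl
          have h7 : Continuous (fun p : (E × E →L[ℝ] ℝ) × (E × E) => p.1 p.2) :=
            continuous_fst.clm_apply continuous_snd
          exact (h7.tendsto (fderiv ℝ ℓ (A x, V x), ((0 : E), V x))).comp (h5.prodMk_nhds h6)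
        rw [← (hP x).1] at h4
        refine h4.congr (fun z => ?_)
        rw [slope_def_module, slope_def_module]
        have : ((0 : E), (z - x)⁻¹ • (A z - A x)) = (z - x)⁻¹ • ((0 : E), A z - A x) := by
          ext <;> simp
        rw [this, map_smul]
        simp only [sub_self, Prod.mk_zero_zero, map_zero, sub_zero]
      have h3 := (h2.const_add (u (A x))).sub hq
      rw [sub_zero] at h3
      exact h3
    refine aux_squeeze hlo hup (by simp [Prod.mk_zero_zero]) (by simp [Prod.mk_zero_zero]) ?_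
    have hnear : ∀ᶠ z in 𝓝 x, ‖A z - A x‖ < 1 := by
      have : Tendsto (fun z => ‖A z - A x‖) (𝓝 x) (𝓝 0) := by
        have := ((hAc.tendsto x).sub_const (A x)).norm
        simpa using this
      exact this.eventually (gt_mem_nhds one_pos)
    filter_upwards [hnear] with z hz
    constructor
    · have h1 := (hP z).2 (A x - A z) (by rw [norm_sub_rev]; exact hz.le)
      have h2 : A z + (A x - A z) = A x := by module
      have h3 : ((0 : E), A x - A z) = - ((0 : E), A z - A x) := by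
        ext <;> simp
      simp only [h2] at h1
      rw [h3, map_neg, norm_sub_rev] at h1
      linarith
    · have h1 := (hP x).2 (A z - A x) hz.le
      have h2 : A x + (A z - A x) = A z := by module
      simp only [h2] at h1
      exact h1
  exact (intervalIntegral.integral_eq_sub_of_hasDerivAt (fun x _ => hder x)
    (hLc.intervalIntegrable _ _)).symm

/-- lower bound along calibrated Euler-Lagrange curves -/
theorem P2_of_P1 {ℓ : E × E → ℝ} (h : Ton ℓ) {u : E → ℝ} {K C : ℝ} (hu : Sub ℓ u K C) (R : ℝ)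
    (hquad : ∃ C : ℝ, 0 ≤ C ∧ ∀ x v ζ₁ ζ₂ : E, ‖v‖ ≤ R → ‖ζ₁‖ ≤ 1 → ‖ζ₂‖ ≤ 1 →
      |ℓ (x + ζ₁, v + ζ₂) - ℓ (x, v) - fderiv ℝ ℓ (x, v) (ζ₁, ζ₂)|
        ≤ C * ‖((ζ₁, ζ₂) : E × E)‖ ^ 2) :
    ∃ C' : ℝ, C ≤ C' ∧ ∀ A V : ℝ → E, ELc ℓ A V → (∀ t, ‖V t‖ ≤ R) →
      (∀ t, P1 ℓ u C (A t, V t)) → ∀ t, P2 ℓ u C' R (A t, V t) := by
  obtain ⟨Cq, hCq0, hCq⟩ := hquad
  refine ⟨max C Cq, le_max_left _ _, ?_⟩
  intro A V hEL hVR hP t
  refine ⟨hVR t, (hP t).1, ?_⟩
  intro ζ hζ
  have hℓ : Continuous ℓ := h.smooth.continuous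
  have hA := hEL.der
  have hV := hEL.cont
  have hAc : Continuous A := continuous_iff_continuousAt.2 (fun t => (hA t).continuousAt)
  have hLc : Continuous (fun t => ℓ (A t, V t)) := hℓ.comp (hAc.prodMk hV)
  have hDc : Continuous (fun t => fderiv ℝ ℓ (A t, V t)) :=
    (h.smooth.continuous_fderiv (by norm_num)).comp (hAc.prodMk hV)
  have hup := (hP t).2 ζ hζ
  have hcal := calib_of_P1 h hu hA hV hP t (t + 1)
  have hA' : ∀ s, HasDerivAt (fun s => A s + (t + 1 - s) • ζ) (V s - ζ) s := by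
    intro s
    have h1 : HasDerivAt (fun s : ℝ => t + 1 - s) (-1) s := by
      simpa using (hasDerivAt_id s).const_sub (t + 1)
    have h2 := (hA s).add (h1.smul_const ζ)
    have h3 : V s + (-1 : ℝ) • ζ = V s - ζ := by module
    rw [h3] at h2
    exact h2
  have hA'c : Continuous (fun s => A s + (t + 1 - s) • ζ) :=
    continuous_iff_continuousAt.2 (fun t => (hA' t).continuousAt)
  have hV'c : Continuous (fun s => V s - ζ) := hV.sub continuous_const
  have hdom := dom_curve h hu hA' hV'c (a := t) (b := t + 1) (by linarith)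
  have e1 : A (t + 1) + (t + 1 - (t + 1)) • ζ = A (t + 1) := by module
  have e2 : A t + (t + 1 - t) • ζ = A t + ζ := by module
  simp only [e1, e2] at hdom
  have hL'c : Continuous (fun s => ℓ (A s + (t + 1 - s) • ζ, V s - ζ)) :=
    hℓ.comp (hA'c.prodMk hV'c)
  have hM : Continuous (fun s => fderiv ℝ ℓ (A s, V s) ((t + 1 - s) • ζ, -ζ)) :=
    hDc.clm_apply (by fun_prop)
  have hLM1 : Continuous (fun s => ℓ (A s, V s) +
      fderiv ℝ ℓ (A s, V s) ((t + 1 - s) • ζ, -ζ)) := hLc.add hM
  have hLM2 : Continuous (fun s => ℓ (A s, V s) +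
      fderiv ℝ ℓ (A s, V s) ((t + 1 - s) • ζ, -ζ) + Cq * ‖ζ‖ ^ 2) := hLM1.add continuous_const
  have hmono : ∫ s in t..(t+1), ℓ (A s + (t + 1 - s) • ζ, V s - ζ) ≤
      ∫ s in t..(t+1), (ℓ (A s, V s) + fderiv ℝ ℓ (A s, V s) ((t + 1 - s) • ζ, -ζ)
        + Cq * ‖ζ‖ ^ 2) := by
    apply intervalIntegral.integral_mono_on (by linarith) (hL'c.intervalIntegrable _ _)
      (hLM2.intervalIntegrable _ _)
    intro s hs
    have hs1 : 0 ≤ t + 1 - s := by linarith [hs.2]
    have hs2 : t + 1 - s ≤ 1 := by linarith [hs.1]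
    have hn : ‖(t + 1 - s) • ζ‖ ≤ ‖ζ‖ := by
      rw [norm_smul, Real.norm_eq_abs, abs_of_nonneg hs1]
      nlinarith [norm_nonneg ζ]
    have hq := hCq (A s) (V s) ((t + 1 - s) • ζ) (-ζ) (hVR s) (hn.trans hζ)
      (by rw [norm_neg]; exact hζ)
    have hq2 := (abs_le.1 hq).2
    have hn2 : ‖(((t + 1 - s) • ζ, -ζ) : E × E)‖ ≤ ‖ζ‖ := by
      rw [Prod.norm_def]
      simp only [norm_neg]
      exact max_le hn le_rfl
    have hn3 : ‖(((t + 1 - s) • ζ, -ζ) : E × E)‖ ^ 2 ≤ ‖ζ‖ ^ 2 :=
      pow_le_pow_left₀ (norm_nonneg _) hn2 2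
    have hn4 := mul_le_mul_of_nonneg_left hn3 hCq0
    rw [← sub_eq_add_neg] at hq2
    linarith
  have hsum : ∫ s in t..(t+1), (ℓ (A s, V s) + fderiv ℝ ℓ (A s, V s) ((t + 1 - s) • ζ, -ζ)
        + Cq * ‖ζ‖ ^ 2) = (∫ s in t..(t+1), ℓ (A s, V s))
        + (∫ s in t..(t+1), fderiv ℝ ℓ (A s, V s) ((t + 1 - s) • ζ, -ζ)) + Cq * ‖ζ‖ ^ 2 := by
    rw [intervalIntegral.integral_add (hLM1.intervalIntegrable _ _)
      (continuous_const.intervalIntegrable _ _),
      intervalIntegral.integral_add (hLc.intervalIntegrable _ _) (hM.intervalIntegrable _ _)]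
    simp
  have hFTC : ∫ s in t..(t+1), fderiv ℝ ℓ (A s, V s) ((t + 1 - s) • ζ, -ζ)
      = - fderiv ℝ ℓ (A t, V t) (0, ζ) := by
    have hF : ∀ s, HasDerivAt (fun s => (t + 1 - s) * fderiv ℝ ℓ (A s, V s) (0, ζ))
        (fderiv ℝ ℓ (A s, V s) ((t + 1 - s) • ζ, -ζ)) s := by
      intro s
      have h1 : HasDerivAt (fun s : ℝ => t + 1 - s) (-1) s := by
        simpa using (hasDerivAt_id s).const_sub (t + 1)
      have h2 := h1.fun_mul (hEL.el s ζ)
      have h3 : (((t + 1 - s) • ζ, -ζ) : E × E) = (-1 : ℝ) • ((0 : E), ζ)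
          + (t + 1 - s) • (ζ, (0 : E)) := by
        ext <;> simp
      rw [h3, map_add, map_smul, map_smul]
      exact h2
    rw [intervalIntegral.integral_eq_sub_of_hasDerivAt (fun s _ => hF s)
      (hM.intervalIntegrable _ _)]
    simp
  rw [hsum, hFTC] at hmono
  have hz2 : 0 ≤ ‖ζ‖ ^ 2 := by positivity
  have hm1 := mul_le_mul_of_nonneg_right (le_max_left C Cq) hz2
  have hm2 := mul_le_mul_of_nonneg_right (le_max_right C Cq) hz2
  simp only at hup ⊢
  rw [abs_le]
  constructor
  · linarith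
  · linarith

end Pool.H110M
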