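import Mathlib
import Pool.Agent.Helper110.MDefs

set_option autoImplicit false
open MeasureTheory Set Filter Topology

noncomputable section
namespace Pool.H110M
































/-- quadratic two-sided contact gives differentiability -/
theorem quad_contact {u : E → ℝ} {x : E} {P : E →L[ℝ] ℝ} {C : ℝ}
    (h : ∀ ζ : E, ‖ζ‖ ≤ 1 → |u (x + ζ) - u x - P ζ| ≤ C * ‖ζ‖ ^ 2) : HasFDerivAt u P x := by
  rw [hasFDerivAt_iff_isLittleO_nhds_zero]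
  have h1 : (fun ζ : E => u (x + ζ) - u x - P ζ) =O[𝓝 0] fun ζ => ‖ζ‖ ^ 2 := by
    refine Asymptotics.IsBigO.of_bound C ?_
    filter_upwards [Metric.closedBall_mem_nhds (0 : E) one_pos] with ζ hζ
    have h2 := h ζ (by simpa using hζ)
    rw [Real.norm_eq_abs]
    simpa using h2
  exact h1.trans_isLittleO (Asymptotics.isLittleO_norm_pow_id one_lt_two)

/-- one-sided quadratic contact at a point of differentiability -/
theorem one_contact {u : E → ℝ} {x : E} {P D : E →L[ℝ] ℝ} {C : ℝ} (hD : HasFDerivAt u D x)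
    (h : ∀ ζ : E, ‖ζ‖ ≤ 1 → u (x + ζ) ≤ u x + P ζ + C * ‖ζ‖ ^ 2) : D = P := by
  have h1 : HasFDerivAt (fun ζ : E => C * ‖ζ‖ ^ 2) (0 : E →L[ℝ] ℝ) 0 := by
    refine quad_contact (C := |C|) fun ζ _ => ?_
    simp [abs_mul]
  have h2 : HasFDerivAt (fun ζ : E => u (x + ζ)) D 0 := by
    have h3 : HasFDerivAt u D (x + 0) := by simpa using hD
    have h4 : HasFDerivAt (fun ζ : E => x + ζ) (ContinuousLinearMap.id ℝ E) 0 :=
      (hasFDerivAt_id (0 : E)).const_add x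
    have h5 := HasFDerivAt.comp (0 : E) h3 h4
    rwa [ContinuousLinearMap.comp_id] at h5
  have h3 : HasFDerivAt (fun ζ : E => u x + P ζ + C * ‖ζ‖ ^ 2 - u (x + ζ))
      (0 + P + 0 - D) 0 :=
    (((hasFDerivAt_const (u x) (0:E)).add P.hasFDerivAt).add h1).sub h2
  have h4 : IsLocalMin (fun ζ : E => u x + P ζ + C * ‖ζ‖ ^ 2 - u (x + ζ)) 0 := by
    filter_upwards [Metric.closedBall_mem_nhds (0 : E) one_pos] with ζ hζ
    have h5 := h ζ (by simpa using hζ)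
    simp
    linarith
  have h5 := h4.hasFDerivAt_eq_zero h3
  rw [zero_add, add_zero, sub_eq_zero] at h5
  exact h5.symm

theorem grad_est {ℓ : E × E → ℝ} (h : Ton ℓ) {u : E → ℝ} {K C : ℝ} (hu : Sub ℓ u K C)
    (C' R : ℝ) (hC' : 0 ≤ C') : ∃ M : ℝ, 0 ≤ M ∧ ∀ q : E × E, P2 ℓ u C' R q → ∀ x : E, ‖x - q.1‖ ≤ 1 / 2 →
      DifferentiableAt ℝ u x → ∀ ζ : E,
        |fderiv ℝ u x ζ - fderiv ℝ ℓ q (0, ζ)| ≤ M * ‖x - q.1‖ * ‖ζ‖ := by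
  have hC0 := hu.C0
  refine ⟨5 * C' + C, by positivity, ?_⟩
  intro q hq x hx hdiff ζ
  set p : E →L[ℝ] ℝ := (fderiv ℝ ℓ q).comp (ContinuousLinearMap.inr ℝ E E) with hp
  have hpζ : ∀ ζ : E, fderiv ℝ ℓ q (0, ζ) = p ζ := fun ζ => rfl
  rw [hpζ]
  obtain ⟨-, -, hq2⟩ := hq
  obtain ⟨P, hP⟩ := hu.semi x
  have hDP : fderiv ℝ u x = P := one_contact hdiff.hasFDerivAt hP
  by_cases hd : x - q.1 = 0
  · have hxq : x = q.1 := sub_eq_zero.1 hd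
    have h1 : HasFDerivAt u p q.1 := quad_contact (C := C') hq2
    rw [hxq, h1.fderiv]
    simp
  set d : E := x - q.1 with hdd
  have hdn : 0 < ‖d‖ := norm_pos_iff.2 hd
  have hxd : x = q.1 + d := by rw [hdd]; abel
  have key : ∀ η : E, ‖η‖ ≤ ‖d‖ → p η - P η ≤ (5 * C' + C) * ‖d‖ ^ 2 := by
    intro η hη
    have hdη : ‖d + η‖ ≤ 2 * ‖d‖ := (norm_add_le _ _).trans (by linarith)
    have h1 := hq2 (d + η) (by linarith)
    have h2 := hq2 d (by linarith)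
    have h3 := hP η (by linarith)
    rw [hpζ] at h1 h2
    have h4 : q.1 + (d + η) = x + η := by rw [hxd]; abel
    rw [h4, map_add] at h1
    rw [← hxd] at h2
    have h5 := (abs_le.1 h1).1
    have h6 := (abs_le.1 h2).2
    have h7 : C' * ‖d + η‖ ^ 2 ≤ C' * (2 * ‖d‖) ^ 2 :=
      mul_le_mul_of_nonneg_left (pow_le_pow_left₀ (norm_nonneg _) hdη 2) hC'
    have h8 : C * ‖η‖ ^ 2 ≤ C * ‖d‖ ^ 2 :=
      mul_le_mul_of_nonneg_left (pow_le_pow_left₀ (norm_nonneg _) hη 2) hC0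
    nlinarith
  have key2 : ∀ η : E, p η - P η ≤ (5 * C' + C) * ‖d‖ * ‖η‖ := by
    intro η
    by_cases hη : η = 0
    · rw [hη]; simp
    have hηn : 0 < ‖η‖ := norm_pos_iff.2 hη
    have h1 := key ((‖d‖ / ‖η‖) • η) (by
      rw [norm_smul, Real.norm_eq_abs, abs_of_nonneg (by positivity)]
      rw [div_mul_cancel₀ _ hηn.ne'])
    rw [map_smul, map_smul, smul_eq_mul, smul_eq_mul, ← mul_sub] at h1
    have h2 : (‖d‖ / ‖η‖) * (p η - P η) ≤ (‖d‖ / ‖η‖) * ((5 * C' + C) * ‖d‖ * ‖η‖) := by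
      refine h1.trans (le_of_eq ?_)
      field_simp
    exact le_of_mul_le_mul_left h2 (by positivity)
  rw [hDP, abs_le]
  have h1 := key2 ζ
  have h2 := key2 (-ζ)
  rw [map_neg, map_neg, norm_neg] at h2
  constructor <;> linarith

theorem graph_est {ℓ : E × E → ℝ} (h : Ton ℓ) {u : E → ℝ} {K C : ℝ} (hu : Sub ℓ u K C)
    (C' R : ℝ) (hC' : 0 ≤ C')
    (hlipD : ∃ C : ℝ, 0 ≤ C ∧ ∀ x v x' v' : E, ‖v‖ ≤ R → ‖v'‖ ≤ R →
      ‖fderiv ℝ ℓ (x, v) - fderiv ℝ ℓ (x', v')‖ ≤ C * ‖((x, v) : E × E) - (x', v')‖)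
    (hconv : ∃ m : ℝ, 0 < m ∧ ∀ x v w : E, ‖v‖ ≤ R → ‖w‖ ≤ R →
      ℓ (x, v) + fderiv ℝ ℓ (x, v) (0, w - v) + m * ‖w - v‖ ^ 2 ≤ ℓ (x, w)) :
    ∃ M : ℝ, 0 ≤ M ∧ ∀ q q' : E × E, P2 ℓ u C' R q → P2 ℓ u C' R q' → ‖q.1 - q'.1‖ ≤ 1 / 2 →
      ‖q.2 - q'.2‖ ≤ M * ‖q.1 - q'.1‖ := by
  obtain ⟨M0, hM0, hM⟩ := grad_est h hu C' R hC'
  obtain ⟨CL, hCL0, hCL⟩ := hlipD
  obtain ⟨m, hm0, hm⟩ := hconv
  refine ⟨(CL + M0) / (2 * m), by positivity, ?_⟩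
  intro q q' hq hq' hqq
  have hd' : HasFDerivAt u ((fderiv ℝ ℓ q').comp (ContinuousLinearMap.inr ℝ E E)) q'.1 :=
    quad_contact (C := C') hq'.2.2
  have h1 := hM q hq q'.1 (by rw [norm_sub_rev]; exact hqq) hd'.differentiableAt (q'.2 - q.2)
  rw [hd'.fderiv] at h1
  have h1' : fderiv ℝ ℓ q' (0, q'.2 - q.2) - fderiv ℝ ℓ q (0, q'.2 - q.2) ≤
      M0 * ‖q.1 - q'.1‖ * ‖q'.2 - q.2‖ := by
    rw [norm_sub_rev q.1 q'.1]
    exact (le_abs_self _).trans h1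
  have h2 := hm q.1 q.2 q'.2 hq.1 hq'.1
  have h3 := hm q.1 q'.2 q.2 hq'.1 hq.1
  have h4 : fderiv ℝ ℓ (q.1, q'.2) (0, q.2 - q'.2) = - fderiv ℝ ℓ (q.1, q'.2) (0, q'.2 - q.2) := by
    rw [← map_neg]; congr 1; ext <;> simp
  rw [h4, norm_sub_rev q.2 q'.2] at h3
  have h5 : (fderiv ℝ ℓ (q.1, q'.2) - fderiv ℝ ℓ (q'.1, q'.2)) (0, q'.2 - q.2) ≤
      CL * ‖q.1 - q'.1‖ * ‖q'.2 - q.2‖ := by
    have h6 := hCL q.1 q'.2 q'.1 q'.2 hq'.1 hq'.1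
    have h7 : ‖((q.1, q'.2) : E × E) - (q'.1, q'.2)‖ = ‖q.1 - q'.1‖ := by
      rw [Prod.mk_sub_mk, sub_self, Prod.norm_mk, norm_zero]
      exact max_eq_left (norm_nonneg _)
    rw [h7] at h6
    have h8 : ‖((0 : E), q'.2 - q.2)‖ = ‖q'.2 - q.2‖ := by
      rw [Prod.norm_mk, norm_zero]
      exact max_eq_right (norm_nonneg _)
    calc _ ≤ ‖(fderiv ℝ ℓ (q.1, q'.2) - fderiv ℝ ℓ (q'.1, q'.2)) (0, q'.2 - q.2)‖ :=
          le_abs_self _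
      _ ≤ ‖fderiv ℝ ℓ (q.1, q'.2) - fderiv ℝ ℓ (q'.1, q'.2)‖ * ‖((0 : E), q'.2 - q.2)‖ :=
          ContinuousLinearMap.le_opNorm _ _
      _ ≤ _ := by
          rw [h8]
          exact mul_le_mul_of_nonneg_right h6 (norm_nonneg _)
  rw [sub_apply] at h5
  have h9 : 2 * m * ‖q'.2 - q.2‖ ^ 2 ≤ (CL + M0) * ‖q.1 - q'.1‖ * ‖q'.2 - q.2‖ := by
    have e1 : fderiv ℝ ℓ (q.1, q.2) = fderiv ℝ ℓ q := rfl
    have e2 : fderiv ℝ ℓ (q'.1, q'.2) = fderiv ℝ ℓ q' := rfl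
    rw [e1] at h2
    rw [e2] at h5
    nlinarith
  rw [norm_sub_rev q.2 q'.2]
  by_cases h10 : ‖q'.2 - q.2‖ = 0
  · rw [h10]; positivity
  have h11 : 0 < ‖q'.2 - q.2‖ := lt_of_le_of_ne (norm_nonneg _) (Ne.symm h10)
  have h12 : 2 * m * ‖q'.2 - q.2‖ ≤ (CL + M0) * ‖q.1 - q'.1‖ := by
    refine le_of_mul_le_mul_right ?_ h11
    calc 2 * m * ‖q'.2 - q.2‖ * ‖q'.2 - q.2‖ = 2 * m * ‖q'.2 - q.2‖ ^ 2 := by ring
      _ ≤ _ := h9
  rw [div_mul_eq_mul_div, le_div_iff₀ (by positivity)]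
  linarith

end Pool.H110M
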