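import Mathlib
import Pool.Agent.Helper110.MDefs
set_option autoImplicit false
open Set Filter Topology
namespace Pool.H110M


theorem exists_recurrent {X : Type*} [MetricSpace X] (Φ : Flow ℝ X) (Λ : Set X)
    (hc : IsCompact Λ) (hne : Λ.Nonempty) (hinv : ∀ t : ℝ, ∀ z ∈ Λ, Φ t z ∈ Λ) :
    ∃ z ∈ Λ, ∀ ε > 0, ∀ N : ℝ, ∃ t : ℝ, N ≤ t ∧ dist (Φ t z) z < ε := by
  classical
  set S : Set (Set X) := {C | C ⊆ Λ ∧ C.Nonempty ∧ IsClosed C ∧ ∀ t : ℝ, 0 ≤ t → ∀ z ∈ C, Φ t z ∈ C}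
    with hS
  have hΛ : Λ ∈ S := ⟨subset_rfl, hne, hc.isClosed, fun t _ z hz => hinv t z hz⟩
  obtain ⟨M, hMΛ, hM⟩ := zorn_superset_nonempty S (by
    intro c hcS hchain hcne
    have hne' : Nonempty c := hcne.to_subtype
    refine ⟨⋂₀ c, ⟨?_, ?_, ?_, ?_⟩, fun s hs => sInter_subset_of_mem hs⟩
    · obtain ⟨s, hs⟩ := hcne
      exact (sInter_subset_of_mem hs).trans (hcS hs).1
    · apply IsCompact.nonempty_sInter_of_directed_nonempty_isCompact_isClosed
      · intro U hU V hV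
        rcases hchain.total hU hV with h | h
        · exact ⟨U, hU, subset_rfl, h⟩
        · exact ⟨V, hV, h, subset_rfl⟩
      · exact fun U hU => (hcS hU).2.1
      · exact fun U hU => hc.of_isClosed_subset (hcS hU).2.2.1 (hcS hU).1
      · exact fun U hU => (hcS hU).2.2.1
    · exact isClosed_sInter fun U hU => (hcS hU).2.2.1
    · intro t ht z hz
      rw [mem_sInter] at hz ⊢
      intro U hU
      exact (hcS hU).2.2.2 t ht z (hz U hU)) Λ hΛ
  obtain ⟨hMS, hMin⟩ := hM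
  obtain ⟨z, hz⟩ := hMS.2.1
  refine ⟨z, hMS.1 hz, ?_⟩
  intro ε hε N
  set N' := max N 0 with hN'
  set C : Set X := closure ((fun t => Φ t z) '' Ici N') with hC
  have hCM : C ⊆ M := by
    apply closure_minimal _ hMS.2.2.1
    rintro _ ⟨t, ht, rfl⟩
    exact hMS.2.2.2 t ((le_max_right N 0).trans ht) z hz
  have hCS : C ∈ S := by
    refine ⟨hCM.trans hMS.1, ⟨Φ N' z, subset_closure ⟨N', self_mem_Ici, rfl⟩⟩, isClosed_closure, ?_⟩
    intro s hs y hy
    have hcont : Continuous (Φ s) := Φ.continuous_toFun s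
    have h1 : Φ s y ∈ closure (Φ s '' ((fun t => Φ t z) '' Ici N')) :=
      image_closure_subset_closure_image hcont ⟨y, hy, rfl⟩
    refine closure_mono ?_ h1
    rintro _ ⟨_, ⟨t, ht, rfl⟩, rfl⟩
    refine ⟨s + t, ?_, ?_⟩
    · rw [mem_Ici] at ht ⊢
      linarith
    · exact Φ.map_add s t z
  have hMC : M ⊆ C := hMin hCS hCM
  have hzC := hMC hz
  rw [hC, Metric.mem_closure_iff] at hzC
  obtain ⟨_, ⟨t, ht, rfl⟩, hd⟩ := hzC ε hε
  refine ⟨t, (le_max_left N 0).trans ht, ?_⟩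
  rw [dist_comm]
  exact hd

end Pool.H110M
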