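import Mathlib
import Pool.Agent.Helper110.MDefs

set_option autoImplicit false
open MeasureTheory Set Filter Topology

noncomputable section
namespace Pool.H110M



























/-- rotation by a right angle -/
def JL : E →L[ℝ] E := (-(ContinuousLinearMap.snd ℝ ℝ ℝ)).prod (ContinuousLinearMap.fst ℝ ℝ ℝ)

/-- inner product -/
def ip (a b : E) : ℝ := a.1 * b.1 + a.2 * b.2

theorem JL_apply (a : E) : JL a = (-a.2, a.1) := rfl

theorem abs_fst_le (a : E) : |a.1| ≤ ‖a‖ := norm_fst_le a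
theorem abs_snd_le (a : E) : |a.2| ≤ ‖a‖ := norm_snd_le a

theorem norm_JL (a : E) : ‖JL a‖ = ‖a‖ := by
  rw [JL_apply, Prod.norm_def, Prod.norm_def]
  simp only [norm_neg]
  exact max_comm _ _

theorem ip_self_ge (a : E) : ‖a‖ ^ 2 ≤ ip a a := by
  unfold ip
  rw [Prod.norm_def]
  simp only [Real.norm_eq_abs]
  rcases max_cases |a.1| |a.2| with ⟨h, _⟩ | ⟨h, _⟩
  · rw [h, sq_abs]; nlinarith [sq_nonneg a.2]
  · rw [h, sq_abs]; nlinarith [sq_nonneg a.1]

theorem ip_abs_le (a b : E) : |ip a b| ≤ 2 * ‖a‖ * ‖b‖ := by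
  unfold ip
  have h1 : |a.1 * b.1| ≤ ‖a‖ * ‖b‖ := by
    rw [abs_mul]
    exact mul_le_mul (abs_fst_le a) (abs_fst_le b) (abs_nonneg _) (norm_nonneg _)
  have h2 : |a.2 * b.2| ≤ ‖a‖ * ‖b‖ := by
    rw [abs_mul]
    exact mul_le_mul (abs_snd_le a) (abs_snd_le b) (abs_nonneg _) (norm_nonneg _)
  have := abs_add_le (a.1 * b.1) (a.2 * b.2)
  linarith

theorem det_abs_le (a b : E) : |det a b| ≤ 2 * ‖a‖ * ‖b‖ := by
  unfold det
  have h1 : |a.1 * b.2| ≤ ‖a‖ * ‖b‖ := by
    rw [abs_mul]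
    exact mul_le_mul (abs_fst_le a) (abs_snd_le b) (abs_nonneg _) (norm_nonneg _)
  have h2 : |a.2 * b.1| ≤ ‖a‖ * ‖b‖ := by
    rw [abs_mul]
    exact mul_le_mul (abs_snd_le a) (abs_fst_le b) (abs_nonneg _) (norm_nonneg _)
  have := abs_sub (a.1 * b.2) (a.2 * b.1)
  linarith

theorem ip_comm (a b : E) : ip a b = ip b a := by unfold ip; ring
theorem ip_add_left (a b c : E) : ip (a + b) c = ip a c + ip b c := by
  unfold ip; simp only [Prod.fst_add, Prod.snd_add]; ring
theorem ip_sub_left (a b c : E) : ip (a - b) c = ip a c - ip b c := by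
  unfold ip; simp only [Prod.fst_sub, Prod.snd_sub]; ring
theorem ip_sub_right (a b c : E) : ip a (b - c) = ip a b - ip a c := by
  unfold ip; simp only [Prod.fst_sub, Prod.snd_sub]; ring

theorem hasDerivAt_ip {f : ℝ → E} {f' : E} {t : ℝ} (hf : HasDerivAt f f' t) (w : E) :
    HasDerivAt (fun s => ip (f s) w) (ip f' w) t := by
  have h1 : HasDerivAt (fun s => (f s).1) f'.1 t :=
    (ContinuousLinearMap.fst ℝ ℝ ℝ).hasFDerivAt.comp_hasDerivAt t hf
  have h2 : HasDerivAt (fun s => (f s).2) f'.2 t :=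
    (ContinuousLinearMap.snd ℝ ℝ ℝ).hasFDerivAt.comp_hasDerivAt t hf
  exact (h1.mul_const w.1).add (h2.mul_const w.2)

/-- mean value inequality on the line -/
theorem mvt_norm {f : ℝ → E} {f' : ℝ → E} (hf : ∀ t, HasDerivAt f (f' t) t) {C a b : ℝ}
    (hab : a ≤ b) (hC : ∀ t ∈ Icc a b, ‖f' t‖ ≤ C) : ‖f b - f a‖ ≤ C * (b - a) := by
  have := (convex_Icc a b).norm_image_sub_le_of_norm_hasDerivWithin_le (f := f) (f' := f') (C := C)
    (x := a) (y := b) (fun t _ => (hf t).hasDerivWithinAt) hC (left_mem_Icc.2 hab)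
    (right_mem_Icc.2 hab)
  rwa [Real.norm_eq_abs, abs_of_nonneg (by linarith)] at this

/-- real functions with derivative at least `c` grow at least linearly -/
theorem mvt_ge {f f' : ℝ → ℝ} (hf : ∀ t, HasDerivAt f (f' t) t) {c a b : ℝ}
    (hab : a < b) (hc : ∀ t ∈ Icc a b, c ≤ f' t) : c * (b - a) ≤ f b - f a := by
  obtain ⟨x, hx, hxe⟩ := exists_hasDerivAt_eq_slope f f' hab
    (fun t _ => (hf t).continuousAt.continuousWithinAt) (fun t _ => hf t)
  have h1 := hc x (Ioo_subset_Icc_self hx)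
  rw [hxe, le_div_iff₀ (by linarith)] at h1
  exact h1

/-- the facts on the averaged velocity -/
theorem avg_facts (A V : ℝ → E) (hA : ∀ t, HasDerivAt A (V t) t) (R L v0 : ℝ) (hv0 : 0 < v0)
    (hR : ∀ t, ‖V t‖ ≤ R) (hv : ∀ t, v0 ≤ ‖V t‖) (hL : ∀ s t, ‖V s - V t‖ ≤ L * |s - t|) :
    ∃ (h : ℝ) (W W' : ℝ → E), 0 < h ∧ 8 * R * L * h ≤ v0 ^ 2 ∧
      (∀ t, HasDerivAt W (W' t) t) ∧ Continuous W' ∧
      (∀ t, ‖W t‖ ≤ R) ∧ (∀ t, v0 / 2 ≤ ‖W t‖) ∧ (∀ t, ‖W t - V t‖ ≤ L * h) ∧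
      (∀ t, ‖W' t‖ ≤ L) := by
  have hL0 : 0 ≤ L := by
    have := hL 1 0
    have h2 := norm_nonneg (V 1 - V 0)
    simp at this
    linarith
  have hRv : v0 ≤ R := (hv 0).trans (hR 0)
  have hR0 : 0 < R := lt_of_lt_of_le hv0 hRv
  obtain ⟨h, hh⟩ : ∃ h : ℝ, h = v0 ^ 2 / (8 * (R * L + 1)) := ⟨_, rfl⟩
  have hRL : 0 ≤ R * L := by positivity
  have hpos : 0 < h := by rw [hh]; positivity
  have h8 : 8 * R * L * h ≤ v0 ^ 2 := by
    have : h * (8 * (R * L + 1)) = v0 ^ 2 := by rw [hh]; field_simp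
    nlinarith
  have hLh : L * h ≤ v0 / 2 := by
    have h1 : 8 * v0 * (L * h) ≤ v0 ^ 2 := by
      have : v0 * (L * h) ≤ R * (L * h) := mul_le_mul_of_nonneg_right hRv (by positivity)
      nlinarith
    have h2 : v0 * (8 * (L * h)) ≤ v0 * v0 := by nlinarith
    have h3 := le_of_mul_le_mul_left h2 hv0
    linarith
  have hVc : Continuous V := by
    have : LipschitzWith (Real.toNNReal L) V := by
      apply LipschitzWith.of_dist_le_mul
      intro x y
      rw [dist_eq_norm, dist_eq_norm, Real.coe_toNNReal _ hL0, Real.norm_eq_abs]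
      exact hL x y
    exact this.continuous
  have hAs : ∀ t, HasDerivAt (fun t => A (t + h)) (V (t + h)) t := by
    intro t
    exact (hA (t + h)).comp_add_const t h
  have hW : ∀ t, HasDerivAt (fun t => h⁻¹ • (A (t + h) - A t)) (h⁻¹ • (V (t + h) - V t)) t := by
    intro t
    exact ((hAs t).sub (hA t)).const_smul h⁻¹
  have hWV : ∀ t, ‖h⁻¹ • (A (t + h) - A t) - V t‖ ≤ L * h := by
    intro t
    have hd : ∀ s, HasDerivAt (fun s => A s - s • V t) (V s - V t) s := by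
      intro s
      have h1 : HasDerivAt (fun s : ℝ => s • V t) ((1 : ℝ) • V t) s :=
        (hasDerivAt_id s).smul_const (V t)
      rw [one_smul] at h1
      exact (hA s).sub h1
    have h1 := mvt_norm hd (C := L * h) (a := t) (b := t + h) (by linarith) (by
      intro s hs
      refine (hL s t).trans ?_
      apply mul_le_mul_of_nonneg_left _ hL0
      rw [abs_of_nonneg (by linarith [hs.1])]
      linarith [hs.2])
    have e : h⁻¹ • (A (t + h) - A t) - V t =
        h⁻¹ • ((A (t + h) - (t + h) • V t) - (A t - t • V t)) := by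
      have : (A (t + h) - (t + h) • V t) - (A t - t • V t) = (A (t + h) - A t) - h • V t := by
        rw [add_smul]; abel
      rw [this, smul_sub h⁻¹ (A (t + h) - A t) (h • V t), smul_smul, inv_mul_cancel₀ hpos.ne',
        one_smul]
    rw [e, norm_smul, Real.norm_eq_abs, abs_of_pos (by positivity)]
    calc h⁻¹ * ‖(A (t + h) - (t + h) • V t) - (A t - t • V t)‖
        ≤ h⁻¹ * (L * h * (t + h - t)) := mul_le_mul_of_nonneg_left h1 (by positivity)
      _ = L * h := by field_simp; ring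
  refine ⟨h, fun t => h⁻¹ • (A (t + h) - A t), fun t => h⁻¹ • (V (t + h) - V t), hpos, h8, hW,
    ?_, ?_, ?_, hWV, ?_⟩
  · fun_prop
  · intro t
    have h1 := mvt_norm hA (C := R) (a := t) (b := t + h) (by linarith) (fun s _ => hR s)
    rw [norm_smul, Real.norm_eq_abs, abs_of_pos (by positivity)]
    calc h⁻¹ * ‖A (t + h) - A t‖ ≤ h⁻¹ * (R * (t + h - t)) :=
          mul_le_mul_of_nonneg_left h1 (by positivity)
      _ = R := by field_simp; ring
  · intro t
    have h1 := hWV t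
    have h2 := hv t
    have h3 : ‖V t‖ ≤ ‖h⁻¹ • (A (t + h) - A t)‖ + ‖h⁻¹ • (A (t + h) - A t) - V t‖ := by
      have e : V t = h⁻¹ • (A (t + h) - A t) - (h⁻¹ • (A (t + h) - A t) - V t) := by abel
      calc ‖V t‖ = ‖h⁻¹ • (A (t + h) - A t) - (h⁻¹ • (A (t + h) - A t) - V t)‖ := by rw [← e]
        _ ≤ _ := norm_sub_le _ _
    linarith
  · intro t
    rw [norm_smul, Real.norm_eq_abs, abs_of_pos (by positivity)]
    have h1 := hL (t + h) t
    rw [add_sub_cancel_left, abs_of_pos hpos] at h1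
    calc h⁻¹ * ‖V (t + h) - V t‖ ≤ h⁻¹ * (L * h) := mul_le_mul_of_nonneg_left h1 (by positivity)
      _ = L := by field_simp

/-- return time with orthogonality -/
theorem ret (A V : ℝ → E) (hA : ∀ t, HasDerivAt A (V t) t) (R L v0 : ℝ) (hv0 : 0 < v0)
    (hR : ∀ t, ‖V t‖ ≤ R) (hv : ∀ t, v0 ≤ ‖V t‖) (hL : ∀ s t, ‖V s - V t‖ ≤ L * |s - t|)
    (hrec : ∀ δ > 0, ∀ N : ℝ, ∃ T : ℝ, N ≤ T ∧ ∃ k : ℤ × ℤ, ‖A T - A 0 - iv k‖ < δ)
    (h : ℝ) (W W' : ℝ → E) (hh : 0 < h) (h8 : 8 * R * L * h ≤ v0 ^ 2)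
    (hW : ∀ t, HasDerivAt W (W' t) t) (hWR : ∀ t, ‖W t‖ ≤ R)
    (hWV : ∀ t, ‖W t - V t‖ ≤ L * h) (δ2 : ℝ) (hδ2 : 0 < δ2) :
    ∃ T : ℝ, 1 ≤ T ∧ ∃ k : ℤ × ℤ, ip (A T - (A 0 + iv k)) (W T) = 0 ∧
      8 * ‖A T - (A 0 + iv k)‖ ≤ δ2 * v0 := by
  have hL0 : 0 ≤ L := by
    have := hL 1 0
    have h2 := norm_nonneg (V 1 - V 0)
    simp at this
    linarith
  have hRv : v0 ≤ R := (hv 0).trans (hR 0)
  have hR0 : 0 < R := lt_of_lt_of_le hv0 hRv
  obtain ⟨s1, hs1⟩ : ∃ s1 : ℝ, s1 = min (1 / 2) (min h (δ2 * v0 / (16 * R))) := ⟨_, rfl⟩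
  have hs1pos : 0 < s1 := by
    rw [hs1]
    have : 0 < δ2 * v0 / (16 * R) := by positivity
    exact lt_min (by norm_num) (lt_min hh this)
  have hs1a : s1 ≤ 1 / 2 := by rw [hs1]; exact min_le_left _ _
  have hs1b : s1 ≤ h := by rw [hs1]; exact (min_le_right _ _).trans (min_le_left _ _)
  have hs1c : s1 ≤ δ2 * v0 / (16 * R) := by
    rw [hs1]; exact (min_le_right _ _).trans (min_le_right _ _)
  have hs1c' : R * s1 ≤ δ2 * v0 / 16 := by
    have := mul_le_mul_of_nonneg_left hs1c hR0.le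
    have e : R * (δ2 * v0 / (16 * R)) = δ2 * v0 / 16 := by field_simp
    linarith
  obtain ⟨δ0, hδ0⟩ : ∃ δ0 : ℝ, δ0 = min (δ2 * v0 / 16) (s1 * v0 ^ 2 / (8 * R)) := ⟨_, rfl⟩
  have hδ0pos : 0 < δ0 := by rw [hδ0]; exact lt_min (by positivity) (by positivity)
  have hδ0a : δ0 ≤ δ2 * v0 / 16 := by rw [hδ0]; exact min_le_left _ _
  have hδ0b : 8 * R * δ0 ≤ s1 * v0 ^ 2 := by
    have h1 : δ0 ≤ s1 * v0 ^ 2 / (8 * R) := by rw [hδ0]; exact min_le_right _ _
    rw [le_div_iff₀ (by positivity)] at h1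
    linarith
  obtain ⟨Th, hTh, k, hk⟩ := hrec δ0 hδ0pos 2
  set q : E := A 0 + iv k with hq
  have hk' : ‖A Th - q‖ < δ0 := by
    rw [hq, ← sub_sub]; exact hk
  have hs1v : 0 < s1 * v0 ^ 2 := by positivity
  -- lower bound for ip
  have hip : ∀ t t' : ℝ, |t' - t| ≤ s1 → v0 ^ 2 / 2 ≤ ip (V t') (W t) := by
    intro t t' htt
    have e : ip (V t') (W t) = ip (V t) (V t) + ip (V t' - V t) (W t) + ip (V t) (W t - V t) := by
      rw [ip_sub_left, ip_sub_right]; ring
    have h1 : v0 ^ 2 ≤ ip (V t) (V t) :=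
      (pow_le_pow_left₀ hv0.le (hv t) 2).trans (ip_self_ge _)
    have h2 : |ip (V t' - V t) (W t)| ≤ 2 * (L * s1) * R := by
      refine (ip_abs_le _ _).trans ?_
      have h3 : ‖V t' - V t‖ ≤ L * s1 := (hL t' t).trans (mul_le_mul_of_nonneg_left htt hL0)
      have := norm_nonneg (V t' - V t)
      have := norm_nonneg (W t)
      have := hWR t
      gcongr
    have h4 : |ip (V t) (W t - V t)| ≤ 2 * R * (L * h) := by
      refine (ip_abs_le _ _).trans ?_
      have := hWV t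
      have := hR t
      gcongr
    have h5 : L * s1 * R ≤ L * h * R := by gcongr
    rw [e]
    have := neg_abs_le (ip (V t' - V t) (W t))
    have := neg_abs_le (ip (V t) (W t - V t))
    nlinarith
  have hgp : 0 < ip (A (Th + s1) - q) (W (Th + s1)) := by
    have h1 := mvt_ge (fun t => hasDerivAt_ip (hA t) (W (Th + s1))) (c := v0 ^ 2 / 2) (a := Th)
      (b := Th + s1) (by linarith) (by
        intro t ht
        apply hip
        rw [abs_le]
        constructor <;> linarith [ht.1, ht.2])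
    have h2 : |ip (A Th - q) (W (Th + s1))| ≤ 2 * δ0 * R := by
      refine (ip_abs_le _ _).trans ?_
      have := hWR (Th + s1)
      gcongr
    have e : ip (A (Th + s1) - q) (W (Th + s1)) =
        (ip (A (Th + s1)) (W (Th + s1)) - ip (A Th) (W (Th + s1))) +
          ip (A Th - q) (W (Th + s1)) := by
      rw [ip_sub_left, ip_sub_left]; ring
    rw [e]
    have := neg_abs_le (ip (A Th - q) (W (Th + s1)))
    nlinarith
  have hgn : ip (A (Th - s1) - q) (W (Th - s1)) < 0 := by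
    have h1 := mvt_ge (fun t => hasDerivAt_ip (hA t) (W (Th - s1))) (c := v0 ^ 2 / 2) (a := Th - s1)
      (b := Th) (by linarith) (by
        intro t ht
        apply hip
        rw [abs_le]
        constructor <;> linarith [ht.1, ht.2])
    have h2 : |ip (A Th - q) (W (Th - s1))| ≤ 2 * δ0 * R := by
      refine (ip_abs_le _ _).trans ?_
      have := hWR (Th - s1)
      gcongr
    have e : ip (A (Th - s1) - q) (W (Th - s1)) =
        ip (A Th - q) (W (Th - s1)) - (ip (A Th) (W (Th - s1)) - ip (A (Th - s1)) (W (Th - s1))) := by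
      rw [ip_sub_left, ip_sub_left]; ring
    rw [e]
    have := le_abs_self (ip (A Th - q) (W (Th - s1)))
    nlinarith
  have hAc : Continuous A := continuous_iff_continuousAt.2 (fun t => (hA t).continuousAt)
  have hWc : Continuous W := continuous_iff_continuousAt.2 (fun t => (hW t).continuousAt)
  have hgc : ContinuousOn (fun t => ip (A t - q) (W t)) (Icc (Th - s1) (Th + s1)) := by
    apply Continuous.continuousOn
    unfold ip
    fun_prop
  have himg := intermediate_value_Icc (by linarith : Th - s1 ≤ Th + s1) hgc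
  obtain ⟨T, hT, hT0⟩ := himg ⟨hgn.le, hgp.le⟩
  refine ⟨T, by linarith [hT.1], k, hT0, ?_⟩
  have hdist : ‖A T - A Th‖ ≤ R * s1 := by
    rcases le_total T Th with h1 | h1
    · rw [norm_sub_rev]
      refine (mvt_norm hA (C := R) h1 (fun s _ => hR s)).trans ?_
      apply mul_le_mul_of_nonneg_left _ hR0.le
      linarith [hT.1]
    · refine (mvt_norm hA (C := R) h1 (fun s _ => hR s)).trans ?_
      apply mul_le_mul_of_nonneg_left _ hR0.le
      linarith [hT.2]
  have : ‖A T - q‖ ≤ ‖A T - A Th‖ + ‖A Th - q‖ := by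
    have e : A T - q = (A T - A Th) + (A Th - q) := by abel
    rw [e]; exact norm_add_le _ _
  linarith

theorem ortho_rep (u w : E) (hw : w ≠ 0) (huw : ip u w = 0) :
    u = (ip u (JL w) / ip w w) • JL w := by
  have hww : 0 < ip w w := lt_of_lt_of_le (by have := norm_pos_iff.2 hw; positivity) (ip_self_ge w)
  have hne := hww.ne'
  ext
  · simp only [Prod.smul_fst, smul_eq_mul, JL_apply]
    rw [div_mul_eq_mul_div, eq_div_iff hne]
    unfold ip at *
    simp only
    linear_combination (w.1) * huw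
  · simp only [Prod.smul_snd, smul_eq_mul, JL_apply]
    rw [div_mul_eq_mul_div, eq_div_iff hne]
    unfold ip at *
    simp only
    linear_combination (w.2) * huw

theorem tilt (A V : ℝ → E) (hA : ∀ t, HasDerivAt A (V t) t) (R L v0 : ℝ) (hv0 : 0 < v0)
    (hR : ∀ t, ‖V t‖ ≤ R) (hv : ∀ t, v0 ≤ ‖V t‖) (hL : ∀ s t, ‖V s - V t‖ ≤ L * |s - t|)
    (hrec : ∀ δ > 0, ∀ N : ℝ, ∃ T : ℝ, N ≤ T ∧ ∃ k : ℤ × ℤ, ‖A T - A 0 - iv k‖ < δ)
    (hnp : ∀ T : ℝ, 0 < T → ∀ k : ℤ × ℤ, A T ≠ A 0 + iv k) :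
    ∃ C1 C0 : ℝ, 0 < C1 ∧ 0 < C0 ∧ ∀ N δ1 : ℝ, 0 < N → 0 < δ1 →
      ∃ (T : ℝ) (σ σ' : ℝ → E) (D : ℝ → ℝ) (a S : ℝ) (k : ℤ × ℤ),
        0 < T ∧ 0 < a ∧ (S = 1 ∨ S = -1) ∧ (∀ θ, HasDerivAt σ (σ' θ) θ) ∧ Continuous σ' ∧
        σ 0 = A 0 ∧ σ T = σ 0 + iv k ∧
        (∀ θ ∈ Icc (0:ℝ) T, a ≤ D θ ∧ D θ ≤ δ1 ∧ ‖σ θ - A θ‖ ≤ C0 * D θ ∧
          ∀ w : E, N * D θ - C1 * ‖w - V θ‖ ≤ S * det (σ' θ) w) := by

  have hL0 : 0 ≤ L := by
    have := hL 1 0
    have h2 := norm_nonneg (V 1 - V 0)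
    simp at this
    linarith
  have hRv : v0 ≤ R := (hv 0).trans (hR 0)
  have hR0 : 0 < R := lt_of_lt_of_le hv0 hRv
  obtain ⟨h, W, W', hh, h8, hW, hW'c, hWR, hWv, hWV, hW'L⟩ :=
    avg_facts A V hA R L v0 hv0 hR hv hL
  have hVc : Continuous V := by
    have : LipschitzWith (Real.toNNReal L) V := by
      apply LipschitzWith.of_dist_le_mul
      intro x y
      rw [dist_eq_norm, dist_eq_norm, Real.coe_toNNReal _ hL0, Real.norm_eq_abs]
      exact hL x y
    exact this.continuous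
  have hWc : Continuous W := continuous_iff_continuousAt.2 (fun t => (hW t).continuousAt)
  refine ⟨4 * R + 2 * L + 1, R + 1, by positivity, by positivity, ?_⟩
  intro N δ1 hN hδ1
  obtain ⟨K, hK⟩ : ∃ K : ℝ, K = 1 + 2 * (N + 2 * L * R) / v0 ^ 2 := ⟨_, rfl⟩
  have hK1 : 1 ≤ K := by
    rw [hK]
    have : 0 ≤ 2 * (N + 2 * L * R) / v0 ^ 2 := by positivity
    linarith
  have hK0 : 0 < K := by linarith
  have hKN : N ≤ K * (v0 ^ 2 / 2) - 2 * L * R := by
    have e : K * (v0 ^ 2 / 2) = v0 ^ 2 / 2 + (N + 2 * L * R) := by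
      rw [hK]; field_simp
    rw [e]
    have : 0 < v0 ^ 2 / 2 := by positivity
    linarith
  obtain ⟨δ2, hδ2⟩ : ∃ δ2 : ℝ, δ2 = min δ1 (1 / K) := ⟨_, rfl⟩
  have hδ2pos : 0 < δ2 := by rw [hδ2]; exact lt_min hδ1 (by positivity)
  have hδ2a : δ2 ≤ δ1 := by rw [hδ2]; exact min_le_left _ _
  have hδ2b : K * δ2 ≤ 1 := by
    have : δ2 ≤ 1 / K := by rw [hδ2]; exact min_le_right _ _
    rw [le_div_iff₀ hK0] at this
    linarith
  obtain ⟨T, hT1, k, horth, hclose⟩ := ret A V hA R L v0 hv0 hR hv hL hrec h W W' hh h8 hW hWR hWV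
    δ2 hδ2pos
  have hT0 : 0 < T := by linarith
  have hWT : W T ≠ 0 := by
    intro h0
    have := hWv T
    rw [h0, norm_zero] at this
    linarith
  have horth' : ip ((A 0 + iv k) - A T) (W T) = 0 := by
    rw [ip_sub_left] at horth ⊢
    linarith
  have hrep := ortho_rep _ _ hWT horth'
  obtain ⟨yT, hyT⟩ : ∃ yT : ℝ, yT = ip ((A 0 + iv k) - A T) (JL (W T)) / ip (W T) (W T) :=
    ⟨_, rfl⟩
  rw [← hyT] at hrep
  have hyT0 : yT ≠ 0 := by
    intro h0
    rw [h0, zero_smul] at hrep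
    exact hnp T hT0 k (sub_eq_zero.1 hrep).symm
  have hyTabs : 2 * |yT| ≤ δ2 := by
    have h1 : ‖(A 0 + iv k) - A T‖ = |yT| * ‖W T‖ := by
      conv_lhs => rw [hrep]
      rw [norm_smul, norm_JL, Real.norm_eq_abs]
    rw [norm_sub_rev] at h1
    have h2 := hWv T
    have h3 : |yT| * (v0 / 2) ≤ |yT| * ‖W T‖ := mul_le_mul_of_nonneg_left h2 (abs_nonneg _)
    have h4 : (4 * |yT|) * v0 ≤ δ2 * v0 := by linarith
    have h5 := le_of_mul_le_mul_right h4 hv0
    have := abs_nonneg yT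
    linarith
  -- the exponential profile
  obtain ⟨M, hM⟩ : ∃ M : ℝ, M = Real.exp (K * T) - 1 := ⟨_, rfl⟩
  have hexp2 : 2 ≤ Real.exp (K * T) := by
    have h1 : 1 ≤ K * T := by nlinarith
    have h2 := Real.add_one_le_exp (K * T)
    linarith
  have hM1 : 1 ≤ M := by rw [hM]; linarith
  have hM0 : 0 < M := by linarith
  have hMe : Real.exp (K * T) = M + 1 := by rw [hM]; ring
  have hyTpos : 0 < |yT| := abs_pos.2 hyT0
  obtain ⟨S, hS, hSy⟩ : ∃ S : ℝ, (S = 1 ∨ S = -1) ∧ S * yT = -|yT| := by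
    rcases lt_or_gt_of_ne hyT0 with h1 | h1
    · exact ⟨1, Or.inl rfl, by rw [abs_of_neg h1]; ring⟩
    · exact ⟨-1, Or.inr rfl, by rw [abs_of_pos h1]; ring⟩
  have hSabs : |S| = 1 := by rcases hS with rfl | rfl <;> norm_num
  obtain ⟨y, hy⟩ : ∃ y : ℝ → ℝ, y = fun θ => yT / M * (Real.exp (K * θ) - 1) := ⟨_, rfl⟩
  obtain ⟨y', hy'⟩ : ∃ y' : ℝ → ℝ, y' = fun θ => yT / M * (Real.exp (K * θ) * K) := ⟨_, rfl⟩
  have hyd : ∀ θ, HasDerivAt y (y' θ) θ := by
    intro θ
    rw [hy, hy']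
    have h1 : HasDerivAt (fun θ : ℝ => K * θ) K θ := by
      simpa using (hasDerivAt_id θ).const_mul K
    exact ((h1.exp).sub_const 1).const_mul (yT / M)
  have hyc : Continuous y := by rw [hy]; fun_prop
  have hy'c : Continuous y' := by rw [hy']; fun_prop
  refine ⟨T, fun θ => A θ + y θ • JL (W θ),
    fun θ => V θ + (y θ • JL (W' θ) + y' θ • JL (W θ)),
    fun θ => |yT| / M * Real.exp (K * θ), |yT| / M, S, k, hT0, by positivity, hS, ?_, ?_, ?_, ?_, ?_⟩
  · intro θ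
    have h1 : HasDerivAt (fun θ => JL (W θ)) (JL (W' θ)) θ :=
      JL.hasFDerivAt.comp_hasDerivAt θ (hW θ)
    exact (hA θ).add ((hyd θ).smul h1)
  · fun_prop
  · simp [hy]
  · have e1 : y T = yT := by
      rw [hy]
      simp only
      rw [hMe]
      field_simp
      ring
    have e2 : y 0 = 0 := by rw [hy]; simp
    simp only [e1, e2, zero_smul, add_zero]
    rw [← hrep]
    abel
  · intro θ hθ
    have hexp1 : 1 ≤ Real.exp (K * θ) := Real.one_le_exp (mul_nonneg hK0.le hθ.1)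
    have hexpT : Real.exp (K * θ) ≤ Real.exp (K * T) :=
      Real.exp_le_exp.2 (mul_le_mul_of_nonneg_left hθ.2 hK0.le)
    obtain ⟨D, hD⟩ : ∃ D : ℝ, D = |yT| / M * Real.exp (K * θ) := ⟨_, rfl⟩
    have hDpos : 0 < D := by rw [hD]; positivity
    have hDle : D ≤ δ2 := by
      have h1 : |yT| / M * Real.exp (K * θ) ≤ |yT| / M * (2 * M) := by
        apply mul_le_mul_of_nonneg_left _ (by positivity)
        linarith
      have h2 : |yT| / M * (2 * M) = 2 * |yT| := by field_simp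
      rw [hD]; linarith
    have hyabs : |y θ| ≤ D := by
      rw [hy, hD]
      simp only
      rw [abs_mul, abs_div, abs_of_pos hM0, abs_of_nonneg (by linarith : 0 ≤ Real.exp (K * θ) - 1)]
      apply mul_le_mul_of_nonneg_left _ (by positivity)
      linarith
    have hSy' : S * y' θ = -(K * D) := by
      rw [hy', hD]
      simp only
      calc S * (yT / M * (Real.exp (K * θ) * K)) = (S * yT) / M * (Real.exp (K * θ) * K) := by ring
        _ = -(K * (|yT| / M * Real.exp (K * θ))) := by rw [hSy]; ring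
    have hKD : K * D ≤ 1 := (mul_le_mul_of_nonneg_left hDle hK0.le).trans hδ2b
    have hD1 : D ≤ 1 := by nlinarith
    simp only
    rw [← hD]
    refine ⟨?_, hDle.trans hδ2a, ?_, ?_⟩
    · rw [hD]
      have : 0 ≤ |yT| / M := by positivity
      nlinarith
    · rw [add_sub_cancel_left, norm_smul, norm_JL, Real.norm_eq_abs]
      have := hWR θ
      have := norm_nonneg (W θ)
      have := abs_nonneg (y θ)
      nlinarith
    · intro w
      obtain ⟨ω, hω⟩ : ∃ ω : ℝ, ω = ‖w - V θ‖ := ⟨_, rfl⟩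
      have hω0 : 0 ≤ ω := by rw [hω]; exact norm_nonneg _
      have e : S * det (V θ + (y θ • JL (W' θ) + y' θ • JL (W θ))) w =
          S * det (V θ) (w - V θ) - (S * y' θ) * ip (W θ) w - S * y θ * ip (W' θ) w := by
        unfold det ip
        simp only [Prod.fst_add, Prod.snd_add, Prod.smul_fst, Prod.smul_snd, smul_eq_mul, JL_apply,
          Prod.fst_sub, Prod.snd_sub]
        ring
      rw [e, hSy', ← hω]
      have t1 : -(2 * R * ω) ≤ S * det (V θ) (w - V θ) := by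
        have h1 := det_abs_le (V θ) (w - V θ)
        rw [← hω] at h1
        have h2 : |S * det (V θ) (w - V θ)| ≤ 2 * R * ω := by
          rw [abs_mul, hSabs, one_mul]
          refine h1.trans ?_
          have := hR θ
          gcongr
        have := neg_abs_le (S * det (V θ) (w - V θ))
        linarith
      have t2 : v0 ^ 2 / 2 - 2 * R * ω ≤ ip (W θ) w := by
        have e2 : ip (W θ) w = ip (V θ) (V θ) + ip (W θ - V θ) (V θ) + ip (W θ) (w - V θ) := by
          rw [ip_sub_left, ip_sub_right]; ring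
        have h1 : v0 ^ 2 ≤ ip (V θ) (V θ) :=
          (pow_le_pow_left₀ hv0.le (hv θ) 2).trans (ip_self_ge _)
        have h2 : |ip (W θ - V θ) (V θ)| ≤ 2 * (L * h) * R := by
          refine (ip_abs_le _ _).trans ?_
          have := hWV θ
          have := hR θ
          gcongr
        have h3 : |ip (W θ) (w - V θ)| ≤ 2 * R * ω := by
          refine (ip_abs_le _ _).trans ?_
          rw [← hω]
          have := hWR θ
          gcongr
        have := neg_abs_le (ip (W θ - V θ) (V θ))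
        have := neg_abs_le (ip (W θ) (w - V θ))
        rw [e2]
        nlinarith
      have t3 : |S * y θ * ip (W' θ) w| ≤ 2 * L * R * D + 2 * L * ω := by
        rw [abs_mul, abs_mul, hSabs, one_mul]
        have h1 := ip_abs_le (W' θ) w
        have h2 : ‖w‖ ≤ R + ω := by
          have e3 : w = V θ + (w - V θ) := by abel
          calc ‖w‖ = ‖V θ + (w - V θ)‖ := by rw [← e3]
            _ ≤ ‖V θ‖ + ‖w - V θ‖ := norm_add_le _ _
            _ ≤ R + ω := by rw [hω]; linarith [hR θ]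
        have h3 : |ip (W' θ) w| ≤ 2 * L * (R + ω) := by
          refine h1.trans ?_
          have := hW'L θ
          have := norm_nonneg w
          gcongr
        calc |y θ| * |ip (W' θ) w| ≤ D * (2 * L * (R + ω)) := by
              apply mul_le_mul hyabs h3 (abs_nonneg _) hDpos.le
          _ = 2 * L * R * D + D * (2 * L * ω) := by ring
          _ ≤ 2 * L * R * D + 1 * (2 * L * ω) := by gcongr
          _ = _ := by ring
      have t3' := le_abs_self (S * y θ * ip (W' θ) w)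
      have t4 : K * D * (v0 ^ 2 / 2 - 2 * R * ω) ≤ K * D * ip (W θ) w :=
        mul_le_mul_of_nonneg_left t2 (by positivity)
      have t5 : K * D * (2 * R * ω) ≤ 1 * (2 * R * ω) :=
        mul_le_mul_of_nonneg_right hKD (by positivity)
      have t6 : N * D ≤ (K * (v0 ^ 2 / 2) - 2 * L * R) * D :=
        mul_le_mul_of_nonneg_right hKN hDpos.le
      nlinarith

end Pool.H110M
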