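import Mathlib
import Pool.Agent.Helper110.MDefs

set_option autoImplicit false
open MeasureTheory Set Filter Topology

noncomputable section
namespace Pool.H110M


























/-- determinant as a linear form in the second argument -/
def detL (a : E) : E →L[ℝ] ℝ :=
  a.1 • ContinuousLinearMap.snd ℝ ℝ ℝ - a.2 • ContinuousLinearMap.fst ℝ ℝ ℝ

theorem detL_apply (a w : E) : detL a w = det a w := by
  simp [detL, det]

theorem continuous_detL : Continuous detL := by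
  unfold detL
  fun_prop

theorem lin_det (D : E →L[ℝ] ℝ) (c a b : E) :
    D a * det c b - D b * det c a = D c * det a b := by
  have h : ∀ x : E, D x = x.1 * D (1, 0) + x.2 * D (0, 1) := by
    intro x
    have hx : x = x.1 • ((1 : ℝ), (0 : ℝ)) + x.2 • ((0 : ℝ), (1 : ℝ)) := by
      ext <;> simp
    conv_lhs => rw [hx]
    rw [map_add, map_smul, map_smul, smul_eq_mul, smul_eq_mul]
  rw [h a, h b, h c]
  unfold det
  ring

theorem iv_add (k l : ℤ × ℤ) : iv (k + l) = iv k + iv l := by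
  unfold iv
  ext <;> simp

theorem kappa {T : ℝ} (hT : 0 < T) {σ σ' : ℝ → E} (hσ : ∀ θ, HasDerivAt σ (σ' θ) θ)
    (hσ' : Continuous σ') {k : ℤ × ℤ} (hk : σ T = σ 0 + iv k)
    {χ : E → ℝ} (hχ : ContDiff ℝ 2 χ) (hper : ∀ (x : E) (k : ℤ × ℤ), χ (x + iv k) = χ x) :
    ∃ (Θ : E → ℝ) (κ : E →L[ℝ] ℝ), ContDiff ℝ 1 Θ ∧
      (∀ x w : E, fderiv ℝ Θ x w = ∫ θ in (0:ℝ)..T, χ (x - σ θ) * det (σ' θ) w) ∧
      (∀ (x : E) (k : ℤ × ℤ), Θ (x + iv k) - κ (x + iv k) = Θ x - κ x) := by
  have hσc : Continuous σ := continuous_iff_continuousAt.2 fun θ => (hσ θ).continuousAt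
  have hχc : Continuous χ := hχ.continuous
  have hχd : Differentiable ℝ χ := hχ.differentiable (by norm_num)
  have hχ' : Continuous (fderiv ℝ χ) := hχ.continuous_fderiv (by norm_num)
  have hdc : Continuous fun θ => detL (σ' θ) := continuous_detL.comp hσ'
  obtain ⟨F, hF⟩ : ∃ F : E → ℝ → (E →L[ℝ] ℝ), F = fun x θ => χ (x - σ θ) • detL (σ' θ) := ⟨_, rfl⟩
  obtain ⟨F', hF'⟩ : ∃ F' : E → ℝ → (E →L[ℝ] (E →L[ℝ] ℝ)),
    F' = fun x θ => (fderiv ℝ χ (x - σ θ)).smulRight (detL (σ' θ)) := ⟨_, rfl⟩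
  have hFc : ∀ x, Continuous (F x) := by
    intro x
    rw [hF]
    exact (hχc.comp (continuous_const.sub hσc)).smul hdc
  have hF'c : Continuous fun p : E × ℝ => F' p.1 p.2 := by
    rw [hF']
    have h1 : Continuous fun p : E × ℝ => fderiv ℝ χ (p.1 - σ p.2) :=
      hχ'.comp (continuous_fst.sub (hσc.comp continuous_snd))
    have h2 : Continuous fun p : E × ℝ => detL (σ' p.2) := hdc.comp continuous_snd
    have h3 : Continuous fun p : E × ℝ =>
        (ContinuousLinearMap.smulRightL ℝ E (E →L[ℝ] ℝ) (fderiv ℝ χ (p.1 - σ p.2))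
          (detL (σ' p.2))) := by
      exact ((ContinuousLinearMap.smulRightL ℝ E (E →L[ℝ] ℝ)).continuous.comp h1).clm_apply h2
    exact h3
  have hF'cx : ∀ x, Continuous (F' x) := fun x => hF'c.comp (Continuous.prodMk_right x)
  obtain ⟨ω, hω⟩ : ∃ ω : E → (E →L[ℝ] ℝ), ω = fun x => ∫ θ in (0:ℝ)..T, F x θ := ⟨_, rfl⟩
  have hωd : ∀ x, HasFDerivAt ω (∫ θ in (0:ℝ)..T, F' x θ) x := by
    intro x₀
    rw [hω]
    obtain ⟨B, hB⟩ : ∃ B : ℝ, ∀ p ∈ (Metric.closedBall x₀ 1) ×ˢ (Icc (0:ℝ) T), ‖F' p.1 p.2‖ ≤ B := by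
      have hc : IsCompact ((Metric.closedBall x₀ 1) ×ˢ (Icc (0:ℝ) T)) :=
        (isCompact_closedBall x₀ 1).prod isCompact_Icc
      have hn : Continuous fun p : E × ℝ => ‖F' p.1 p.2‖ := (continuous_norm (E := E →L[ℝ] E →L[ℝ] ℝ)).comp hF'c
      obtain ⟨B, hB⟩ := hc.bddAbove_image hn.continuousOn
      refine ⟨B, fun p hp => hB ?_⟩
      exact ⟨p, hp, rfl⟩
    refine intervalIntegral.hasFDerivAt_integral_of_dominated_of_fderiv_le
      (s := Metric.ball x₀ 1) (bound := fun _ => B) (F' := F') (Metric.ball_mem_nhds x₀ one_pos)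
      (Eventually.of_forall fun x => (hFc x).aestronglyMeasurable)
      ((hFc x₀).intervalIntegrable _ _) (hF'cx x₀).aestronglyMeasurable ?_
      (continuous_const.intervalIntegrable _ _) ?_
    · refine Eventually.of_forall fun θ hθ x hx => ?_
      rw [uIoc_of_le hT.le] at hθ
      exact hB (x, θ) ⟨Metric.ball_subset_closedBall hx, hθ.1.le, hθ.2⟩
    · refine Eventually.of_forall fun θ _ x _ => ?_
      rw [hF, hF']
      have h1 : HasFDerivAt (fun x : E => χ (x - σ θ)) (fderiv ℝ χ (x - σ θ)) x := by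
        have := (hχd (x - σ θ)).hasFDerivAt.comp x ((hasFDerivAt_id x).sub_const (σ θ))
        rw [ContinuousLinearMap.comp_id] at this
        exact this
      exact h1.smul_const (detL (σ' θ))
  have hFTC : ∀ x, ∫ θ in (0:ℝ)..T, fderiv ℝ χ (x - σ θ) (σ' θ) = 0 := by
    intro x
    have h1 : ∀ θ ∈ uIcc (0:ℝ) T, HasDerivAt (fun θ => -χ (x - σ θ))
        (fderiv ℝ χ (x - σ θ) (σ' θ)) θ := by
      intro θ _
      have h2 : HasDerivAt (fun θ => x - σ θ) (-σ' θ) θ := (hσ θ).const_sub x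
      have h3 := ((hχd (x - σ θ)).hasFDerivAt.comp_hasDerivAt θ h2).neg
      rw [map_neg, neg_neg] at h3
      exact h3
    rw [intervalIntegral.integral_eq_sub_of_hasDerivAt h1]
    · have h4 : χ (x - σ T) = χ (x - σ 0) := by
        rw [hk, ← hper (x - (σ 0 + iv k)) k]
        congr 1
        abel
      rw [h4]; ring
    · apply Continuous.intervalIntegrable
      exact (hχ'.comp (continuous_const.sub hσc)).clm_apply hσ'
  have happ : ∀ x a b, (∫ θ in (0:ℝ)..T, F' x θ) a b =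
      ∫ θ in (0:ℝ)..T, fderiv ℝ χ (x - σ θ) a * det (σ' θ) b := by
    intro x a b
    rw [ContinuousLinearMap.intervalIntegral_apply ((hF'cx x).intervalIntegrable _ _),
      ContinuousLinearMap.intervalIntegral_apply
        (((hF'cx x).clm_apply continuous_const).intervalIntegrable _ _)]
    apply intervalIntegral.integral_congr
    intro θ _
    rw [hF']
    simp only [ContinuousLinearMap.smulRight_apply, _root_.smul_apply, smul_eq_mul,
      detL_apply]
  have hdetc : ∀ b, Continuous fun θ => det (σ' θ) b := by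
    intro b
    have : (fun θ => det (σ' θ) b) = fun θ => detL (σ' θ) b := by
      funext θ; rw [detL_apply]
    rw [this]
    exact hdc.clm_apply continuous_const
  have hsymm : ∀ x a b, fderiv ℝ ω x a b = fderiv ℝ ω x b a := by
    intro x a b
    rw [(hωd x).fderiv, happ, happ, ← sub_eq_zero, ← intervalIntegral.integral_sub]
    · have h1 : ∀ θ, fderiv ℝ χ (x - σ θ) a * det (σ' θ) b - fderiv ℝ χ (x - σ θ) b * det (σ' θ) a =
          fderiv ℝ χ (x - σ θ) (σ' θ) * det a b := fun θ => lin_det _ _ _ _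
      simp only [h1]
      rw [intervalIntegral.integral_mul_const, hFTC, zero_mul]
    · exact (((hχ'.comp (continuous_const.sub hσc)).clm_apply continuous_const).mul
        (hdetc b)).intervalIntegrable _ _
    · exact (((hχ'.comp (continuous_const.sub hσc)).clm_apply continuous_const).mul
        (hdetc a)).intervalIntegrable _ _
  have hωdiff : Differentiable ℝ ω := fun x => (hωd x).differentiableAt
  obtain ⟨Θ, hΘ⟩ := Convex.exists_forall_hasFDerivAt_of_fderiv_symmetric (𝕜 := ℝ)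
    (convex_univ (𝕜 := ℝ) (E := E)) isOpen_univ hωdiff.differentiableOn
    (fun a _ x y => hsymm a x y)
  have hΘ' : ∀ x, HasFDerivAt Θ (ω x) x := fun x => hΘ x (mem_univ x)
  have hfd : fderiv ℝ Θ = ω := by
    funext x; exact (hΘ' x).fderiv
  have hωper : ∀ (x : E) (k : ℤ × ℤ), ω (x + iv k) = ω x := by
    intro x k
    rw [hω]
    apply intervalIntegral.integral_congr
    intro θ _
    rw [hF]
    simp only
    rw [← hper (x - σ θ) k]
    congr 2
    abel
  have hconst : ∀ (x : E) (k : ℤ × ℤ), Θ (x + iv k) - Θ x = Θ (iv k) - Θ 0 := by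
    intro x k
    have h1 : ∀ x, HasFDerivAt (fun x => Θ (x + iv k) - Θ x) (0 : E →L[ℝ] ℝ) x := by
      intro x
      have h2 : HasFDerivAt (fun x => Θ (x + iv k)) (ω (x + iv k)) x := by
        have := (hΘ' (x + iv k)).comp x ((hasFDerivAt_id x).add_const (iv k))
        rw [ContinuousLinearMap.comp_id] at this
        exact this
      have h3 := h2.sub (hΘ' x)
      rw [hωper, sub_self] at h3
      exact h3
    have h2 := is_const_of_fderiv_eq_zero (𝕜 := ℝ) (f := fun x => Θ (x + iv k) - Θ x)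
      (fun x => (h1 x).differentiableAt) (fun x => (h1 x).fderiv) x 0
    simp only [zero_add] at h2
    exact h2
  obtain ⟨c, hc⟩ : ∃ c : ℤ × ℤ → ℝ, c = fun k => Θ (iv k) - Θ 0 := ⟨_, rfl⟩
  have hcadd : ∀ k l, c (k + l) = c k + c l := by
    intro k l
    have h1 := hconst (iv l) k
    rw [hc]
    simp only
    rw [iv_add, add_comm (iv k) (iv l)]
    linarith
  obtain ⟨c', hc'⟩ : ∃ c' : ℤ × ℤ →+ ℝ, ∀ k, c' k = c k :=
    ⟨AddMonoidHom.mk' c hcadd, fun k => rfl⟩
  have hck : ∀ k : ℤ × ℤ, c k = (k.1 : ℝ) * c (1, 0) + (k.2 : ℝ) * c (0, 1) := by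
    intro k
    have hkk : k = k.1 • ((1 : ℤ), (0 : ℤ)) + k.2 • ((0 : ℤ), (1 : ℤ)) := by
      ext <;> simp
    rw [← hc', ← hc', ← hc']
    conv_lhs => rw [hkk]
    rw [map_add, map_zsmul, map_zsmul, zsmul_eq_mul, zsmul_eq_mul]
  refine ⟨Θ, c (1, 0) • ContinuousLinearMap.fst ℝ ℝ ℝ + c (0, 1) • ContinuousLinearMap.snd ℝ ℝ ℝ,
    ?_, ?_, ?_⟩
  · rw [contDiff_one_iff_fderiv]
    refine ⟨fun x => (hΘ' x).differentiableAt, ?_⟩
    rw [hfd]
    exact hωdiff.continuous
  · intro x w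
    rw [hfd, hω]
    simp only
    rw [ContinuousLinearMap.intervalIntegral_apply ((hFc x).intervalIntegrable _ _)]
    apply intervalIntegral.integral_congr
    intro θ _
    rw [hF]
    simp only [_root_.smul_apply, smul_eq_mul, detL_apply]
  · intro x k
    have h1 := hconst x k
    have h2 := hck k
    rw [hc] at h2
    simp only at h2
    rw [map_add, hc]
    have h3 : ∀ y : E, (((fun k => Θ (iv k) - Θ 0) (1, 0) : ℝ) • ContinuousLinearMap.fst ℝ ℝ ℝ +
      ((fun k => Θ (iv k) - Θ 0) (0, 1) : ℝ) • ContinuousLinearMap.snd ℝ ℝ ℝ) y =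
      (Θ (iv (1, 0)) - Θ 0) * y.1 + (Θ (iv (0, 1)) - Θ 0) * y.2 := by
      intro y; simp
    rw [h3, h3]
    have h4 : (iv k).1 = (k.1 : ℝ) := rfl
    have h5 : (iv k).2 = (k.2 : ℝ) := rfl
    rw [h4, h5]
    linarith

theorem sin_close {r : ℝ} (hr0 : 0 < r) (hr : r ≤ 1 / 4) {y : ℝ}
    (h : Real.sin (Real.pi * y) ^ 2 < Real.sin (Real.pi * r) ^ 2) : |y - round y| < r := by
  by_contra hcon
  push Not at hcon
  have hd : |y - round y| ≤ 1 / 2 := abs_sub_round y
  have hpi := Real.pi_pos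
  have h1 : Real.sin (Real.pi * r) ≤ Real.sin (Real.pi * |y - round y|) := by
    apply Real.sin_le_sin_of_le_of_le_pi_div_two
    · nlinarith
    · nlinarith
    · gcongr
  have h2 : Real.sin (Real.pi * |y - round y|) ^ 2 = Real.sin (Real.pi * y) ^ 2 := by
    have h3 : Real.sin (Real.pi * |y - round y|) ^ 2 = Real.sin (Real.pi * (y - round y)) ^ 2 := by
      rcases abs_choice (y - round y) with h4 | h4
      · rw [h4]
      · rw [h4, mul_neg, Real.sin_neg, neg_sq]
    rw [h3]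
    have h5 : Real.pi * (y - round y) = Real.pi * y - (round y : ℤ) * Real.pi := by ring
    rw [h5, Real.sin_sub_int_mul_pi, mul_pow]
    have h6 : ((-1 : ℝ) ^ (round y : ℤ)) ^ 2 = 1 := by
      rw [← zpow_natCast, ← zpow_mul, mul_comm, zpow_mul]
      norm_num
    rw [h6, one_mul]
  have h7 : 0 < Real.sin (Real.pi * r) := by
    apply Real.sin_pos_of_pos_of_lt_pi
    · positivity
    · nlinarith
  nlinarith

/-- periodic bump function -/
theorem bump (ρ : ℝ) (hρ : 0 < ρ) : ∃ χ : E → ℝ, ContDiff ℝ 2 χ ∧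
    (∀ (x : E) (k : ℤ × ℤ), χ (x + iv k) = χ x) ∧ (∀ x, 0 ≤ χ x) ∧ (∀ x, χ x ≤ 1) ∧ 0 < χ 0 ∧
    (∀ x, χ x ≠ 0 → ∃ k : ℤ × ℤ, ‖x - iv k‖ < ρ) := by
  obtain ⟨r, hr⟩ : ∃ r, r = min ρ (1 / 4) := ⟨_, rfl⟩
  have hr0 : 0 < r := by rw [hr]; positivity
  have hrρ : r ≤ ρ := by rw [hr]; exact min_le_left _ _
  have hr4 : r ≤ 1 / 4 := by rw [hr]; exact min_le_right _ _
  obtain ⟨s, hs⟩ : ∃ s, s = Real.sin (Real.pi * r) := ⟨_, rfl⟩
  have hs0 : 0 < s := by
    rw [hs]
    have hpi := Real.pi_pos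
    apply Real.sin_pos_of_pos_of_lt_pi
    · positivity
    · nlinarith
  refine ⟨fun x => Real.smoothTransition
    ((s ^ 2 - (Real.sin (Real.pi * x.1) ^ 2 + Real.sin (Real.pi * x.2) ^ 2)) / s ^ 2),
    ?_, ?_, ?_, ?_, ?_, ?_⟩
  · apply Real.smoothTransition.contDiff.comp
    have h1 : ContDiff ℝ 2 fun x : E => Real.sin (Real.pi * x.1) :=
      Real.contDiff_sin.comp (contDiff_const.mul contDiff_fst)
    have h2 : ContDiff ℝ 2 fun x : E => Real.sin (Real.pi * x.2) :=
      Real.contDiff_sin.comp (contDiff_const.mul contDiff_snd)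
    exact (contDiff_const.sub ((h1.pow 2).add (h2.pow 2))).div_const _
  · intro x k
    have key : ∀ (y : ℝ) (n : ℤ), Real.sin (Real.pi * (y + n)) ^ 2 = Real.sin (Real.pi * y) ^ 2 := by
      intro y n
      have h5 : Real.pi * (y + n) = Real.pi * y + n * Real.pi := by ring
      rw [h5, Real.sin_add_int_mul_pi, mul_pow]
      have h6 : ((-1 : ℝ) ^ n) ^ 2 = 1 := by
        rw [← zpow_natCast, ← zpow_mul, mul_comm, zpow_mul]
        norm_num
      rw [h6, one_mul]
    have h1 : (x + iv k).1 = x.1 + k.1 := rfl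
    have h2 : (x + iv k).2 = x.2 + k.2 := rfl
    simp only [h1, h2, key]
  · intro x
    exact Real.smoothTransition.nonneg _
  · intro x
    exact Real.smoothTransition.le_one _
  · have : (s ^ 2 - (Real.sin (Real.pi * (0 : E).1) ^ 2 + Real.sin (Real.pi * (0 : E).2) ^ 2)) / s ^ 2
      = 1 := by
      have : s ^ 2 ≠ 0 := by positivity
      simp [this]
    simp only [this, Real.smoothTransition.one]
    exact one_pos
  · intro x hx
    have h1 : 0 < (s ^ 2 - (Real.sin (Real.pi * x.1) ^ 2 + Real.sin (Real.pi * x.2) ^ 2)) / s ^ 2 := by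
      by_contra hcon
      push Not at hcon
      exact hx (Real.smoothTransition.zero_of_nonpos hcon)
    have h2 : 0 < s ^ 2 - (Real.sin (Real.pi * x.1) ^ 2 + Real.sin (Real.pi * x.2) ^ 2) := by
      by_contra hcon
      push Not at hcon
      have := div_nonpos_of_nonpos_of_nonneg hcon (sq_nonneg s)
      linarith
    have h3 := sin_close hr0 hr4 (y := x.1) (by
      rw [← hs]; nlinarith [sq_nonneg (Real.sin (Real.pi * x.2))])
    have h4 := sin_close hr0 hr4 (y := x.2) (by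
      rw [← hs]; nlinarith [sq_nonneg (Real.sin (Real.pi * x.1))])
    refine ⟨(round x.1, round x.2), ?_⟩
    rw [Prod.norm_def]
    refine lt_of_lt_of_le ?_ hrρ
    exact max_lt h3 h4

end Pool.H110M
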