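import Mathlib
import Pool.Agent.Helper110.MDefs
import Pool.Agent.Helper110.M1
import Pool.Agent.Helper110.M3a
import Pool.Agent.Helper110.M3b

set_option autoImplicit false
open MeasureTheory Set Filter Topology

noncomputable section
namespace Pool.H110M

/-- defect of a chain -/
def dft (ℓ : E × E → ℝ) (u : E → ℝ) (x : E) (l : List (E × ℝ)) : ℝ :=
  act ℓ x l - (u (endp x l) - u x)

theorem dft_append (ℓ : E × E → ℝ) (u : E → ℝ) (x : E) (l r : List (E × ℝ)) :
    dft ℓ u x (l ++ r) = dft ℓ u x l + dft ℓ u (endp x l) r := by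
  unfold dft
  rw [act_append, endp_append]
  ring

theorem dft_nonneg {ℓ : E × E → ℝ} {u : E → ℝ} {K C : ℝ} (hu : Sub ℓ u K C) :
    ∀ (l : List (E × ℝ)) (x : E), Pos l → 0 ≤ dft ℓ u x l := by
  intro l
  induction l with
  | nil => intro x _; simp [dft, act, endp]
  | cons a l ih =>
    intro x hl
    have h1 := ih (x + a.2 • a.1) (fun b hb => hl b (List.mem_cons_of_mem _ hb))
    have h2 := hu.dom x a.1 a.2 (hl a List.mem_cons_self)
    unfold dft at h1 ⊢
    simp only [act, endp]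
    linarith

/-- cut off a final part of duration exactly `T` -/
theorem Ton.splitT {ℓ : E × E → ℝ} (h : Ton ℓ) (R : ℝ) {T : ℝ} (hT : 0 < T) :
    ∀ (l : List (E × ℝ)) (x : E), Pos l → T ≤ dur l → (∀ a ∈ l, ‖a.1‖ ≤ R) →
      ∃ l₁ r : List (E × ℝ), Pos l₁ ∧ Pos r ∧ dur r = T ∧ dur l₁ + T = dur l ∧
        endp (endp x l₁) r = endp x l ∧ act ℓ x l = act ℓ x l₁ + act ℓ (endp x l₁) r ∧
        (∀ a ∈ l₁, ‖a.1‖ ≤ R) ∧ (∀ a ∈ r, ‖a.1‖ ≤ R) := by
  intro l
  induction l with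
  | nil =>
    intro x _ hd
    simp only [dur] at hd
    linarith
  | cons a l ih =>
    intro x hl hd hR
    have hl' : Pos l := fun b hb => hl b (List.mem_cons_of_mem _ hb)
    have hR' : ∀ b ∈ l, ‖b.1‖ ≤ R := fun b hb => hR b (List.mem_cons_of_mem _ hb)
    by_cases h1 : T ≤ dur l
    · obtain ⟨l₁, r, p1, p2, p3, p4, p5, p6, p7, p8⟩ := ih (x + a.2 • a.1) hl' h1 hR'
      refine ⟨a :: l₁, r, ?_, p2, p3, ?_, ?_, ?_, ?_, p8⟩
      · intro b hb
        rcases List.mem_cons.mp hb with rfl | hb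
        · exact hl b List.mem_cons_self
        · exact p1 b hb
      · simp only [dur]; linarith
      · simp only [endp]; exact p5
      · simp only [act, endp]; rw [p6]; ring
      · intro b hb
        rcases List.mem_cons.mp hb with rfl | hb
        · exact hR b List.mem_cons_self
        · exact p7 b hb
    · push Not at h1
      simp only [dur] at hd
      set c := T - dur l with hc
      have hc0 : 0 < c := by linarith
      have hcb : c ≤ a.2 := by linarith
      rcases hcb.lt_or_eq with hb | hb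
      · have hseg : seg ℓ x a.1 a.2 = seg ℓ x a.1 (a.2 - c) + seg ℓ (x + (a.2 - c) • a.1) a.1 c := by
          rw [← h.seg_add, sub_add_cancel]
        have hpt : x + (a.2 - c) • a.1 + c • a.1 = x + a.2 • a.1 := by
          rw [add_assoc, ← add_smul, sub_add_cancel]
        refine ⟨[(a.1, a.2 - c)], (a.1, c) :: l, ?_, ?_, ?_, ?_, ?_, ?_, ?_, ?_⟩
        · intro b hb'
          rcases List.mem_singleton.mp hb' with rfl
          simp only; linarith
        · intro b hb'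
          rcases List.mem_cons.mp hb' with rfl | hb'
          · exact hc0
          · exact hl' b hb'
        · simp only [dur]; linarith
        · simp only [dur]; linarith
        · simp only [endp]; rw [hpt]
        · simp only [act, endp]; rw [hpt, hseg]; ring
        · intro b hb'
          rcases List.mem_singleton.mp hb' with rfl
          exact hR a List.mem_cons_self
        · intro b hb'
          rcases List.mem_cons.mp hb' with rfl | hb'
          · exact hR a List.mem_cons_self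
          · exact hR' b hb'
      · refine ⟨[], a :: l, ?_, hl, ?_, ?_, ?_, ?_, ?_, hR⟩
        · intro b hb'; simp at hb'
        · simp only [dur]; linarith
        · simp only [dur]; linarith
        · simp only [endp]
        · simp only [act, endp]; ring
        · intro b hb'; simp at hb'

theorem pigeon {ℓ : E × E → ℝ} (h : Ton ℓ) {u : E → ℝ} {K C : ℝ} (hu : Sub ℓ u K C) (R : ℝ)
    {T : ℝ} (hT : 0 < T) : ∀ (M : ℕ) (l : List (E × ℝ)) (x : E), Pos l →
      ((M : ℝ) + 1) * T ≤ dur l → (∀ a ∈ l, ‖a.1‖ ≤ R) →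
      ∃ (x' : E) (l' : List (E × ℝ)), Pos l' ∧ dur l' = T ∧ (∀ a ∈ l', ‖a.1‖ ≤ R) ∧
        ((M : ℝ) + 1) * dft ℓ u x' l' ≤ dft ℓ u x l := by
  intro M
  induction M with
  | zero =>
    intro l x hl hd hR
    obtain ⟨l₁, r, p1, p2, p3, p4, p5, p6, p7, p8⟩ := h.splitT R hT l x hl
      (by simpa using hd) hR
    refine ⟨endp x l₁, r, p2, p3, p8, ?_⟩
    have h1 := dft_nonneg hu l₁ x p1
    unfold dft at h1 ⊢
    rw [p5, p6]
    simp only [Nat.cast_zero, zero_add, one_mul]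
    linarith
  | succ M ih =>
    intro l x hl hd hR
    have hd' : (((M : ℝ) + 1) + 1) * T ≤ dur l := by
      push_cast at hd; exact hd
    have hM0 : (0:ℝ) ≤ M := Nat.cast_nonneg M
    obtain ⟨l₁, r, p1, p2, p3, p4, p5, p6, p7, p8⟩ := h.splitT R hT l x hl
      (by nlinarith) hR
    have hsum : dft ℓ u x l = dft ℓ u x l₁ + dft ℓ u (endp x l₁) r := by
      unfold dft
      rw [p5, p6]
      ring
    by_cases hc : (((M : ℝ) + 1) + 1) * dft ℓ u (endp x l₁) r ≤ dft ℓ u x l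
    · refine ⟨endp x l₁, r, p2, p3, p8, ?_⟩
      push_cast
      exact hc
    · push Not at hc
      obtain ⟨x', l', q1, q2, q3, q4⟩ := ih l₁ x p1 (by linarith) p7
      refine ⟨x', l', q1, q2, q3, ?_⟩
      push_cast
      have e1 : ((M:ℝ) + 1 + 1) * (((M:ℝ) + 1) * dft ℓ u x' l') ≤
          ((M:ℝ) + 1 + 1) * dft ℓ u x l₁ := mul_le_mul_of_nonneg_left q4 (by positivity)
      have e2 : ((M:ℝ) + 1 + 1) * dft ℓ u x l₁ ≤ ((M:ℝ) + 1) * dft ℓ u x l := by
        have : dft ℓ u x l₁ = dft ℓ u x l - dft ℓ u (endp x l₁) r := by linarith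
        rw [this]
        nlinarith
      have e3 : ((M:ℝ) + 1) * (((M:ℝ) + 1 + 1) * dft ℓ u x' l') ≤ ((M:ℝ) + 1) * dft ℓ u x l := by
        calc _ = ((M:ℝ) + 1 + 1) * (((M:ℝ) + 1) * dft ℓ u x' l') := by ring
          _ ≤ _ := e1.trans e2
      exact le_of_mul_le_mul_left e3 (by positivity)

theorem iv_add (k k' : ℤ × ℤ) : iv (k + k') = iv k + iv k' := by
  unfold iv
  ext <;> simp

theorem repeat_chain {ℓ : E × E → ℝ} (h : Ton ℓ) (R : ℝ) (x : E) (l : List (E × ℝ)) (k : ℤ × ℤ)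
    (hl : Pos l) (he : endp x l = x + iv k) (hR : ∀ a ∈ l, ‖a.1‖ ≤ R) (N : ℕ) :
    ∃ L : List (E × ℝ), Pos L ∧ (∀ a ∈ L, ‖a.1‖ ≤ R) ∧ dur L = N * dur l ∧
      act ℓ x L = N * act ℓ x l ∧ ∃ k' : ℤ × ℤ, endp x L = x + iv k' := by
  induction N with
  | zero =>
    refine ⟨[], by intro a ha; simp at ha, by intro a ha; simp at ha, by simp [dur],
      by simp [act], 0, ?_⟩
    simp only [endp]
    unfold iv
    ext <;> simp
  | succ N ih =>
    obtain ⟨L, h1, h2, h3, h4, k', h5⟩ := ih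
    refine ⟨l ++ L, ?_, ?_, ?_, ?_, k' + k, ?_⟩
    · intro a ha
      rcases List.mem_append.1 ha with ha | ha
      · exact hl a ha
      · exact h1 a ha
    · intro a ha
      rcases List.mem_append.1 ha with ha | ha
      · exact hR a ha
      · exact h2 a ha
    · rw [dur_append, h3]; push_cast; ring
    · rw [act_append, he, h.act_per, h4]; push_cast; ring
    · rw [endp_append, he, endp_add, h5, iv_add]; abel

/-! ### target -/
theorem window {ℓ : E × E → ℝ} (h : Ton ℓ) {u : E → ℝ} {K C : ℝ} (hu : Sub ℓ u K C)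
    (hinf : ∀ ε > 0, ∃ (x : E) (l : List (E × ℝ)) (k : ℤ × ℤ), Pos l ∧ l ≠ [] ∧
      endp x l = x + iv k ∧ act ℓ x l ≤ ε * dur l) :
    ∃ R : ℝ, 1 ≤ R ∧ ∀ n : ℕ, ∃ (x : E) (l : List (E × ℝ)), ‖x‖ ≤ 1 ∧ Pos l ∧
      dur l = (n : ℝ) + 1 ∧ (∀ a ∈ l, ‖a.1‖ ≤ R) ∧
      act ℓ x l ≤ u (endp x l) - u x + 1 / ((n : ℝ) + 1) := by
  obtain ⟨R, hR1, hslow⟩ := h.slow
  refine ⟨R, hR1, fun n => ?_⟩
  set T : ℝ := (n : ℝ) + 1 with hTdef
  have hT : 0 < T := by positivity
  obtain ⟨x, l, k, hl, hne, he, hact⟩ := hinf (1 / (2 * T ^ 2)) (by positivity)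
  obtain ⟨l', hl', he', hdl, hal, hRl⟩ := hslow l x hl
  have hdpos : 0 < dur l := by
    rcases l with _ | ⟨a, r⟩
    · exact absurd rfl hne
    · have h1 := hl a List.mem_cons_self
      have h2 := dur_nonneg r (fun b hb => hl b (List.mem_cons_of_mem _ hb))
      simp only [dur]
      linarith
  have hd' : 0 < dur l' := lt_of_lt_of_le hdpos hdl
  have hact' : act ℓ x l' ≤ 1 / (2 * T ^ 2) * dur l' :=
    hal.trans (hact.trans (mul_le_mul_of_nonneg_left hdl (by positivity)))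
  obtain ⟨N, hN⟩ := exists_nat_ge (T / dur l')
  obtain ⟨L, hL1, hL2, hL3, hL4, k', hL5⟩ := repeat_chain h R x l' k hl' (he'.trans he) hRl N
  have hD : T ≤ dur L := by
    rw [hL3]
    rwa [div_le_iff₀ hd'] at hN
  set D := dur L with hDdef
  -- number of windows
  obtain ⟨M, hM1, hM2⟩ : ∃ M : ℕ, ((M : ℝ) + 1) * T ≤ D ∧ D ≤ 2 * (((M : ℝ) + 1) * T) := by
    have h1 : 1 ≤ D / T := by rwa [one_le_div hT]
    have h2 : 1 ≤ ⌊D / T⌋₊ := Nat.le_floor (by simpa using h1)
    have h3 : ((⌊D / T⌋₊ : ℕ) : ℝ) ≤ D / T := Nat.floor_le (by positivity)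
    have h4 : D / T < (⌊D / T⌋₊ : ℕ) + 1 := Nat.lt_floor_add_one _
    refine ⟨⌊D / T⌋₊ - 1, ?_, ?_⟩
    · rw [Nat.cast_sub h2]
      push_cast
      rw [sub_add_cancel]
      rwa [le_div_iff₀ hT] at h3
    · rw [Nat.cast_sub h2]
      push_cast
      rw [sub_add_cancel]
      rw [div_lt_iff₀ hT] at h4
      have h5 : (1:ℝ) ≤ (⌊D / T⌋₊ : ℕ) := by exact_mod_cast h2
      nlinarith
  obtain ⟨x', w, q1, q2, q3, q4⟩ := pigeon h hu R hT M L x hL1 hM1 hL2
  have hdL : dft ℓ u x L ≤ 1 / (2 * T ^ 2) * D := by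
    unfold dft
    rw [hL5, hu.per, hL4, sub_self, sub_zero]
    calc (N:ℝ) * act ℓ x l' ≤ N * (1 / (2 * T ^ 2) * dur l') :=
          mul_le_mul_of_nonneg_left hact' (Nat.cast_nonneg N)
      _ = 1 / (2 * T ^ 2) * D := by rw [hL3]; ring
  have hM0 : (0:ℝ) < (M:ℝ) + 1 := by positivity
  have hfin : dft ℓ u x' w ≤ 1 / T := by
    have e1 : ((M:ℝ) + 1) * dft ℓ u x' w ≤ ((M:ℝ) + 1) * (1 / T) := by
      calc ((M:ℝ) + 1) * dft ℓ u x' w ≤ 1 / (2 * T ^ 2) * D := q4.trans hdL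
        _ ≤ 1 / (2 * T ^ 2) * (2 * (((M : ℝ) + 1) * T)) :=
          mul_le_mul_of_nonneg_left hM2 (by positivity)
        _ = ((M:ℝ) + 1) * (1 / T) := by field_simp
    exact le_of_mul_le_mul_left e1 hM0
  obtain ⟨y, k'', hy, rfl⟩ := exists_reduce x'
  refine ⟨y, w, hy, q1, q2, q3, ?_⟩
  unfold dft at hfin
  rw [h.act_per, endp_add, hu.per, hu.per] at hfin
  linarith

end Pool.H110M
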