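import Mathlib
import Pool.Agent.Helper110.MDefs
import Pool.Agent.Helper110.M3a
import Pool.Agent.Helper110.M3b

set_option autoImplicit false
open MeasureTheory Set Filter Topology

noncomputable section
namespace Pool.H110M

/-- position along a chain -/
def posn : E → List (E × ℝ) → ℝ → E
  | x, [], _ => x
  | x, a :: r, t => if t ≤ a.2 then x + (max t 0) • a.1 else posn (x + a.2 • a.1) r (t - a.2)

theorem posn_nonpos (x : E) (l : List (E × ℝ)) (hl : Pos l) (t : ℝ) (ht : t ≤ 0) :
    posn x l t = x := by
  cases l with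
  | nil => rfl
  | cons a r =>
    have ha := hl a List.mem_cons_self
    simp only [posn]
    rw [if_pos (by linarith), max_eq_right ht, zero_smul, add_zero]

theorem posn_ge (x : E) (a : E × ℝ) (l : List (E × ℝ)) (hl : Pos l) (ha : 0 < a.2) (s : ℝ)
    (hs : a.2 ≤ s) : posn x (a :: l) s = posn (x + a.2 • a.1) l (s - a.2) := by
  rcases hs.lt_or_eq with h | h
  · simp only [posn]
    rw [if_neg (not_le.mpr h)]
  · rw [posn_nonpos (x + a.2 • a.1) l hl (s - a.2) (by linarith)]
    simp only [posn]
    rw [if_pos (le_of_eq h.symm), ← h, max_eq_left ha.le]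

theorem posn_lt (x : E) (a : E × ℝ) (l : List (E × ℝ)) (s : ℝ) (hs0 : 0 ≤ s)
    (hs : s ≤ a.2) : posn x (a :: l) s = x + s • a.1 := by
  simp only [posn]
  rw [if_pos hs, max_eq_left hs0]

theorem posn_lip' {R : ℝ} (hR : 0 ≤ R) : ∀ (l : List (E × ℝ)) (x : E), Pos l →
    (∀ a ∈ l, ‖a.1‖ ≤ R) → ∀ s t, s ≤ t → ‖posn x l s - posn x l t‖ ≤ R * (t - s) := by
  intro l
  induction l with
  | nil =>
    intro x _ _ s t hst
    simp only [posn, sub_self, norm_zero]
    exact mul_nonneg hR (by linarith)
  | cons a l ih =>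
    intro x hl hlR s t hst
    have ha := hl a List.mem_cons_self
    have haR := hlR a List.mem_cons_self
    have hl' : Pos l := fun b hb => hl b (List.mem_cons_of_mem _ hb)
    have hR' : ∀ b ∈ l, ‖b.1‖ ≤ R := fun b hb => hlR b (List.mem_cons_of_mem _ hb)
    rcases le_or_gt t a.2 with h1 | h1
    · have e1 : posn x (a :: l) s = x + (max s 0) • a.1 := by
        simp only [posn]; rw [if_pos (by linarith)]
      have e2 : posn x (a :: l) t = x + (max t 0) • a.1 := by
        simp only [posn]; rw [if_pos h1]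
      rw [e1, e2, add_sub_add_left_eq_sub, ← sub_smul, norm_smul, Real.norm_eq_abs]
      have h2 : |max s 0 - max t 0| ≤ t - s := by
        refine (abs_max_sub_max_le_abs _ _ _).trans ?_
        rw [abs_sub_comm, abs_of_nonneg (by linarith)]
      calc |max s 0 - max t 0| * ‖a.1‖ ≤ (t - s) * R := by gcongr
        _ = R * (t - s) := by ring
    · rcases le_or_gt s a.2 with h2 | h2
      · have e1 : posn x (a :: l) s = x + (max s 0) • a.1 := by
          simp only [posn]; rw [if_pos h2]
        have e2 := posn_ge x a l hl' ha t h1.le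
        have e3 := ih (x + a.2 • a.1) hl' hR' 0 (t - a.2) (by linarith)
        rw [posn_nonpos _ l hl' 0 le_rfl] at e3
        rw [e1, e2]
        have e4 : ‖x + (max s 0) • a.1 - (x + a.2 • a.1)‖ ≤ R * (a.2 - s) := by
          rw [add_sub_add_left_eq_sub, ← sub_smul, norm_smul, Real.norm_eq_abs]
          have h3 : max s 0 ≤ a.2 := max_le h2 ha.le
          have h4 : s ≤ max s 0 := le_max_left _ _
          have h5 : |max s 0 - a.2| ≤ a.2 - s := by
            rw [abs_sub_comm, abs_of_nonneg (by linarith)]; linarith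
          calc |max s 0 - a.2| * ‖a.1‖ ≤ (a.2 - s) * R := by
                gcongr
            _ = R * (a.2 - s) := by ring
        have e5 := norm_sub_le_norm_sub_add_norm_sub (x + (max s 0) • a.1) (x + a.2 • a.1)
          (posn (x + a.2 • a.1) l (t - a.2))
        have e6 : R * (a.2 - s) + R * (t - a.2 - 0) = R * (t - s) := by ring
        linarith
      · rw [posn_ge x a l hl' ha t h1.le, posn_ge x a l hl' ha s h2.le]
        have := ih (x + a.2 • a.1) hl' hR' (s - a.2) (t - a.2) (by linarith)
        have e6 : R * (t - a.2 - (s - a.2)) = R * (t - s) := by ring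
        linarith

theorem split_at {ℓ : E × E → ℝ} (h : Ton ℓ) {R : ℝ} : ∀ (l : List (E × ℝ)) (x : E) (s : ℝ),
    Pos l → (∀ a ∈ l, ‖a.1‖ ≤ R) → 0 ≤ s → s ≤ dur l → ∃ l₁ r : List (E × ℝ),
      Pos l₁ ∧ Pos r ∧ (∀ a ∈ l₁, ‖a.1‖ ≤ R) ∧ (∀ a ∈ r, ‖a.1‖ ≤ R) ∧ dur l₁ = s ∧
      dur r = dur l - s ∧ endp x l₁ = posn x l s ∧ endp (posn x l s) r = endp x l ∧
      act ℓ x l = act ℓ x l₁ + act ℓ (posn x l s) r ∧
      ∀ t', 0 ≤ t' → posn (posn x l s) r t' = posn x l (s + t') := by
  intro l
  induction l with
  | nil =>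
    intro x s _ _ hs hs'
    simp only [dur] at hs'
    have h0 : s = 0 := le_antisymm hs' hs
    refine ⟨[], [], ?_, ?_, ?_, ?_, ?_, ?_, ?_, ?_, ?_, ?_⟩
    · intro b hb; simp at hb
    · intro b hb; simp at hb
    · intro b hb; simp at hb
    · intro b hb; simp at hb
    · simp only [dur]; exact h0.symm
    · simp only [dur]; linarith
    · rfl
    · rfl
    · simp only [act]; ring
    · intro t' _; rfl
  | cons a l ih =>
    intro x s hl hlR hs hs'
    have ha := hl a List.mem_cons_self
    have haR := hlR a List.mem_cons_self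
    have hl' : Pos l := fun b hb => hl b (List.mem_cons_of_mem _ hb)
    have hR' : ∀ b ∈ l, ‖b.1‖ ≤ R := fun b hb => hlR b (List.mem_cons_of_mem _ hb)
    rcases hs.eq_or_lt with h0 | h0
    · subst h0
      have e0 : posn x (a :: l) 0 = x := posn_nonpos x _ hl 0 le_rfl
      refine ⟨[], a :: l, ?_, hl, ?_, hlR, ?_, ?_, ?_, ?_, ?_, ?_⟩
      · intro b hb; simp at hb
      · intro b hb; simp at hb
      · simp only [dur]
      · rw [sub_zero]
      · rw [e0]; rfl
      · rw [e0]
      · rw [e0]; simp only [act]; ring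
      · intro t' _; rw [e0, zero_add]
    · rcases lt_or_ge s a.2 with h1 | h1
      · have e0 : posn x (a :: l) s = x + s • a.1 := posn_lt x a l s hs h1.le
        have hpt : x + s • a.1 + (a.2 - s) • a.1 = x + a.2 • a.1 := by
          rw [add_assoc, ← add_smul, add_sub_cancel]
        have hseg : seg ℓ x a.1 a.2 = seg ℓ x a.1 s + seg ℓ (x + s • a.1) a.1 (a.2 - s) := by
          rw [← h.seg_add, add_sub_cancel]
        refine ⟨[(a.1, s)], (a.1, a.2 - s) :: l, ?_, ?_, ?_, ?_, ?_, ?_, ?_, ?_, ?_, ?_⟩
        · intro b hb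
          rcases List.mem_singleton.mp hb with rfl
          exact h0
        · intro b hb
          rcases List.mem_cons.mp hb with rfl | hb
          · simp only; linarith
          · exact hl' b hb
        · intro b hb
          rcases List.mem_singleton.mp hb with rfl
          exact haR
        · intro b hb
          rcases List.mem_cons.mp hb with rfl | hb
          · exact haR
          · exact hR' b hb
        · simp only [dur]; ring
        · simp only [dur]; ring
        · rw [e0]; simp only [endp]
        · rw [e0]; simp only [endp]; rw [hpt]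
        · rw [e0]; simp only [act]; rw [hpt, hseg]; ring
        · intro t' ht'
          rw [e0]
          rcases le_or_gt t' (a.2 - s) with h2 | h2
          · rw [posn_lt _ _ _ _ ht' (by simpa using h2), posn_lt x a l (s + t') (by linarith)
              (by linarith)]
            simp only
            rw [add_assoc, ← add_smul]
          · rw [posn_ge _ _ _ hl' (by simp only; linarith) _ (by simpa using h2.le),
              posn_ge x a l hl' ha (s + t') (by linarith)]
            simp only
            rw [hpt]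
            congr 1
            ring
      · have e0 := posn_ge x a l hl' ha s h1
        have hd : dur (a :: l) = a.2 + dur l := rfl
        obtain ⟨l₁, r, p1, p2, p3, p4, p5, p6, p7, p8, p9, p10⟩ := ih (x + a.2 • a.1) (s - a.2)
          hl' hR' (by linarith) (by linarith)
        refine ⟨a :: l₁, r, ?_, p2, ?_, p4, ?_, ?_, ?_, ?_, ?_, ?_⟩
        · intro b hb
          rcases List.mem_cons.mp hb with rfl | hb
          · exact ha
          · exact p1 b hb
        · intro b hb
          rcases List.mem_cons.mp hb with rfl | hb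
          · exact haR
          · exact p3 b hb
        · simp only [dur]; linarith
        · rw [hd, p6]; ring
        · rw [e0]; simp only [endp]; exact p7
        · rw [e0]; simp only [endp]; exact p8
        · rw [e0]; simp only [act]; rw [p9]; ring
        · intro t' ht'
          rw [e0, p10 t' ht', posn_ge x a l hl' ha (s + t') (by linarith)]
          congr 1
          ring

theorem Sub.dom_chain {ℓ : E × E → ℝ} {u : E → ℝ} {K C : ℝ} (hu : Sub ℓ u K C) :
    ∀ (r : List (E × ℝ)) (y : E), Pos r → u (endp y r) ≤ u y + act ℓ y r := by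
  intro r
  induction r with
  | nil => intro y _; simp [endp, act]
  | cons a r ih =>
    intro y hr
    have h1 := ih (y + a.2 • a.1) (fun b hb => hr b (List.mem_cons_of_mem _ hb))
    have h2 := hu.dom y a.1 a.2 (hr a List.mem_cons_self)
    simp only [endp, act]
    linarith

/-! ### target -/
theorem window_curve {ℓ : E × E → ℝ} (h : Ton ℓ) {u : E → ℝ} {K C : ℝ} (hu : Sub ℓ u K C)
    {R : ℝ} (hR : 0 ≤ R) {x : E} {l : List (E × ℝ)} (hl : Pos l) (hlR : ∀ a ∈ l, ‖a.1‖ ≤ R)
    {δ : ℝ} (hδ : act ℓ x l ≤ u (endp x l) - u x + δ) :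
    ∃ γ : ℝ → E, γ 0 = x ∧ (∀ s t, ‖γ s - γ t‖ ≤ R * |s - t|) ∧
      ∀ s t, 0 ≤ s → s < t → t ≤ dur l → ∃ r : List (E × ℝ), Pos r ∧ (∀ a ∈ r, ‖a.1‖ ≤ R) ∧
        dur r = t - s ∧ endp (γ s) r = γ t ∧ act ℓ (γ s) r ≤ u (γ t) - u (γ s) + δ := by
  refine ⟨posn x l, posn_nonpos x l hl 0 le_rfl, ?_, ?_⟩
  · intro s t
    rcases le_total s t with h1 | h1
    · rw [abs_sub_comm, abs_of_nonneg (by linarith)]
      exact posn_lip' hR l x hl hlR s t h1
    · rw [norm_sub_rev, abs_of_nonneg (by linarith)]
      exact posn_lip' hR l x hl hlR t s h1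
  · intro s t hs hst ht
    obtain ⟨l₁, r, p1, p2, p3, p4, p5, p6, p7, p8, p9, p10⟩ :=
      split_at h l x s hl hlR hs (by linarith)
    obtain ⟨r₁, r₂, q1, q2, q3, q4, q5, q6, q7, q8, q9, q10⟩ :=
      split_at h r (posn x l s) (t - s) p2 p4 (by linarith) (by linarith)
    have e1 : posn (posn x l s) r (t - s) = posn x l t := by
      rw [p10 (t - s) (by linarith)]
      congr 1
      ring
    rw [e1] at q7 q8 q9
    refine ⟨r₁, q1, q3, q5, q7, ?_⟩
    have d1 := hu.dom_chain l₁ x p1
    have d2 := hu.dom_chain r₂ (posn x l t) q2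
    rw [p7] at d1
    rw [q8, p8] at d2
    linarith

end Pool.H110M
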