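import Mathlib
import Pool.Agent.Helper110.MDefs
import Pool.Agent.Helper110.M1
import Pool.Agent.Helper110.M3a
import Pool.Agent.Helper110.M3b

set_option autoImplicit false
open MeasureTheory Set Filter Topology

noncomputable section
namespace Pool.H110M


theorem seg_pert' {ℓ : E × E → ℝ} (h : Ton ℓ) {R Cb Cq : ℝ} (hCb : 0 ≤ Cb) (hCq : 0 ≤ Cq)
    (hb : ∀ x v : E, ‖v‖ ≤ R → |ℓ (x, v)| ≤ Cb ∧ ‖fderiv ℝ ℓ (x, v)‖ ≤ Cb)
    (hq : ∀ x v ζ₁ ζ₂ : E, ‖v‖ ≤ R → ‖ζ₁‖ ≤ 1 → ‖ζ₂‖ ≤ 1 →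
      |ℓ (x + ζ₁, v + ζ₂) - ℓ (x, v) - fderiv ℝ ℓ (x, v) (ζ₁, ζ₂)|
        ≤ Cq * ‖((ζ₁, ζ₂) : E × E)‖ ^ 2)
    (y w : E) (hw : ‖w‖ ≤ R) (t τ : ℝ) (ht : 0 < t) (hτ : -1 ≤ τ) (hτt : τ + t ≤ 1) :
    ∃ P : E →L[ℝ] ℝ, ‖P‖ ≤ Cb * t ∧ ∀ ζ : E, ‖ζ‖ ≤ 1 →
      seg ℓ (y + τ • ζ) (w + ζ) t ≤ seg ℓ y w t + P ζ + Cq * ‖ζ‖ ^ 2 * t := by
  have hℓc : Continuous ℓ := h.smooth.continuous
  have hdc : Continuous (fderiv ℝ ℓ) := h.smooth.continuous_fderiv (by norm_num)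
  let L : ℝ → E →L[ℝ] ℝ := fun s => (fderiv ℝ ℓ (y + s • w, w)).comp
    (((τ + s) • ContinuousLinearMap.id ℝ E).prod (ContinuousLinearMap.id ℝ E))
  have hLc : Continuous L := by
    have h1 : Continuous (fun s : ℝ => fderiv ℝ ℓ (y + s • w, w)) := by
      apply hdc.comp
      fun_prop
    have h2 : Continuous (fun s : ℝ =>
        (((τ + s) • ContinuousLinearMap.id ℝ E).prod (ContinuousLinearMap.id ℝ E))) := by
      have h3 : Continuous (fun s : ℝ => (τ + s) • ContinuousLinearMap.id ℝ E) := by fun_prop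
      have h4 : (fun s : ℝ => (((τ + s) • ContinuousLinearMap.id ℝ E).prod
          (ContinuousLinearMap.id ℝ E))) = fun s : ℝ =>
          (ContinuousLinearMap.inl ℝ E E).comp ((τ + s) • ContinuousLinearMap.id ℝ E) +
          (ContinuousLinearMap.inr ℝ E E) := by
        funext s
        ext v <;> simp
      rw [h4]
      fun_prop
    exact h1.clm_comp h2
  have hLapp : ∀ s ζ, L s ζ = fderiv ℝ ℓ (y + s • w, w) ((τ + s) • ζ, ζ) := by
    intro s ζ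
    rfl
  have habs : ∀ s : ℝ, 0 ≤ s → s ≤ t → ∀ ζ : E, ‖(τ + s) • ζ‖ ≤ ‖ζ‖ := by
    intro s h0 h1 ζ
    rw [norm_smul, Real.norm_eq_abs]
    have h2 : |τ + s| ≤ 1 := abs_le.2 ⟨by linarith, by linarith⟩
    have := norm_nonneg ζ
    nlinarith
  have hLn : ∀ s ∈ Set.uIoc 0 t, ‖L s‖ ≤ Cb := by
    intro s hs
    rw [Set.uIoc_of_le ht.le] at hs
    apply ContinuousLinearMap.opNorm_le_bound _ hCb
    intro ζ
    rw [hLapp]
    refine ((fderiv ℝ ℓ (y + s • w, w)).le_opNorm _).trans ?_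
    have h1 : ‖(((τ + s) • ζ, ζ) : E × E)‖ ≤ ‖ζ‖ := by
      rw [Prod.norm_def]
      exact max_le (habs s hs.1.le hs.2 ζ) le_rfl
    exact mul_le_mul (hb _ _ hw).2 h1 (norm_nonneg _) hCb
  refine ⟨∫ s in (0 : ℝ)..t, L s, ?_, ?_⟩
  · have := intervalIntegral.norm_integral_le_of_norm_le_const hLn
    rwa [sub_zero, abs_of_pos ht] at this
  · intro ζ hζ
    rw [ContinuousLinearMap.intervalIntegral_apply (hLc.intervalIntegrable _ _)]
    unfold seg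
    have e1 : Cq * ‖ζ‖ ^ 2 * t = ∫ s in (0 : ℝ)..t, Cq * ‖ζ‖ ^ 2 := by
      rw [intervalIntegral.integral_const, sub_zero, smul_eq_mul]
      ring
    have c1 : Continuous (fun s : ℝ => ℓ (y + s • w, w)) := by
      apply hℓc.comp
      fun_prop
    have c2 : Continuous (fun s : ℝ => L s ζ) := hLc.clm_apply continuous_const
    have c3 : Continuous (fun s : ℝ => ℓ (y + τ • ζ + s • (w + ζ), w + ζ)) := by
      apply hℓc.comp
      fun_prop
    have c12 : Continuous (fun s : ℝ => ℓ (y + s • w, w) + L s ζ) := c1.add c2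
    have c123 : Continuous (fun s : ℝ => ℓ (y + s • w, w) + L s ζ + Cq * ‖ζ‖ ^ 2) :=
      c12.add continuous_const
    have e5 : (∫ s in (0 : ℝ)..t, ℓ (y + s • w, w)) + (∫ s in (0 : ℝ)..t, L s ζ) +
        Cq * ‖ζ‖ ^ 2 * t = ∫ s in (0 : ℝ)..t, (ℓ (y + s • w, w) + L s ζ + Cq * ‖ζ‖ ^ 2) := by
      rw [e1, ← intervalIntegral.integral_add (c1.intervalIntegrable _ _)
        (c2.intervalIntegrable _ _)]
      exact (intervalIntegral.integral_add (c12.intervalIntegrable _ _)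
        (continuous_const.intervalIntegrable _ _)).symm
    rw [e5]
    apply intervalIntegral.integral_mono_on ht.le (c3.intervalIntegrable _ _)
      (c123.intervalIntegrable _ _)
    intro s hs
    have h1 : ‖(τ + s) • ζ‖ ≤ ‖ζ‖ := habs s hs.1 hs.2 ζ
    have h2 := hq (y + s • w) w ((τ + s) • ζ) ζ hw (h1.trans hζ) hζ
    have h3 : ‖(((τ + s) • ζ, ζ) : E × E)‖ ≤ ‖ζ‖ := by
      rw [Prod.norm_def]
      exact max_le h1 le_rfl
    have h4 : Cq * ‖(((τ + s) • ζ, ζ) : E × E)‖ ^ 2 ≤ Cq * ‖ζ‖ ^ 2 := by gcongr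
    have h5 := (abs_le.1 h2).2
    have e2 : y + τ • ζ + s • (w + ζ) = y + s • w + (τ + s) • ζ := by
      module
    rw [e2, hLapp]
    linarith

theorem act_pert' {ℓ : E × E → ℝ} (h : Ton ℓ) {R Cb Cq : ℝ} (hCb : 0 ≤ Cb) (hCq : 0 ≤ Cq)
    (hb : ∀ x v : E, ‖v‖ ≤ R → |ℓ (x, v)| ≤ Cb ∧ ‖fderiv ℝ ℓ (x, v)‖ ≤ Cb)
    (hq : ∀ x v ζ₁ ζ₂ : E, ‖v‖ ≤ R → ‖ζ₁‖ ≤ 1 → ‖ζ₂‖ ≤ 1 →
      |ℓ (x + ζ₁, v + ζ₂) - ℓ (x, v) - fderiv ℝ ℓ (x, v) (ζ₁, ζ₂)|
        ≤ Cq * ‖((ζ₁, ζ₂) : E × E)‖ ^ 2) :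
    ∀ (r : List (E × ℝ)) (y : E) (τ : ℝ), -1 ≤ τ → τ + dur r ≤ 1 → Pos r →
      (∀ a ∈ r, ‖a.1‖ ≤ R) → ∃ P : E →L[ℝ] ℝ, ‖P‖ ≤ Cb * dur r ∧
        ∀ ζ : E, ‖ζ‖ ≤ 1 →
          act ℓ (y + τ • ζ) (pert ζ r) ≤ act ℓ y r + P ζ + Cq * ‖ζ‖ ^ 2 * dur r := by
  intro r
  induction r with
  | nil =>
    intro y τ _ _ _ _
    refine ⟨0, by simp [dur], fun ζ _ => ?_⟩
    simp [act, pert, dur]
  | cons a r ih =>
    intro y τ hτ hτr hpos hR
    have ha := hpos a (by simp)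
    have hpos' : Pos r := fun b hb => hpos b (by simp [hb])
    have hd := dur_nonneg r hpos'
    have hR' : ∀ b ∈ r, ‖b.1‖ ≤ R := fun b hb => hR b (by simp [hb])
    have hdur : dur (a :: r) = a.2 + dur r := rfl
    rw [hdur] at hτr
    obtain ⟨P1, hP1, hP1'⟩ := seg_pert' h hCb hCq hb hq y a.1 (hR a (by simp)) a.2 τ ha hτ
      (by linarith)
    obtain ⟨P2, hP2, hP2'⟩ := ih (y + a.2 • a.1) (τ + a.2) (by linarith) (by linarith) hpos' hR'
    refine ⟨P1 + P2, ?_, fun ζ hζ => ?_⟩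
    · rw [hdur, mul_add]
      exact (norm_add_le _ _).trans (add_le_add hP1 hP2)
    · have h1 := hP1' ζ hζ
      have h2 := hP2' ζ hζ
      have e1 : act ℓ (y + τ • ζ) (pert ζ (a :: r)) = seg ℓ (y + τ • ζ) (a.1 + ζ) a.2 +
          act ℓ (y + τ • ζ + a.2 • (a.1 + ζ)) (pert ζ r) := rfl
      have e2 : act ℓ y (a :: r) = seg ℓ y a.1 a.2 + act ℓ (y + a.2 • a.1) r := rfl
      have e3 : y + τ • ζ + a.2 • (a.1 + ζ) = y + a.2 • a.1 + (τ + a.2) • ζ := by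
        module
      have e4 : (P1 + P2) ζ = P1 ζ + P2 ζ := rfl
      rw [e1, e2, e3, e4, hdur]
      linarith

theorem endp_pert0 : ∀ (r : List (E × ℝ)) (y ζ : E), endp y (pert ζ r) = endp y r + dur r • ζ
  | [], y, ζ => by simp [endp, pert, dur]
  | a :: r, y, ζ => by
    have e1 : endp y (pert ζ (a :: r)) = endp (y + a.2 • (a.1 + ζ)) (pert ζ r) := rfl
    have e2 : endp y (a :: r) = endp (y + a.2 • a.1) r := rfl
    have e3 : y + a.2 • (a.1 + ζ) = (y + a.2 • a.1) + a.2 • ζ := by module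
    have e4 : dur (a :: r) = a.2 + dur r := rfl
    rw [e1, endp_pert0 r, e2, e3, endp_add, e4, add_smul, add_assoc]

/-- perturbation with fixed end point -/
theorem Ton.pert_start {ℓ : E × E → ℝ} (h : Ton ℓ) (R : ℝ) : ∃ C M : ℝ, 0 ≤ C ∧ 0 ≤ M ∧
    ∀ (r : List (E × ℝ)) (y : E), Pos r → (∀ a ∈ r, ‖a.1‖ ≤ R) → dur r = 1 →
      ∃ P : E →L[ℝ] ℝ, ‖P‖ ≤ M ∧
        ∀ ζ : E, ‖ζ‖ ≤ 1 → endp (y + ζ) (pert (-ζ) r) = endp y r ∧
          act ℓ (y + ζ) (pert (-ζ) r) ≤ act ℓ y r + P ζ + C * ‖ζ‖ ^ 2 := by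
  obtain ⟨Cb, hCb, hb⟩ := h.bdd R
  obtain ⟨Cq, hCq, hq⟩ := h.quad R
  refine ⟨Cq, Cb, hCq, hCb, ?_⟩
  intro r y hpos hR hdur
  obtain ⟨P, hP, hP'⟩ := act_pert' h hCb hCq hb hq r y (-1) le_rfl (by rw [hdur]; norm_num) hpos hR
  rw [hdur, mul_one] at hP
  refine ⟨-P, by rw [norm_neg]; exact hP, fun ζ hζ => ⟨?_, ?_⟩⟩
  · rw [endp_pert0, hdur, endp_add]
    module
  · have h1 := hP' (-ζ) (by rw [norm_neg]; exact hζ)
    have e1 : y + (-1 : ℝ) • (-ζ) = y + ζ := by module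
    rw [e1, hdur, norm_neg, map_neg, mul_one] at h1
    have e2 : (-P) ζ = -(P ζ) := rfl
    rw [e2]
    exact h1

theorem Ton.lower_chain {ℓ : E × E → ℝ} (h : Ton ℓ) {R : ℝ} (y : E) (c e D : ℝ)
    (Q : E →L[ℝ] ℝ) (hlow : ∀ x w : E, ‖x - y‖ ≤ D → ‖w‖ ≤ R → c + Q w - e ≤ ℓ (x, w)) :
    ∀ (r : List (E × ℝ)) (x : E), Pos r → (∀ a ∈ r, ‖a.1‖ ≤ R) → ‖x - y‖ + R * dur r ≤ D →
      (c - e) * dur r + Q (endp x r - x) ≤ act ℓ x r := by
  intro r
  induction r with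
  | nil =>
    intro x _ _ _
    simp [dur, endp, act]
  | cons a r ih =>
    intro x hpos hR hD
    have ha := hpos a (by simp)
    have hpos' : Pos r := fun b hb => hpos b (by simp [hb])
    have hd := dur_nonneg r hpos'
    have hR' : ∀ b ∈ r, ‖b.1‖ ≤ R := fun b hb => hR b (by simp [hb])
    have hRa := hR a (by simp)
    have hR0 : 0 ≤ R := (norm_nonneg _).trans hRa
    have hdur : dur (a :: r) = a.2 + dur r := rfl
    rw [hdur] at hD
    have hmul : 0 ≤ R * dur r := mul_nonneg hR0 hd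
    have hnorm : ∀ s : ℝ, 0 ≤ s → ‖x + s • a.1 - y‖ ≤ ‖x - y‖ + R * s := by
      intro s hs
      have e1 : x + s • a.1 - y = (x - y) + s • a.1 := by abel
      rw [e1]
      refine (norm_add_le _ _).trans ?_
      rw [norm_smul, Real.norm_of_nonneg hs]
      nlinarith
    have h1 := ih (x + a.2 • a.1) hpos' hR' (by
      have := hnorm a.2 ha.le
      nlinarith)
    have h2 : a.2 * (c + Q a.1 - e) ≤ seg ℓ x a.1 a.2 := by
      unfold seg
      calc a.2 * (c + Q a.1 - e) = ∫ s in (0:ℝ)..a.2, (c + Q a.1 - e) := by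
            rw [intervalIntegral.integral_const, smul_eq_mul, sub_zero]
        _ ≤ ∫ s in (0:ℝ)..a.2, ℓ (x + s • a.1, a.1) := by
            apply intervalIntegral.integral_mono_on ha.le intervalIntegrable_const
              ((h.cont_seg x _).intervalIntegrable _ _)
            intro s hs
            refine hlow _ _ ?_ hRa
            refine (hnorm s hs.1).trans ?_
            have : R * s ≤ R * a.2 := mul_le_mul_of_nonneg_left hs.2 hR0
            nlinarith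
    have e1 : endp x (a :: r) = endp (x + a.2 • a.1) r := rfl
    have e2 : act ℓ x (a :: r) = seg ℓ x a.1 a.2 + act ℓ (x + a.2 • a.1) r := rfl
    have e3 : endp (x + a.2 • a.1) r - x = (endp (x + a.2 • a.1) r - (x + a.2 • a.1)) + a.2 • a.1 := by
      abel
    rw [e1, e2, hdur, e3, map_add, map_smul, smul_eq_mul]
    nlinarith

theorem norm_endp_le {R : ℝ} : ∀ (r : List (E × ℝ)) (x : E), Pos r → (∀ a ∈ r, ‖a.1‖ ≤ R) →
    ‖endp x r - x‖ ≤ R * dur r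
  | [], x, _, _ => by simp [endp, dur]
  | a :: r, x, hpos, hR => by
    have ha := hpos a (by simp)
    have h1 := norm_endp_le r (x + a.2 • a.1) (fun b hb => hpos b (by simp [hb]))
      (fun b hb => hR b (by simp [hb]))
    have e1 : endp x (a :: r) - x = (endp (x + a.2 • a.1) r - (x + a.2 • a.1)) + a.2 • a.1 := by
      simp only [endp]; abel
    have hdur : dur (a :: r) = a.2 + dur r := rfl
    rw [e1, hdur]
    refine (norm_add_le _ _).trans ?_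
    rw [norm_smul, Real.norm_of_nonneg ha.le]
    have := hR a (by simp)
    nlinarith

/-- Jensen lower bound -/
theorem Ton.jensen {ℓ : E × E → ℝ} (h : Ton ℓ) (R : ℝ) : ∃ C : ℝ, 0 ≤ C ∧
    ∀ (r : List (E × ℝ)) (y : E), Pos r → (∀ a ∈ r, ‖a.1‖ ≤ R) → r ≠ [] → dur r ≤ 1 →
      dur r * ℓ (y, (dur r)⁻¹ • (endp y r - y)) ≤ act ℓ y r + C * (dur r) ^ 2 := by
  obtain ⟨Cb, hCb, hb⟩ := h.bdd R
  refine ⟨Cb * max R 0, by positivity, ?_⟩
  intro r y hpos hR hne _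
  obtain ⟨a, r', rfl⟩ := List.exists_cons_of_ne_nil hne
  have hR0 : 0 ≤ R := (norm_nonneg _).trans (hR a (by simp))
  rw [max_eq_left hR0]
  set r := a :: r' with hr
  have hd0 : 0 < dur r := by
    have h1 := hpos a (by simp [hr])
    have h2 := dur_nonneg r' (fun b hb => hpos b (by simp [hr, hb]))
    have : dur r = a.2 + dur r' := rfl
    linarith
  set T := dur r with hT
  set w := T⁻¹ • (endp y r - y) with hw
  set Q : E →L[ℝ] ℝ := (fderiv ℝ ℓ (y, w)).comp (ContinuousLinearMap.inr ℝ E E) with hQ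
  have hQa : ∀ v : E, Q v = fderiv ℝ ℓ (y, w) (0, v) := fun v => rfl
  have hlip : ∀ x v : E, ‖v‖ ≤ R → ℓ (y, v) - Cb * ‖x - y‖ ≤ ℓ (x, v) := by
    intro x v hv
    have h1 := (convex_slab R).norm_image_sub_le_of_norm_fderiv_le (𝕜 := ℝ) (f := ℓ) (C := Cb)
      (x := (x, v)) (y := (y, v))
      (fun q _ => (h.smooth.differentiable two_ne_zero) q) (fun q hq => (hb q.1 q.2 hq).2) hv hv
    have e1 : ((y, v) : E × E) - (x, v) = (y - x, 0) := by
      ext <;> simp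
    rw [e1] at h1
    have e2 : ‖((y - x, 0) : E × E)‖ = ‖x - y‖ := by
      rw [Prod.norm_def]
      simp only [norm_zero]
      rw [max_eq_left (norm_nonneg _), norm_sub_rev]
    rw [e2, Real.norm_eq_abs] at h1
    have := (abs_le.1 h1).2
    linarith
  have hchain := h.lower_chain (R := R) y (ℓ (y, w) - Q w) (Cb * (R * T)) (R * T) Q (by
    intro x v hx hv
    have h1 := hlip x v hv
    have h2 := h.convex y w v
    have h3 : Cb * ‖x - y‖ ≤ Cb * (R * T) := mul_le_mul_of_nonneg_left hx hCb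
    have h4 : fderiv ℝ ℓ (y, w) (0, v - w) = Q v - Q w := by
      rw [← map_sub, hQa]
    rw [h4] at h2
    linarith) r y hpos hR (by simp [hT])
  have e1 : endp y r - y = T • w := by
    rw [hw, smul_smul, mul_inv_cancel₀ hd0.ne', one_smul]
  have e5 : Q (T • w) = T * Q w := Q.map_smul T w
  rw [e1, e5] at hchain
  have e6 : (ℓ (y, w) - Q w - Cb * (R * T)) * T + T * Q w = T * ℓ (y, w) - Cb * R * T ^ 2 := by
    ring
  have e7 : (ℓ (y, w) - Q w - Cb * (R * T)) * T + T * Q w ≤ act ℓ y r := hchain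
  linarith

end Pool.H110M
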