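import Mathlib
import Pool.Agent.Helper110.MDefs

set_option autoImplicit false
open MeasureTheory Set Filter Topology

noncomputable section
namespace Pool.H110M


theorem chain_dom {ℓ : E × E → ℝ} {u : E → ℝ} {K C : ℝ} (hu : Sub ℓ u K C) :
    ∀ (r : List (E × ℝ)) (y : E), Pos r → u (endp y r) ≤ u y + act ℓ y r := by
  intro r
  induction r with
  | nil => intro y _; simp [endp, act]
  | cons a r ih =>
    intro y hr
    have h1 := ih (y + a.2 • a.1) (fun b hb => hr b (List.mem_cons_of_mem _ hb))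
    have h2 := hu.dom y a.1 a.2 (hr a List.mem_cons_self)
    simp only [endp, act]
    linarith

theorem ulim {X : Type*} [TopologicalSpace X] (U : Ultrafilter ℕ) {K : Set X} (hK : IsCompact K)
    (f : ℕ → X) (hf : ∀ n, f n ∈ K) : ∃ x ∈ K, Tendsto f (U : Filter ℕ) (𝓝 x) := by
  have h1 : ((U.map f : Ultrafilter X) : Filter X) ≤ 𝓟 K := by
    rw [le_principal_iff, Ultrafilter.mem_coe, Ultrafilter.mem_map]
    exact Filter.univ_mem' hf
  obtain ⟨x, hx, hle⟩ := hK.ultrafilter_le_nhds (U.map f) h1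
  exact ⟨x, hx, hle⟩

theorem lin_zero {L : E →L[ℝ] ℝ} {c : ℝ} (h : ∀ ζ : E, ‖ζ‖ ≤ 1 → L ζ ≤ c * ‖ζ‖ ^ 2) :
    ∀ ζ : E, L ζ ≤ 0 := by
  intro ζ
  by_contra hcon
  push Not at hcon
  set c' := max c 0 + 1 with hc'
  have hc0 : 0 < c' := by have := le_max_right c 0; linarith
  have hcc : c ≤ c' := by have := le_max_left c 0; linarith
  have hN : 0 ≤ ‖ζ‖ := norm_nonneg ζ
  -- choose s
  set s := min (1 / (‖ζ‖ + 1)) (L ζ / (2 * c' * (‖ζ‖ ^ 2 + 1))) with hs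
  have hs0 : 0 < s := by
    apply lt_min
    · positivity
    · positivity
  have h1 : ‖s • ζ‖ ≤ 1 := by
    rw [norm_smul, Real.norm_eq_abs, abs_of_pos hs0]
    calc s * ‖ζ‖ ≤ (1 / (‖ζ‖ + 1)) * ‖ζ‖ := mul_le_mul_of_nonneg_right (min_le_left _ _) hN
      _ ≤ 1 := by
        rw [div_mul_eq_mul_div, one_mul, div_le_one (by positivity)]
        linarith
  have h2 := h (s • ζ) h1
  rw [map_smul, smul_eq_mul, norm_smul, Real.norm_eq_abs, abs_of_pos hs0] at h2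
  have h3 : L ζ ≤ c * s * ‖ζ‖ ^ 2 := by
    have : s * L ζ ≤ s * (c * s * ‖ζ‖ ^ 2) := by nlinarith
    exact le_of_mul_le_mul_left this hs0
  have h4 : s * (2 * c' * (‖ζ‖ ^ 2 + 1)) ≤ L ζ := by
    have : s ≤ L ζ / (2 * c' * (‖ζ‖ ^ 2 + 1)) := min_le_right _ _
    rwa [le_div_iff₀ (by positivity)] at this
  have h5 : c * s * ‖ζ‖ ^ 2 ≤ c' * s * (‖ζ‖ ^ 2 + 1) := by
    have : c * s ≤ c' * s := mul_le_mul_of_nonneg_right hcc hs0.le
    have h6 : 0 ≤ c' * s := by positivity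
    nlinarith [sq_nonneg ‖ζ‖]
  nlinarith

/-! ### target -/
theorem limit_curve {ℓ : E × E → ℝ} (h : Ton ℓ) {u : E → ℝ} {K C : ℝ} (hu : Sub ℓ u K C)
    {R : ℝ} (hR : 1 ≤ R)
    (hpert : ∃ C M : ℝ, 0 ≤ C ∧ 0 ≤ M ∧
      ∀ (r : List (E × ℝ)) (y : E), Pos r → (∀ a ∈ r, ‖a.1‖ ≤ R) → dur r = 1 →
        ∃ P : E →L[ℝ] ℝ, ‖P‖ ≤ M ∧
          ∀ ζ : E, ‖ζ‖ ≤ 1 → ∃ r' : List (E × ℝ), Pos r' ∧ endp (y + ζ) r' = endp y r ∧
            act ℓ (y + ζ) r' ≤ act ℓ y r + P ζ + C * ‖ζ‖ ^ 2)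
    (hjen : ∃ C : ℝ, 0 ≤ C ∧
      ∀ (r : List (E × ℝ)) (y : E), Pos r → (∀ a ∈ r, ‖a.1‖ ≤ R) → r ≠ [] → dur r ≤ 1 →
        dur r * ℓ (y, (dur r)⁻¹ • (endp y r - y)) ≤ act ℓ y r + C * (dur r) ^ 2)
    (hγ : ∀ n : ℕ, ∃ γ : ℝ → E, ‖γ 0‖ ≤ 1 ∧ (∀ s t, ‖γ s - γ t‖ ≤ R * |s - t|) ∧
      ∀ s t, 0 ≤ s → s < t → t ≤ (n : ℝ) + 1 → ∃ r : List (E × ℝ), Pos r ∧
        (∀ a ∈ r, ‖a.1‖ ≤ R) ∧ dur r = t - s ∧ endp (γ s) r = γ t ∧
        act ℓ (γ s) r ≤ u (γ t) - u (γ s) + 1 / ((n : ℝ) + 1)) :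
    ∃ (γ : ℝ → E) (C2 : ℝ), 0 ≤ C2 ∧ (∀ s t, ‖γ s - γ t‖ ≤ R * |s - t|) ∧
      (∀ t, 0 ≤ t → ∃ p : E →L[ℝ] ℝ, ∀ ζ : E, ‖ζ‖ ≤ 1 →
        |u (γ t + ζ) - u (γ t) - p ζ| ≤ C2 * ‖ζ‖ ^ 2) ∧
      (∀ t τ, 0 ≤ t → 0 < τ → τ ≤ 1 →
        τ * ℓ (γ t, τ⁻¹ • (γ (t + τ) - γ t)) ≤ u (γ (t + τ)) - u (γ t) + C2 * τ ^ 2) := by
  classical
  obtain ⟨Cp, M, hCp, hM, hpert⟩ := hpert
  obtain ⟨Cj, hCj, hjen⟩ := hjen
  choose γn hγ0 hγlip hγc using hγ
  have hR0 : 0 ≤ R := by linarith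
  have huc : Continuous u := by
    refine (LipschitzWith.of_dist_le' (K := K) fun x y => ?_).continuous
    rw [Real.dist_eq, dist_eq_norm]
    exact hu.lip x y
  have hlc : Continuous ℓ := h.smooth.continuous
  let U : Ultrafilter ℕ := hyperfilter ℕ
  have hU : (U : Filter ℕ) ≤ atTop := by
    rw [← Nat.cofinite_eq_atTop]
    exact hyperfilter_le_cofinite
  have hev : ∀ t : ℝ, ∀ᶠ n : ℕ in (U : Filter ℕ), t ≤ (n : ℝ) := by
    intro t
    have : ∀ᶠ n : ℕ in atTop, t ≤ (n : ℝ) := tendsto_natCast_atTop_atTop.eventually_ge_atTop t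
    exact hU this
  have hinv : Tendsto (fun n : ℕ => 1 / ((n : ℝ) + 1)) (U : Filter ℕ) (𝓝 0) :=
    tendsto_one_div_add_atTop_nhds_zero_nat.mono_left hU
  have hlim : ∀ t : ℝ, ∃ y : E, Tendsto (fun n => γn n t) (U : Filter ℕ) (𝓝 y) := by
    intro t
    obtain ⟨y, _, hy⟩ := ulim U (isCompact_closedBall (0 : E) (1 + R * |t|)) (fun n => γn n t) (by
      intro n
      rw [mem_closedBall_zero_iff]
      have h1 := hγlip n t 0
      rw [sub_zero] at h1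
      calc ‖γn n t‖ = ‖(γn n t - γn n 0) + γn n 0‖ := by rw [sub_add_cancel]
        _ ≤ ‖γn n t - γn n 0‖ + ‖γn n 0‖ := norm_add_le _ _
        _ ≤ R * |t| + 1 := add_le_add h1 (hγ0 n)
        _ = 1 + R * |t| := by ring)
    exact ⟨y, hy⟩
  choose γ hγt using hlim
  refine ⟨γ, C + Cp + Cj, by have := hu.C0; linarith, ?_, ?_, ?_⟩
  · intro s t
    have h1 : Tendsto (fun n => ‖γn n s - γn n t‖) (U : Filter ℕ) (𝓝 ‖γ s - γ t‖) :=
      ((hγt s).sub (hγt t)).norm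
    exact le_of_tendsto h1 (Eventually.of_forall fun n => hγlip n s t)
  · intro t ht
    -- the perturbation functionals
    have hP : ∀ n : ℕ, ∃ P : E →L[ℝ] ℝ, ‖P‖ ≤ M ∧ (t ≤ (n : ℝ) → ∀ ζ : E, ‖ζ‖ ≤ 1 →
        u (γn n t) - 1 / ((n : ℝ) + 1) - P ζ - Cp * ‖ζ‖ ^ 2 ≤ u (γn n t + ζ)) := by
      intro n
      by_cases hn : t ≤ (n : ℝ)
      · obtain ⟨r, hr1, hr2, hr3, hr4, hr5⟩ := hγc n t (t + 1) ht (by linarith) (by linarith)
        obtain ⟨P, hPM, hP⟩ := hpert r (γn n t) hr1 hr2 (by rw [hr3]; ring)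
        refine ⟨P, hPM, fun _ ζ hζ => ?_⟩
        obtain ⟨r', h1, h2, h3⟩ := hP ζ hζ
        have h4 := chain_dom hu r' (γn n t + ζ) h1
        rw [h2, hr4] at h4
        linarith
      · exact ⟨0, by simpa using hM, fun h => absurd h hn⟩
    choose P hPM hPn using hP
    obtain ⟨P0, _, hP0⟩ := ulim U (isCompact_closedBall (0 : E →L[ℝ] ℝ) M) P
      (fun n => by rw [mem_closedBall_zero_iff]; exact hPM n)
    have hlow : ∀ ζ : E, ‖ζ‖ ≤ 1 → u (γ t) - P0 ζ - Cp * ‖ζ‖ ^ 2 ≤ u (γ t + ζ) := by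
      intro ζ hζ
      have h1 : Tendsto (fun n => u (γn n t) - 1 / ((n : ℝ) + 1) - P n ζ - Cp * ‖ζ‖ ^ 2)
          (U : Filter ℕ) (𝓝 (u (γ t) - 0 - P0 ζ - Cp * ‖ζ‖ ^ 2)) := by
        refine Tendsto.sub (Tendsto.sub (Tendsto.sub ?_ hinv) ?_) tendsto_const_nhds
        · exact (huc.tendsto _).comp (hγt t)
        · exact ((ContinuousLinearMap.apply ℝ ℝ ζ).continuous.tendsto P0).comp hP0
      have h2 : Tendsto (fun n => u (γn n t + ζ)) (U : Filter ℕ) (𝓝 (u (γ t + ζ))) :=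
        (huc.tendsto _).comp ((hγt t).add tendsto_const_nhds)
      have h3 := le_of_tendsto_of_tendsto h1 h2 (by
        filter_upwards [hev t] with n hn
        exact hPn n hn ζ hζ)
      linarith
    obtain ⟨P', hP'⟩ := hu.semi (γ t)
    have hL : ∀ ζ : E, (-P0 - P') ζ ≤ 0 := by
      refine lin_zero (c := C + Cp) fun ζ hζ => ?_
      have h1 := hlow ζ hζ
      have h2 := hP' ζ hζ
      have h3 : (-P0 - P') ζ = - P0 ζ - P' ζ := by simp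
      rw [h3]
      nlinarith
    have hPP : ∀ ζ : E, P' ζ = - P0 ζ := by
      intro ζ
      have h1 := hL ζ
      have h2 := hL (-ζ)
      have h3 : (-P0 - P') ζ = - P0 ζ - P' ζ := by simp
      have h4 : (-P0 - P') (-ζ) = P0 ζ + P' ζ := by simp
      rw [h3] at h1
      rw [h4] at h2
      linarith
    refine ⟨P', fun ζ hζ => ?_⟩
    have h1 := hlow ζ hζ
    have h2 := hP' ζ hζ
    have h3 := hPP ζ
    have h0 := sq_nonneg ‖ζ‖
    have hC0 := hu.C0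
    rw [abs_le]
    constructor
    · nlinarith [mul_nonneg hC0 h0, mul_nonneg hCj h0]
    · nlinarith [mul_nonneg hCp h0, mul_nonneg hCj h0]
  · intro t τ ht hτ hτ1
    have h1 : Tendsto (fun n => τ * ℓ (γn n t, τ⁻¹ • (γn n (t + τ) - γn n t)))
        (U : Filter ℕ) (𝓝 (τ * ℓ (γ t, τ⁻¹ • (γ (t + τ) - γ t)))) := by
      refine Tendsto.mul tendsto_const_nhds ((hlc.tendsto _).comp ?_)
      exact (hγt t).prodMk_nhds (((hγt (t + τ)).sub (hγt t)).const_smul _)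
    have h2 : Tendsto (fun n : ℕ => u (γn n (t + τ)) - u (γn n t) + 1 / ((n : ℝ) + 1) + Cj * τ ^ 2)
        (U : Filter ℕ) (𝓝 (u (γ (t + τ)) - u (γ t) + 0 + Cj * τ ^ 2)) := by
      refine Tendsto.add (Tendsto.add (Tendsto.sub ?_ ?_) hinv) tendsto_const_nhds
      · exact (huc.tendsto _).comp (hγt (t + τ))
      · exact (huc.tendsto _).comp (hγt t)
    have h3 := le_of_tendsto_of_tendsto h1 h2 (by
      filter_upwards [hev t] with n hn
      obtain ⟨r, hr1, hr2, hr3, hr4, hr5⟩ := hγc n t (t + τ) ht (by linarith) (by linarith)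
      have hd : dur r = τ := by rw [hr3]; ring
      have hne : r ≠ [] := by
        rintro rfl
        simp only [dur] at hd
        linarith
      have h4 := hjen r (γn n t) hr1 hr2 hne (by rw [hd]; exact hτ1)
      rw [hd, hr4] at h4
      linarith)
    have h5 : Cj * τ ^ 2 ≤ (C + Cp + Cj) * τ ^ 2 := by
      have := hu.C0
      have := sq_nonneg τ
      nlinarith
    linarith

end Pool.H110M
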