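import Mathlib
import Pool.Agent.Helper110.MDefs

set_option autoImplicit false
open MeasureTheory Set Filter Topology

noncomputable section
namespace Pool.H110M


/-! ### helpers -/

theorem g_nonneg {ℓ : E × E → ℝ} (h : Ton ℓ) {u : E → ℝ} {K C : ℝ} (hu : Sub ℓ u K C)
    {C2 : ℝ} (hC2 : 0 ≤ C2) {x : E} {p : E →L[ℝ] ℝ}
    (hp : ∀ ζ : E, ‖ζ‖ ≤ 1 → |u (x + ζ) - u x - p ζ| ≤ C2 * ‖ζ‖ ^ 2) (w : E) :
    p w ≤ ℓ (x, w) := by
  have hc : Continuous ℓ := h.smooth.continuous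
  refine le_of_forall_pos_le_add ?_
  intro ε hε
  -- continuity of r ↦ ℓ (x + r w, w) at 0
  have hc1 : Continuous (fun r : ℝ => ℓ (x + r • w, w)) := by fun_prop
  have h0 : Tendsto (fun r : ℝ => ℓ (x + r • w, w)) (𝓝 0) (𝓝 (ℓ (x, w))) := by
    have := hc1.tendsto 0
    simpa using this
  have hev : ∀ᶠ r in 𝓝 (0:ℝ), ℓ (x + r • w, w) < ℓ (x, w) + ε / 2 :=
    h0.eventually (gt_mem_nhds (by linarith))
  obtain ⟨δ, hδ, hδ'⟩ := Metric.eventually_nhds_iff.1 hev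
  set N : ℝ := ‖w‖ with hN
  have hN0 : 0 ≤ N := norm_nonneg _
  set s : ℝ := min (δ / 2) (min (1 / (N + 1)) (ε / (2 * (C2 * N ^ 2 + 1)))) with hs
  have hs0 : 0 < s := by
    rw [hs]
    have : 0 < C2 * N ^ 2 + 1 := by positivity
    positivity
  have hs1 : s ≤ δ / 2 := min_le_left _ _
  have hs2 : s ≤ 1 / (N + 1) := (min_le_right _ _).trans (min_le_left _ _)
  have hs3 : s ≤ ε / (2 * (C2 * N ^ 2 + 1)) := (min_le_right _ _).trans (min_le_right _ _)
  have hsw : ‖s • w‖ = s * N := by rw [norm_smul, Real.norm_of_nonneg hs0.le]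
  have hsw1 : ‖s • w‖ ≤ 1 := by
    rw [hsw]
    calc s * N ≤ 1 / (N + 1) * N := by gcongr
      _ ≤ 1 := by rw [div_mul_eq_mul_div, one_mul, div_le_one (by linarith)]; linarith
  have h1 := hp (s • w) hsw1
  have h2 := hu.dom x w s hs0
  have h3 : seg ℓ x w s ≤ s * (ℓ (x, w) + ε / 2) := by
    unfold seg
    have : (∫ r in (0:ℝ)..s, ℓ (x + r • w, w)) ≤ ∫ r in (0:ℝ)..s, (ℓ (x, w) + ε / 2) := by
      apply intervalIntegral.integral_mono_on hs0.le
      · exact hc1.intervalIntegrable _ _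
      · exact continuous_const.intervalIntegrable _ _
      · intro r hr
        refine (hδ' ?_).le
        rw [Real.dist_eq, sub_zero, abs_of_nonneg hr.1]
        linarith [hr.2]
    refine this.trans ?_
    simp
    ring_nf
    exact le_refl _
  have h4 := (abs_le.1 h1).1
  rw [map_smul, smul_eq_mul, hsw] at h4
  have h5 : s * p w ≤ s * (ℓ (x, w) + ε / 2) + C2 * (s * N) ^ 2 := by linarith
  have h6 : C2 * (s * N) ^ 2 ≤ s * (ε / 2) := by
    have : s * (C2 * N ^ 2 + 1) ≤ ε / 2 := by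
      have hh : 0 < C2 * N ^ 2 + 1 := by positivity
      calc s * (C2 * N ^ 2 + 1) ≤ ε / (2 * (C2 * N ^ 2 + 1)) * (C2 * N ^ 2 + 1) := by gcongr
        _ = ε / 2 := by field_simp
    calc C2 * (s * N) ^ 2 = s * (s * (C2 * N ^ 2)) := by ring
      _ ≤ s * (s * (C2 * N ^ 2 + 1)) := by
          have : s * (C2 * N ^ 2) ≤ s * (C2 * N ^ 2 + 1) := by nlinarith
          gcongr
      _ ≤ s * (ε / 2) := by gcongr
  have h7 : s * p w ≤ s * (ℓ (x, w) + ε) := by linarith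
  exact le_of_mul_le_mul_left h7 hs0

theorem point_vel {ℓ : E × E → ℝ} (h : Ton ℓ) {u : E → ℝ} {K C : ℝ} (hu : Sub ℓ u K C)
    {R : ℝ} (hR : 1 ≤ R) {m : ℝ} (hm : 0 < m)
    (hconv : ∀ x v w : E, ‖v‖ ≤ R → ‖w‖ ≤ R →
      ℓ (x, v) + fderiv ℝ ℓ (x, v) (0, w - v) + m * ‖w - v‖ ^ 2 ≤ ℓ (x, w))
    {γ : ℝ → E} {C2 : ℝ} (hC2 : 0 ≤ C2) (hγ : ∀ s t, ‖γ s - γ t‖ ≤ R * |s - t|)
    (hdiff : ∀ t, 0 ≤ t → ∃ p : E →L[ℝ] ℝ, ∀ ζ : E, ‖ζ‖ ≤ 1 →
        |u (γ t + ζ) - u (γ t) - p ζ| ≤ C2 * ‖ζ‖ ^ 2)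
    (hcal : ∀ t τ, 0 ≤ t → 0 < τ → τ ≤ 1 →
        τ * ℓ (γ t, τ⁻¹ • (γ (t + τ) - γ t)) ≤ u (γ (t + τ)) - u (γ t) + C2 * τ ^ 2)
    (t : ℝ) (ht : 0 ≤ t) :
    ∃ V : E, P2 ℓ u C2 R (γ t, V) ∧
      ∀ τ : ℝ, 0 < τ → τ ≤ 1 / R →
        m * ‖τ⁻¹ • (γ (t + τ) - γ t) - V‖ ^ 2 ≤ C2 * (R ^ 2 + 1) * τ := by
  obtain ⟨p, hp⟩ := hdiff t ht
  have hR0 : 0 < R := by linarith
  set x : E := γ t with hx
  have hg := g_nonneg h hu hC2 hp
  set W : ℝ → E := fun τ => τ⁻¹ • (γ (t + τ) - γ t) with hW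
  have hc : Continuous ℓ := h.smooth.continuous
  have hWn : ∀ τ, 0 < τ → ‖W τ‖ ≤ R := by
    intro τ hτ
    have := hγ (t + τ) t
    rw [add_sub_cancel_left, abs_of_pos hτ] at this
    simp only [hW]
    rw [norm_smul, Real.norm_of_nonneg (by positivity)]
    calc τ⁻¹ * ‖γ (t + τ) - γ t‖ ≤ τ⁻¹ * (R * τ) := by gcongr
      _ = R := by field_simp
  have hinv : 1 / R ≤ 1 := by rw [div_le_one hR0]; exact hR
  have hgW : ∀ τ, 0 < τ → τ ≤ 1 / R → ℓ (x, W τ) - p (W τ) ≤ C2 * (R ^ 2 + 1) * τ := by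
    intro τ hτ hτ1
    have h1 := hcal t τ ht hτ (hτ1.trans hinv)
    have hz : ‖γ (t + τ) - γ t‖ ≤ R * τ := by
      have := hγ (t + τ) t
      rwa [add_sub_cancel_left, abs_of_pos hτ] at this
    have hz1 : ‖γ (t + τ) - γ t‖ ≤ 1 := by
      refine hz.trans ?_
      calc R * τ ≤ R * (1 / R) := by gcongr
        _ = 1 := by field_simp
    have h2 := hp (γ (t + τ) - γ t) hz1
    rw [hx, add_sub_cancel] at h2
    have h3 := (abs_le.1 h2).2
    have h4 : p (γ (t + τ) - γ t) = τ * p (W τ) := by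
      simp only [hW]
      rw [map_smul, smul_eq_mul, ← mul_assoc, mul_inv_cancel₀ hτ.ne', one_mul]
    have h5 : C2 * ‖γ (t + τ) - γ t‖ ^ 2 ≤ C2 * (R * τ) ^ 2 := by gcongr
    rw [h4] at h3
    have h6 : τ * (ℓ (x, W τ) - p (W τ)) ≤ τ * (C2 * (R ^ 2 + 1) * τ) := by
      have : τ * ℓ (x, W τ) ≤ u (γ (t + τ)) - u (γ t) + C2 * τ ^ 2 := h1
      nlinarith
    exact le_of_mul_le_mul_left h6 hτ
  -- limit point
  set τs : ℕ → ℝ := fun n => (1 / R) / (n + 1) with hτs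
  have hτs0 : ∀ n, 0 < τs n := fun n => by simp only [hτs]; positivity
  have hτs1 : ∀ n, τs n ≤ 1 / R := fun n => by
    simp only [hτs]
    apply div_le_self (by positivity)
    have : (0:ℝ) ≤ n := Nat.cast_nonneg n
    linarith
  have hτlim : Tendsto τs atTop (𝓝 0) := by
    simp only [hτs]
    exact tendsto_const_div_atTop_nhds_zero_nat (1 / R) |>.comp (tendsto_add_atTop_nat 1) |>.congr
      (fun n => by simp)
  have hcomp : IsCompact (Metric.closedBall (0:E) R) := isCompact_closedBall _ _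
  have hmem : ∀ n, W (τs n) ∈ Metric.closedBall (0:E) R := fun n => by
    rw [mem_closedBall_zero_iff]; exact hWn _ (hτs0 n)
  obtain ⟨V, hV, φ, hφ, hlim⟩ := hcomp.tendsto_subseq hmem
  have hVn : ‖V‖ ≤ R := by rwa [mem_closedBall_zero_iff] at hV
  have hgV : ℓ (x, V) - p V ≤ 0 := by
    have hcont : Continuous (fun w : E => ℓ (x, w) - p w) := by fun_prop
    have l1 : Tendsto (fun n => ℓ (x, W (τs (φ n))) - p (W (τs (φ n)))) atTop
        (𝓝 (ℓ (x, V) - p V)) := (hcont.tendsto V).comp hlim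
    have l2 : Tendsto (fun n => C2 * (R ^ 2 + 1) * τs (φ n)) atTop (𝓝 (C2 * (R ^ 2 + 1) * 0)) :=
      (hτlim.comp hφ.tendsto_atTop).const_mul _
    have := le_of_tendsto_of_tendsto' l1 l2 (fun n => hgW _ (hτs0 _) (hτs1 _))
    simpa using this
  have hgV0 : ℓ (x, V) = p V := le_antisymm (by linarith) (hg V)
  -- derivative
  have hdiffℓ : DifferentiableAt ℝ ℓ (x, V) := h.smooth.differentiable (by norm_num) _
  have hder : HasFDerivAt (fun w : E => ℓ (x, w) - p w)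
      ((fderiv ℝ ℓ (x, V)).comp (ContinuousLinearMap.inr ℝ E E) - p) V := by
    have h1 : HasFDerivAt (fun w : E => ((x, w) : E × E)) (ContinuousLinearMap.inr ℝ E E) V := by
      exact hasFDerivAt_prodMk_right x V
    exact (hdiffℓ.hasFDerivAt.comp V h1).sub p.hasFDerivAt
  have hmin : IsLocalMin (fun w : E => ℓ (x, w) - p w) V := by
    refine Filter.Eventually.of_forall ?_
    intro w
    have := hg w
    simp only
    linarith
  have hz := hmin.hasFDerivAt_eq_zero hder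
  have hpz : ∀ ζ : E, fderiv ℝ ℓ (x, V) (0, ζ) = p ζ := by
    intro ζ
    have := congrArg (fun f : E →L[ℝ] ℝ => f ζ) hz
    simp at this
    linarith
  refine ⟨V, ⟨hVn, ?_, ?_⟩, ?_⟩
  · rw [hpz]; exact hgV0
  · intro ζ hζ
    rw [hpz]
    exact hp ζ hζ
  · intro τ hτ hτ1
    have h1 := hconv x V (W τ) hVn (hWn τ hτ)
    rw [hpz, map_sub] at h1
    have h2 := hgW τ hτ hτ1
    have : m * ‖W τ - V‖ ^ 2 ≤ C2 * (R ^ 2 + 1) * τ := by linarith
    exact this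

theorem curve_reg {ℓ : E × E → ℝ} (h : Ton ℓ) {u : E → ℝ} {K C : ℝ} (hu : Sub ℓ u K C)
    {R : ℝ} (hR : 1 ≤ R)
    (hconv : ∀ R : ℝ, ∃ m : ℝ, 0 < m ∧ ∀ x v w : E, ‖v‖ ≤ R → ‖w‖ ≤ R →
      ℓ (x, v) + fderiv ℝ ℓ (x, v) (0, w - v) + m * ‖w - v‖ ^ 2 ≤ ℓ (x, w))
    (hgraph : ∀ C' R : ℝ, 0 ≤ C' → ∃ M : ℝ, 0 ≤ M ∧ ∀ q q' : E × E, P2 ℓ u C' R q →
      P2 ℓ u C' R q' → ‖q.1 - q'.1‖ ≤ 1 / 2 → ‖q.2 - q'.2‖ ≤ M * ‖q.1 - q'.1‖)
    {γ : ℝ → E} {C2 : ℝ} (hC2 : 0 ≤ C2) (hγ : ∀ s t, ‖γ s - γ t‖ ≤ R * |s - t|)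
    (hdiff : ∀ t, 0 ≤ t → ∃ p : E →L[ℝ] ℝ, ∀ ζ : E, ‖ζ‖ ≤ 1 →
        |u (γ t + ζ) - u (γ t) - p ζ| ≤ C2 * ‖ζ‖ ^ 2)
    (hcal : ∀ t τ, 0 ≤ t → 0 < τ → τ ≤ 1 →
        τ * ℓ (γ t, τ⁻¹ • (γ (t + τ) - γ t)) ≤ u (γ (t + τ)) - u (γ t) + C2 * τ ^ 2) :
    ∃ A V : ℝ → E, (∀ t, HasDerivAt A (V t) t) ∧ Continuous V ∧
      ∀ t, 0 ≤ t → P2 ℓ u C2 R (A t, V t) := by
  have hR0 : 0 < R := by linarith
  obtain ⟨m, hm, hmc⟩ := hconv R
  obtain ⟨M, hM, hMc⟩ := hgraph C2 R hC2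
  have hpt := fun t ht => point_vel h hu hR hm hmc hC2 hγ hdiff hcal t ht
  choose! V0 hV0 hrate using hpt
  set c : ℝ := C2 * (R ^ 2 + 1) / m with hc
  have hc0 : 0 ≤ c := by rw [hc]; positivity
  -- rate
  have hrate' : ∀ t, 0 ≤ t → ∀ τ, 0 < τ → τ ≤ 1 / R →
      ‖γ (t + τ) - γ t - τ • V0 t‖ ≤ τ * Real.sqrt (c * τ) := by
    intro t ht τ hτ hτ1
    have h1 := hrate t ht τ hτ hτ1
    have h2 : ‖τ⁻¹ • (γ (t + τ) - γ t) - V0 t‖ ^ 2 ≤ c * τ := by
      rw [hc, div_mul_eq_mul_div, le_div_iff₀ hm]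
      linarith
    have h3 : ‖τ⁻¹ • (γ (t + τ) - γ t) - V0 t‖ ≤ Real.sqrt (c * τ) := Real.le_sqrt_of_sq_le h2
    have h4 : γ (t + τ) - γ t - τ • V0 t = τ • (τ⁻¹ • (γ (t + τ) - γ t) - V0 t) := by
      rw [smul_sub, smul_smul, mul_inv_cancel₀ hτ.ne', one_smul]
    rw [h4, norm_smul, Real.norm_of_nonneg hτ.le]
    gcongr
  set A : ℝ → E := fun t => γ (max t 0) + (min t 0) • V0 0 with hA
  set V : ℝ → E := fun t => V0 (max t 0) with hV
  have hVlip : ∀ s t : ℝ, |s - t| ≤ 1 / (2 * R) → ‖V s - V t‖ ≤ M * (R * |s - t|) := by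
    intro s t hst
    have hmax : |max s 0 - max t 0| ≤ |s - t| := abs_max_sub_max_le_abs s t 0
    have h1 := hγ (max s 0) (max t 0)
    have h2 : ‖γ (max s 0) - γ (max t 0)‖ ≤ R * |s - t| := h1.trans (by gcongr)
    have h3 := hMc (γ (max s 0), V0 (max s 0)) (γ (max t 0), V0 (max t 0))
      (hV0 _ (le_max_right _ _)) (hV0 _ (le_max_right _ _)) (by
        refine h2.trans ?_
        calc R * |s - t| ≤ R * (1 / (2 * R)) := by gcongr
          _ = 1 / 2 := by field_simp)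
    refine h3.trans ?_
    simp only
    gcongr
  have hVc : Continuous V := by
    rw [Metric.continuous_iff]
    intro t ε hε
    refine ⟨min (1 / (2 * R)) (ε / (M * R + 1)), by positivity, ?_⟩
    intro s hs
    rw [Real.dist_eq] at hs
    have hs1 : |s - t| ≤ 1 / (2 * R) := hs.le.trans (min_le_left _ _)
    have hs2 : |s - t| < ε / (M * R + 1) := hs.trans_le (min_le_right _ _)
    rw [dist_eq_norm]
    refine (hVlip s t hs1).trans_lt ?_
    have hMR : 0 < M * R + 1 := by positivity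
    rw [lt_div_iff₀ hMR] at hs2
    nlinarith [abs_nonneg (s - t)]
  -- uniform right differentiability
  have hright : ∀ s k : ℝ, 0 < k → k ≤ 1 / R →
      ‖A (s + k) - A s - k • V s‖ ≤ k * Real.sqrt (c * k) := by
    intro s k hk hk1
    simp only [hA, hV]
    rcases le_or_gt 0 s with hs | hs
    · rw [max_eq_left hs, max_eq_left (by linarith : (0:ℝ) ≤ s + k), min_eq_right hs,
        min_eq_right (by linarith : (0:ℝ) ≤ s + k)]
      simp only [zero_smul, add_zero]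
      exact hrate' s hs k hk hk1
    · rcases le_or_gt (s + k) 0 with hsk | hsk
      · rw [max_eq_right hs.le, max_eq_right hsk, min_eq_left hs.le, min_eq_left hsk]
        have : γ 0 + (s + k) • V0 0 - (γ 0 + s • V0 0) - k • V0 0 = 0 := by
          rw [add_smul]; abel
        rw [this, norm_zero]
        positivity
      · rw [max_eq_right hs.le, max_eq_left hsk.le, min_eq_left hs.le, min_eq_right hsk.le]
        have e : γ (s + k) + (0:ℝ) • V0 0 - (γ 0 + s • V0 0) - k • V0 0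
            = γ (0 + (s + k)) - γ 0 - (s + k) • V0 0 := by
          rw [zero_add, zero_smul, add_smul]; abel
        rw [e]
        refine (hrate' 0 le_rfl (s + k) hsk (by linarith)).trans ?_
        have h1 : s + k ≤ k := by linarith
        gcongr
  refine ⟨A, V, ?_, hVc, ?_⟩
  · intro t
    rw [hasDerivAt_iff_isLittleO_nhds_zero, Asymptotics.isLittleO_iff]
    intro ε hε
    -- choose δ
    have hsq : Tendsto (fun k : ℝ => Real.sqrt (c * |k|)) (𝓝 0) (𝓝 0) := by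
      have : Continuous (fun k : ℝ => Real.sqrt (c * |k|)) := by fun_prop
      have h1 := this.tendsto 0
      simpa using h1
    have e1 : ∀ᶠ k in 𝓝 (0:ℝ), Real.sqrt (c * |k|) < ε / 2 := hsq.eventually (gt_mem_nhds (by positivity))
    have e2 : ∀ᶠ k in 𝓝 (0:ℝ), |k| < 1 / R := by
      have : Tendsto (fun k : ℝ => |k|) (𝓝 0) (𝓝 0) := by
        have h1 := (continuous_abs (G := ℝ)).tendsto 0
        simpa using h1
      exact this.eventually (gt_mem_nhds (by positivity))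
    have e3 : ∀ᶠ k in 𝓝 (0:ℝ), ‖V (t + k) - V t‖ < ε / 2 := by
      have : Tendsto (fun k : ℝ => ‖V (t + k) - V t‖) (𝓝 0) (𝓝 0) := by
        have hcc : Continuous (fun k : ℝ => ‖V (t + k) - V t‖) := by fun_prop
        have h1 := hcc.tendsto 0
        simpa using h1
      exact this.eventually (gt_mem_nhds (by positivity))
    filter_upwards [e1, e2, e3] with k h1 h2 h3
    rcases lt_trichotomy k 0 with hk | hk | hk
    · have hk' : 0 < -k := by linarith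
      rw [abs_of_neg hk] at h1 h2
      have h4 := hright (t + k) (-k) hk' h2.le
      rw [add_neg_cancel_right] at h4
      have e : A (t + k) - A t - k • V t
          = -(A t - A (t + k) - (-k) • V (t + k)) + k • (V (t + k) - V t) := by
        rw [smul_sub, neg_smul]; abel
      rw [e]
      refine (norm_add_le _ _).trans ?_
      rw [norm_neg, norm_smul, Real.norm_eq_abs, abs_of_neg hk]
      nlinarith [norm_nonneg (V (t + k) - V t)]
    · subst hk; simp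
    · rw [abs_of_pos hk] at h1 h2
      have h4 := hright t k hk h2.le
      refine h4.trans ?_
      rw [Real.norm_eq_abs, abs_of_pos hk]
      nlinarith
  · intro t ht
    simp only [hA, hV]
    rw [max_eq_left ht, min_eq_right ht, zero_smul, add_zero]
    exact hV0 t ht

end Pool.H110M
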