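import Mathlib
import Pool.Agent.Helper110.M1
import Pool.Agent.Helper110.M4
import Pool.Agent.Helper110.M5
import Pool.Agent.Helper110.M6a
import Pool.Agent.Helper110.M6b
import Pool.Agent.Helper110.M8
import Pool.Agent.Helper110.M9
import Pool.Agent.Helper110.M10a
import Pool.Agent.Helper110.M10b
import Pool.Agent.Helper110.M11

set_option autoImplicit false
open MeasureTheory Set Filter Topology

noncomputable section
namespace Pool.H110M

theorem Sub.lipW {ℓ : E × E → ℝ} {u : E → ℝ} {K C : ℝ} (hu : Sub ℓ u K C) : LipschitzWith K.toNNReal u := by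
  apply LipschitzWith.of_dist_le_mul
  intro x y
  rw [Real.dist_eq, dist_eq_norm, Real.coe_toNNReal _ hu.K0]
  exact hu.lip x y

theorem core {ℓ : E × E → ℝ} (h : Ton ℓ) {u : E → ℝ} {K C : ℝ} (hu : Sub ℓ u K C)
    (G : Set (E × E)) (R : ℝ) (hR0 : 0 ≤ R)
    (hsupp : G ⊆ closure {q | ∃ ν : Measure (E × E), Closed ν ∧ Integrable ℓ ν ∧
      ∫ q, ℓ q ∂ν = 0 ∧ q ∈ ν.support})
    (hcl : IsClosed G) (hbd : ∀ q ∈ G, ‖q.2‖ ≤ R)
    (hper : ∀ q ∈ G, ∀ k : ℤ × ℤ, (q.1 + iv k, q.2) ∈ G)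
    (hinv : ∀ q ∈ G, ∃ A V : ℝ → E, ELc ℓ A V ∧ A 0 = q.1 ∧ V 0 = q.2 ∧ ∀ t, (A t, V t) ∈ G)
    (hnp : ∀ A V : ℝ → E, ELc ℓ A V → (∀ t, (A t, V t) ∈ G) → ∀ T : ℝ, 0 < T →
      ∀ k : ℤ × ℤ, ¬ (A T = A 0 + iv k ∧ V T = V 0))
    (hrec : ∃ A V : ℝ → E, ELc ℓ A V ∧ (∀ t, (A t, V t) ∈ G) ∧ ∀ δ > 0, ∀ N : ℝ, ∃ T : ℝ,
      N ≤ T ∧ ∃ k : ℤ × ℤ, ‖A T - A 0 - iv k‖ < δ ∧ ‖V T - V 0‖ < δ) :
    ∃ κ : E →L[ℝ] ℝ, κ ≠ 0 ∧ ∀ ν : Measure (E × E), Closed ν → Integrable ℓ ν →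
      0 ≤ ∫ q, ℓ q ∂ν + κ (∫ q, q.2 ∂ν) := by
  have hmoll := moll hu.K0 hu.C0 hu.per hu.lip hu.semi
  -- P1 on G
  have hP1 : ∀ q ∈ G, P1 ℓ u C q := by
    intro q hq
    have h1 : closure {q | ∃ ν : Measure (E × E), Closed ν ∧ Integrable ℓ ν ∧
      ∫ q, ℓ q ∂ν = 0 ∧ q ∈ ν.support} ⊆ {q | P1 ℓ u C q} := by
      apply closure_minimal _ (isClosed_P1 h hu)
      rintro q ⟨ν, hν, hi, h0, hqs⟩
      exact P1_of_support h hu hmoll hν hi h0 hqs
    exact h1 (hsupp hq)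
  obtain ⟨C', hCC', hP2'⟩ := P2_of_P1 h hu R (h.quad R)
  have hC'0 : 0 ≤ C' := hu.C0.trans hCC'
  have hP2orb : ∀ A V : ℝ → E, ELc ℓ A V → (∀ t, (A t, V t) ∈ G) → ∀ t, P2 ℓ u C' R (A t, V t) :=
    fun A V hAV hG => hP2' A V hAV (fun t => hbd _ (hG t)) (fun t => hP1 _ (hG t))
  have hP2 : ∀ q ∈ G, P2 ℓ u C' R q := by
    intro q hq
    obtain ⟨A, V, hAV, h0, h1, hG⟩ := hinv q hq
    have := hP2orb A V hAV hG 0
    rw [h0, h1] at this
    exact this
  obtain ⟨Mg, hMg, hgraph⟩ := graph_est h hu C' R hC'0 (h.lipD R) (h.conv R)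
  have hgr : ∀ A V : ℝ → E, (∀ t, (A t, V t) ∈ G) → ∀ (s θ : ℝ) (k : ℤ × ℤ),
      ‖A s - iv k - A θ‖ ≤ 1 / 2 → ‖V s - V θ‖ ≤ Mg * ‖A s - iv k - A θ‖ := by
    intro A V hG s θ k hk
    have h1 : (A s - iv k, V s) ∈ G := by
      have := hper _ (hG s) (-k)
      have e : A s + iv (-k) = A s - iv k := by
        ext <;> simp [iv] <;> ring
      simpa [e] using this
    exact hgraph _ _ (hP2 _ h1) (hP2 _ (hG θ)) hk
  have hivz : iv (0 : ℤ × ℤ) = 0 := by ext <;> simp [iv]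
  have hgr0 : ∀ A V : ℝ → E, (∀ t, (A t, V t) ∈ G) → ∀ (s θ : ℝ),
      ‖A s - A θ‖ ≤ 1 / 2 → ‖V s - V θ‖ ≤ Mg * ‖A s - A θ‖ := by
    intro A V hG s θ hk
    have := hgr A V hG s θ 0
    rw [hivz] at this
    simpa using this (by simpa using hk)
  -- nonzero speed
  have hne : ∀ q ∈ G, q.2 ≠ 0 := by
    intro q hq h0
    obtain ⟨A, V, hAV, hA0, hV0, hG⟩ := hinv q hq
    have hc := const_of_zero hAV.der hAV.cont hMg (hgr0 A V hG) (t₀ := 0) (by rw [hV0, h0])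
    apply hnp A V hAV hG 1 one_pos 0
    refine ⟨by rw [hivz, add_zero]; exact (hc 1).1, ?_⟩
    rw [(hc 1).2, (hc 0).2]
  obtain ⟨A, V, hAV, hG, hrec⟩ := hrec
  -- lower bound of speed
  obtain ⟨v0, hv0, hv0G⟩ : ∃ v0 : ℝ, 0 < v0 ∧ ∀ q ∈ G, v0 ≤ ‖q.2‖ := by
    have hcomp : IsCompact (G ∩ (Metric.closedBall (0 : E) 1 ×ˢ Metric.closedBall (0 : E) R)) := by
      apply IsCompact.inter_left _ hcl
      exact (isCompact_closedBall _ _).prod (isCompact_closedBall _ _)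
    have hred : ∀ q ∈ G, ∃ q' ∈ G ∩ (Metric.closedBall (0 : E) 1 ×ˢ Metric.closedBall (0 : E) R),
        q'.2 = q.2 := by
      intro q hq
      obtain ⟨y, k, hy, hx⟩ := exists_reduce q.1
      refine ⟨(y, q.2), ⟨?_, ?_⟩, rfl⟩
      · have := hper q hq (-k)
        have e : q.1 + iv (-k) = y := by
          rw [hx]; ext <;> simp [iv]
        simpa [e] using this
      · simp only [Set.mem_prod, Metric.mem_closedBall, dist_zero_right]
        exact ⟨hy, hbd q hq⟩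
    have hnon : (G ∩ (Metric.closedBall (0 : E) 1 ×ˢ Metric.closedBall (0 : E) R)).Nonempty := by
      obtain ⟨q', hq', _⟩ := hred _ (hG 0)
      exact ⟨q', hq'⟩
    obtain ⟨q0, hq0, hmin⟩ := hcomp.exists_isMinOn hnon
      (f := fun q : E × E => ‖q.2‖) (by fun_prop)
    refine ⟨‖q0.2‖, norm_pos_iff.2 (hne _ hq0.1), ?_⟩
    intro q hq
    obtain ⟨q', hq', e⟩ := hred q hq
    have := hmin hq'
    simp only [mem_setOf_eq] at this
    rw [← e]; exact this
  -- bounds along the orbit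
  have hVR : ∀ t, ‖V t‖ ≤ R := fun t => hbd _ (hG t)
  have hVv : ∀ t, v0 ≤ ‖V t‖ := fun t => hv0G _ (hG t)
  have hAlip : ∀ s t, ‖A s - A t‖ ≤ R * |s - t| := by
    intro s t
    have := Convex.norm_image_sub_le_of_norm_hasDerivWithin_le (f := A) (f' := V) (C := R)
      (s := univ) (fun x _ => (hAV.der x).hasDerivWithinAt) (fun x _ => hVR x) convex_univ
      (mem_univ t) (mem_univ s)
    simpa [Real.norm_eq_abs] using this
  set L : ℝ := Mg * R + 4 * R * (R + 1) with hL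
  have hVlip : ∀ s t, ‖V s - V t‖ ≤ L * |s - t| := by
    intro s t
    by_cases hst : |s - t| ≤ 1 / (2 * (R + 1))
    · have h1 : ‖A s - A t‖ ≤ 1 / 2 := by
        refine (hAlip s t).trans ?_
        calc R * |s - t| ≤ R * (1 / (2 * (R + 1))) := by gcongr
          _ ≤ (R + 1) * (1 / (2 * (R + 1))) := by
            apply mul_le_mul_of_nonneg_right (by linarith); positivity
          _ = 1 / 2 := by field_simp
      have h2 := hgr0 A V hG s t h1
      calc ‖V s - V t‖ ≤ Mg * ‖A s - A t‖ := h2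
        _ ≤ Mg * (R * |s - t|) := by gcongr; exact hAlip s t
        _ ≤ L * |s - t| := by
          rw [hL]
          have : 0 ≤ 4 * R * (R + 1) * |s - t| := by positivity
          nlinarith
    · push Not at hst
      have h1 : ‖V s - V t‖ ≤ 2 * R := by
        calc ‖V s - V t‖ ≤ ‖V s‖ + ‖V t‖ := norm_sub_le _ _
          _ ≤ 2 * R := by linarith [hVR s, hVR t]
      have h2 : 1 ≤ 2 * (R + 1) * |s - t| := by
        have h3 : 0 < 2 * (R + 1) := by linarith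
        have := (div_lt_iff₀ h3).1 hst
        linarith
      have h4 : 2 * R ≤ 4 * R * (R + 1) * |s - t| := by nlinarith
      have h5 : 0 ≤ Mg * R * |s - t| := by positivity
      rw [hL]; nlinarith
  have hnp' : ∀ T : ℝ, 0 < T → ∀ k : ℤ × ℤ, A T ≠ A 0 + iv k := by
    intro T hT k hk
    apply hnp A V hAV hG T hT k
    refine ⟨hk, ?_⟩
    have h1 := hgr A V hG T 0 k
    have h2 : A T - iv k - A 0 = 0 := by rw [hk]; abel
    rw [h2, norm_zero] at h1
    have h3 := h1 (by norm_num)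
    rw [mul_zero] at h3
    exact sub_eq_zero.1 (norm_le_zero_iff.1 h3)
  obtain ⟨C1, C0, hC1, hC0, htilt⟩ := tilt A V hAV.der R L v0 hv0 hVR hVv hVlip
    (fun δ hδ N => by
      obtain ⟨T, hT, k, hk, _⟩ := hrec δ hδ N
      exact ⟨T, hT, k, hk⟩) hnp'
  obtain ⟨N, δ1, hN, hδ1, hineq⟩ := ineq h hu R C' h.lipD h.conv (grad_est h hu C' R hC'0)
    C1 C0 hC1 hC0
  set N' := max N (C1 * Mg * (1 + C0) + 1) with hN'
  set δ' := min δ1 (1 / (2 * (1 + C0))) with hδ'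
  have hδ'0 : 0 < δ' := lt_min hδ1 (by positivity)
  obtain ⟨T, σ, σ', D, a, S, k, hT, ha, hS, hσ, hσ', hσ0, hσT, htd⟩ :=
    htilt N' δ' (lt_of_lt_of_le hN (le_max_left _ _)) hδ'0
  have hσc : Continuous σ := continuous_iff_continuousAt.2 fun x => (hσ x).continuousAt
  obtain ⟨χ, hχ2, hχper, hχ0, hχ1, hχp, hχs⟩ := bump a ha
  obtain ⟨ε, hε, hεineq⟩ := hineq A V (hP2orb A V hAV hG) N' T σ σ' D a S (le_max_left _ _) hT ha hS
    hσc hσ' (fun θ hθ => ⟨(htd θ hθ).1, (htd θ hθ).2.1.trans (min_le_left _ _), (htd θ hθ).2.2⟩)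
    χ hχ2.continuous hχ0 hχ1 hχs
  obtain ⟨Θ, κ0, hΘ, hΘd, hΘper⟩ := kappa hT hσ hσ' hσT hχ2 hχper
  have hpos := pos_of_tilt (A := A) (V := V) (N := N') (δ1 := δ') hMg hC0 hC1 (hgr A V hG)
    (le_max_right _ _) (by
      have : δ' ≤ 1 / (2 * (1 + C0)) := min_le_right _ _
      calc δ' * (1 + C0) ≤ 1 / (2 * (1 + C0)) * (1 + C0) := by gcongr
        _ = 1 / 2 := by field_simp
        _ ≤ 1 / 2 := le_rfl) hT ha hσc hσ' hσ0 htd hχ2.continuous hχ0 hχp hχs
  have hκ0 : κ0 ≠ 0 := by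
    refine kappa_ne hΘ hΘper hAV.der hVR hVlip (S := S) ?_ ?_ hrec
    · intro t; rw [hΘd]; exact hpos.1 t
    · rw [hΘd]; exact hpos.2
  have hS0 : S ≠ 0 := by rcases hS with rfl | rfl <;> norm_num
  refine ⟨(ε * S) • κ0, smul_ne_zero (mul_ne_zero hε.ne' hS0) hκ0, ?_⟩
  intro ν hν hi
  have := hν.prob
  -- derivative of Θ is periodic, bounded
  have hψper : ∀ (x : E) (k : ℤ × ℤ), fderiv ℝ Θ (x + iv k) = fderiv ℝ Θ x := by
    intro x k
    have e : (fun y => Θ (y + iv k)) = fun y => Θ y + κ0 (iv k) := by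
      funext y
      have := hΘper y k
      rw [map_add] at this
      linarith
    have h1 : fderiv ℝ (fun y => Θ (y + iv k)) x = fderiv ℝ Θ (x + iv k) := fderiv_comp_add_right _
    rw [← h1, e]
    simp
  have hfc : Continuous (fderiv ℝ Θ) := hΘ.continuous_fderiv one_ne_zero
  obtain ⟨B, hB⟩ : ∃ B : ℝ, ∀ x, ‖fderiv ℝ Θ x‖ ≤ B := by
    obtain ⟨B, hB⟩ := (isCompact_closedBall (0 : E) 1).exists_bound_of_continuousOn hfc.continuousOn
    refine ⟨B, fun x => ?_⟩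
    obtain ⟨y, k, hy, hx⟩ := exists_reduce x
    rw [hx, hψper]
    exact hB y (by simpa using hy)
  have hB0 : 0 ≤ B := (norm_nonneg _).trans (hB 0)
  set F : E × E → ℝ := fun q => ℓ q + ε * (S * fderiv ℝ Θ q.1 q.2) with hF
  have hc2 : Continuous (fun q : E × E => fderiv ℝ Θ q.1 q.2) :=
    (hfc.comp continuous_fst).clm_apply continuous_snd
  have hFc : Continuous F := h.smooth.continuous.add (continuous_const.mul (continuous_const.mul hc2))
  have hi2 : Integrable (fun q : E × E => fderiv ℝ Θ q.1 q.2) ν := by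
    refine Integrable.mono' (hν.int.const_mul B) hc2.aestronglyMeasurable ?_
    refine Filter.Eventually.of_forall fun q => ?_
    exact (ContinuousLinearMap.le_opNorm _ _).trans
          (mul_le_mul_of_nonneg_right (hB _) (norm_nonneg _))
  have hFi : Integrable F ν := hi.add ((hi2.const_mul S).const_mul ε)
  have hSabs : |S| = 1 := by rcases hS with rfl | rfl <;> norm_num
  have h0 : 0 ≤ ∫ q, F q ∂ν := by
    refine closed_ineq hmoll hFc ?_ ?_ ?_ hν hFi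
    · intro x w k
      simp only [hF]
      rw [h.per, hψper]
    · obtain ⟨Bs, hBs⟩ := h.superlin (K + ε * B + 1)
      refine ⟨Bs, fun x w hw => ?_⟩
      have h1 := hBs x w
      have h2 : |S * fderiv ℝ Θ x w| ≤ B * ‖w‖ := by
        rw [abs_mul, hSabs, one_mul]
        exact (ContinuousLinearMap.le_opNorm _ _).trans
          (mul_le_mul_of_nonneg_right (hB _) (norm_nonneg _))
      have h3 : -(B * ‖w‖) ≤ S * fderiv ℝ Θ x w := (abs_le.1 h2).1
      have h4 : ε * (-(B * ‖w‖)) ≤ ε * (S * fderiv ℝ Θ x w) := by gcongr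
      simp only [hF]
      nlinarith
    · have hr := hu.lipW.ae_differentiableAt (μ := (volume : Measure E))
      filter_upwards [hr] with x hx w
      have := hεineq x hx w
      simp only [hF]
      rw [hΘd]
      exact this
  have h1 : ∫ q, F q ∂ν = ∫ q, ℓ q ∂ν + ε * (S * ∫ q : E × E, fderiv ℝ Θ q.1 q.2 ∂ν) := by
    simp only [hF]
    rw [integral_add hi ((hi2.const_mul S).const_mul ε), integral_const_mul, integral_const_mul]
  have hvi : Integrable (fun q : E × E => q.2) ν := by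
    refine (integrable_norm_iff ?_).1 hν.int
    exact continuous_snd.aestronglyMeasurable
  have h2 : ∫ q : E × E, fderiv ℝ Θ q.1 q.2 ∂ν = κ0 (∫ q, q.2 ∂ν) := by
    have h3 := hν.closed (fun x => Θ x - κ0 x) (hΘ.sub κ0.contDiff) hΘper
    have e : ∀ q : E × E, fderiv ℝ (fun x => Θ x - κ0 x) q.1 q.2
        = fderiv ℝ Θ q.1 q.2 - κ0 q.2 := by
      intro q
      rw [fderiv_fun_sub ((hΘ.differentiable one_ne_zero) _) (κ0.differentiableAt)]
      simp
    simp only [e] at h3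
    rw [integral_sub hi2 (κ0.integrable_comp hvi)] at h3
    rw [ContinuousLinearMap.integral_comp_comm κ0 hvi] at h3
    linarith
  rw [h1, h2] at h0
  simp only [ContinuousLinearMap.smul_apply, smul_eq_mul]
  linarith

end Pool.H110M
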