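import Mathlib
import Pool.Agent.Helper110.MDefs

set_option autoImplicit false
open MeasureTheory Set Filter Topology

noncomputable section
namespace Pool.H110M

/-! ### helper lemmas -/

theorem el_integral_contD {ℓ : E × E → ℝ} (h : Ton ℓ) : Continuous (fderiv ℝ ℓ) :=
  h.smooth.continuous_fderiv (by norm_num)

theorem el_integral_hasFD {ℓ : E × E → ℝ} (h : Ton ℓ) (q : E × E) :
    HasFDerivAt ℓ (fderiv ℝ ℓ q) q :=
  ((h.smooth.differentiable (by norm_num)) q).hasFDerivAt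

theorem el_integral_diff {ℓ : E × E → ℝ} {u : E → ℝ} {C2 R : ℝ} {q : E × E}
    (hP : P2 ℓ u C2 R q) :
    HasFDerivAt u ((fderiv ℝ ℓ q).comp (ContinuousLinearMap.inr ℝ E E)) q.1 := by
  rw [hasFDerivAt_iff_isLittleO_nhds_zero]
  have h1 : (fun ζ : E => ‖ζ‖ ^ 2) =o[𝓝 0] fun ζ => ζ :=
    Asymptotics.isLittleO_norm_pow_id one_lt_two
  refine Asymptotics.IsBigO.trans_isLittleO ?_ h1
  apply Asymptotics.IsBigO.of_bound C2
  filter_upwards [Metric.closedBall_mem_nhds (0 : E) one_pos] with ζ hζ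
  have h2 := hP.2.2 ζ (by simpa using hζ)
  rw [Real.norm_of_nonneg (by positivity : (0 : ℝ) ≤ ‖ζ‖ ^ 2)]
  simpa [Real.norm_eq_abs] using h2

/-! ### target -/
theorem el_integral {ℓ : E × E → ℝ} (h : Ton ℓ) {u : E → ℝ} {K C : ℝ} (hu : Sub ℓ u K C)
    {C2 R : ℝ} (hC2 : 0 ≤ C2) {A V : ℝ → E} (hA : ∀ t, HasDerivAt A (V t) t) (hV : Continuous V)
    (hP : ∀ t, 0 ≤ t → P2 ℓ u C2 R (A t, V t))
    (hdom : ∀ (A V : ℝ → E), (∀ t, HasDerivAt A (V t) t) → Continuous V → ∀ a b : ℝ, a ≤ b →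
      u (A b) - u (A a) ≤ ∫ t in a..b, ℓ (A t, V t)) :
    (∀ a b, 0 ≤ a → a ≤ b → u (A b) - u (A a) = ∫ t in a..b, ℓ (A t, V t)) ∧
    ∀ t, 0 ≤ t → ∀ ζ : E, fderiv ℝ ℓ (A t, V t) (0, ζ) =
      fderiv ℝ ℓ (A 0, V 0) (0, ζ) + ∫ s in (0:ℝ)..t, fderiv ℝ ℓ (A s, V s) (ζ, 0) := by
  have hAc : Continuous A := continuous_iff_continuousAt.2 fun t => (hA t).continuousAt
  have hℓc : Continuous ℓ := h.smooth.continuous
  have hDc := el_integral_contD h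
  have hqc : Continuous fun t => (A t, V t) := hAc.prodMk hV
  have part1 : ∀ a b, 0 ≤ a → a ≤ b → u (A b) - u (A a) = ∫ t in a..b, ℓ (A t, V t) := by
    intro a b ha hab
    symm
    apply intervalIntegral.integral_eq_sub_of_hasDerivAt (f := fun t => u (A t))
    · intro t ht
      rw [uIcc_of_le hab] at ht
      have h1 := el_integral_diff (hP t (ha.trans ht.1))
      have h2 := HasFDerivAt.comp_hasDerivAt t h1 (hA t)
      have h3 : ((fderiv ℝ ℓ (A t, V t)).comp (ContinuousLinearMap.inr ℝ E E)) (V t)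
          = ℓ (A t, V t) := by
        rw [(hP t (ha.trans ht.1)).2.1]
        simp
      rw [h3] at h2
      exact h2
    · exact (hℓc.comp hqc).intervalIntegrable _ _
  refine ⟨part1, ?_⟩
  intro t ht ζ
  -- the function with a minimum at zero
  set G : ℝ → ℝ := fun ε => ∫ s in (0:ℝ)..t, ℓ (A s + ε • ζ, V s) with hG
  set W : ℝ → ℝ := fun ε => u (A t + ε • ζ) - u (A 0 + ε • ζ) with hW
  have hmin : IsLocalMin (fun ε => G ε - W ε) 0 := by
    apply Filter.Eventually.of_forall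
    intro ε
    have h1 := hdom (fun s => A s + ε • ζ) V (fun s => (hA s).add_const _) hV 0 t ht
    have h2 : G 0 - W 0 = 0 := by
      simp only [hG, hW, zero_smul, add_zero]
      rw [← part1 0 t le_rfl ht, sub_self]
    have h3 : 0 ≤ G ε - W ε := sub_nonneg.2 h1
    change G 0 - W 0 ≤ G ε - W ε
    rw [h2]
    exact h3
  have hGd : HasDerivAt G (∫ s in (0:ℝ)..t, fderiv ℝ ℓ (A s, V s) (ζ, 0)) 0 := by
    have hcont : Continuous fun p : ℝ × ℝ => fderiv ℝ ℓ (A p.2 + p.1 • ζ, V p.2) (ζ, 0) := by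
      have h1 : Continuous fun p : ℝ × ℝ => fderiv ℝ ℓ (A p.2 + p.1 • ζ, V p.2) := by
        apply hDc.comp
        exact ((hAc.comp continuous_snd).add (continuous_fst.smul continuous_const)).prodMk
          (hV.comp continuous_snd)
      exact h1.clm_apply continuous_const
    obtain ⟨B, hB⟩ := (isCompact_Icc.prod isCompact_Icc :
      IsCompact ((Icc (-1 : ℝ) 1) ×ˢ (Icc (0 : ℝ) t))).exists_bound_of_continuousOn
        hcont.continuousOn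
    have hmain := (intervalIntegral.hasDerivAt_integral_of_dominated_loc_of_deriv_le
      (F := fun (ε s : ℝ) => ℓ (A s + ε • ζ, V s))
      (F' := fun (ε s : ℝ) => fderiv ℝ ℓ (A s + ε • ζ, V s) (ζ, 0)) (x₀ := (0 : ℝ))
      (s := Icc (-1 : ℝ) 1) (bound := fun _ => B) (a := (0 : ℝ)) (b := t) (μ := volume)
      (Icc_mem_nhds (by norm_num) (by norm_num)) ?_ ?_ ?_ ?_ ?_ ?_).2
    · simp only [zero_smul, add_zero] at hmain
      exact hmain
    · filter_upwards with ε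
      have : Continuous fun s => ℓ (A s + ε • ζ, V s) :=
        hℓc.comp ((hAc.add continuous_const).prodMk hV)
      exact this.aestronglyMeasurable
    · have : Continuous fun s => ℓ (A s + (0 : ℝ) • ζ, V s) :=
        hℓc.comp ((hAc.add continuous_const).prodMk hV)
      exact this.intervalIntegrable _ _
    · have : Continuous fun s => fderiv ℝ ℓ (A s + (0 : ℝ) • ζ, V s) (ζ, 0) :=
        hcont.comp (continuous_const.prodMk continuous_id)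
      exact this.aestronglyMeasurable
    · filter_upwards with s hs ε hε
      rw [uIoc_of_le ht] at hs
      exact hB (ε, s) ⟨hε, hs.1.le, hs.2⟩
    · exact intervalIntegrable_const
    · filter_upwards with s _ ε _
      have h1 : HasDerivAt (fun ε : ℝ => (A s + ε • ζ, V s)) (ζ, (0 : E)) ε := by
        have h2 : HasDerivAt (fun ε : ℝ => A s + ε • ζ) ζ ε := by
          have := ((hasDerivAt_id ε).smul_const ζ).const_add (A s)
          simpa using this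
        exact h2.prodMk (hasDerivAt_const ε (V s))
      exact (el_integral_hasFD h _).comp_hasDerivAt ε h1
  have hWd : HasDerivAt W (fderiv ℝ ℓ (A t, V t) (0, ζ) - fderiv ℝ ℓ (A 0, V 0) (0, ζ)) 0 := by
    have key : ∀ r, 0 ≤ r → HasDerivAt (fun ε : ℝ => u (A r + ε • ζ))
        (fderiv ℝ ℓ (A r, V r) (0, ζ)) 0 := by
      intro r hr
      have h1 := el_integral_diff (hP r hr)
      have h2 : HasDerivAt (fun ε : ℝ => A r + ε • ζ) ζ 0 := by
        have := ((hasDerivAt_id (0 : ℝ)).smul_const ζ).const_add (A r)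
        simpa using this
      have h1' : HasFDerivAt u ((fderiv ℝ ℓ (A r, V r)).comp (ContinuousLinearMap.inr ℝ E E))
          ((fun ε : ℝ => A r + ε • ζ) 0) := by
        simpa using h1
      have := h1'.comp_hasDerivAt (0 : ℝ) h2
      have e5 : ((fderiv ℝ ℓ (A r, V r)).comp (ContinuousLinearMap.inr ℝ E E)) ζ
          = fderiv ℝ ℓ (A r, V r) (0, ζ) := by simp
      rw [e5] at this
      exact this
    exact (key t ht).sub (key 0 le_rfl)
  have hz := hmin.hasDerivAt_eq_zero (hGd.sub hWd)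
  linarith

theorem el_unique_key {ℓ : E × E → ℝ} {m C R : ℝ} (hm : 0 < m)
    (hlip : ∀ x v x' v' : E, ‖v‖ ≤ R → ‖v'‖ ≤ R →
      ‖fderiv ℝ ℓ (x, v) - fderiv ℝ ℓ (x', v')‖ ≤ C * ‖((x, v) : E × E) - (x', v')‖)
    (hconv : ∀ x v w : E, ‖v‖ ≤ R → ‖w‖ ≤ R →
      ℓ (x, v) + fderiv ℝ ℓ (x, v) (0, w - v) + m * ‖w - v‖ ^ 2 ≤ ℓ (x, w))
    (x v x' v' : E) (hv : ‖v‖ ≤ R) (hv' : ‖v'‖ ≤ R) :
    2 * m * ‖v - v'‖ ≤ C * ‖x - x'‖ +
      2 * ‖((fderiv ℝ ℓ (x, v) (0, (1, 0)) - fderiv ℝ ℓ (x', v') (0, (1, 0)),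
        fderiv ℝ ℓ (x, v) (0, (0, 1)) - fderiv ℝ ℓ (x', v') (0, (0, 1))) : E)‖ := by
  set w := v - v' with hw
  set D := fderiv ℝ ℓ (x, v) with hD
  set D' := fderiv ℝ ℓ (x', v') with hD'
  set D₁ := fderiv ℝ ℓ (x, v') with hD₁
  set Q₀ : E := (D (0, (1, 0)) - D' (0, (1, 0)), D (0, (0, 1)) - D' (0, (0, 1))) with hQ₀
  have c1 := hconv x v v' hv hv'
  have c2 := hconv x v' v hv' hv
  have e1 : ((0 : E), v' - v) = -((0 : E), w) := by
    rw [hw]; ext <;> simp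
  have e2 : ‖v' - v‖ = ‖w‖ := by rw [hw, norm_sub_rev]
  rw [e1, map_neg, e2] at c1
  rw [← hw] at c2
  have h1 : 2 * m * ‖w‖ ^ 2 ≤ D (0, w) - D₁ (0, w) := by linarith
  have h2 : D' (0, w) - D₁ (0, w) ≤ C * ‖x - x'‖ * ‖w‖ := by
    have h3 := hlip x' v' x v' hv' hv'
    have h4 : ‖((x', v') : E × E) - (x, v')‖ = ‖x - x'‖ := by
      rw [Prod.mk_sub_mk, sub_self, Prod.norm_mk, norm_zero, max_eq_left (norm_nonneg _),
        norm_sub_rev]
    rw [h4] at h3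
    have h5 : ‖(D' - D₁) (0, w)‖ ≤ ‖D' - D₁‖ * ‖((0 : E), w)‖ := ContinuousLinearMap.le_opNorm _ _
    have h6 : ‖((0 : E), w)‖ = ‖w‖ := by
      rw [Prod.norm_mk, norm_zero, max_eq_right (norm_nonneg _)]
    rw [h6] at h5
    have h7 : (D' - D₁) (0, w) = D' (0, w) - D₁ (0, w) := rfl
    rw [h7, Real.norm_eq_abs] at h5
    calc D' (0, w) - D₁ (0, w) ≤ |D' (0, w) - D₁ (0, w)| := le_abs_self _
      _ ≤ ‖D' - D₁‖ * ‖w‖ := h5
      _ ≤ _ := mul_le_mul_of_nonneg_right h3 (norm_nonneg _)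
  have h8 : D (0, w) - D' (0, w) ≤ 2 * ‖Q₀‖ * ‖w‖ := by
    have e3 : ((0 : E), w) = w.1 • ((0 : E), ((1, 0) : E)) + w.2 • ((0 : E), ((0, 1) : E)) := by
      ext <;> simp
    have e4 : D (0, w) - D' (0, w) = w.1 * Q₀.1 + w.2 * Q₀.2 := by
      rw [e3, map_add, map_add, map_smul, map_smul, map_smul, map_smul, hQ₀]
      simp only [smul_eq_mul]
      ring
    have b1 : |w.1| ≤ ‖w‖ := norm_fst_le w
    have b2 : |w.2| ≤ ‖w‖ := norm_snd_le w
    have b3 : |Q₀.1| ≤ ‖Q₀‖ := norm_fst_le Q₀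
    have b4 : |Q₀.2| ≤ ‖Q₀‖ := norm_snd_le Q₀
    rw [e4]
    calc w.1 * Q₀.1 + w.2 * Q₀.2 ≤ |w.1 * Q₀.1| + |w.2 * Q₀.2| :=
          add_le_add (le_abs_self _) (le_abs_self _)
      _ = |w.1| * |Q₀.1| + |w.2| * |Q₀.2| := by rw [abs_mul, abs_mul]
      _ ≤ ‖w‖ * ‖Q₀‖ + ‖w‖ * ‖Q₀‖ := by
          gcongr
      _ = _ := by ring
  have h9 : 2 * m * ‖w‖ ^ 2 ≤ (C * ‖x - x'‖ + 2 * ‖Q₀‖) * ‖w‖ := by linarith
  rcases (norm_nonneg w).eq_or_lt with h0 | h0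
  · rw [← h0, mul_zero]
    have hC : 0 ≤ C * ‖x - x'‖ := by
      have h3 := hlip x' v' x v' hv' hv'
      have h4 : ‖((x', v') : E × E) - (x, v')‖ = ‖x - x'‖ := by
        rw [Prod.mk_sub_mk, sub_self, Prod.norm_mk, norm_zero, max_eq_left (norm_nonneg _),
          norm_sub_rev]
      rw [h4] at h3
      exact (norm_nonneg _).trans h3
    positivity
  · have : (2 * m * ‖w‖) * ‖w‖ ≤ (C * ‖x - x'‖ + 2 * ‖Q₀‖) * ‖w‖ := by
      calc (2 * m * ‖w‖) * ‖w‖ = 2 * m * ‖w‖ ^ 2 := by ring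
        _ ≤ _ := h9
    exact le_of_mul_le_mul_right this h0

theorem el_unique_der {ℓ : E × E → ℝ} (h : Ton ℓ) {A V : ℝ → E}
    (hA : ∀ t, HasDerivAt A (V t) t) (hV : Continuous V)
    (hel : ∀ t, 0 ≤ t → ∀ ζ : E, fderiv ℝ ℓ (A t, V t) (0, ζ) =
      fderiv ℝ ℓ (A 0, V 0) (0, ζ) + ∫ s in (0:ℝ)..t, fderiv ℝ ℓ (A s, V s) (ζ, 0))
    (ζ : E) (t : ℝ) (ht : 0 ≤ t) :
    HasDerivWithinAt (fun t => fderiv ℝ ℓ (A t, V t) (0, ζ)) (fderiv ℝ ℓ (A t, V t) (ζ, 0))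
      (Ici t) t := by
  have hAc : Continuous A := continuous_iff_continuousAt.2 fun t => (hA t).continuousAt
  have hDc := el_integral_contD h
  have hqc : Continuous fun t => (A t, V t) := hAc.prodMk hV
  have hc : Continuous fun s => fderiv ℝ ℓ (A s, V s) (ζ, 0) :=
    (hDc.comp hqc).clm_apply continuous_const
  have h1 : HasDerivAt (fun t => fderiv ℝ ℓ (A 0, V 0) (0, ζ)
      + ∫ s in (0:ℝ)..t, fderiv ℝ ℓ (A s, V s) (ζ, 0)) (fderiv ℝ ℓ (A t, V t) (ζ, 0)) t := by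
    apply HasDerivAt.const_add
    exact intervalIntegral.integral_hasDerivAt_right (hc.intervalIntegrable _ _)
      (hc.stronglyMeasurableAtFilter _ _) hc.continuousAt
  apply h1.hasDerivWithinAt.congr
  · intro s hs
    exact hel s (ht.trans hs) ζ
  · exact hel t ht ζ

theorem el_unique {ℓ : E × E → ℝ} (h : Ton ℓ)
    (hlipD : ∀ R : ℝ, ∃ C : ℝ, 0 ≤ C ∧ ∀ x v x' v' : E, ‖v‖ ≤ R → ‖v'‖ ≤ R →
      ‖fderiv ℝ ℓ (x, v) - fderiv ℝ ℓ (x', v')‖ ≤ C * ‖((x, v) : E × E) - (x', v')‖)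
    (hconv : ∀ R : ℝ, ∃ m : ℝ, 0 < m ∧ ∀ x v w : E, ‖v‖ ≤ R → ‖w‖ ≤ R →
      ℓ (x, v) + fderiv ℝ ℓ (x, v) (0, w - v) + m * ‖w - v‖ ^ 2 ≤ ℓ (x, w))
    {A V A' V' : ℝ → E} (hA : ∀ t, HasDerivAt A (V t) t) (hV : Continuous V)
    (hA' : ∀ t, HasDerivAt A' (V' t) t) (hV' : Continuous V')
    (hel : ∀ t, 0 ≤ t → ∀ ζ : E, fderiv ℝ ℓ (A t, V t) (0, ζ) =
      fderiv ℝ ℓ (A 0, V 0) (0, ζ) + ∫ s in (0:ℝ)..t, fderiv ℝ ℓ (A s, V s) (ζ, 0))
    (hel' : ∀ t, 0 ≤ t → ∀ ζ : E, fderiv ℝ ℓ (A' t, V' t) (0, ζ) =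
      fderiv ℝ ℓ (A' 0, V' 0) (0, ζ) + ∫ s in (0:ℝ)..t, fderiv ℝ ℓ (A' s, V' s) (ζ, 0))
    (h0 : A 0 = A' 0) (h1 : V 0 = V' 0) : ∀ t, 0 ≤ t → A t = A' t ∧ V t = V' t := by
  intro T hT
  have hAc : Continuous A := continuous_iff_continuousAt.2 fun t => (hA t).continuousAt
  have hAc' : Continuous A' := continuous_iff_continuousAt.2 fun t => (hA' t).continuousAt
  have hDc := el_integral_contD h
  have hqc : Continuous fun t => (A t, V t) := hAc.prodMk hV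
  have hqc' : Continuous fun t => (A' t, V' t) := hAc'.prodMk hV'
  obtain ⟨R₁, hR₁⟩ := (isCompact_Icc : IsCompact (Icc (0 : ℝ) T)).exists_bound_of_continuousOn
    hV.continuousOn
  obtain ⟨R₂, hR₂⟩ := (isCompact_Icc : IsCompact (Icc (0 : ℝ) T)).exists_bound_of_continuousOn
    hV'.continuousOn
  set R := max R₁ R₂ with hR
  obtain ⟨C, hC, hlip⟩ := hlipD R
  obtain ⟨m, hm, hcv⟩ := hconv R
  set p : ℝ → E := fun t => (fderiv ℝ ℓ (A t, V t) (0, (1, 0)) - fderiv ℝ ℓ (A' t, V' t) (0, (1, 0)),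
    fderiv ℝ ℓ (A t, V t) (0, (0, 1)) - fderiv ℝ ℓ (A' t, V' t) (0, (0, 1))) with hp
  set dp : ℝ → E := fun t => (fderiv ℝ ℓ (A t, V t) ((1, 0), 0) - fderiv ℝ ℓ (A' t, V' t) ((1, 0), 0),
    fderiv ℝ ℓ (A t, V t) ((0, 1), 0) - fderiv ℝ ℓ (A' t, V' t) ((0, 1), 0)) with hdp
  set Y : ℝ → E × E := fun t => (A t - A' t, p t) with hY
  have hkey : ∀ t ∈ Icc (0 : ℝ) T, 2 * m * ‖V t - V' t‖ ≤ (C + 2) * ‖Y t‖ := by
    intro t ht
    have k1 := el_unique_key hm hlip hcv (A t) (V t) (A' t) (V' t)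
      ((hR₁ t ht).trans (le_max_left _ _)) ((hR₂ t ht).trans (le_max_right _ _))
    have k2 : ‖A t - A' t‖ ≤ ‖Y t‖ := norm_fst_le (Y t)
    have k3 : ‖p t‖ ≤ ‖Y t‖ := norm_snd_le (Y t)
    calc 2 * m * ‖V t - V' t‖ ≤ C * ‖A t - A' t‖ + 2 * ‖p t‖ := k1
      _ ≤ C * ‖Y t‖ + 2 * ‖Y t‖ := by gcongr
      _ = _ := by ring
  set L := (C + 2) / (2 * m) with hL
  have hL0 : 0 ≤ L := by positivity
  have hkey' : ∀ t ∈ Icc (0 : ℝ) T, ‖V t - V' t‖ ≤ L * ‖Y t‖ := by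
    intro t ht
    have := hkey t ht
    rw [hL, div_mul_eq_mul_div, le_div_iff₀ (by positivity)]
    linarith
  have hdD : ∀ t ∈ Icc (0 : ℝ) T, ‖fderiv ℝ ℓ (A t, V t) - fderiv ℝ ℓ (A' t, V' t)‖
      ≤ C * ((1 + L) * ‖Y t‖) := by
    intro t ht
    refine (hlip _ _ _ _ ((hR₁ t ht).trans (le_max_left _ _))
      ((hR₂ t ht).trans (le_max_right _ _))).trans ?_
    apply mul_le_mul_of_nonneg_left _ hC
    rw [Prod.mk_sub_mk, Prod.norm_mk]
    have k2 : ‖A t - A' t‖ ≤ ‖Y t‖ := norm_fst_le (Y t)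
    have k4 := hkey' t ht
    have k5 : 0 ≤ ‖Y t‖ := norm_nonneg _
    apply max_le
    · nlinarith
    · nlinarith
  have hYc : ContinuousOn Y (Icc 0 T) := by
    apply Continuous.continuousOn
    have c1 : ∀ e : E × E, Continuous fun t => fderiv ℝ ℓ (A t, V t) e := fun e =>
      (hDc.comp hqc).clm_apply continuous_const
    have c2 : ∀ e : E × E, Continuous fun t => fderiv ℝ ℓ (A' t, V' t) e := fun e =>
      (hDc.comp hqc').clm_apply continuous_const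
    exact (hAc.sub hAc').prodMk (((c1 _).sub (c2 _)).prodMk ((c1 _).sub (c2 _)))
  have hYd : ∀ t ∈ Ico (0 : ℝ) T, HasDerivWithinAt Y (V t - V' t, dp t) (Ici t) t := by
    intro t ht
    have d1 : ∀ ζ, HasDerivWithinAt (fun t => fderiv ℝ ℓ (A t, V t) (0, ζ))
        (fderiv ℝ ℓ (A t, V t) (ζ, 0)) (Ici t) t := fun ζ =>
      el_unique_der h hA hV hel ζ t ht.1
    have d2 : ∀ ζ, HasDerivWithinAt (fun t => fderiv ℝ ℓ (A' t, V' t) (0, ζ))
        (fderiv ℝ ℓ (A' t, V' t) (ζ, 0)) (Ici t) t := fun ζ =>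
      el_unique_der h hA' hV' hel' ζ t ht.1
    exact ((hA t).sub (hA' t)).hasDerivWithinAt.prodMk
      (((d1 _).sub (d2 _)).prodMk ((d1 _).sub (d2 _)))
  have hY0 : ‖Y 0‖ ≤ 0 := by
    have : Y 0 = 0 := by
      simp only [hY, hp, h0, h1, sub_self]
      rfl
    rw [this, norm_zero]
  have hbound : ∀ t ∈ Ico (0 : ℝ) T, ‖((V t - V' t, dp t) : E × E)‖
      ≤ (L + C * (1 + L)) * ‖Y t‖ + 0 := by
    intro t ht
    have ht' : t ∈ Icc (0 : ℝ) T := ⟨ht.1, ht.2.le⟩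
    have k4 := hkey' t ht'
    have k5 : 0 ≤ ‖Y t‖ := norm_nonneg _
    have k6 := hdD t ht'
    have hCL : 0 ≤ C * (1 + L) := by positivity
    rw [add_zero, Prod.norm_mk]
    apply max_le
    · nlinarith [mul_nonneg hCL k5]
    · have e1 : ∀ e : E × E, ‖e‖ ≤ 1 →
          ‖fderiv ℝ ℓ (A t, V t) e - fderiv ℝ ℓ (A' t, V' t) e‖ ≤ C * ((1 + L) * ‖Y t‖) := by
        intro e he
        have e2 : fderiv ℝ ℓ (A t, V t) e - fderiv ℝ ℓ (A' t, V' t) e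
            = (fderiv ℝ ℓ (A t, V t) - fderiv ℝ ℓ (A' t, V' t)) e := rfl
        rw [e2]
        refine (ContinuousLinearMap.le_opNorm _ _).trans ?_
        calc ‖fderiv ℝ ℓ (A t, V t) - fderiv ℝ ℓ (A' t, V' t)‖ * ‖e‖
            ≤ ‖fderiv ℝ ℓ (A t, V t) - fderiv ℝ ℓ (A' t, V' t)‖ * 1 :=
              mul_le_mul_of_nonneg_left he (norm_nonneg _)
          _ ≤ _ := by rw [mul_one]; exact k6
      have e3 : ‖dp t‖ ≤ C * ((1 + L) * ‖Y t‖) := by
        rw [hdp, Prod.norm_mk]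
        apply max_le
        · apply e1
          simp [Prod.norm_mk]
        · apply e1
          simp [Prod.norm_mk]
      nlinarith [mul_nonneg hL0 k5]
  have hfin := norm_le_gronwallBound_of_norm_deriv_right_le hYc hYd hY0 hbound T ⟨hT, le_rfl⟩
  rw [gronwallBound_ε0_δ0] at hfin
  have hYT : ‖Y T‖ = 0 := le_antisymm hfin (norm_nonneg _)
  have k2 : ‖A T - A' T‖ ≤ ‖Y T‖ := norm_fst_le (Y T)
  have k4 := hkey' T ⟨hT, le_rfl⟩
  rw [hYT] at k2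
  rw [hYT, mul_zero] at k4
  exact ⟨sub_eq_zero.1 (norm_le_zero_iff.1 k2), sub_eq_zero.1 (norm_le_zero_iff.1 k4)⟩

end Pool.H110M
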