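import Mathlib
import Pool.Agent.Helper110.MDefs
set_option autoImplicit false
open MeasureTheory Set Filter Topology
namespace Pool.H110M


theorem krylov {X : Type*} [MetricSpace X] [SecondCountableTopology X] [MeasurableSpace X]
    [BorelSpace X] (Φ : Flow ℝ X) (z : X) (Kc : Set X) (hK : IsCompact Kc)
    (hz : ∀ t : ℝ, 0 ≤ t → Φ t z ∈ Kc) (F : X → ℝ) (hF : Continuous F) (B : ℝ)
    (hB : ∀ t : ℝ, 0 ≤ t → ∫ s in (0:ℝ)..t, F (Φ s z) ≤ B) :
    ∃ μ : Measure X, IsProbabilityMeasure μ ∧ (∀ t : ℝ, μ.map (Φ t) = μ) ∧ μ Kcᶜ = 0 ∧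
      ∫ x, F x ∂μ ≤ 0 := by
  have hKc : CompactSpace Kc := isCompact_iff_compactSpace.1 hK
  have hKm : MeasurableSet Kc := hK.measurableSet
  have hcont : Continuous fun t : ℝ => Φ t z := Φ.continuous continuous_id continuous_const
  set γ : ℝ → Kc := fun t => ⟨Φ (max t 0) z, hz _ (le_max_right _ _)⟩ with hγ
  have hγc : Continuous γ :=
    Continuous.subtype_mk (hcont.comp (continuous_id.max continuous_const)) _
  -- the time averages
  set lamn : ℕ → Measure ℝ := fun n => (ENNReal.ofReal ((n:ℝ) + 1))⁻¹ • (volume.restrict (Ioc (0:ℝ) ((n:ℝ) + 1))) with hlamn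
  have hNpos : ∀ n : ℕ, (0:ℝ) < (n:ℝ) + 1 := fun n => by positivity
  have hlamp : ∀ n, IsProbabilityMeasure (lamn n) := by
    intro n
    refine ⟨?_⟩
    rw [hlamn]
    simp only [Measure.smul_apply, MeasurableSet.univ, Measure.restrict_apply, univ_inter, Real.volume_Ioc,
      sub_zero, smul_eq_mul]
    exact ENNReal.inv_mul_cancel (by simpa using hNpos n) ENNReal.ofReal_ne_top
  set mun : ℕ → ProbabilityMeasure Kc := fun n => ⟨(lamn n).map γ,
    Measure.isProbabilityMeasure_map hγc.measurable.aemeasurable⟩ with hmun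
  have hint : ∀ (n : ℕ) (g : Kc → ℝ), Continuous g → ∫ x, g x ∂((mun n : ProbabilityMeasure Kc) : Measure Kc) =
      ((n:ℝ) + 1)⁻¹ * ∫ t in (0:ℝ)..((n:ℝ) + 1), g (γ t) := by
    intro n g hg
    have e1 : ∫ x, g x ∂((mun n : ProbabilityMeasure Kc) : Measure Kc) = ∫ t, g (γ t) ∂(lamn n) :=
      integral_map hγc.measurable.aemeasurable hg.aestronglyMeasurable
    rw [e1, hlamn]
    simp only
    rw [integral_smul_measure, intervalIntegral.integral_of_le (hNpos n).le, ENNReal.toReal_inv,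
      ENNReal.toReal_ofReal (hNpos n).le, smul_eq_mul]
  -- limit along an ultrafilter
  set U : Ultrafilter ℕ := hyperfilter ℕ with hU
  have hUtop : (U : Filter ℕ) ≤ atTop := Nat.hyperfilter_le_atTop
  obtain ⟨mu', hmu'⟩ : ∃ mu' : ProbabilityMeasure Kc, Tendsto mun U (𝓝 mu') :=
    ⟨_, (U.map mun).le_nhds_lim⟩
  rw [ProbabilityMeasure.tendsto_iff_forall_integral_tendsto] at hmu'
  set μ : Measure X := (mu' : Measure Kc).map Subtype.val with hμ
  have hμp : IsProbabilityMeasure μ := Measure.isProbabilityMeasure_map measurable_subtype_coe.aemeasurable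
  have lim : ∀ f : X → ℝ, Continuous f →
      Tendsto (fun n : ℕ => ((n:ℝ) + 1)⁻¹ * ∫ t in (0:ℝ)..((n:ℝ) + 1), f (Φ t z)) U (𝓝 (∫ x, f x ∂μ)) := by
    intro f hf
    have h1 := hmu' (BoundedContinuousFunction.mkOfCompact ⟨fun x : Kc => f x, hf.comp continuous_subtype_val⟩)
    have e1 : ∫ x, f x ∂μ = ∫ x : Kc, f x ∂(mu' : Measure Kc) :=
      integral_map measurable_subtype_coe.aemeasurable hf.aestronglyMeasurable
    rw [e1]
    refine h1.congr fun n => ?_
    have e2 := hint n (fun x : Kc => f x) (hf.comp continuous_subtype_val)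
    refine e2.trans ?_
    congr 1
    refine intervalIntegral.integral_congr fun t ht => ?_
    rw [uIcc_of_le (hNpos n).le] at ht
    simp only [hγ]
    rw [max_eq_left ht.1]
  have hinv0 : Tendsto (fun n : ℕ => ((n:ℝ) + 1)⁻¹) U (𝓝 0) := by
    have : Tendsto (fun n : ℕ => ((n:ℝ) + 1)⁻¹) atTop (𝓝 0) := by
      simpa only [one_div] using tendsto_one_div_add_atTop_nhds_zero_nat (𝕜 := ℝ)
    exact this.mono_left hUtop
  refine ⟨μ, hμp, ?_, ?_, ?_⟩
  · intro s
    have hs : Continuous (Φ s) := Φ.continuous continuous_const continuous_id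
    have : IsProbabilityMeasure (μ.map (Φ s)) := Measure.isProbabilityMeasure_map hs.measurable.aemeasurable
    refine ext_of_forall_integral_eq_of_IsFiniteMeasure fun f => ?_
    rw [integral_map hs.measurable.aemeasurable f.continuous.aestronglyMeasurable]
    have l1 := lim (fun x => f (Φ s x)) (f.continuous.comp hs)
    have l2 := lim f f.continuous
    have l3 := l1.sub l2
    have hfi : ∀ a b : ℝ, IntervalIntegrable (fun t => f (Φ t z)) volume a b := fun a b =>
      (f.continuous.comp hcont).intervalIntegrable a b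
    have l4 : Tendsto (fun n : ℕ => ((n:ℝ) + 1)⁻¹ * (∫ t in (0:ℝ)..((n:ℝ) + 1), f (Φ s (Φ t z))) -
        ((n:ℝ) + 1)⁻¹ * ∫ t in (0:ℝ)..((n:ℝ) + 1), f (Φ t z)) U (𝓝 0) := by
      have bound : ∀ n : ℕ, ‖((n:ℝ) + 1)⁻¹ * (∫ t in (0:ℝ)..((n:ℝ) + 1), f (Φ s (Φ t z))) -
        ((n:ℝ) + 1)⁻¹ * ∫ t in (0:ℝ)..((n:ℝ) + 1), f (Φ t z)‖ ≤ ((n:ℝ) + 1)⁻¹ * (2 * (‖f‖ * |s|)) := by
        intro n
        have e1 : ∫ t in (0:ℝ)..((n:ℝ) + 1), f (Φ s (Φ t z)) = ∫ t in (s + 0)..(s + ((n:ℝ) + 1)), f (Φ t z) := by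
          rw [← intervalIntegral.integral_comp_add_left (fun t => f (Φ t z)) s]
          refine intervalIntegral.integral_congr fun t _ => ?_
          rw [Φ.map_add]
        rw [e1, ← mul_sub, norm_mul, norm_inv, Real.norm_of_nonneg (hNpos n).le]
        refine mul_le_mul_of_nonneg_left ?_ (inv_nonneg.2 (hNpos n).le)
        rw [intervalIntegral.integral_interval_sub_interval_comm (hfi _ _) (hfi _ _) (hfi _ _)]
        refine (norm_sub_le _ _).trans ?_
        have b1 : ‖∫ t in (s + 0)..(0:ℝ), f (Φ t z)‖ ≤ ‖f‖ * |0 - (s + 0)| :=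
          intervalIntegral.norm_integral_le_of_norm_le_const fun t _ => f.norm_coe_le_norm _
        have b2 : ‖∫ t in (s + ((n:ℝ) + 1))..((n:ℝ) + 1), f (Φ t z)‖ ≤ ‖f‖ * |((n:ℝ) + 1) - (s + ((n:ℝ) + 1))| :=
          intervalIntegral.norm_integral_le_of_norm_le_const fun t _ => f.norm_coe_le_norm _
        have c1 : |0 - (s + 0)| = |s| := by rw [add_zero, zero_sub, abs_neg]
        have c2 : |((n:ℝ) + 1) - (s + ((n:ℝ) + 1))| = |s| := by
          rw [show ((n:ℝ) + 1) - (s + ((n:ℝ) + 1)) = -s by ring, abs_neg]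
        rw [c1] at b1
        rw [c2] at b2
        linarith
      refine squeeze_zero_norm bound ?_
      simpa using hinv0.mul_const (2 * (‖f‖ * |s|))
    have := tendsto_nhds_unique l3 l4
    linarith
  · rw [hμ, Measure.map_apply measurable_subtype_coe hKm.compl]
    have : (Subtype.val ⁻¹' Kcᶜ : Set Kc) = ∅ := by
      ext x
      simp
    rw [this, measure_empty]
  · have l1 := lim F hF
    have l2 : Tendsto (fun n : ℕ => ((n:ℝ) + 1)⁻¹ * B) U (𝓝 0) := by
      simpa using hinv0.mul_const B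
    refine le_of_tendsto_of_tendsto' l1 l2 fun n => ?_
    exact mul_le_mul_of_nonneg_left (hB _ (hNpos n).le) (inv_nonneg.2 (hNpos n).le)

end Pool.H110M

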