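import Mathlib

/-! Definitions of Aubry-Mather theory for autonomous Tonelli Lagrangians on the two-torus
`T² = ℝ²/ℤ²`.  The tangent bundle is `T² × ℝ²`, `H₁(T²,ℝ) = ℝ²` and `H¹(T²,ℝ)` is the dual of `ℝ²`
(constant one-forms). -/

set_option autoImplicit false
open MeasureTheory Set

noncomputable section
namespace Pool.Agent.MatherTorus

/-- The plane `ℝ²`. -/
abbrev Plane := ℝ × ℝ

/-- The two-torus `T² = ℝ²/ℤ²`. -/
abbrev Torus := AddCircle (1 : ℝ) × AddCircle (1 : ℝ)

/-- The tangent bundle `T T² = T² × ℝ²`. -/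
abbrev TTorus := Torus × Plane

/-- The universal covering `ℝ² → T²`. -/
def proj (x : Plane) : Torus := ((x.1 : AddCircle (1 : ℝ)), (x.2 : AddCircle (1 : ℝ)))

/-- The lift of a Lagrangian on `T T²` to the tangent bundle `ℝ² × ℝ²` of the plane. -/
def lift (L : TTorus → ℝ) : Plane × Plane → ℝ := fun q => L (proj q.1, q.2)

/-- Autonomous Tonelli Lagrangians on `T²`: `C²`, with positive definite fibre Hessian (every
second derivative of `L` in a nonzero fibre direction is positive), fibrewise superlinear. -/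
structure IsTonelli (L : TTorus → ℝ) : Prop where
  smooth : ContDiff ℝ 2 (lift L)
  convex : ∀ x v w : Plane, w ≠ 0 →
    0 < iteratedDeriv 2 (fun s : ℝ => lift L (x, v + s • w)) 0
  superlinear : ∀ (x : Torus) (K : ℝ), ∃ B : ℝ, ∀ v : Plane, K * ‖v‖ - B ≤ L (x, v)

/-- `Φ` is the Euler-Lagrange flow of `L` on `T T²`: a continuous flow whose orbit through
`(x, v)` is `t ↦ (γ t, γ̇ t)` for a solution `γ` of the Euler-Lagrange equation
`d/dt (∂L/∂v)(γ, γ̇) = (∂L/∂x)(γ, γ̇)` (written in the universal cover). -/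
def IsEulerLagrangeFlow (L : TTorus → ℝ) (Φ : Flow ℝ TTorus) : Prop :=
  ∀ x v : Plane, ∃ γ γ' : ℝ → Plane, γ 0 = x ∧ γ' 0 = v ∧
    (∀ t, Φ t (proj x, v) = (proj (γ t), γ' t)) ∧ (∀ t, HasDerivAt γ (γ' t) t) ∧
    ∀ t, HasDerivAt
      (fun s => (fderiv ℝ (lift L) (γ s, γ' s)).comp (ContinuousLinearMap.inr ℝ Plane Plane))
      ((fderiv ℝ (lift L) (γ t, γ' t)).comp (ContinuousLinearMap.inl ℝ Plane Plane)) t

/-- Invariant Borel probability measures of the flow with finite action. -/
structure IsInvariantMeasure (L : TTorus → ℝ) (Φ : Flow ℝ TTorus) (μ : Measure TTorus) : Prop where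
  prob : IsProbabilityMeasure μ
  invariant : ∀ t : ℝ, μ.map (Φ t) = μ
  integrable : Integrable L μ

/-- The rotation vector of `μ` in `H₁(T²,ℝ) = ℝ²`. -/
def rotVec (μ : Measure TTorus) : Plane := ∫ z, z.2 ∂μ

/-- `β` is Mather's minimal average action: `β h` is the minimum of the action `∫ L dμ` over the
invariant probability measures `μ` with rotation vector `h`. -/
def IsBeta (L : TTorus → ℝ) (Φ : Flow ℝ TTorus) (β : Plane → ℝ) : Prop :=
  ∀ h : Plane, IsLeast
    {a : ℝ | ∃ μ : Measure TTorus, IsInvariantMeasure L Φ μ ∧ rotVec μ = h ∧ ∫ z, L z ∂μ = a}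
    (β h)

/-- `μ` is `c`-minimising: it minimises `∫ (L - c) dμ` among invariant probability measures. -/
def IsMinimizing (L : TTorus → ℝ) (Φ : Flow ℝ TTorus) (c : Plane →L[ℝ] ℝ)
    (μ : Measure TTorus) : Prop :=
  IsInvariantMeasure L Φ μ ∧ ∀ ν : Measure TTorus, IsInvariantMeasure L Φ ν →
    ∫ z, (L z - c z.2) ∂μ ≤ ∫ z, (L z - c z.2) ∂ν

/-- The Mather set of the cohomology class `c`: the closure in `T T²` of the union of the
supports of the `c`-minimising measures. -/
def matherSet (L : TTorus → ℝ) (Φ : Flow ℝ TTorus) (c : Plane →L[ℝ] ℝ) : Set TTorus :=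
  closure {z | ∃ μ : Measure TTorus, IsMinimizing L Φ c μ ∧ z ∈ μ.support}

/-- `p` is a fixed point of the flow. -/
def IsFixedPt (Φ : Flow ℝ TTorus) (p : TTorus) : Prop := ∀ t : ℝ, Φ t p = p

/-- A nonempty compact invariant set of `Φ` which contains no fixed point and no periodic orbit.
(A compact invariant set, free of fixed points, that projects to a one-dimensional lamination none
of whose leaves is a closed curve has this property: the projection of a periodic orbit would be a
closed leaf.) -/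
structure IsAperiodic (Φ : Flow ℝ TTorus) (Λ : Set TTorus) : Prop where
  nonempty : Λ.Nonempty
  compact : IsCompact Λ
  invariant : ∀ t : ℝ, ∀ z ∈ Λ, Φ t z ∈ Λ
  aperiodic : ∀ z ∈ Λ, ∀ t : ℝ, 0 < t → Φ t z ≠ z

end Pool.Agent.MatherTorus
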