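import Mathlib
import Pool.Agent.Helper110.MDefs
import Pool.Agent.Helper110.MatherDefs

set_option autoImplicit false
open MeasureTheory Set Filter Topology

noncomputable section
namespace Pool.H110M
open Pool.Agent.MatherTorus


/-- fibre convexity along rays -/
lemma su_convex {ℓ : E × E → ℝ} (hs : ContDiff ℝ 2 ℓ)
    (hpos : ∀ x v w : E, w ≠ 0 → 0 < iteratedDeriv 2 (fun s : ℝ => ℓ (x, v + s • w)) 0)
    (x v : E) : ConvexOn ℝ univ (fun s : ℝ => ℓ (x, s • v)) := by
  by_cases hv : v = 0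
  · subst hv
    simp only [smul_zero]
    exact convexOn_const _ convex_univ
  have hc : ContDiff ℝ 2 (fun s : ℝ => ℓ (x, s • v)) := by
    apply hs.comp
    fun_prop
  have h1 : ContDiff ℝ 1 (deriv (fun s : ℝ => ℓ (x, s • v))) := by
    have h2 : (2 : WithTop ℕ∞) = 1 + 1 := by norm_num
    rw [h2] at hc
    exact ((contDiff_succ_iff_deriv).1 hc).2.2
  apply convexOn_univ_of_deriv2_nonneg (hc.differentiable (by norm_num))
    (h1.differentiable (by norm_num))
  intro s
  have h3 := hpos x (s • v) v hv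
  have h4 : (fun σ : ℝ => ℓ (x, s • v + σ • v)) =
      (fun σ : ℝ => (fun t : ℝ => ℓ (x, t • v)) (s + σ)) := by
    funext σ
    simp only [add_smul]
  have h5 : iteratedDeriv 2 (fun σ : ℝ => ℓ (x, s • v + σ • v)) 0 =
      iteratedDeriv 2 (fun t : ℝ => ℓ (x, t • v)) (s + 0) := by
    rw [h4]
    exact congrFun (iteratedDeriv_comp_const_add 2 (fun t : ℝ => ℓ (x, t • v)) s) 0
  rw [h5, add_zero, iteratedDeriv_eq_iterate] at h3
  exact h3.le

theorem superlin_uniform {ℓ : E × E → ℝ} (hs : ContDiff ℝ 2 ℓ)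
    (hp : ∀ (x v : E) (k : ℤ × ℤ), ℓ (x + iv k, v) = ℓ (x, v))
    (hpos : ∀ x v w : E, w ≠ 0 → 0 < iteratedDeriv 2 (fun s : ℝ => ℓ (x, v + s • w)) 0)
    (hsup : ∀ (x : E) (K : ℝ), ∃ B : ℝ, ∀ v : E, K * ‖v‖ - B ≤ ℓ (x, v)) :
    ∀ K : ℝ, ∃ B : ℝ, ∀ x v : E, K * ‖v‖ - B ≤ ℓ (x, v) := by
  have hcont : Continuous ℓ := hs.continuous
  have main : ∀ K : ℝ, 0 ≤ K → ∃ B : ℝ, ∀ x ∈ Metric.closedBall (0 : E) 1, ∀ v : E,
      K * ‖v‖ - B ≤ ℓ (x, v) := by
    intro K hK
    refine (isCompact_closedBall (0 : E) 1).induction_on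
      (p := fun S => ∃ B : ℝ, ∀ x ∈ S, ∀ v : E, K * ‖v‖ - B ≤ ℓ (x, v)) ?_ ?_ ?_ ?_
    · exact ⟨0, fun x hx => absurd hx (Set.notMem_empty x)⟩
    · rintro s t hst ⟨B, hB⟩
      exact ⟨B, fun x hx => hB x (hst hx)⟩
    · rintro s t ⟨B, hB⟩ ⟨B', hB'⟩
      refine ⟨max B B', fun x hx v => ?_⟩
      rcases hx with hx | hx
      · exact (sub_le_sub_left (le_max_left B B') _).trans (hB x hx v)
      · exact (sub_le_sub_left (le_max_right B B') _).trans (hB' x hx v)
    · intro x0 _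
      obtain ⟨B, hB⟩ := hsup x0 (K + 2)
      set r : ℝ := max 1 (B + ℓ (x0, 0) + 1) with hr
      have hr1 : 1 ≤ r := le_max_left _ _
      have hr2 : B + ℓ (x0, 0) + 1 ≤ r := le_max_right _ _
      have hr0 : 0 < r := by linarith
      have hsph : ∀ u ∈ Metric.sphere (0 : E) r, (K + 1) * r < ℓ (x0, u) - ℓ (x0, 0) := by
        intro u hu
        have hu' : ‖u‖ = r := by rwa [mem_sphere_zero_iff_norm] at hu
        have := hB u
        rw [hu'] at this
        nlinarith
      have hev1 : ∀ᶠ y in 𝓝 x0, ∀ u ∈ Metric.sphere (0 : E) r,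
          (K + 1) * r < ℓ (y, u) - ℓ (y, 0) := by
        apply (isCompact_sphere (0 : E) r).eventually_forall_of_forall_eventually
        intro u hu
        have hc : Continuous (fun z : E × E => ℓ (z.1, z.2) - ℓ (z.1, 0)) := by
          apply Continuous.sub
          · exact hcont.comp (by fun_prop)
          · exact hcont.comp (by fun_prop)
        exact hc.tendsto (x0, u) |>.eventually (lt_mem_nhds (hsph u hu))
      obtain ⟨M, hM⟩ : ∃ M : ℝ, ∀ v ∈ Metric.closedBall (0 : E) r, -M < ℓ (x0, v) := by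
        have hc : Continuous (fun v : E => ℓ (x0, v)) := hcont.comp (by fun_prop)
        obtain ⟨M, hM⟩ := (isCompact_closedBall (0 : E) r).bddBelow_image hc.continuousOn
        refine ⟨1 - M, fun v hv => ?_⟩
        have := hM ⟨v, hv, rfl⟩
        simp only at this
        linarith
      have hev2 : ∀ᶠ y in 𝓝 x0, ∀ v ∈ Metric.closedBall (0 : E) r, -M < ℓ (y, v) := by
        apply (isCompact_closedBall (0 : E) r).eventually_forall_of_forall_eventually
        intro v hv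
        have hc : Continuous (fun z : E × E => ℓ (z.1, z.2)) := hcont.comp (by fun_prop)
        exact hc.tendsto (x0, v) |>.eventually (lt_mem_nhds (hM v hv))
      refine ⟨{y | (∀ u ∈ Metric.sphere (0 : E) r, (K + 1) * r < ℓ (y, u) - ℓ (y, 0)) ∧
        ∀ v ∈ Metric.closedBall (0 : E) r, -M < ℓ (y, v)},
        mem_nhdsWithin_of_mem_nhds (hev1.and hev2), K * r + M, ?_⟩
      rintro y ⟨h1, h2⟩ v
      rcases le_or_gt ‖v‖ r with hv | hv
      · have := h2 v (by rwa [mem_closedBall_zero_iff])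
        nlinarith [mul_le_mul_of_nonneg_left hv hK]
      · have hvpos : 0 < ‖v‖ := hr0.trans hv
        set ρ : ℝ := r / ‖v‖ with hρ
        have hρ0 : 0 < ρ := div_pos hr0 hvpos
        have hρ1 : ρ < 1 := by rw [hρ, div_lt_one hvpos]; exact hv
        have hu : ‖ρ • v‖ = r := by
          rw [norm_smul, Real.norm_eq_abs, abs_of_pos hρ0, hρ, div_mul_cancel₀ _ hvpos.ne']
        have h3 := h1 (ρ • v) (by rw [mem_sphere_zero_iff_norm]; exact hu)
        have h4 := h2 0 (by rw [mem_closedBall_zero_iff, norm_zero]; exact hr0.le)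
        have h5 := (su_convex hs hpos y v).2 (mem_univ (0 : ℝ)) (mem_univ (1 : ℝ))
          (show 0 ≤ 1 - ρ by linarith) hρ0.le (by ring)
        simp only [smul_eq_mul, mul_zero, mul_one, zero_add, zero_smul, one_smul] at h5
        have h6 : ρ * ‖v‖ = r := by rw [hρ, div_mul_cancel₀ _ hvpos.ne']
        -- ρ ℓ(y,v) ≥ ρ ℓ(y,0) + (K+1) r
        have h7 : ρ * ((K + 1) * ‖v‖ + ℓ (y, 0)) ≤ ρ * ℓ (y, v) := by
          have : ρ * ((K + 1) * ‖v‖ + ℓ (y, 0)) = (K + 1) * r + ρ * ℓ (y, 0) := by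
            rw [← h6]; ring
          rw [this]
          linarith
        have h8 := le_of_mul_le_mul_left h7 hρ0
        nlinarith [mul_nonneg hK hr0.le]
  intro K
  obtain ⟨B, hB⟩ := main |K| (abs_nonneg K)
  refine ⟨B, fun x v => ?_⟩
  have hx : x = (Int.fract x.1, Int.fract x.2) + iv (⌊x.1⌋, ⌊x.2⌋) := by
    apply Prod.ext
    · simp [iv]
    · simp [iv]
  rw [hx, hp]
  have h1 := hB (Int.fract x.1, Int.fract x.2) (by
    rw [mem_closedBall_zero_iff, Prod.norm_def]
    apply max_le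
    · rw [Real.norm_eq_abs, abs_of_nonneg (Int.fract_nonneg _)]
      exact (Int.fract_lt_one _).le
    · rw [Real.norm_eq_abs, abs_of_nonneg (Int.fract_nonneg _)]
      exact (Int.fract_lt_one _).le) v
  have h2 : K * ‖v‖ ≤ |K| * ‖v‖ := mul_le_mul_of_nonneg_right (le_abs_self K) (norm_nonneg v)
  linarith

theorem Ton.affine {ℓ : E × E → ℝ} (h : Ton ℓ) (c : E →L[ℝ] ℝ) (m : ℝ) :
    Ton (fun q => ℓ q - c q.2 - m) := by
  refine ⟨?_, ?_, ?_, ?_⟩
  · exact (h.smooth.sub (c.contDiff.comp contDiff_snd)).sub contDiff_const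
  · intro x v k
    simp only [h.per]
  · intro x v w hw
    have hc : ContDiff ℝ 2 (fun s : ℝ => ℓ (x, v + s • w)) := by
      apply h.smooth.comp
      fun_prop
    have hd : Differentiable ℝ (fun s : ℝ => ℓ (x, v + s • w)) :=
      hc.differentiable (by norm_num)
    have h0 := h.posdef x v w hw
    have e1 : deriv (fun s : ℝ => ℓ (x, v + s • w) - c (v + s • w) - m) =
        fun s => deriv (fun s : ℝ => ℓ (x, v + s • w)) s - c w := by
      funext s
      have hc2 : HasDerivAt (fun s : ℝ => c (v + s • w)) (c w) s := by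
        have h1 : HasDerivAt (fun s : ℝ => v + s • w) ((1 : ℝ) • w) s :=
          ((hasDerivAt_id s).smul_const w).const_add v
        rw [one_smul] at h1
        exact c.hasFDerivAt.comp_hasDerivAt s h1
      exact (((hd s).hasDerivAt.sub hc2).sub_const m).deriv
    rw [iteratedDeriv_succ, iteratedDeriv_one] at h0 ⊢
    simp only at e1 ⊢
    rw [e1]
    rw [deriv_sub_const]
    exact h0
  · intro K
    obtain ⟨B, hB⟩ := h.superlin (K + ‖c‖)
    refine ⟨B + m, fun x v => ?_⟩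
    have h1 := hB x v
    have h2 : c v ≤ ‖c‖ * ‖v‖ := (le_abs_self _).trans (c.le_opNorm v)
    simp only
    nlinarith

theorem fderiv_affine {ℓ : E × E → ℝ} (h : Ton ℓ) (c : E →L[ℝ] ℝ) (m : ℝ) (q ζ : E × E) :
    fderiv ℝ (fun q => ℓ q - c q.2 - m) q ζ = fderiv ℝ ℓ q ζ - c ζ.2 := by
  have hd : Differentiable ℝ ℓ := h.smooth.differentiable (by norm_num)
  have h1 : HasFDerivAt (fun q : E × E => c q.2)
      (c.comp (ContinuousLinearMap.snd ℝ E E)) q :=
    (c.comp (ContinuousLinearMap.snd ℝ E E)).hasFDerivAt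
  have h2 : HasFDerivAt (fun q : E × E => ℓ q - c q.2 - m)
      (fderiv ℝ ℓ q - c.comp (ContinuousLinearMap.snd ℝ E E)) q :=
    ((hd q).hasFDerivAt.sub h1).sub_const m
  rw [h2.fderiv]
  rfl

theorem proj_eq_iff (x y : E) : proj x = proj y ↔ ∃ k : ℤ × ℤ, x = y + iv k := by
  have key : ∀ a b : ℝ, (a : AddCircle (1 : ℝ)) = (b : AddCircle (1 : ℝ)) ↔
      ∃ n : ℤ, a = b + n := by
    intro a b
    rw [← sub_eq_zero, ← AddCircle.coe_sub, AddCircle.coe_eq_zero_iff]
    constructor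
    · rintro ⟨n, hn⟩
      refine ⟨n, ?_⟩
      rw [zsmul_one] at hn
      linarith
    · rintro ⟨n, hn⟩
      refine ⟨n, ?_⟩
      rw [zsmul_one, hn]
      ring
  unfold proj
  rw [Prod.mk.injEq, key, key]
  constructor
  · rintro ⟨⟨n, hn⟩, ⟨m, hm⟩⟩
    exact ⟨(n, m), Prod.ext hn hm⟩
  · rintro ⟨⟨n, m⟩, h⟩
    exact ⟨⟨n, congrArg Prod.fst h⟩, ⟨m, congrArg Prod.snd h⟩⟩

theorem dist_proj_lt {x y : E} {δ : ℝ} (h : dist (proj x) (proj y) < δ) :
    ∃ k : ℤ × ℤ, ‖x - y - iv k‖ < δ := by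
  have key : ∀ a b : ℝ, dist (a : AddCircle (1 : ℝ)) (b : AddCircle (1 : ℝ)) =
      |a - b - round (a - b)| := by
    intro a b
    rw [dist_eq_norm, ← AddCircle.coe_sub, AddCircle.norm_eq]
    simp
  rw [Prod.dist_eq, max_lt_iff] at h
  unfold proj at h
  simp only [key] at h
  refine ⟨(round (x.1 - y.1), round (x.2 - y.2)), ?_⟩
  rw [Prod.norm_def, max_lt_iff]
  exact h

theorem proj_surjective : Function.Surjective proj := by
  rintro ⟨a, b⟩
  obtain ⟨a, rfl⟩ := QuotientAddGroup.mk_surjective a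
  obtain ⟨b, rfl⟩ := QuotientAddGroup.mk_surjective b
  exact ⟨(a, b), rfl⟩

theorem continuous_proj : Continuous proj := by
  unfold proj
  exact ((AddCircle.continuous_mk' (1 : ℝ)).comp continuous_fst).prodMk
    ((AddCircle.continuous_mk' (1 : ℝ)).comp continuous_snd)

theorem isOpenMap_proj : IsOpenMap proj := by
  have h1 : IsOpenMap (fun x : ℝ => (x : AddCircle (1 : ℝ))) := QuotientAddGroup.isOpenMap_coe
  exact h1.prodMap h1

end Pool.H110M
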