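import Mathlib
import Pool.Agent.Helper110.MDefs
import Pool.Agent.Helper110.MatherDefs

set_option autoImplicit false
open MeasureTheory Set Filter Topology

noncomputable section
namespace Pool.H110M
open Pool.Agent.MatherTorus


/-- one coordinate section -/
def s1 (b : ℝ) (c : AddCircle (1:ℝ)) : ℝ := (AddCircle.equivIco (1:ℝ) (b - 1/2) c : ℝ)

theorem s1_mem (b : ℝ) (c : AddCircle (1:ℝ)) : s1 b c ∈ Ico (b - 1/2) (b - 1/2 + 1) :=
  (AddCircle.equivIco (1:ℝ) (b - 1/2) c).2

theorem s1_coe (b : ℝ) (c : AddCircle (1:ℝ)) : ((s1 b c : ℝ) : AddCircle (1:ℝ)) = c :=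
  AddCircle.coe_equivIco

theorem s1_meas (b : ℝ) : Measurable (s1 b) :=
  measurable_subtype_coe.comp (AddCircle.measurableEquivIco (1:ℝ) (b - 1/2)).measurable

theorem s1_self (b : ℝ) : s1 b (b : AddCircle (1:ℝ)) = b := by
  unfold s1
  exact AddCircle.equivIco_coe_of_mem ⟨by linarith, by linarith⟩

theorem s1_cont (b : ℝ) : ContinuousAt (s1 b) (b : AddCircle (1:ℝ)) := by
  unfold s1
  refine continuousAt_subtype_val.comp ?_
  refine AddCircle.continuousAt_equivIco (1:ℝ) (b - 1/2) ?_
  intro h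
  have h1 := s1_self b
  rw [h] at h1
  have h2 : s1 b ((b - 1/2 : ℝ) : AddCircle (1:ℝ)) = b - 1/2 :=
    AddCircle.equivIco_coe_of_mem ⟨by linarith, by linarith⟩
  linarith

theorem s1_int (b x : ℝ) : ∃ k : ℤ, s1 b (x : AddCircle (1:ℝ)) = x + k := by
  have h := s1_coe b (x : AddCircle (1:ℝ))
  have h2 : ((s1 b (x : AddCircle (1:ℝ)) - x : ℝ) : AddCircle (1:ℝ)) = 0 := by
    rw [AddCircle.coe_sub, h, sub_self]
  obtain ⟨n, hn⟩ := (AddCircle.coe_eq_zero_iff (1:ℝ)).1 h2
  refine ⟨n, ?_⟩
  rw [zsmul_eq_mul, mul_one] at hn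
  linarith

/-- the section -/
def sa (a : E) (z : Torus) : E := (s1 a.1 z.1, s1 a.2 z.2)

theorem sa_meas (a : E) : Measurable (sa a) :=
  ((s1_meas a.1).comp measurable_fst).prodMk ((s1_meas a.2).comp measurable_snd)

theorem proj_sa (a : E) (z : Torus) : proj (sa a z) = z :=
  Prod.ext (s1_coe _ _) (s1_coe _ _)

theorem sa_cont (a : E) : ContinuousAt (sa a) (proj a) := by
  unfold sa proj
  refine ContinuousAt.prodMk ?_ ?_
  · exact ContinuousAt.comp (f := fun z : Torus => z.1) (x := ((a.1 : AddCircle (1:ℝ)), (a.2 : AddCircle (1:ℝ)))) (s1_cont a.1) continuousAt_fst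
  · exact ContinuousAt.comp (f := fun z : Torus => z.2) (x := ((a.1 : AddCircle (1:ℝ)), (a.2 : AddCircle (1:ℝ)))) (s1_cont a.2) continuousAt_snd

theorem sa_self (a : E) : sa a (proj a) = a := Prod.ext (s1_self _) (s1_self _)

theorem sa_int (a x : E) : ∃ k : ℤ × ℤ, sa a (proj x) = x + iv k := by
  obtain ⟨k, hk⟩ := s1_int a.1 x.1
  obtain ⟨l, hl⟩ := s1_int a.2 x.2
  exact ⟨(k, l), Prod.ext hk hl⟩

theorem proj_cont : Continuous proj := by
  unfold proj
  exact ((AddCircle.continuous_mk' (1:ℝ)).comp continuous_fst).prodMk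
    ((AddCircle.continuous_mk' (1:ℝ)).comp continuous_snd)

theorem sa_compact (a : E) : ∀ z, sa a z ∈ Icc (a.1 - 1/2) (a.1 + 1/2) ×ˢ Icc (a.2 - 1/2) (a.2 + 1/2) := by
  intro z
  have h1 := s1_mem a.1 z.1
  have h2 := s1_mem a.2 z.2
  refine ⟨⟨h1.1, ?_⟩, ⟨h2.1, ?_⟩⟩
  · have := h1.2; change s1 a.1 z.1 ≤ _; linarith
  · have := h2.2; change s1 a.2 z.2 ≤ _; linarith

theorem lift_measure {L : TTorus → ℝ} (hL : Continuous L) {Φ : Flow ℝ TTorus}
    (hΦ : IsEulerLagrangeFlow L Φ) {μ : Measure TTorus} (hμ : IsProbabilityMeasure μ)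
    (hinv : ∀ t : ℝ, μ.map (Φ t) = μ) (hv : Integrable (fun z : TTorus => ‖z.2‖) μ)
    (a : E) : ∃ ν : Measure (E × E), Closed ν ∧
      (∀ F : TTorus → ℝ, Continuous F → ∫ q, F (proj q.1, q.2) ∂ν = ∫ z, F z ∂μ) ∧
      (∀ F : TTorus → ℝ, Continuous F → Integrable F μ →
        Integrable (fun q : E × E => F (proj q.1, q.2)) ν) ∧
      (∫ q, q.2 ∂ν = ∫ z, z.2 ∂μ) ∧
      (∀ v : E, (proj a, v) ∈ μ.support → (a, v) ∈ ν.support) := by
  have hS : Measurable (fun z : TTorus => ((sa a z.1, z.2) : E × E)) :=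
    ((sa_meas a).comp measurable_fst).prodMk measurable_snd
  have hproj : ∀ z : TTorus, (proj (sa a z.1), z.2) = z := fun z => by rw [proj_sa]
  have hpc : Continuous (fun q : E × E => ((proj q.1, q.2) : TTorus)) :=
    (proj_cont.comp continuous_fst).prodMk continuous_snd
  refine ⟨μ.map (fun z : TTorus => ((sa a z.1, z.2) : E × E)), ⟨?_, ?_, ?_⟩, ?_, ?_, ?_, ?_⟩
  · exact Measure.isProbabilityMeasure_map hS.aemeasurable
  · rw [integrable_map_measure (by fun_prop) hS.aemeasurable]
    exact hv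
  · intro φ hφ hper
    have hφc : Continuous φ := hφ.continuous
    have hfc : Continuous (fderiv ℝ φ) := hφ.continuous_fderiv (by norm_num)
    have hdp : ∀ (x : E) (k : ℤ × ℤ), fderiv ℝ φ (x + iv k) = fderiv ℝ φ x := by
      intro x k
      rw [← fderiv_comp_add_right (iv k)]
      congr 1
      funext y
      exact hper y k
    have hev : Continuous (fun q : E × E => fderiv ℝ φ q.1 q.2) :=
      (hfc.comp continuous_fst).clm_apply continuous_snd
    rw [integral_map hS.aemeasurable hev.aestronglyMeasurable]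
    obtain ⟨G, hG⟩ : ∃ G : TTorus → ℝ, G = fun z => fderiv ℝ φ (sa a z.1) z.2 := ⟨_, rfl⟩
    obtain ⟨f, hf⟩ : ∃ f : TTorus → ℝ, f = fun z => φ (sa a z.1) := ⟨_, rfl⟩
    have hGm : Measurable G := by rw [hG]; exact hev.measurable.comp hS
    have hfm : Measurable f := by
      rw [hf]; exact hφc.measurable.comp ((sa_meas a).comp measurable_fst)
    have hcomp : IsCompact (Icc (a.1 - 1/2) (a.1 + 1/2) ×ˢ Icc (a.2 - 1/2) (a.2 + 1/2)) :=
      isCompact_Icc.prod isCompact_Icc
    obtain ⟨B, hB⟩ := hcomp.exists_bound_of_continuousOn hfc.continuousOn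
    obtain ⟨C, hC⟩ := hcomp.exists_bound_of_continuousOn hφc.continuousOn
    have hGb : ∀ z, ‖G z‖ ≤ B * ‖z.2‖ := by
      intro z
      rw [hG]
      refine ((fderiv ℝ φ (sa a z.1)).le_opNorm z.2).trans ?_
      exact mul_le_mul_of_nonneg_right (hB _ (sa_compact a z.1)) (norm_nonneg _)
    have hGi : Integrable G μ :=
      (hv.const_mul B).mono' hGm.aestronglyMeasurable (Eventually.of_forall hGb)
    have hfi : Integrable f μ := by
      refine Integrable.of_bound hfm.aestronglyMeasurable C (Eventually.of_forall ?_)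
      intro z
      rw [hf]
      exact hC _ (sa_compact a z.1)
    have hGp : ∀ x v : E, G (proj x, v) = fderiv ℝ φ x v := by
      intro x v
      rw [hG]
      obtain ⟨k, hk⟩ := sa_int a x
      change fderiv ℝ φ (sa a (proj x)) v = _
      rw [hk, hdp]
    have hfp : ∀ x v : E, f (proj x, v) = φ x := by
      intro x v
      rw [hf]
      obtain ⟨k, hk⟩ := sa_int a x
      change φ (sa a (proj x)) = _
      rw [hk, hper]
    have hΦc : Continuous (fun p : ℝ × TTorus => Φ p.1 p.2) := Φ.cont'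
    have hkey : ∀ z : TTorus, f (Φ 1 z) - f z = ∫ t in (0:ℝ)..1, G (Φ t z) := by
      intro z
      obtain ⟨γ, γ', h0, h0', hfl, hder, -⟩ := hΦ (sa a z.1) z.2
      have hz : (proj (sa a z.1), z.2) = z := hproj z
      rw [hz] at hfl
      have hγ'c : Continuous γ' := by
        have h1 : γ' = fun t => (Φ t z).2 := by
          funext t; rw [hfl t]
        rw [h1]
        exact continuous_snd.comp (hΦc.comp (continuous_id.prodMk continuous_const))
      have hγc : Continuous γ := continuous_iff_continuousAt.2 fun t => (hder t).continuousAt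
      have hd : ∀ t ∈ uIcc (0:ℝ) 1, HasDerivAt (fun s => φ (γ s)) (fderiv ℝ φ (γ t) (γ' t)) t := by
        intro t _
        exact ((hφ.differentiable (by norm_num)) (γ t)).hasFDerivAt.comp_hasDerivAt t (hder t)
      have hcint : Continuous (fun t => fderiv ℝ φ (γ t) (γ' t)) :=
        (hfc.comp hγc).clm_apply hγ'c
      have h2 := intervalIntegral.integral_eq_sub_of_hasDerivAt hd (hcint.intervalIntegrable _ _)
      have h3 : ∀ t, G (Φ t z) = fderiv ℝ φ (γ t) (γ' t) := by
        intro t; rw [hfl t, hGp]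
      simp_rw [h3]
      rw [h2, hfl 1, hfp]
      have h4 : f z = φ (γ 0) := by
        rw [h0, hf]
      rw [h4]
    have hΦm : ∀ t, Measurable (Φ t) := fun t =>
      (hΦc.comp (continuous_const.prodMk continuous_id)).measurable
    have hlhs : ∫ z, (f (Φ 1 z) - f z) ∂μ = 0 := by
      have h1 : ∫ z, f (Φ 1 z) ∂μ = ∫ z, f z ∂μ := by
        conv_rhs => rw [← hinv 1]
        rw [integral_map (hΦm 1).aemeasurable hfm.aestronglyMeasurable]
      have h2 : Integrable (fun z => f (Φ 1 z)) μ := by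
        have : Integrable f (μ.map (Φ 1)) := by rw [hinv 1]; exact hfi
        exact (integrable_map_measure hfm.aestronglyMeasurable (hΦm 1).aemeasurable).1 this
      rw [integral_sub h2 hfi, h1, sub_self]
    have hGt : ∀ t, Integrable (fun z => G (Φ t z)) μ := by
      intro t
      have : Integrable G (μ.map (Φ t)) := by rw [hinv t]; exact hGi
      exact (integrable_map_measure hGm.aestronglyMeasurable (hΦm t).aemeasurable).1 this
    have hGti : ∀ t, ∫ z, G (Φ t z) ∂μ = ∫ z, G z ∂μ := by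
      intro t
      conv_rhs => rw [← hinv t]
      rw [integral_map (hΦm t).aemeasurable hGm.aestronglyMeasurable]
    have hGtn : ∀ t, ∫ z, ‖G (Φ t z)‖ ∂μ = ∫ z, ‖G z‖ ∂μ := by
      intro t
      conv_rhs => rw [← hinv t]
      rw [integral_map (hΦm t).aemeasurable hGm.norm.aestronglyMeasurable]
    have hm2 : Measurable (fun p : TTorus × ℝ => G (Φ p.2 p.1)) :=
      hGm.comp (hΦc.measurable.comp measurable_swap)
    have hint : Integrable (fun p : TTorus × ℝ => G (Φ p.2 p.1))
        (μ.prod (volume.restrict (Ioc (0:ℝ) 1))) := by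
      rw [integrable_prod_iff' hm2.aestronglyMeasurable]
      refine ⟨Eventually.of_forall fun t => hGt t, ?_⟩
      simp_rw [hGtn]
      exact integrable_const _
    have hswap : ∫ z, (∫ t in Ioc (0:ℝ) 1, G (Φ t z)) ∂μ = ∫ t in Ioc (0:ℝ) 1, (∫ z, G (Φ t z) ∂μ) :=
      integral_integral_swap (f := fun (z : TTorus) (t : ℝ) => G (Φ t z)) hint
    have hrhs : ∫ z, (∫ t in (0:ℝ)..1, G (Φ t z)) ∂μ = ∫ z, G z ∂μ := by
      have h1 : ∀ z, (∫ t in (0:ℝ)..1, G (Φ t z)) = ∫ t in Ioc (0:ℝ) 1, G (Φ t z) := by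
        intro z
        rw [intervalIntegral.integral_of_le (by norm_num)]
      simp_rw [h1]
      rw [hswap]
      simp_rw [hGti]
      simp
    have hfin : ∫ z, G z ∂μ = 0 := by
      rw [← hrhs]
      refine Eq.trans ?_ hlhs
      refine integral_congr_ae (Eventually.of_forall fun z => ?_)
      exact (hkey z).symm
    rw [hG] at hfin
    exact hfin
  · intro F hF
    have hFc : Continuous (fun q : E × E => F (proj q.1, q.2)) := hF.comp hpc
    rw [integral_map hS.aemeasurable hFc.aestronglyMeasurable]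
    refine integral_congr_ae (Eventually.of_forall fun z => ?_)
    change F (proj (sa a z.1), z.2) = F z
    rw [hproj]
  · intro F hF hFi
    have hFc : Continuous (fun q : E × E => F (proj q.1, q.2)) := hF.comp hpc
    rw [integrable_map_measure hFc.aestronglyMeasurable hS.aemeasurable]
    refine hFi.congr (Eventually.of_forall fun z => ?_)
    change F z = F (proj (sa a z.1), z.2)
    rw [hproj]
  · rw [integral_map hS.aemeasurable (by fun_prop)]
  · intro v hvs
    rw [Measure.mem_support_iff_forall] at hvs ⊢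
    intro U hU
    obtain ⟨V, hVU, hVo, hVm⟩ := mem_nhds_iff.1 hU
    have hca : ContinuousAt (fun z : TTorus => ((sa a z.1, z.2) : E × E)) (proj a, v) := by
      refine ContinuousAt.prodMk ?_ continuousAt_snd
      exact ContinuousAt.comp (f := fun z : TTorus => z.1) (x := (proj a, v)) (sa_cont a) continuousAt_fst
    have hpre : (fun z : TTorus => ((sa a z.1, z.2) : E × E)) ⁻¹' V ∈ 𝓝 (proj a, v) := by
      refine hca ?_
      change V ∈ 𝓝 (sa a (proj a), v)
      rw [sa_self]
      exact hVo.mem_nhds hVm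
    have h1 := hvs _ hpre
    refine lt_of_lt_of_le ?_ (measure_mono hVU)
    rw [Measure.map_apply hS hVo.measurableSet]
    exact h1

end Pool.H110M
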