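import Mathlib
import Pool.Agent.Helper110.MCore
import Pool.Agent.Helper110.M3c
import Pool.Agent.Helper110.MA1
import Pool.Agent.Helper110.MA2
import Pool.Agent.Helper110.MB1
import Pool.Agent.Helper110.MB2
import Pool.Agent.Helper110.MC
import Pool.Agent.Helper110.MD

set_option autoImplicit false
open MeasureTheory Set Filter Topology

noncomputable section
namespace Pool.H110M

/-- existence of a calibrated half-orbit at the critical value -/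
theorem calibrated_curve {ℓ : E × E → ℝ} (h : Ton ℓ) (hp : HP ℓ)
    (hinf : ∀ ε > 0, ∃ (x : E) (l : List (E × ℝ)) (k : ℤ × ℤ), Pos l ∧ l ≠ [] ∧
      endp x l = x + iv k ∧ act ℓ x l ≤ ε * dur l) :
    ∃ (A V : ℝ → E) (R B : ℝ), (∀ t, HasDerivAt A (V t) t) ∧ Continuous V ∧
      (∀ t, 0 ≤ t → ‖V t‖ ≤ R) ∧ (∀ t, 0 ≤ t → ∫ s in (0:ℝ)..t, ℓ (A s, V s) ≤ B) ∧
      ∀ t, 0 ≤ t → ∀ ζ : E, fderiv ℝ ℓ (A t, V t) (0, ζ) =
        fderiv ℝ ℓ (A 0, V 0) (0, ζ) + ∫ s in (0:ℝ)..t, fderiv ℝ ℓ (A s, V s) (ζ, 0) := by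
  obtain ⟨u, K, C, hu⟩ := exists_sub h hp
  obtain ⟨R, hR, hw⟩ := window h hu hinf
  have hγ : ∀ n : ℕ, ∃ γ : ℝ → E, ‖γ 0‖ ≤ 1 ∧ (∀ s t, ‖γ s - γ t‖ ≤ R * |s - t|) ∧
      ∀ s t, 0 ≤ s → s < t → t ≤ (n : ℝ) + 1 → ∃ r : List (E × ℝ), Pos r ∧
        (∀ a ∈ r, ‖a.1‖ ≤ R) ∧ dur r = t - s ∧ endp (γ s) r = γ t ∧
        act ℓ (γ s) r ≤ u (γ t) - u (γ s) + 1 / ((n : ℝ) + 1) := by
    intro n
    obtain ⟨x, l, hx, hl, hd, hlR, hδ⟩ := hw n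
    obtain ⟨γ, h0, hlip, hsub⟩ := window_curve h hu (by linarith) hl hlR hδ
    exact ⟨γ, by rw [h0]; exact hx, hlip, fun s t hs hst ht => hsub s t hs hst (by rw [hd]; exact ht)⟩
  have hpert : ∃ C M : ℝ, 0 ≤ C ∧ 0 ≤ M ∧
      ∀ (r : List (E × ℝ)) (y : E), Pos r → (∀ a ∈ r, ‖a.1‖ ≤ R) → dur r = 1 →
        ∃ P : E →L[ℝ] ℝ, ‖P‖ ≤ M ∧
          ∀ ζ : E, ‖ζ‖ ≤ 1 → ∃ r' : List (E × ℝ), Pos r' ∧ endp (y + ζ) r' = endp y r ∧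
            act ℓ (y + ζ) r' ≤ act ℓ y r + P ζ + C * ‖ζ‖ ^ 2 := by
    obtain ⟨C, M, hC, hM, hh⟩ := h.pert_start R
    refine ⟨C, M, hC, hM, fun r y hr hrR hd => ?_⟩
    obtain ⟨P, hP, hh2⟩ := hh r y hr hrR hd
    refine ⟨P, hP, fun ζ hζ => ⟨pert (-ζ) r, ?_, (hh2 ζ hζ).1, (hh2 ζ hζ).2⟩⟩
    intro a ha
    simp only [pert, List.mem_map] at ha
    obtain ⟨b, hb, rfl⟩ := ha
    exact hr b hb
  obtain ⟨γ, C2, hC2, hγl, hγd, hγc⟩ := limit_curve h hu hR hpert (h.jensen R) hγ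
  obtain ⟨A, V, hA, hV, hP2⟩ := curve_reg h hu hR h.conv
    (fun C' R hC' => graph_est h hu C' R hC' (h.lipD R) (h.conv R)) hC2 hγl hγd hγc
  obtain ⟨hcal, hel⟩ := el_integral h hu hC2 hA hV hP2
    (fun A V hA hV a b hab => dom_curve h hu hA hV hab)
  obtain ⟨B, hB⟩ : ∃ B : ℝ, ∀ x, |u x| ≤ B := by
    have hc : Continuous u := hu.lipW.continuous
    obtain ⟨B, hB⟩ := (isCompact_closedBall (0 : E) 1).exists_bound_of_continuousOn hc.continuousOn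
    refine ⟨B, fun x => ?_⟩
    obtain ⟨y, k, hy, hx⟩ := exists_reduce x
    rw [hx, hu.per]
    exact hB y (by simpa using hy)
  refine ⟨A, V, R, 2 * B, hA, hV, fun t ht => (hP2 t ht).1, fun t ht => ?_, hel⟩
  rw [← hcal 0 t le_rfl ht]
  have h1 := hB (A t)
  have h2 := hB (A 0)
  rw [abs_le] at h1 h2
  linarith [h1.2, h2.1]

end Pool.H110M
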