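import Mathlib
import Pool.Agent.Helper110.MMane
import Pool.Agent.Helper110.MF
import Pool.Agent.Helper110.MG1
import Pool.Agent.Helper110.MG2

set_option autoImplicit false
open MeasureTheory Set Filter Topology

noncomputable section
namespace Pool.H110M
open Pool.Agent.MatherTorus

theorem proj_add_iv (x : E) (k : ℤ × ℤ) : proj (x + iv k) = proj x :=
  (proj_eq_iff _ _).2 ⟨k, rfl⟩

theorem ton_lift {L : TTorus → ℝ} (hL : IsTonelli L) : Ton (lift L) where
  smooth := hL.smooth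
  per := fun x v k => by simp only [lift]; rw [proj_add_iv]
  posdef := hL.convex
  superlin := superlin_uniform hL.smooth (fun x v k => by simp only [lift]; rw [proj_add_iv])
    hL.convex (fun x K => hL.superlinear (proj x) K)

theorem cont_of_lift {L : TTorus → ℝ} (h : Continuous (lift L)) : Continuous L := by
  have hm : IsOpenMap (Prod.map proj (id : E → E)) := isOpenMap_proj.prodMap IsOpenMap.id
  have hc : Continuous (Prod.map proj (id : E → E)) := continuous_proj.prodMap continuous_id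
  have hs : Function.Surjective (Prod.map proj (id : E → E)) :=
    proj_surjective.prodMap Function.surjective_id
  have hq : Topology.IsQuotientMap (Prod.map proj (id : E → E)) := hm.isQuotientMap hc hs
  exact hq.continuous_iff.2 h

theorem act_sub_const {ℓ : E × E → ℝ} (h : Continuous ℓ) (m : ℝ) (l : List (E × ℝ)) :
    ∀ x : E, act (fun q => ℓ q - m) x l = act ℓ x l - m * dur l := by
  induction l with
  | nil => intro x; simp [act, dur]
  | cons a r ih =>
    intro x
    simp only [act, dur]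
    rw [ih]
    have : seg (fun q => ℓ q - m) x a.1 a.2 = seg ℓ x a.1 a.2 - m * a.2 := by
      simp only [seg]
      rw [intervalIntegral.integral_sub]
      · simp; ring
      · apply Continuous.intervalIntegrable
        fun_prop
      · exact intervalIntegrable_const
    rw [this]; ring

theorem dur_pos {l : List (E × ℝ)} (hl : Pos l) (hne : l ≠ []) : 0 < dur l := by
  cases l with
  | nil => exact absurd rfl hne
  | cons a r =>
    simp only [dur]
    have h1 := hl a (by simp)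
    have h2 := dur_nonneg r (fun b hb => hl b (by simp [hb]))
    linarith

theorem seg_ge {ℓ : E × E → ℝ} (h : Continuous ℓ) {B : ℝ} (hB : ∀ q, -B ≤ ℓ q) (x w : E) {t : ℝ}
    (ht : 0 ≤ t) : -B * t ≤ seg ℓ x w t := by
  simp only [seg]
  have : ∫ s in (0:ℝ)..t, (-B) ≤ ∫ s in (0:ℝ)..t, ℓ (x + s • w, w) := by
    apply intervalIntegral.integral_mono_on ht intervalIntegrable_const
    · apply Continuous.intervalIntegrable
      fun_prop
    · intro s _; exact hB _
  simp at this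
  linarith

theorem act_ge {ℓ : E × E → ℝ} (h : Continuous ℓ) {B : ℝ} (hB : ∀ q, -B ≤ ℓ q) (l : List (E × ℝ)) :
    ∀ x : E, Pos l → -B * dur l ≤ act ℓ x l := by
  induction l with
  | nil => intro x _; simp [act, dur]
  | cons a r ih =>
    intro x hl
    simp only [act, dur]
    have h1 := seg_ge h hB x a.1 (hl a (by simp)).le
    have h2 := ih (x + a.2 • a.1) (fun b hb => hl b (by simp [hb]))
    linarith

/-- the shifted Lagrangian `L - c - m` on the torus -/
def shiftL (L : TTorus → ℝ) (c : E →L[ℝ] ℝ) (m : ℝ) : TTorus → ℝ := fun z => L z - c z.2 - m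

theorem el_int_of {ℓ : E × E → ℝ} (h : ContDiff ℝ 2 ℓ) (c : E →L[ℝ] ℝ) (m : ℝ) (hT : Ton ℓ)
    {γ γ' : ℝ → E} (hγ : ∀ t, HasDerivAt γ (γ' t) t) (hc : Continuous γ')
    (hel : ∀ t, HasDerivAt
      (fun s => (fderiv ℝ ℓ (γ s, γ' s)).comp (ContinuousLinearMap.inr ℝ E E))
      ((fderiv ℝ ℓ (γ t, γ' t)).comp (ContinuousLinearMap.inl ℝ E E)) t) (t : ℝ) (ζ : E) :
    HasDerivAt (fun s => fderiv ℝ (fun q => ℓ q - c q.2 - m) (γ s, γ' s) (0, ζ))
      (fderiv ℝ (fun q => ℓ q - c q.2 - m) (γ t, γ' t) (ζ, 0)) t := by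
  have h1 : (fun s => fderiv ℝ (fun q => ℓ q - c q.2 - m) (γ s, γ' s) (0, ζ))
      = fun s => fderiv ℝ ℓ (γ s, γ' s) (0, ζ) - c ζ := by
    funext s
    rw [fderiv_affine hT]
  have h2 : fderiv ℝ (fun q => ℓ q - c q.2 - m) (γ t, γ' t) (ζ, 0)
      = fderiv ℝ ℓ (γ t, γ' t) (ζ, 0) := by
    rw [fderiv_affine hT]; simp
  rw [h1, h2]
  apply HasDerivAt.sub_const
  have h3 := (hel t).clm_apply (hasDerivAt_const t ζ)
  have e : ((0 : E), (0 : E)) = (0 : E × E) := rfl
  simpa [e] using h3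

theorem orbit_facts {L : TTorus → ℝ} (hL : IsTonelli L) {Φ : Flow ℝ TTorus}
    (hΦ : IsEulerLagrangeFlow L Φ) (c : E →L[ℝ] ℝ) (m : ℝ) (x v : E) :
    ∃ γ γ' : ℝ → E, γ 0 = x ∧ γ' 0 = v ∧ (∀ t, Φ t (proj x, v) = (proj (γ t), γ' t)) ∧
      ELc (fun q => lift L q - c q.2 - m) γ γ' := by
  obtain ⟨γ, γ', h0, h1, h2, h3, h4⟩ := hΦ x v
  have hc : Continuous γ' := by
    have : γ' = fun t => (Φ t (proj x, v)).2 := by
      funext t; rw [h2]
    rw [this]
    exact continuous_snd.comp (Φ.continuous continuous_id continuous_const)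
  exact ⟨γ, γ', h0, h1, h2, h3, hc,
    fun t ζ => el_int_of hL.smooth c m (ton_lift hL) h3 hc h4 t ζ⟩

theorem ELc.int {ℓ : E × E → ℝ} (h : Ton ℓ) {A V : ℝ → E} (hA : ELc ℓ A V) :
    ∀ t, 0 ≤ t → ∀ ζ : E, fderiv ℝ ℓ (A t, V t) (0, ζ) =
      fderiv ℝ ℓ (A 0, V 0) (0, ζ) + ∫ s in (0:ℝ)..t, fderiv ℝ ℓ (A s, V s) (ζ, 0) := by
  intro t _ ζ
  have hAc : Continuous A := continuous_iff_continuousAt.2 fun x => (hA.der x).continuousAt
  have hfc : Continuous (fderiv ℝ ℓ) := h.smooth.continuous_fderiv two_ne_zero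
  have hcont : Continuous (fun s => fderiv ℝ ℓ (A s, V s) (ζ, 0)) :=
    (hfc.comp (hAc.prodMk hA.cont)).clm_apply continuous_const
  have := intervalIntegral.integral_eq_sub_of_hasDerivAt (fun s _ => hA.el s ζ)
    (hcont.intervalIntegrable 0 t)
  rw [this]; ring

/-- Mañé: if all invariant probability measures have `∫ (L - c) ≥ m` then all closed polygons have
mean action at least `m`. -/
theorem HP_of_inv {L : TTorus → ℝ} (hL : IsTonelli L) {Φ : Flow ℝ TTorus}
    (hΦ : IsEulerLagrangeFlow L Φ) (c : E →L[ℝ] ℝ) (m : ℝ)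
    (hm : ∀ μ : Measure TTorus, IsInvariantMeasure L Φ μ → m ≤ ∫ z, (L z - c z.2) ∂μ) :
    HP (fun q => lift L q - c q.2 - m) := by
  set ℓ : E × E → ℝ := fun q => lift L q - c q.2 - m with hℓ
  have hT : Ton ℓ := (ton_lift hL).affine c m
  have hℓc : Continuous ℓ := hT.smooth.continuous
  by_contra hcon
  obtain ⟨x0, l0, hl0, ⟨k0, hk0⟩, hneg⟩ : ∃ (x0 : E) (l0 : List (E × ℝ)), Pos l0 ∧
      (∃ k : ℤ × ℤ, endp x0 l0 = x0 + iv k) ∧ act ℓ x0 l0 < 0 := by
    simp only [HP] at hcon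
    push Not at hcon
    exact hcon
  have hl0ne : l0 ≠ [] := by
    rintro rfl
    simp [act] at hneg
  set S : Set ℝ := {r : ℝ | ∃ (x : E) (l : List (E × ℝ)) (k : ℤ × ℤ), Pos l ∧ l ≠ [] ∧
    endp x l = x + iv k ∧ r * dur l = act ℓ x l} with hS
  obtain ⟨B, hB⟩ := hT.superlin 0
  have hB' : ∀ q, -B ≤ ℓ q := fun q => by have := hB q.1 q.2; simpa using this
  have hSb : BddBelow S := by
    refine ⟨-B, ?_⟩
    rintro r ⟨x, l, k, hl, hne, hk, hr⟩
    have h1 := act_ge hℓc hB' l x hl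
    rw [← hr] at h1
    exact le_of_mul_le_mul_right h1 (dur_pos hl hne)
  have hd0 := dur_pos hl0 hl0ne
  have hr0 : act ℓ x0 l0 / dur l0 ∈ S := ⟨x0, l0, k0, hl0, hl0ne, hk0, by field_simp⟩
  set m' : ℝ := sInf S with hm'
  have hm'neg : m' < 0 := lt_of_le_of_lt (csInf_le hSb hr0) (div_neg_of_neg_of_pos hneg hd0)
  set ℓ' : E × E → ℝ := fun q => lift L q - c q.2 - (m + m') with hℓ'
  have hT' : Ton ℓ' := (ton_lift hL).affine c (m + m')
  have hℓℓ' : ℓ' = fun q => ℓ q - m' := by funext q; simp only [hℓ, hℓ']; ring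
  have hact : ∀ (x : E) (l : List (E × ℝ)), act ℓ' x l = act ℓ x l - m' * dur l := by
    intro x l; rw [hℓℓ']; exact act_sub_const hℓc m' l x
  have hHP : HP ℓ' := by
    intro x l hl hk
    obtain ⟨k, hk⟩ := hk
    by_cases hne : l = []
    · rw [hne]; simp [act]
    · rw [hact]
      have hd := dur_pos hl hne
      have h1 : m' ≤ act ℓ x l / dur l := csInf_le hSb ⟨x, l, k, hl, hne, hk, by field_simp⟩
      rw [le_div_iff₀ hd] at h1
      linarith
  have hinf : ∀ ε > 0, ∃ (x : E) (l : List (E × ℝ)) (k : ℤ × ℤ), Pos l ∧ l ≠ [] ∧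
      endp x l = x + iv k ∧ act ℓ' x l ≤ ε * dur l := by
    intro ε hε
    obtain ⟨r, ⟨x, l, k, hl, hne, hk, hr⟩, hrlt⟩ :=
      exists_lt_of_csInf_lt ⟨_, hr0⟩ (show sInf S < m' + ε by rw [← hm']; linarith)
    refine ⟨x, l, k, hl, hne, hk, ?_⟩
    rw [hact, ← hr]
    have hd := dur_pos hl hne
    nlinarith
  obtain ⟨A, V, R, Bd, hA, hV, hVR, hint, hel⟩ := calibrated_curve hT' hHP hinf
  obtain ⟨γ, γ', h0, h1, h2, hE⟩ := orbit_facts hL hΦ c (m + m') (A 0) (V 0)
  have heq : ∀ t, 0 ≤ t → A t = γ t ∧ V t = γ' t :=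
    el_unique hT' hT'.lipD hT'.conv hA hV hE.der hE.cont hel (hE.int hT') h0.symm h1.symm
  have hΦt : ∀ t, 0 ≤ t → Φ t (proj (A 0), V 0) = (proj (A t), V t) := by
    intro t ht
    rw [h2, (heq t ht).1, (heq t ht).2]
  set z : TTorus := (proj (A 0), V 0) with hz
  set Kc : Set TTorus := univ ×ˢ Metric.closedBall (0 : E) R with hKc
  have hKcc : IsCompact Kc := isCompact_univ.prod (isCompact_closedBall _ _)
  set F : TTorus → ℝ := fun z => L z - c z.2 - (m + m') with hF
  have hLc : Continuous L := cont_of_lift hL.smooth.continuous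
  have hFc : Continuous F := by simp only [hF]; fun_prop
  obtain ⟨μ, hμp, hμi, hμK, hμF⟩ := krylov Φ z Kc hKcc
    (fun t ht => by
      rw [hΦt t ht, hKc]
      exact ⟨mem_univ _, by simpa using hVR t ht⟩) F hFc Bd
    (fun t ht => by
      have : ∫ s in (0:ℝ)..t, F (Φ s z) = ∫ s in (0:ℝ)..t, ℓ' (A s, V s) := by
        apply intervalIntegral.integral_congr
        intro s hs
        rw [uIcc_of_le ht] at hs
        simp only [hF]
        rw [hΦt s hs.1]
        simp [hℓ', lift]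
      rw [this]
      exact hint t ht)
  have hae : ∀ᵐ y ∂μ, y ∈ Kc := by
    rw [ae_iff]
    exact hμK
  have hintF : ∀ G : TTorus → ℝ, Continuous G → Integrable G μ := by
    intro G hG
    obtain ⟨C, hC⟩ := hKcc.exists_bound_of_continuousOn hG.continuousOn
    refine Integrable.mono' (integrable_const C) hG.aestronglyMeasurable ?_
    filter_upwards [hae] with y hy using hC y hy
  have hinv : IsInvariantMeasure L Φ μ := ⟨hμp, hμi, hintF L hLc⟩
  have h3 := hm μ hinv
  have h4 : ∫ y, F y ∂μ = ∫ y, (L y - c y.2) ∂μ - (m + m') := by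
    simp only [hF]
    rw [integral_sub (hintF _ (by fun_prop)) (integrable_const _)]
    simp
  rw [h4] at hμF
  linarith

end Pool.H110M
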