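import Mathlib
import Pool.Agent.Helper110.MInv
import Pool.Agent.Helper110.M7

set_option autoImplicit false
open MeasureTheory Set Filter Topology

noncomputable section
namespace Pool.H110M
open Pool.Agent.MatherTorus

theorem inv_int {L : TTorus → ℝ} (hL : IsTonelli L) {Φ : Flow ℝ TTorus} {μ : Measure TTorus}
    (hμ : IsInvariantMeasure L Φ μ) : Integrable (fun z : TTorus => ‖z.2‖) μ := by
  have := hμ.prob
  obtain ⟨B, hB⟩ := (ton_lift hL).superlin 1
  have hB' : ∀ z : TTorus, ‖z.2‖ ≤ L z + B := by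
    intro z
    obtain ⟨x, hx⟩ := proj_surjective z.1
    have h1 := hB x z.2
    simp only [lift] at h1
    rw [hx] at h1
    linarith
  refine Integrable.mono' (hμ.integrable.add (integrable_const B))
    (by fun_prop) (Filter.Eventually.of_forall fun z => ?_)
  simpa using hB' z

/-- lifting an invariant measure -/
theorem lift_inv {L : TTorus → ℝ} (hL : IsTonelli L) {Φ : Flow ℝ TTorus}
    (hΦ : IsEulerLagrangeFlow L Φ) (c : E →L[ℝ] ℝ) (m : ℝ) {μ : Measure TTorus}
    (hμ : IsInvariantMeasure L Φ μ) (a : E) :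
    ∃ ν : Measure (E × E), Closed ν ∧ Integrable (fun q => lift L q - c q.2 - m) ν ∧
      ∫ q, (lift L q - c q.2 - m) ∂ν = ∫ z, (L z - c z.2) ∂μ - m ∧
      (∫ q, q.2 ∂ν = rotVec μ) ∧
      (∀ v : E, (proj a, v) ∈ μ.support → (a, v) ∈ ν.support) := by
  have := hμ.prob
  have hv := inv_int hL hμ
  have hLc : Continuous L := cont_of_lift hL.smooth.continuous
  obtain ⟨ν, hν, h1, h2, h3, h4⟩ := lift_measure hLc hΦ hμ.prob hμ.invariant hv a
  have hvi : Integrable (fun z : TTorus => z.2) μ :=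
    (integrable_norm_iff (continuous_snd.aestronglyMeasurable)).1 hv
  have hFc : Continuous (fun z : TTorus => L z - c z.2 - m) := by fun_prop
  have hi1 : Integrable (fun z : TTorus => L z - c z.2) μ := hμ.integrable.sub (c.integrable_comp hvi)
  have hFi : Integrable (fun z : TTorus => L z - c z.2 - m) μ := hi1.sub (integrable_const _)
  refine ⟨ν, hν, h2 _ hFc hFi, ?_, h3, h4⟩
  have := h1 _ hFc
  simp only [lift]
  rw [this, integral_sub hi1 (integrable_const _)]
  simp

theorem iv_norm_lt {k : ℤ × ℤ} (h : ‖iv k‖ < 1) : iv k = 0 := by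
  have h1 : |(k.1 : ℝ)| < 1 := lt_of_le_of_lt (norm_fst_le (iv k)) h
  have h2 : |(k.2 : ℝ)| < 1 := lt_of_le_of_lt (norm_snd_le (iv k)) h
  have h3 : k.1 = 0 := by
    have : |k.1| < 1 := by exact_mod_cast h1
    exact Int.abs_lt_one_iff.1 this
  have h4 : k.2 = 0 := by
    have : |k.2| < 1 := by exact_mod_cast h2
    exact Int.abs_lt_one_iff.1 this
  simp [iv, h3, h4]

/-- fixed points have zero velocity -/
theorem fixed_zero {L : TTorus → ℝ} (hL : IsTonelli L) {Φ : Flow ℝ TTorus}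
    (hΦ : IsEulerLagrangeFlow L Φ) {p : TTorus} (hp : IsFixedPt Φ p) : p.2 = 0 := by
  obtain ⟨x, hx⟩ := proj_surjective p.1
  obtain ⟨γ, γ', h0, h1, h2, hE⟩ := orbit_facts hL hΦ 0 0 x p.2
  have hpx : (proj x, p.2) = p := by rw [hx]
  have h3 : ∀ t, proj (γ t) = proj x ∧ γ' t = p.2 := by
    intro t
    have e := h2 t
    rw [hpx, hp t] at e
    have e1 := congrArg Prod.fst e
    have e2 := congrArg Prod.snd e
    simp only at e1 e2
    exact ⟨by rw [← e1, hx], e2.symm⟩
  have h4 : ∀ t, γ t = x + t • p.2 := by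
    intro t
    have hd : ∀ s, HasDerivAt (fun s => γ s - s • p.2) 0 s := by
      intro s
      have h5 := (hE.der s).fun_sub ((hasDerivAt_id s).smul_const p.2)
      rw [(h3 s).2] at h5
      simpa using h5
    have h6 := is_const_of_deriv_eq_zero (f := fun s => γ s - s • p.2)
      (fun s => (hd s).differentiableAt) (fun s => (hd s).deriv) t 0
    simp only [zero_smul, sub_zero, h0] at h6
    rw [← h6]; abel
  by_contra hne
  have hnpos : 0 < ‖p.2‖ := norm_pos_iff.2 hne
  set t : ℝ := 1 / (2 * ‖p.2‖) with ht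
  have htpos : 0 < t := by positivity
  obtain ⟨k, hk⟩ := (proj_eq_iff _ _).1 (h3 t).1
  rw [h4 t] at hk
  have h7 : t • p.2 = iv k := add_left_cancel hk
  have h8 : ‖iv k‖ = 1 / 2 := by
    rw [← h7, norm_smul, Real.norm_eq_abs, abs_of_pos htpos, ht]
    field_simp
  have h9 : iv k = 0 := iv_norm_lt (by rw [h8]; norm_num)
  rw [h9] at h8
  norm_num at h8

theorem main (L : TTorus → ℝ) (Φ : Flow ℝ TTorus) (β : Plane → ℝ) (hL : IsTonelli L)
    (hΦ : IsEulerLagrangeFlow L Φ) (hβ : IsBeta L Φ β) (hd : DifferentiableAt ℝ β 0)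
    (c : Plane →L[ℝ] ℝ) : ¬ ((∃ p ∈ matherSet L Φ c, IsFixedPt Φ p) ∧
      ∃ Λ ⊆ matherSet L Φ c, IsAperiodic Φ Λ) := by
  rintro ⟨⟨p, hpM, hpf⟩, Λ, hΛM, hΛ⟩
  -- a minimizing measure
  obtain ⟨z0, μ0, hμ0, -⟩ : {z | ∃ μ : Measure TTorus, IsMinimizing L Φ c μ ∧ z ∈ μ.support}.Nonempty :=
    closure_nonempty_iff.1 ⟨p, hpM⟩
  set m : ℝ := ∫ z, (L z - c z.2) ∂μ0 with hm
  have hmin : ∀ ν : Measure TTorus, IsInvariantMeasure L Φ ν → m ≤ ∫ z, (L z - c z.2) ∂ν := hμ0.2
  set ℓ : E × E → ℝ := fun q => lift L q - c q.2 - m with hℓ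
  have hT : Ton ℓ := (ton_lift hL).affine c m
  have hHP : HP ℓ := HP_of_inv hL hΦ c m hmin
  obtain ⟨u, K, C, hu⟩ := exists_sub hT hHP
  have hLc : Continuous L := cont_of_lift hL.smooth.continuous
  -- supports
  set Sup : Set (E × E) := {q | ∃ ν : Measure (E × E), Closed ν ∧ Integrable ℓ ν ∧
      ∫ q, ℓ q ∂ν = 0 ∧ q ∈ ν.support} with hSup
  have hopen : IsOpenMap (Prod.map proj (id : E → E)) := isOpenMap_proj.prodMap IsOpenMap.id
  have hsupp : ∀ q : E × E, (proj q.1, q.2) ∈ matherSet L Φ c → q ∈ closure Sup := by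
    intro q hq
    rw [mem_closure_iff]
    intro O hO hqO
    have h1 := (mem_closure_iff.1 hq) _ (hopen O hO) ⟨q, hqO, rfl⟩
    obtain ⟨z', ⟨q', hq'O, rfl⟩, μ, hμ, hzs⟩ := h1
    obtain ⟨ν, hν, hνi, hνe, -, hνs⟩ := lift_inv hL hΦ c m hμ.1 q'.1
    refine ⟨q', hq'O, ν, hν, hνi, ?_, hνs q'.2 hzs⟩
    rw [hνe]
    have h2 : ∫ z, (L z - c z.2) ∂μ = m := le_antisymm (hμ.2 μ0 hμ0.1) (hmin μ hμ.1)
    rw [h2]; ring
  have hmoll := moll hu.K0 hu.C0 hu.per hu.lip hu.semi
  have hP1 : ∀ q : E × E, (proj q.1, q.2) ∈ matherSet L Φ c → P1 ℓ u C q := by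
    intro q hq
    have h1 : closure Sup ⊆ {q | P1 ℓ u C q} := by
      apply closure_minimal _ (isClosed_P1 hT hu)
      rintro q ⟨ν, hν, hi, h0, hqs⟩
      exact P1_of_support hT hu hmoll hν hi h0 hqs
    exact h1 (hsupp q hq)
  -- the fixed point
  have hp2 : p.2 = 0 := fixed_zero hL hΦ hpf
  have hLp : L p = m := by
    obtain ⟨x, hx⟩ := proj_surjective p.1
    have h1 := (hP1 (x, p.2) (by simp only; rw [hx]; exact hpM)).1
    simp only [hℓ, lift, hx] at h1
    rw [hp2] at h1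
    have e : ((0 : E), (0 : E)) = (0 : E × E) := rfl
    rw [e] at h1
    simp only [map_zero] at h1
    have e2 : (p.1, (0 : E)) = p := by rw [← hp2]
    rw [e2] at h1
    linarith
  have hdirac : IsInvariantMeasure L Φ (Measure.dirac p) := by
    refine ⟨inferInstance, fun t => ?_, ?_⟩
    · have hm1 : Measurable (Φ t) :=
        (show Continuous (Φ t) from Φ.continuous continuous_const continuous_id).measurable
      exact (Measure.map_dirac' hm1 p).trans (by rw [hpf t])
    · exact integrable_dirac (by simp)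
  have hβ0le : β 0 ≤ m := by
    apply (hβ 0).2
    refine ⟨Measure.dirac p, hdirac, ?_, ?_⟩
    · simp only [rotVec]
      rw [integral_dirac' _ _ continuous_snd.stronglyMeasurable, hp2]
    · rw [integral_dirac' _ _ hLc.stronglyMeasurable, hLp]
  -- the aperiodic set
  set G : Set (E × E) := {q | (proj q.1, q.2) ∈ Λ} with hG
  have hmapc : Continuous (fun q : E × E => ((proj q.1, q.2) : TTorus)) :=
    (continuous_proj.comp continuous_fst).prodMk continuous_snd
  obtain ⟨R, hR⟩ := hΛ.compact.exists_bound_of_continuousOn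
    (f := fun z : TTorus => z.2) continuous_snd.continuousOn
  obtain ⟨zr, hzr, hrecz⟩ := exists_recurrent Φ Λ hΛ.compact hΛ.nonempty hΛ.invariant
  have hR0 : 0 ≤ R := (norm_nonneg _).trans (hR zr hzr)
  obtain ⟨κ, hκ, hκν⟩ := core hT hu G R hR0 (fun q hq => hsupp q (hΛM hq))
    (hΛ.compact.isClosed.preimage hmapc) (fun q hq => hR _ hq)
    (fun q hq k => by simp only [hG, mem_ofPred_eq]; rw [proj_add_iv]; exact hq)
    (fun q hq => by
      obtain ⟨γ, γ', h0, h1, h2, hE⟩ := orbit_facts hL hΦ c m q.1 q.2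
      refine ⟨γ, γ', hE, h0, h1, fun t => ?_⟩
      simp only [hG, mem_ofPred_eq]
      rw [← h2]
      exact hΛ.invariant t _ hq)
    (fun A V hAV hAG T hT0 k hk => by
      obtain ⟨γ, γ', h0, h1, h2, hE⟩ := orbit_facts hL hΦ c m (A 0) (V 0)
      have heq := el_unique hT hT.lipD hT.conv hAV.der hAV.cont hE.der hE.cont (hAV.int hT)
        (hE.int hT) h0.symm h1.symm T hT0.le
      apply hΛ.aperiodic _ (hAG 0) T hT0
      simp only
      rw [h2, ← heq.1, ← heq.2, hk.1, hk.2, proj_add_iv])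
    (by
      obtain ⟨x, hx⟩ := proj_surjective zr.1
      obtain ⟨γ, γ', h0, h1, h2, hE⟩ := orbit_facts hL hΦ c m x zr.2
      have hzx : (proj x, zr.2) = zr := by rw [hx]
      refine ⟨γ, γ', hE, fun t => ?_, fun δ hδ N => ?_⟩
      · simp only [hG, mem_ofPred_eq]
        rw [← h2, hzx]
        exact hΛ.invariant t _ hzr
      · obtain ⟨t, ht, hdist⟩ := hrecz δ hδ N
        rw [← hzx, h2] at hdist
        rw [Prod.dist_eq, max_lt_iff] at hdist
        obtain ⟨k, hk⟩ := dist_proj_lt hdist.1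
        refine ⟨t, ht, k, ?_, ?_⟩
        · rw [h0]; exact hk
        · rw [h1, ← dist_eq_norm]; exact hdist.2)
  -- conclusion
  have hlow : ∀ h : E, m ≤ β h - c h ∧ m ≤ β h - c h + κ h := by
    intro h
    obtain ⟨μ, hμ, hrot, hact⟩ := (hβ h).1
    have hpr := hμ.prob
    have hv := inv_int hL hμ
    have hvi : Integrable (fun z : TTorus => z.2) μ :=
      (integrable_norm_iff (continuous_snd.aestronglyMeasurable)).1 hv
    have h1 : ∫ z, (L z - c z.2) ∂μ = β h - c h := by
      rw [integral_sub hμ.integrable (c.integrable_comp hvi), hact,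
        ContinuousLinearMap.integral_comp_comm c hvi]
      have : ∫ z, z.2 ∂μ = h := hrot
      rw [this]
    refine ⟨by rw [← h1]; exact hmin μ hμ, ?_⟩
    obtain ⟨ν, hν, hνi, hνe, hνr, -⟩ := lift_inv hL hΦ c m hμ 0
    have h2 := hκν ν hν hνi
    rw [hνr, hrot, hνe, h1] at h2
    linarith
  have hβ0 : β 0 = m := by
    have := (hlow 0).1
    simp only [map_zero, sub_zero] at this
    exact le_antisymm hβ0le this
  have hD1 : fderiv ℝ (fun h => β h - c h) 0 = 0 := by
    apply IsLocalMin.fderiv_eq_zero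
    refine Filter.Eventually.of_forall fun h => ?_
    simp only [map_zero, sub_zero, hβ0]
    exact (hlow h).1
  have hD2 : fderiv ℝ (fun h => β h - c h + κ h) 0 = 0 := by
    apply IsLocalMin.fderiv_eq_zero
    refine Filter.Eventually.of_forall fun h => ?_
    simp only [map_zero, sub_zero, add_zero, hβ0]
    exact (hlow h).2
  have hdc : DifferentiableAt ℝ (fun h => β h - c h) 0 := hd.sub c.differentiableAt
  rw [fderiv_fun_add hdc κ.differentiableAt, hD1, zero_add, ContinuousLinearMap.fderiv] at hD2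
  exact hκ hD2

end Pool.H110M
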